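import Pool.Agent.V11229.LMat

/-!
# Cliques and bicriteria cuts: the counting argument
-/

namespace Pool.Agent.V11229

open Finset

/-- number of pairs leaving a set -/
noncomputable def outCount {V : Type} (R : V → V → Prop) (X : Set V) : ℕ :=
  {p : V × V | p.1 ∈ X ∧ p.2 ∉ X ∧ R p.1 p.2}.ncard

open Classical in
theorem outCount_eq_sum {V : Type} [Fintype V] (R : V → V → Prop) (X : Set V) :
    outCount R X = ∑ x, ∑ y, if x ∈ X ∧ y ∉ X ∧ R x y then 1 else 0 := by
  unfold outCount
  rw [Set.ncard_eq_toFinset_card']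
  have h2 : ({p : V × V | p.1 ∈ X ∧ p.2 ∉ X ∧ R p.1 p.2}.toFinset) =
      Finset.univ.filter (fun p : V × V => p.1 ∈ X ∧ p.2 ∉ X ∧ R p.1 p.2) := by
    ext x; simp
  rw [h2, Finset.card_filter, Fintype.sum_prod_type]

theorem outCount_equiv {V W : Type} (e : V ≃ W) (R : V → V → Prop) (R' : W → W → Prop)
    (h : ∀ x y, R x y ↔ R' (e x) (e y)) (X : Set V) :
    outCount R X = outCount R' (e '' X) := by
  unfold outCount
  rw [← Set.ncard_image_of_injective _ (e.injective.prodMap e.injective)]
  congr 1
  ext ⟨a, b⟩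
  simp only [Set.mem_image, Set.mem_ofPred_eq, Prod.exists, Prod.map_apply, Prod.mk.injEq]
  constructor
  · rintro ⟨x, y, ⟨h1, h2, h3⟩, rfl, rfl⟩
    refine ⟨⟨x, h1, rfl⟩, ?_, (h _ _).1 h3⟩
    rintro ⟨z, hz, hz'⟩
    exact h2 (e.injective hz' ▸ hz)
  · rintro ⟨⟨x, h1, rfl⟩, h2, h3⟩
    refine ⟨x, e.symm b, ⟨h1, fun hb => h2 ⟨_, hb, by simp⟩, ?_⟩, rfl, by simp⟩
    rw [h]
    simpa using h3

/-- the number of pairs with label `c` leaving the set given by a list of truth values -/
def cutL (M : LMat (Option Bool)) (c : Bool) (l : List Bool) : ℕ :=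
  cnt2 M.n (fun i j => l.getD i false && (!(l.getD j false) && decide (M.ent none i j = some c)))

theorem cutL_eq (M : LMat (Option Bool)) (c : Bool) (l : List Bool) :
    cutL M c l = outCount (fun u v => M.f u v = some c) {v : Fin M.n | l.getD v false = true} := by
  unfold outCount cutL
  rw [cnt2_eq _ (fun i j : Fin M.n => l.getD i false = true ∧ ¬ l.getD j false = true ∧
    M.f i j = some c) (fun i j => by simp [LMat.ent_fin])]
  rfl

theorem cutL_poly {α : Type} [NPC.TEnc α] {M : α → LMat (Option Bool)} {c : α → Bool}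
    {l : α → List Bool} (hM : NPC.Poly M) (hc : NPC.Poly c) (hl : NPC.Poly l) :
    NPC.Poly (fun a => cutL (M a) (c a) (l a)) := by
  unfold cutL
  exact Poly.cnt2 (n := fun a => (M a).n)
      (p := fun a i j => (l a).getD i false && (!((l a).getD j false) &&
        decide ((M a).ent none i j = some (c a)))) (UPoly.lmat_n hM) (by fun_prop)

attribute [fun_prop] cutL_poly

/-- the list of truth values of a set -/
noncomputable def indL {n : ℕ} (X : Set (Fin n)) : List Bool :=
  open Classical in List.ofFn (fun v : Fin n => decide (v ∈ X))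

theorem indL_getD {n : ℕ} (X : Set (Fin n)) (v : Fin n) : (indL X).getD v false = true ↔ v ∈ X := by
  simp [indL, List.getD_eq_getElem?_getD]

theorem indL_set {n : ℕ} (X : Set (Fin n)) :
    {v : Fin n | (indL X).getD v false = true} = X := by
  ext v
  exact indL_getD X v

theorem sz_indL {n : ℕ} (X : Set (Fin n)) : NPC.sz (indL X) ≤ 4 * n + 1 := by
  have h := NPC.sz_listBool_le (indL X)
  have : (indL X).length = n := by simp [indL]
  rwa [this] at h

/-- the cost of a set of vertices -/
def cost {n : ℕ} (ad : Fin n → Fin n → Bool) (A : Finset (Fin n)) : ℕ :=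
  ∑ v ∈ A, ((∑ w, if w ∉ A ∧ ad v w = true then 1 else 0) +
    ((∑ w, if ad v w = false then 1 else 0) + n))

/-- number of neighbours in the set -/
def din {n : ℕ} (ad : Fin n → Fin n → Bool) (A : Finset (Fin n)) (v : Fin n) : ℕ :=
  (A.filter (fun w => ad v w = true)).card

theorem cost_add {n : ℕ} (ad : Fin n → Fin n → Bool) (A : Finset (Fin n)) :
    cost ad A + ∑ v ∈ A, din ad A v = 2 * n * A.card := by
  unfold cost din
  rw [← Finset.sum_add_distrib]
  have h : ∀ v ∈ A, ((∑ w, if w ∉ A ∧ ad v w = true then 1 else 0) +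
    ((∑ w, if ad v w = false then 1 else 0) + n)) + (A.filter (fun w => ad v w = true)).card
      = 2 * n := by
    intro v _
    have h1 : (A.filter (fun w => ad v w = true)).card =
        ∑ w, if w ∈ A ∧ ad v w = true then 1 else 0 := by
      rw [← Finset.card_filter]
      congr 1
      ext w; simp
    have h2 : n = ∑ _w : Fin n, 1 := by simp
    rw [h1]
    have h3 : (∑ w, if w ∉ A ∧ ad v w = true then 1 else 0) +
        (∑ w, if ad v w = false then 1 else 0) +
        (∑ w, if w ∈ A ∧ ad v w = true then 1 else 0) = n := by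
      conv_rhs => rw [h2]
      rw [← Finset.sum_add_distrib, ← Finset.sum_add_distrib]
      refine Finset.sum_congr rfl fun w _ => ?_
      by_cases h4 : w ∈ A <;> by_cases h5 : ad v w = true <;> simp [h4, h5]
    omega
  rw [Finset.sum_congr rfl h, Finset.sum_const, smul_eq_mul, mul_comm]

theorem din_le {n : ℕ} {ad : Fin n → Fin n → Bool} (hi : ∀ v, ad v v = false)
    {A : Finset (Fin n)} {v : Fin n} (hv : v ∈ A) : din ad A v + 1 ≤ A.card := by
  unfold din
  have h : A.filter (fun w => ad v w = true) ⊆ A.erase v := by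
    intro w hw
    rw [Finset.mem_filter] at hw
    rw [Finset.mem_erase]
    refine ⟨?_, hw.1⟩
    rintro rfl
    rw [hi] at hw
    exact absurd hw.2 (by simp)
  have h2 := Finset.card_le_card h
  rw [Finset.card_erase_of_mem hv] at h2
  have h3 : 0 < A.card := Finset.card_pos.2 ⟨v, hv⟩
  omega

theorem din_lt {n : ℕ} {ad : Fin n → Fin n → Bool} (hi : ∀ v, ad v v = false)
    {A : Finset (Fin n)} {v w : Fin n} (hv : v ∈ A) (hw : w ∈ A) (hvw : v ≠ w)
    (had : ad v w = false) : din ad A v + 2 ≤ A.card := by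
  unfold din
  have h : A.filter (fun w => ad v w = true) ⊆ (A.erase v).erase w := by
    intro x hx
    rw [Finset.mem_filter] at hx
    rw [Finset.mem_erase, Finset.mem_erase]
    refine ⟨?_, ?_, hx.1⟩
    · rintro rfl
      rw [had] at hx
      exact absurd hx.2 (by simp)
    · rintro rfl
      rw [hi] at hx
      exact absurd hx.2 (by simp)
  have h2 := Finset.card_le_card h
  rw [Finset.card_erase_of_mem (Finset.mem_erase.2 ⟨hvw.symm, hw⟩),
    Finset.card_erase_of_mem hv] at h2
  have h3 : 1 < A.card := Finset.one_lt_card.2 ⟨v, hv, w, hw, hvw⟩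
  omega

theorem cost_clique {n : ℕ} {ad : Fin n → Fin n → Bool} (hi : ∀ v, ad v v = false)
    {A : Finset (Fin n)} (hA : ∀ u ∈ A, ∀ v ∈ A, u ≠ v → ad u v = true) :
    cost ad A = 2 * n * A.card + A.card - A.card * A.card := by
  have h1 := cost_add ad A
  have h2 : ∀ v ∈ A, din ad A v = A.card - 1 := by
    intro v hv
    unfold din
    have h : A.filter (fun w => ad v w = true) = A.erase v := by
      ext w
      rw [Finset.mem_filter, Finset.mem_erase]
      constructor
      · rintro ⟨h3, h4⟩
        refine ⟨?_, h3⟩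
        rintro rfl
        rw [hi] at h4
        exact absurd h4 (by simp)
      · rintro ⟨h3, h4⟩
        exact ⟨h4, hA v hv w h4 h3.symm⟩
    rw [h, Finset.card_erase_of_mem hv]
  rw [Finset.sum_congr rfl h2, Finset.sum_const, smul_eq_mul] at h1
  have h3 : A.card * (A.card - 1) + A.card = A.card * A.card := by
    rcases Nat.eq_zero_or_pos A.card with h | h
    · rw [h]
    · obtain ⟨m, hm⟩ : ∃ m, A.card = m + 1 := ⟨A.card - 1, by omega⟩
      rw [hm]
      simp
      ring
  omega

theorem clique_of_cost {n : ℕ} {ad : Fin n → Fin n → Bool} (hi : ∀ v, ad v v = false)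
    {A : Finset (Fin n)} {k : ℕ} (hk : k ≤ A.card)
    (hc : cost ad A ≤ 2 * n * k + k - k * k) :
    A.card = k ∧ ∀ u ∈ A, ∀ v ∈ A, u ≠ v → ad u v = true := by
  have h1 := cost_add ad A
  have hn : A.card ≤ n := by simpa using Finset.card_le_univ A
  have hk2 : k * k ≤ n * k := Nat.mul_le_mul_right _ (hk.trans hn)
  have hc' : cost ad A + k * k ≤ 2 * n * k + k := by
    have : k * k ≤ 2 * n * k + k := by nlinarith
    omega
  have hs : ∑ v ∈ A, din ad A v + A.card ≤ A.card * A.card := by
    have : ∑ v ∈ A, (din ad A v + 1) ≤ ∑ _v ∈ A, A.card :=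
      Finset.sum_le_sum fun v hv => din_le hi hv
    rw [Finset.sum_add_distrib, Finset.sum_const, Finset.sum_const, smul_eq_mul, smul_eq_mul,
      mul_one] at this
    exact this
  obtain ⟨d, hd⟩ : ∃ d, A.card = k + d := ⟨A.card - k, by omega⟩
  have hdn : k + d ≤ n := hd ▸ hn
  have key : d = 0 := by
    by_contra hd0
    have : 1 ≤ d := by omega
    rw [hd] at h1 hs
    nlinarith
  subst key
  rw [add_zero] at hd
  refine ⟨hd, ?_⟩
  by_contra hcon
  push Not at hcon
  obtain ⟨u, hu, v, hv, huv, had⟩ := hcon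
  have had' : ad u v = false := by simpa using had
  have h2 := din_lt hi hu hv huv had'
  have hs2 : ∑ v ∈ A, din ad A v + A.card + 1 ≤ A.card * A.card := by
    have h3 : ∑ v ∈ A, (din ad A v + 1) < ∑ _v ∈ A, A.card :=
      Finset.sum_lt_sum (fun v hv => din_le hi hv) ⟨u, hu, by omega⟩
    rw [Finset.sum_add_distrib, Finset.sum_const, Finset.sum_const, smul_eq_mul, smul_eq_mul,
      mul_one] at h3
    omega
  rw [hd] at h1 hs2
  nlinarith

end Pool.Agent.V11229
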