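import Pool.Agent.H557R2.Tri.Src

/-!
# Exact cover by 3-sets as a covering problem
-/

namespace Pool.Agent.V11229

open Pool.Agent.NPC Pool.Agent.NPC.H632

theorem x3c_iff_cover {S : List (ℕ × ℕ × ℕ)} {q : ℕ} : X3C (S, q) ↔
    ∃ C : Finset (Fin S.length), C.card ≤ q ∧ ∀ e < 3 * q, ∃ i ∈ C, e ∈ el S[i] := by
  classical
  constructor
  · rintro ⟨C, hC, hp⟩
    have hl : C.length = q := X3C_length hp
    have hi : ∀ t : {t // t ∈ C}, ∃ i : Fin S.length, S[i] = t.1 := by
      intro t
      obtain ⟨i, hi, hi'⟩ := List.getElem_of_mem (hC t.1 t.2)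
      exact ⟨⟨i, hi⟩, hi'⟩
    choose g hg using hi
    refine ⟨(C.attach.map g).toFinset, ?_, ?_⟩
    · refine (List.toFinset_card_le _).trans ?_
      simp [hl]
    · intro e he
      have h1 : e ∈ C.flatMap el := hp.mem_iff.2 (List.mem_range.2 he)
      obtain ⟨t, ht, het⟩ := List.mem_flatMap.1 h1
      refine ⟨g ⟨t, ht⟩, ?_, ?_⟩
      · rw [List.mem_toFinset, List.mem_map]
        exact ⟨⟨t, ht⟩, List.mem_attach _ _, rfl⟩
      · have := hg ⟨t, ht⟩
        rw [this]
        exact het
  · rintro ⟨C, hC, hcov⟩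
    refine ⟨C.toList.map (fun i => S[i]), ?_, ?_⟩
    · intro t ht
      obtain ⟨i, _, rfl⟩ := List.mem_map.1 ht
      exact List.getElem_mem _
    · have h1 : (List.range (3 * q)).Subperm ((C.toList.map (fun i => S[i])).flatMap el) := by
        apply List.subperm_of_subset List.nodup_range
        intro e he
        obtain ⟨i, hi, hei⟩ := hcov e (List.mem_range.1 he)
        rw [List.mem_flatMap]
        exact ⟨S[i], List.mem_map.2 ⟨i, Finset.mem_toList.2 hi, rfl⟩, hei⟩
      have h2 : ((C.toList.map (fun i => S[i])).flatMap el).length = 3 * C.card := by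
        rw [List.length_flatMap]
        have : ∀ t ∈ C.toList.map (fun i => S[i]), (el t).length = 3 := fun t _ => rfl
        rw [List.map_congr_left this]
        simp [mul_comm]
      refine (h1.perm_of_length_le ?_).symm
      rw [h2, List.length_range]
      omega

/-- a nice promise -/
structure PrX (S : List (ℕ × ℕ × ℕ)) (q : ℕ) : Prop where
  nd : ∀ t ∈ S, (el t).Nodup
  lt : ∀ t ∈ S, ∀ e ∈ el t, e < 3 * q
  occ : ∀ e < 3 * q, ∃ t ∈ S, e ∈ el t
  q_pos : 0 < q
  q_le : q ≤ S.length

theorem PrX.of {S : List (ℕ × ℕ × ℕ)} {q : ℕ} (h : H557R2.Tri.Pr S q) : PrX S q := by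
  classical
  have hlt : ∀ t ∈ S, ∀ e ∈ el t, e < 3 * q := by
    intro t ht e he
    obtain ⟨h1, h2, h3⟩ := h.lt t ht
    simp only [el, List.mem_cons, List.not_mem_nil, or_false] at he
    rcases he with rfl | rfl | rfl
    · exact h1
    · exact h2
    · exact h3
  refine ⟨?_, hlt, h.occ, ?_, ?_⟩
  · intro t ht
    have h1 := h.d01 t ht t ht
    have h2 := h.d02 t ht t ht
    have h3 := h.d12 t ht t ht
    simp [el, h1, h2, h3]
  · obtain ⟨t, ht⟩ := List.exists_mem_of_ne_nil _ h.ne
    have := (h.lt t ht).1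
    omega
  · have h1 : (List.range (3 * q)).Subperm (S.flatMap el) := by
      apply List.subperm_of_subset List.nodup_range
      intro e he
      obtain ⟨t, ht, het⟩ := h.occ e (List.mem_range.1 he)
      exact List.mem_flatMap.2 ⟨t, ht, het⟩
    have h2 := h1.length_le
    have h3 : (S.flatMap el).length = 3 * S.length := by
      rw [List.length_flatMap]
      have : ∀ t ∈ S, (el t).length = 3 := fun t _ => rfl
      rw [List.map_congr_left this]
      simp [mul_comm]
    rw [h3, List.length_range] at h2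
    omega

theorem hardPr_cover : HardPr (fun I : List (ℕ × ℕ × ℕ) × ℕ => PrX I.1 I.2) X3C :=
  H557R2.Tri.hardPr_X3Cr.trans (f := fun I => I) NPC.Poly.id (fun _ h => PrX.of h)
    (fun _ _ => Iff.rfl)

end Pool.Agent.V11229
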