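import Pool.Agent.V11229.LMat

/-!
# Search over tuples of fixed length in polynomial time
-/

namespace Pool.Agent.V11229

open Pool.Agent.NPC

/-- Some list of `k` numbers below `n`, put before `acc`, has the property `p`. -/
def anyT : ℕ → ℕ → List ℕ → (List ℕ → Bool) → Bool
  | 0, _, acc, p => p acc
  | k + 1, n, acc, p => (List.range n).any (fun x => anyT k n (x :: acc) p)

theorem anyT_iff (k n : ℕ) (acc : List ℕ) (p : List ℕ → Bool) : anyT k n acc p = true ↔
    ∃ l : List ℕ, l.length = k ∧ (∀ x ∈ l, x < n) ∧ p (l ++ acc) = true := by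
  induction k generalizing acc with
  | zero =>
    constructor
    · intro h
      exact ⟨[], rfl, by simp, h⟩
    · rintro ⟨l, hl, _, h⟩
      rw [List.length_eq_zero_iff.1 hl] at h
      exact h
  | succ k ih =>
    simp only [anyT, List.any_eq_true, List.mem_range, ih]
    constructor
    · rintro ⟨x, hx, l, hl, hl2, h⟩
      refine ⟨l ++ [x], by simp [hl], ?_, by simpa using h⟩
      intro y hy
      rw [List.mem_append, List.mem_singleton] at hy
      rcases hy with hy | rfl
      · exact hl2 y hy
      · exact hx
    · rintro ⟨l, hl, hl2, h⟩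
      have hne : l ≠ [] := by
        rintro rfl
        simp at hl
      refine ⟨l.getLast hne, hl2 _ (List.getLast_mem hne), l.dropLast, by simp [hl],
        fun x hx => hl2 x (List.dropLast_subset _ hx), ?_⟩
      have : l.dropLast ++ (l.getLast hne :: acc) = l ++ acc := by
        conv_rhs => rw [← List.dropLast_append_getLast hne]
        simp
      rw [this]
      exact h

theorem Poly.anyT {α : Type} [TEnc α] (k : ℕ) {n : α → ℕ} {acc : α → List ℕ}
    {p : α → List ℕ → Bool} (hn : UPoly n) (hacc : Poly acc)
    (hp : Poly (fun x : α × List ℕ => p x.1 x.2)) :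
    Poly (fun a => anyT k (n a) (acc a) (p a)) := by
  induction k generalizing α with
  | zero => exact hp.comp (f := fun a => (a, acc a)) (by fun_prop)
  | succ k ih =>
    simp only [V11229.anyT]
    refine Poly.anyRange (p := fun a x => V11229.anyT k (n a) (x :: acc a) (p a)) hn ?_
    refine ih (α := α × ℕ) (n := fun x => n x.1) (acc := fun x => x.2 :: acc x.1)
      (p := fun x l => p x.1 l) (hn.comp (by fun_prop)) (by fun_prop) ?_
    exact hp.comp (f := fun y : (α × ℕ) × List ℕ => (y.1.1, y.2)) (by fun_prop)

end Pool.Agent.V11229
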