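import Pool.Agent.NPC.Dec
import Pool.Agent.H671R2.PolyAuto
import Pool.Agent.H634R2.Clique

/-!
# Square matrices of labels as inputs of decision problems
-/

namespace Pool.Agent.V11229

open Pool.Agent.NPC

/-- A finite set `{0, …, n-1}` with a label for every ordered pair. -/
structure LMat (C : Type) where
  /-- the number of points -/
  n : ℕ
  /-- the labels -/
  f : Fin n → Fin n → C

namespace LMat

variable {C : Type}

/-- The rows of the matrix. -/
def rows (M : LMat C) : List (List C) := List.ofFn fun i => List.ofFn fun j => M.f i j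

@[simp] theorem length_rows (M : LMat C) : M.rows.length = M.n := by simp [rows]

theorem rows_injective : Function.Injective (rows : LMat C → List (List C)) := by
  rintro ⟨n, f⟩ ⟨n', f'⟩ h
  have hn : n = n' := by simpa [rows] using congrArg List.length h
  subst hn
  have h2 := List.ofFn_injective h
  congr 1
  funext i j
  exact congrFun (List.ofFn_injective (congrFun h2 i)) j

/-- A matrix is encoded by the list of its rows. -/
instance [TEnc C] : TEnc (LMat C) := ⟨fun M => toT M.rows, fun _ _ h => rows_injective (TEnc.inj h)⟩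

/-- The matrix with given rows, if the rows have the right lengths. -/
def ofRows (r : List (List C)) : Option (LMat C) :=
  if h : ∀ x ∈ r, x.length = r.length then
    some ⟨r.length, fun i j => (r[i.1])[j.1]'(by
      have := h _ (List.getElem_mem i.isLt)
      rw [this]; exact j.isLt)⟩
  else none

theorem ofRows_rows (M : LMat C) : ofRows M.rows = some M := by
  have h : ∀ x ∈ M.rows, x.length = M.rows.length := by
    intro x hx
    unfold rows at hx
    rw [List.mem_ofFn] at hx
    obtain ⟨i, rfl⟩ := hx
    simp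
  unfold ofRows
  rw [dif_pos h]
  congr 1
  apply rows_injective
  unfold rows
  apply List.ext_getElem
  · simp
  · intro i hi hi'
    simp only [List.getElem_ofFn]
    apply List.ext_getElem
    · simp
    · intro j hj hj'
      simp

theorem rows_of_ofRows {r : List (List C)} {M : LMat C} (h : ofRows r = some M) : M.rows = r := by
  unfold ofRows at h
  split_ifs at h with h1
  cases h
  unfold rows
  apply List.ext_getElem
  · simp
  · intro i hi hi'
    rw [List.getElem_ofFn]
    apply List.ext_getElem
    · simp [h1 _ (List.getElem_mem hi')]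
    · intro j hj hj'
      simp

theorem ofRows_isSome {r : List (List C)} (h : ∀ x ∈ r, x.length = r.length) :
    ∃ M : LMat C, ofRows r = some M := ⟨_, dif_pos h⟩

theorem ofRows_eq_none {r : List (List C)} (h : ¬ ∀ x ∈ r, x.length = r.length) :
    ofRows r = none := dif_neg h

theorem poly_ofRows [TEnc C] : Poly (ofRows : List (List C) → Option (LMat C)) := by
  have h1 : Poly (fun r : List (List C) =>
      if r.all (fun x => decide (x.length = r.length)) = true then some r else none) := by
    fun_prop
  have h2 := h1.toT'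
  refine NPC.Poly.of_toT (h2.congr fun r => ?_)
  by_cases h : ∀ x ∈ r, x.length = r.length
  · obtain ⟨M, hM⟩ := ofRows_isSome h
    have hr := rows_of_ofRows hM
    rw [hM, if_pos (by simpa using h)]
    change T.node (toT r) T.nil = T.node (toT M.rows) T.nil
    rw [hr]
  · rw [ofRows_eq_none h, if_neg (by simpa using h)]
    rfl

instance [TEnc C] [TDec C] : TDec (LMat C) where
  dec t := (TDec.dec t : Option (List (List C))).bind ofRows
  dec_toT M := by
    change (TDec.dec (toT M.rows) : Option (List (List C))).bind ofRows = some M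
    rw [TDec.dec_toT, Option.bind_some, ofRows_rows]
  toT_dec t M h := by
    rw [Option.bind_eq_some_iff] at h
    obtain ⟨r, hr, h2⟩ := h
    change toT M.rows = t
    rw [rows_of_ofRows h2, TDec.toT_dec _ _ hr]
  poly_dec := NPC.Poly.optBind (f := fun _ r => ofRows r) TDec.poly_dec
    (poly_ofRows.comp (NPC.Poly.snd NPC.Poly.id))

/-- The entries, extended to all natural numbers. -/
def ent (M : LMat C) (d : C) (i j : ℕ) : C := (M.rows.getD i []).getD j d

theorem ent_fin (M : LMat C) (d : C) (i j : Fin M.n) : M.ent d i j = M.f i j := by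
  simp [ent, rows, List.getD_eq_getElem?_getD]

theorem ent_lt (M : LMat C) (d : C) {i j : ℕ} (hi : i < M.n) (hj : j < M.n) :
    M.ent d i j = M.f ⟨i, hi⟩ ⟨j, hj⟩ := M.ent_fin d ⟨i, hi⟩ ⟨j, hj⟩

/-- The matrix of a list of points with labels of pairs. -/
abbrev ofList {Λ : Type} (vs : List Λ) (ad : Λ → Λ → C) : LMat C :=
  ⟨vs.length, fun i j => ad vs[i] vs[j]⟩

theorem rows_ofList {Λ : Type} (vs : List Λ) (ad : Λ → Λ → C) :
    (ofList vs ad).rows = vs.map (fun u => vs.map (fun w => ad u w)) := by
  unfold rows ofList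
  apply List.ext_getElem
  · simp
  · intro i h1 h2
    simp only [List.getElem_ofFn, List.getElem_map]
    apply List.ext_getElem
    · simp
    · intro j h3 h4
      simp

/-- The matrix of a function on numbers. -/
abbrev ofNat (n : ℕ) (g : ℕ → ℕ → C) : LMat C := ⟨n, fun i j => g i j⟩

theorem rows_ofNat (n : ℕ) (g : ℕ → ℕ → C) :
    (ofNat n g).rows = (List.range n).map (fun u => (List.range n).map (fun w => g u w)) := by
  unfold rows ofNat
  apply List.ext_getElem
  · simp
  · intro i h1 h2
    simp only [List.getElem_ofFn, List.getElem_map]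
    apply List.ext_getElem
    · simp
    · intro j h3 h4
      simp

end LMat

section Poly

variable {α C Λ : Type} [TEnc α] [TEnc C] [TEnc Λ]

theorem Poly.rows {M : α → LMat C} (h : Poly M) : Poly (fun a => (M a).rows) := h

theorem Poly.of_rows {M : α → LMat C} (h : Poly (fun a => (M a).rows)) : Poly M := h

theorem UPoly.lmat_n {M : α → LMat C} (h : Poly M) : UPoly (fun a => (M a).n) := by
  have := UPoly.length (Poly.rows h)
  simpa using this

theorem Poly.lmat_n {M : α → LMat C} (h : Poly M) : Poly (fun a => (M a).n) :=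
  (UPoly.lmat_n h).toPoly

theorem Poly.ent {M : α → LMat C} {d : α → C} {i j : α → ℕ} (h : Poly M) (hd : Poly d)
    (hi : Poly i) (hj : Poly j) : Poly (fun a => (M a).ent (d a) (i a) (j a)) := by
  have h' := Poly.rows h
  unfold LMat.ent
  fun_prop

theorem Poly.ofList {vs : α → List Λ} {ad : α → Λ → Λ → C} (hvs : Poly vs)
    (had : Poly (fun p : (α × Λ) × Λ => ad p.1.1 p.1.2 p.2)) :
    Poly (fun a => LMat.ofList (vs a) (ad a)) := by
  apply Poly.of_rows
  simp only [LMat.rows_ofList]
  refine NPC.Poly.map (F := fun a u => (vs a).map (fun w => ad a u w)) hvs ?_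
  exact NPC.Poly.map (l := fun p : α × Λ => vs p.1) (F := fun p w => ad p.1 p.2 w)
    (hvs.comp (NPC.Poly.fst NPC.Poly.id)) had

theorem Poly.ofNat {n : α → ℕ} {g : α → ℕ → ℕ → C} (hn : UPoly n)
    (hg : Poly (fun p : (α × ℕ) × ℕ => g p.1.1 p.1.2 p.2)) :
    Poly (fun a => LMat.ofNat (n a) (g a)) := by
  apply Poly.of_rows
  simp only [LMat.rows_ofNat]
  refine NPC.Poly.map (F := fun a u => (List.range (n a)).map (fun w => g a u w))
    (UPoly.range hn) ?_
  exact NPC.Poly.map (l := fun p : α × ℕ => List.range (n p.1)) (F := fun p w => g p.1 p.2 w)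
    (UPoly.range (hn.comp (NPC.Poly.fst NPC.Poly.id))) hg

/-- Quantification over the numbers below a bound. -/
theorem Poly.allRange {n : α → ℕ} {p : α → ℕ → Bool} (hn : UPoly n)
    (hp : Poly (fun x : α × ℕ => p x.1 x.2)) : Poly (fun a => (List.range (n a)).all (p a)) :=
  NPC.Poly.all (UPoly.range hn) hp

theorem Poly.anyRange {n : α → ℕ} {p : α → ℕ → Bool} (hn : UPoly n)
    (hp : Poly (fun x : α × ℕ => p x.1 x.2)) : Poly (fun a => (List.range (n a)).any (p a)) :=
  NPC.Poly.any (UPoly.range hn) hp

/-- Counting the numbers below a bound with a property. -/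
theorem Poly.cntRange {n : α → ℕ} {p : α → ℕ → Bool} (hn : UPoly n)
    (hp : Poly (fun x : α × ℕ => p x.1 x.2)) :
    Poly (fun a => ((List.range (n a)).filter (p a)).length) :=
  NPC.Poly.length (NPC.Poly.filter (UPoly.range hn) hp)

end Poly

attribute [fun_prop] Poly.rows Poly.lmat_n Poly.ent

/-- the number of pairs of numbers below `n` with a property -/
def cnt2 (n : ℕ) (p : ℕ → ℕ → Bool) : ℕ :=
  ((List.range n).flatMap (fun i => (List.range n).filter (p i))).length

theorem Poly.cnt2 {α : Type} [TEnc α] {n : α → ℕ} {p : α → ℕ → ℕ → Bool} (hn : UPoly n)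
    (hp : Poly (fun x : (α × ℕ) × ℕ => p x.1.1 x.1.2 x.2)) :
    Poly (fun a => cnt2 (n a) (p a)) := by
  unfold V11229.cnt2
  refine NPC.Poly.length (NPC.Poly.flatMap (F := fun a i => (List.range (n a)).filter (p a i))
    (UPoly.range hn) ?_)
  exact NPC.Poly.filter (l := fun x : α × ℕ => List.range (n x.1)) (p := fun x j => p x.1 x.2 j)
    (UPoly.range (hn.comp (NPC.Poly.fst NPC.Poly.id))) hp

theorem length_filter_range {n : ℕ} (f : ℕ → Bool) (P : Fin n → Prop) [DecidablePred P]
    (h : ∀ i : Fin n, f i = true ↔ P i) :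
    ((List.range n).filter f).length = (Finset.univ.filter P).card := by
  classical
  have h1 : ((List.range n).filter f).length =
      ((Finset.range n).filter (fun i => f i = true)).card := by
    rw [← List.toFinset_card_of_nodup (List.Nodup.filter _ List.nodup_range)]
    congr 1
    ext i
    simp
  rw [h1]
  symm
  apply Finset.card_bij (fun (i : Fin n) _ => (i : ℕ))
  · intro i hi
    rw [Finset.mem_filter] at hi ⊢
    exact ⟨Finset.mem_range.2 i.isLt, (h i).2 hi.2⟩
  · intro i _ j _ hij
    exact Fin.ext hij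
  · intro i hi
    rw [Finset.mem_filter, Finset.mem_range] at hi
    exact ⟨⟨i, hi.1⟩, by
      rw [Finset.mem_filter]
      exact ⟨Finset.mem_univ _, (h ⟨i, hi.1⟩).1 hi.2⟩, rfl⟩

theorem length_flatMap_range (n : ℕ) (g : ℕ → List ℕ) :
    ((List.range n).flatMap g).length = ∑ i : Fin n, (g i).length := by
  rw [List.length_flatMap, Finset.sum_fin_eq_sum_range]
  rw [← List.sum_toFinset _ List.nodup_range]
  refine Finset.sum_congr ?_ ?_
  · ext i; simp
  · intro i hi
    rw [dif_pos (by simpa using hi)]

theorem cnt2_eq {n : ℕ} (p : ℕ → ℕ → Bool) (P : Fin n → Fin n → Prop)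
    (h : ∀ i j : Fin n, p i j = true ↔ P i j) :
    cnt2 n p = {x : Fin n × Fin n | P x.1 x.2}.ncard := by
  classical
  unfold cnt2
  rw [length_flatMap_range, Set.ncard_eq_toFinset_card']
  have h1 : ∀ i : Fin n, ((List.range n).filter (p i)).length =
      (Finset.univ.filter (fun j => P i j)).card := fun i =>
    length_filter_range (p i) (fun j => P i j) (fun j => h i j)
  simp only [h1]
  have h2 : ({x : Fin n × Fin n | P x.1 x.2}.toFinset) =
      Finset.univ.filter (fun x : Fin n × Fin n => P x.1 x.2) := by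
    ext x; simp
  rw [h2, Finset.card_filter, Fintype.sum_prod_type]
  refine Finset.sum_congr rfl fun i _ => ?_
  rw [Finset.card_filter]

/-! ### Membership in `NP` for structured inputs -/

/-- Membership in `NP` of a problem whose inputs are certain elements of a decodable type. -/
theorem inNPP_sub {α β γ : Type} [TEnc α] [TEnc β] [TDec β] [TEnc γ] [TDec γ] (e : α → β)
    (he : ∀ a, toT a = toT (e a)) {P : α → Prop} {R : β × γ → Bool} (hR : Poly R)
    (p : Polynomial ℕ) (ok : β → Bool) (hok : Poly ok)
    (hr : ∀ y, ok y = true → ∃ a, e a = y) (hr' : ∀ a, ok (e a) = true)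
    (h : ∀ a, P a ↔ ∃ w : γ, sz w ≤ p.eval (sz (e a)) ∧ R (e a, w) = true) : InNPP P := by
  have h1 : InNPP (fun y : β => ∃ a, e a = y ∧ P a) := by
    refine inNPP_of (R := fun x : β × γ => ok x.1 && R x)
      (NPC.Poly.and (hok.comp (NPC.Poly.fst NPC.Poly.id)) hR) p ?_
    intro y
    constructor
    · rintro ⟨a, rfl, ha⟩
      obtain ⟨w, hw, hw'⟩ := (h a).1 ha
      exact ⟨w, hw, by simp [hr', hw']⟩
    · rintro ⟨w, hw, hw'⟩
      simp only [Bool.and_eq_true] at hw'
      obtain ⟨a, rfl⟩ := hr y hw'.1
      exact ⟨a, rfl, (h a).2 ⟨w, hw, hw'.2⟩⟩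
  have h2 : lang P = lang (fun y : β => ∃ a, e a = y ∧ P a) := by
    ext x
    constructor
    · rintro ⟨a, ha, hPa⟩
      exact ⟨e a, by rw [← ha]; unfold bits; rw [he], a, rfl, hPa⟩
    · rintro ⟨y, hy, a, rfl, hPa⟩
      exact ⟨a, by rw [← hy]; unfold bits; rw [he], hPa⟩
  unfold InNPP
  rw [h2]
  exact h1

/-! ### The clique problem -/

/-- There is a clique with `k` elements. -/
def HasK {V : Type} (ad : V → V → Bool) (k : ℕ) : Prop :=
  ∃ K : Finset V, K.card = k ∧ ∀ u ∈ K, ∀ v ∈ K, u ≠ v → ad u v = true

/-- The clique problem for symmetric matrices. -/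
def CliqueM (I : LMat Bool × ℕ) : Prop := HasK I.1.f I.2

/-- `M` is the adjacency matrix of a graph. -/
def IsAdj (M : LMat Bool) : Prop := (∀ u v, M.f u v = M.f v u) ∧ ∀ u, M.f u u = false

theorem hardPr_cliqueM : HardPr (fun I : LMat Bool × ℕ => IsAdj I.1) CliqueM := by
  refine H634R2.hardPr_CLIQUE.trans (f := fun I : (List ℕ × List (ℕ × ℕ)) × ℕ =>
    (LMat.ofList I.1.1 (fun u v => decide ((u, v) ∈ I.1.2) || decide ((v, u) ∈ I.1.2)), I.2))
    ?_ ?_ ?_
  · exact NPC.Poly.pair (Poly.ofList
      (ad := fun (I : (List ℕ × List (ℕ × ℕ)) × ℕ) u v =>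
        decide ((u, v) ∈ I.1.2) || decide ((v, u) ∈ I.1.2)) (by fun_prop) (by fun_prop))
      (by fun_prop)
  · rintro ⟨⟨V, E⟩, k⟩ ⟨⟨hV, hE, hE2⟩, hk⟩
    simp only at hV hE hE2
    refine ⟨fun u v => ?_, fun u => ?_⟩
    · simp only
      rw [Bool.or_comm]
    · simp only [Bool.or_self, decide_eq_false_iff_not]
      intro h
      exact (hE _ h).2.2 rfl
  · rintro ⟨⟨V, E⟩, k⟩ ⟨hG, hk⟩
    have hV : V.Nodup := hG.1
    have e1 : H634R2.CLIQUE ((V, E), k) ↔ H634R2.HasClique V E k := ⟨fun h => h.2, fun h => ⟨hG, h⟩⟩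
    have e2 : CliqueM (LMat.ofList V (fun u v => decide ((u, v) ∈ E) || decide ((v, u) ∈ E)), k) ↔
        HasK (fun i j : Fin V.length =>
          decide ((V[i], V[j]) ∈ E) || decide ((V[j], V[i]) ∈ E)) k := Iff.rfl
    rw [e1]
    refine Iff.trans ?_ e2.symm
    unfold H634R2.HasClique HasK
    constructor
    · rintro ⟨K, hKV, hK, hKE⟩
      have hm : ∀ v : K, ∃ i : Fin V.length, V[i] = v.1 := by
        intro v
        obtain ⟨i, hi, hi'⟩ := List.getElem_of_mem (hKV v.1 v.2)
        exact ⟨⟨i, hi⟩, hi'⟩
      choose g hg using hm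
      have hinj : Function.Injective g := by
        intro u v huv
        apply Subtype.ext
        rw [← hg u, ← hg v, huv]
      refine ⟨Finset.univ.image g, ?_, ?_⟩
      · rw [Finset.card_image_of_injective _ hinj, Finset.card_univ, Fintype.card_coe, hK]
      · intro u hu v hv huv
        simp only [Finset.mem_image, Finset.mem_univ, true_and] at hu hv
        obtain ⟨a, rfl⟩ := hu
        obtain ⟨b, rfl⟩ := hv
        have hab : a.1 ≠ b.1 := fun h => huv (by rw [Subtype.ext h])
        have := hKE a.1 a.2 b.1 b.2 hab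
        simp only [Bool.or_eq_true, decide_eq_true_eq]
        rw [hg a, hg b]
        exact this
    · rintro ⟨K, hK, hKE⟩
      refine ⟨K.image (fun i : Fin V.length => V[i]), ?_, ?_, ?_⟩
      · intro v hv
        simp only [Finset.mem_image] at hv
        obtain ⟨i, _, rfl⟩ := hv
        exact List.getElem_mem _
      · rw [Finset.card_image_of_injective, hK]
        intro i j hij
        exact Fin.ext ((List.Nodup.getElem_inj_iff hV).1 hij)
      · intro u hu v hv huv
        simp only [Finset.mem_image] at hu hv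
        obtain ⟨i, hi, rfl⟩ := hu
        obtain ⟨j, hj, rfl⟩ := hv
        have hij : i ≠ j := fun h => huv (by rw [h])
        have := hKE i hi j hj hij
        simpa using this

end Pool.Agent.V11229
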