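import Pool.Agent.V11229.FG
import Pool.Agent.H692R2.Col
import Pool.Agent.H622R2.CoNP
import Pool.Agent.H671R2.Search

/-!
# Colourability of graphs given by matrices, and consequences of `coNP`-hardness
-/

namespace Pool.Agent.V11229

open Pool.Agent.NPC Pool.Agent.H692R2

/-- `r`-colourability of a matrix. -/
def ColM (r : ℕ) (M : LMat Bool) : Prop :=
  ∃ c : Fin M.n → Fin r, ∀ u v, M.f u v = true → c u ≠ c v

/-- the labels of the positions of an edge list -/
def posL (E : List (ℕ × ℕ)) : List ℕ := E.flatMap (fun e => [e.1, e.2])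

theorem mem_posL {E : List (ℕ × ℕ)} {x : ℕ} : x ∈ posL E ↔ ∃ e ∈ E, x = e.1 ∨ x = e.2 := by
  simp [posL]

/-- the graph of the positions: every vertex is repeated -/
def posM (E : List (ℕ × ℕ)) : LMat Bool :=
  LMat.ofList (posL E) (fun x y => decide ((x, y) ∈ E) || decide ((y, x) ∈ E))

theorem posM_poly : Poly posM := by
  unfold posM
  refine Poly.ofList (ad := fun (E : List (ℕ × ℕ)) (x y : ℕ) =>
    decide ((x, y) ∈ E) || decide ((y, x) ∈ E)) ?_ (by fun_prop)
  unfold posL
  fun_prop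

theorem posM_isAdj {E : List (ℕ × ℕ)} (h : Loopless E) : IsAdj (posM E) := by
  refine ⟨fun u v => ?_, fun u => ?_⟩
  · simp only [posM]
    rw [Bool.or_comm]
  · simp only [posM, Bool.or_self, decide_eq_false_iff_not]
    intro h1
    exact h _ h1 rfl

theorem posM_col {E : List (ℕ × ℕ)} {r : ℕ} (hr : 0 < r) : Col r E ↔ ColM r (posM E) := by
  constructor
  · rintro ⟨c, hc⟩
    refine ⟨fun i => c (posL E)[i], fun u v huv => ?_⟩
    simp only [posM, Bool.or_eq_true, decide_eq_true_eq] at huv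
    rcases huv with h | h
    · exact hc _ h
    · exact (hc _ h).symm
  · rintro ⟨c, hc⟩
    classical
    have hex : ∀ x : ℕ, ∃ k : Fin r, x ∈ posL E → ∃ i : Fin (posL E).length,
        (posL E)[i] = x ∧ c i = k := by
      intro x
      by_cases hx : x ∈ posL E
      · obtain ⟨i, hi, hi'⟩ := List.getElem_of_mem hx
        exact ⟨c ⟨i, hi⟩, fun _ => ⟨⟨i, hi⟩, hi', rfl⟩⟩
      · exact ⟨⟨0, hr⟩, fun h => absurd h hx⟩
    choose k hk using hex
    refine ⟨k, fun e he => ?_⟩
    obtain ⟨i, hi, hi2⟩ := hk e.1 (mem_posL.2 ⟨e, he, Or.inl rfl⟩)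
    obtain ⟨j, hj, hj2⟩ := hk e.2 (mem_posL.2 ⟨e, he, Or.inr rfl⟩)
    rw [← hi2, ← hj2]
    apply hc
    simp only [posM, Bool.or_eq_true, decide_eq_true_eq]
    left
    rw [hi, hj]
    exact he

/-- colourability of graphs given by adjacency matrices is hard -/
theorem hardPr_colM (r : ℕ) (hr : 3 ≤ r) : HardPr IsAdj (ColM r) :=
  (hardPr_col r hr).trans posM_poly (fun _ h => posM_isAdj h) (fun _ _ => posM_col (by omega))

/-- If a `coNP`-hard problem is in `NP` then `NP = coNP`. -/
theorem np_eq_conp {α : Type} [TEnc α] {P : α → Prop} (h : CoNPHardP P) (h' : InNPP P) :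
    ∀ L : Set (List Bool), InNP L ↔ InCoNP L := by
  have h1 : ∀ L : Set (List Bool), InCoNP L → InNP L := fun L hL =>
    H622R2.InNP.of_reduces (h L hL) h'
  intro L
  constructor
  · intro hL
    refine h1 Lᶜ ?_
    unfold InCoNP
    rw [compl_compl]
    exact hL
  · exact h1 L

/-- Problems of the second level of the polynomial hierarchy are in `NP` if `coNP ⊆ NP`. -/
theorem inNPP_of_sigma {α β γ δ : Type} [TEnc α] [TEnc δ] [TDec δ] [TEnc β] [TDec β] [TEnc γ]
    [TDec γ] (e : α → δ) (he : ∀ a, toT a = toT (e a)) {P : α → Prop}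
    {Q : δ × β → Bool} (hQ : Poly Q) {R : (δ × β) × γ → Bool} (hR : Poly R)
    (p q : Polynomial ℕ) (ok : δ → Bool) (hok : Poly ok)
    (hr : ∀ y, ok y = true → ∃ a, e a = y) (hr' : ∀ a, ok (e a) = true)
    (h : ∀ a, P a ↔ ∃ b : β, sz b ≤ p.eval (sz (e a)) ∧ Q (e a, b) = true ∧
      ∀ c : γ, sz c ≤ q.eval (sz (e a, b)) → R ((e a, b), c) = false)
    (hnp : ∀ L : Set (List Bool), InCoNP L → InNP L) : InNPP P := by
  let A : δ × β → Prop := fun y => ∀ c : γ, sz c ≤ q.eval (sz y) → R (y, c) = false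
  have hA : InCoNPP A := by
    refine inCoNPP_of hR q ?_
    intro y
    simp only [A, not_forall, Bool.not_eq_false]
    constructor
    · rintro ⟨c, h1, h2⟩
      exact ⟨c, h1, h2⟩
    · rintro ⟨c, h1, h2⟩
      exact ⟨c, h1, h2⟩
  obtain ⟨V, s, hV, hVA⟩ := hnp _ hA
  have hVA' : ∀ y : δ × β, A y ↔ ∃ w : List Bool, w.length ≤ s.eval (sz y) ∧
      V (pairBits (bits y) w) = [true] := by
    intro y
    have h1 := hVA (bits y)
    rw [bits_mem_lang, bits_length] at h1
    exact h1
  have pV := H622R2.poly_of_polyTime hV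
  -- the verifier
  let Rv : δ × (β × List Bool) → Bool := fun x => Q (x.1, x.2.1) &&
    (decide ((bits x.2.1).length ≤ p.eval (bits x.1).length) &&
    (decide (x.2.2.length ≤ s.eval (bits (x.1, x.2.1)).length) &&
      decide (V (pairBits (bits (x.1, x.2.1)) x.2.2) = [true])))
  have hbits : Poly (fun x : δ × (β × List Bool) => bits (x.1, x.2.1)) :=
    R671.poly_bits.comp (f := fun x : δ × (β × List Bool) => (x.1, x.2.1)) (by fun_prop)
  have hRv : Poly Rv := by
    refine NPC.Poly.and (hQ.comp (f := fun x : δ × (β × List Bool) => (x.1, x.2.1))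
      (by fun_prop)) (NPC.Poly.and ?_ (NPC.Poly.and ?_ ?_))
    · exact NPC.Poly.decide_le (NPC.Poly.length (R671.poly_bits.comp (by fun_prop)))
        (UPoly.toPoly (UPoly.eval (UPoly.length (R671.poly_bits.comp (by fun_prop))) p))
    · exact NPC.Poly.decide_le (NPC.Poly.length (by fun_prop))
        (UPoly.toPoly (UPoly.eval (UPoly.length hbits) s))
    · exact NPC.Poly.dec_eq (pV.comp (H622R2.poly_pairBits hbits (by fun_prop)))
        (NPC.Poly.const _)
  refine inNPP_sub e he hRv (p + Polynomial.C 4 * s.comp (Polynomial.X + p + 1) +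
    Polynomial.C 2) ok hok hr hr' ?_
  intro a
  rw [h a]
  constructor
  · rintro ⟨b, hb, hQb, hc⟩
    obtain ⟨w, hw, hw2⟩ := (hVA' (e a, b)).1 hc
    refine ⟨(b, w), ?_, ?_⟩
    · rw [sz_pair]
      have h1 := sz_listBool_le w
      have h2 : s.eval (sz (e a, b)) ≤ (s.comp (Polynomial.X + p + 1)).eval (sz (e a)) := by
        rw [Polynomial.eval_comp]
        apply eval_mono
        rw [sz_pair]
        simp only [Polynomial.eval_add, Polynomial.eval_X, Polynomial.eval_one]
        omega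
      simp only [Polynomial.eval_add, Polynomial.eval_mul, Polynomial.eval_C]
      omega
    · simp only [Rv, Bool.and_eq_true, decide_eq_true_eq, bits_length]
      exact ⟨hQb, hb, hw, hw2⟩
  · rintro ⟨⟨b, w⟩, _, hR2⟩
    simp only [Rv, Bool.and_eq_true, decide_eq_true_eq, bits_length] at hR2
    obtain ⟨hQb, hb, hw, hw2⟩ := hR2
    exact ⟨b, hb, hQb, (hVA' (e a, b)).2 ⟨w, hw, hw2⟩⟩

end Pool.Agent.V11229
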