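import Pool.Agent.V11229.FG

/-!
# Broadcasts in graphs with a universal vertex
-/

namespace Pool.Agent.V11229.Bcast

open Pool.Agent.NPC

/-- The eccentricity of a vertex. -/
noncomputable def ecc {V : Type} [Fintype V] (G : SimpleGraph V) (v : V) : ℕ :=
  Finset.univ.sup (fun u => G.dist v u)

/-- `f` is a broadcast: `f v` is at most the eccentricity of `v` (so at most the diameter). -/
def IsBroadcast {V : Type} [Fintype V] (G : SimpleGraph V) (f : V → ℕ) : Prop :=
  ∀ v, f v ≤ ecc G v

/-- The vertex `u` hears `f` from `v`. -/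
def Hears {V : Type} (G : SimpleGraph V) (f : V → ℕ) (u v : V) : Prop :=
  0 < f v ∧ G.dist u v ≤ f v

/-- Every vertex hears `f` from some vertex. -/
def Dominating {V : Type} (G : SimpleGraph V) (f : V → ℕ) : Prop := ∀ u, ∃ v, Hears G f u v

/-- The function `f` with the value at `v` decreased by one. -/
noncomputable def lower {V : Type} (f : V → ℕ) (v : V) : V → ℕ := open Classical in
  fun w => if w = v then f v - 1 else f w

/-- The private boundary of `v`. -/
def PB {V : Type} (G : SimpleGraph V) (f : V → ℕ) (v : V) : Set V :=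
  {u | G.dist u v ≤ f v ∧ ∀ w, ¬ Hears G (lower f v) u w}

/-- `f` is an irredundant broadcast. -/
def Irredundant {V : Type} [Fintype V] (G : SimpleGraph V) (f : V → ℕ) : Prop :=
  IsBroadcast G f ∧ ∀ v, 0 < f v → (PB G f v).Nonempty

/-- `f` is a minimal dominating broadcast. -/
def MinimalDominating {V : Type} [Fintype V] (G : SimpleGraph V) (f : V → ℕ) : Prop :=
  IsBroadcast G f ∧ Dominating G f ∧
    ∀ g, IsBroadcast G g → (∀ v, g v ≤ f v) → g ≠ f → ¬ Dominating G g

section
variable {V : Type} [Fintype V] {G : SimpleGraph V}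

omit [Fintype V] in
theorem lower_self (f : V → ℕ) (v : V) : lower f v v = f v - 1 := by simp [lower]

omit [Fintype V] in
theorem lower_ne (f : V → ℕ) {v w : V} (h : w ≠ v) : lower f v w = f w := by simp [lower, h]

omit [Fintype V] in
theorem lower_le (f : V → ℕ) (v w : V) : lower f v w ≤ f w := by
  by_cases h : w = v
  · rw [h, lower_self]
    omega
  · rw [lower_ne f h]

theorem irr_of_min {f : V → ℕ} (h : MinimalDominating G f) : Irredundant G f := by
  refine ⟨h.1, fun v hv => ?_⟩
  by_contra hcon
  rw [Set.not_nonempty_iff_eq_empty] at hcon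
  refine h.2.2 (lower f v) (fun w => (lower_le f v w).trans (h.1 w)) (lower_le f v) ?_ ?_
  · intro heq
    have := congrFun heq v
    rw [lower_self] at this
    omega
  · intro x
    by_contra hx
    push Not at hx
    obtain ⟨w, hw⟩ := h.2.1 x
    have hwv : w = v := by
      by_contra hne
      apply hx w
      unfold Hears
      rw [lower_ne f hne]
      exact hw
    have : x ∈ PB G f v := ⟨by rw [← hwv]; exact hw.2, hx⟩
    rw [hcon] at this
    exact this

theorem min_of_irr {f : V → ℕ} (h : Irredundant G f) (hd : Dominating G f) :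
    MinimalDominating G f := by
  refine ⟨h.1, hd, fun g _ hgf hne hg => ?_⟩
  obtain ⟨v, hv⟩ : ∃ v, g v ≠ f v := by
    by_contra hcon
    push Not at hcon
    exact hne (funext hcon)
  have hlt : g v < f v := lt_of_le_of_ne (hgf v) hv
  obtain ⟨x, _, hx⟩ := h.2 v (by omega)
  obtain ⟨w, hw1, hw2⟩ := hg x
  have hle : g w ≤ lower f v w := by
    by_cases hwv : w = v
    · rw [hwv, lower_self]
      omega
    · rw [lower_ne f hwv]
      exact hgf w
  exact hx w ⟨by omega, hw2.trans hle⟩

variable {u0 : V} (hu : ∀ v, v ≠ u0 → G.Adj u0 v)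
include hu

theorem uni_connected : G.Connected := by
  have : Nonempty V := ⟨u0⟩
  refine ⟨fun x y => ?_⟩
  have h : ∀ x, G.Reachable u0 x := by
    intro x
    by_cases hx : x = u0
    · rw [hx]
    · exact (hu x hx).reachable
  exact (h x).symm.trans (h y)

theorem uni_dist_le (x y : V) : G.dist x y ≤ 2 := by
  have hc := uni_connected hu
  have h : ∀ x, G.dist u0 x ≤ 1 := by
    intro x
    by_cases hx : x = u0
    · rw [hx, SimpleGraph.dist_self]
      omega
    · exact (SimpleGraph.dist_eq_one_iff_adj.2 (hu x hx)).le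
  have h1 := hc.dist_triangle (u := x) (v := u0) (w := y)
  have h2 := h x
  have h3 := h y
  rw [SimpleGraph.dist_comm] at h2
  omega

theorem uni_dist_one (x y : V) : G.dist x y ≤ 1 ↔ x = y ∨ G.Adj x y := by
  have hc := uni_connected hu
  constructor
  · intro h
    rcases Nat.eq_zero_or_pos (G.dist x y) with h0 | h0
    · exact Or.inl (hc.dist_eq_zero_iff.1 h0)
    · exact Or.inr (SimpleGraph.dist_eq_one_iff_adj.1 (by omega))
  · rintro (h | h)
    · rw [h, SimpleGraph.dist_self]
      omega
    · exact (SimpleGraph.dist_eq_one_iff_adj.2 h).le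

/-- Irredundant sets of vertices. -/
theorem set_of_irr {f : V → ℕ} (h : Irredundant G f) (h3 : 3 ≤ ∑ v, f v) :
    ∃ S : Finset V, S.card = ∑ v, f v ∧ ∀ s ∈ S, ∃ x, (x = s ∨ G.Adj x s) ∧
      ∀ w ∈ S, w ≠ s → x ≠ w ∧ ¬ G.Adj x w := by
  classical
  have honly : ∀ v, (∀ x, G.dist x v ≤ f v) → 0 < f v → ∀ w, w ≠ v → f w = 0 := by
    intro v hv hpos w hwv
    by_contra hw
    obtain ⟨x, _, hx⟩ := h.2 w (Nat.pos_of_ne_zero hw)
    apply hx v
    unfold Hears
    rw [lower_ne f hwv.symm]
    exact ⟨hpos, hv x⟩
  have hsum : ∀ v, (∀ x, G.dist x v ≤ f v) → 0 < f v → ∑ w, f w = f v := by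
    intro v hv hpos
    exact Finset.sum_eq_single v (fun w _ hw => honly v hv hpos w hw)
      (fun h => absurd (Finset.mem_univ v) h)
  have hecc : ∀ v, ecc G v ≤ 2 := fun v => Finset.sup_le (fun u _ => uni_dist_le hu v u)
  have hle : ∀ v, f v ≤ 1 := by
    intro v
    by_contra hv
    push Not at hv
    have h1 := hsum v (fun x => (uni_dist_le hu x v).trans hv) (by omega)
    have h2 := (h.1 v).trans (hecc v)
    omega
  refine ⟨Finset.univ.filter (fun v => 0 < f v), ?_, ?_⟩
  · rw [Finset.card_filter]
    refine Finset.sum_congr rfl (fun v _ => ?_)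
    have := hle v
    split_ifs <;> omega
  · intro s hs
    rw [Finset.mem_filter] at hs
    obtain ⟨x, hx1, hx2⟩ := h.2 s hs.2
    have hs1 : f s = 1 := by
      have := hle s
      omega
    refine ⟨x, (uni_dist_one hu x s).1 (by omega), ?_⟩
    intro w hw hws
    rw [Finset.mem_filter] at hw
    have h1 := hx2 w
    unfold Hears at h1
    rw [lower_ne f hws] at h1
    have hw1 : f w = 1 := by
      have := hle w
      omega
    have h2 : ¬ G.dist x w ≤ 1 := fun h2 => h1 ⟨hw.2, by omega⟩
    rw [uni_dist_one hu] at h2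
    exact ⟨fun h => h2 (Or.inl h), fun h => h2 (Or.inr h)⟩

/-- Independent dominating sets give minimal dominating broadcasts. -/
theorem min_of_set [Nontrivial V] {S : Finset V} (hi : ∀ s ∈ S, ∀ t ∈ S, ¬ G.Adj s t)
    (hd : ∀ x, x ∈ S ∨ ∃ s ∈ S, G.Adj x s) :
    ∃ f, MinimalDominating G f ∧ ∑ v, f v = S.card := by
  classical
  let f : V → ℕ := fun v => if v ∈ S then 1 else 0
  have hin : ∀ v, v ∈ S → f v = 1 := fun v hv => if_pos hv
  have hout : ∀ v, v ∉ S → f v = 0 := fun v hv => if_neg hv
  have hle : ∀ v, f v ≤ 1 := by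
    intro v
    by_cases hv : v ∈ S
    · rw [hin v hv]
    · rw [hout v hv]
      omega
  have hb : IsBroadcast G f := by
    intro v
    obtain ⟨y, hy⟩ := exists_ne v
    have h1 : G.dist v y ≤ ecc G v := Finset.le_sup (f := fun u => G.dist v u) (Finset.mem_univ y)
    have h2 := (uni_connected hu).pos_dist_of_ne hy.symm
    have := hle v
    omega
  refine ⟨f, min_of_irr ⟨hb, fun v hv => ?_⟩ (fun x => ?_), ?_⟩
  · have hvS : v ∈ S := by
      by_contra hcon
      rw [hout v hcon] at hv
      omega
    refine ⟨v, by rw [SimpleGraph.dist_self]; omega, fun w hw => ?_⟩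
    obtain ⟨hw1, hw2⟩ := hw
    by_cases hwv : w = v
    · rw [hwv, lower_self, hin v hvS] at hw1
      omega
    · rw [lower_ne f hwv] at hw1 hw2
      have hwS : w ∈ S := by
        by_contra hcon
        rw [hout w hcon] at hw1
        omega
      rw [hin w hwS, uni_dist_one hu] at hw2
      rcases hw2 with h1 | h1
      · exact hwv h1.symm
      · exact hi v hvS w hwS h1
  · rcases hd x with h1 | ⟨s, hs, h1⟩
    · exact ⟨x, by rw [hin x h1]; omega, by rw [SimpleGraph.dist_self]; omega⟩
    · refine ⟨s, by rw [hin s hs]; omega, ?_⟩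
      rw [hin s hs, uni_dist_one hu]
      exact Or.inr h1
  · rw [Finset.card_eq_sum_ones, ← Finset.sum_filter_add_sum_filter_not Finset.univ (· ∈ S)]
    rw [Finset.sum_congr rfl (g := fun _ => 1) (fun v hv => hin v (Finset.mem_filter.1 hv).2),
      Finset.sum_congr (s₁ := Finset.univ.filter (fun v => ¬ v ∈ S)) rfl (g := fun _ => 0)
      (fun v hv => hout v (Finset.mem_filter.1 hv).2)]
    simp

end

/-! ### The graph -/

/-- The blow-up of the complement of a graph, with an isolated vertex and a universal vertex. -/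
def BG {n : ℕ} (a : Fin n → Fin n → Bool) (N : ℕ) :
    SimpleGraph (Option (Option (Fin n × Fin N))) where
  Adj x y := match x, y with
    | none, none => False
    | none, some _ => True
    | some _, none => True
    | some (some p), some (some q) => p.1 ≠ q.1 ∧ (a p.1 q.1 = false ∨ a q.1 p.1 = false)
    | some none, some _ => False
    | some (some _), some none => False
  symm := ⟨fun x y h => by
    rcases x with _ | _ | p <;> rcases y with _ | _ | q
    · exact h
    · exact h
    · exact h
    · exact h
    · exact h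
    · exact h
    · exact h
    · exact h
    · exact ⟨h.1.symm, h.2.symm⟩⟩
  loopless := ⟨fun x h => by
    rcases x with _ | _ | p
    · exact h
    · exact h
    · exact h.1 rfl⟩

variable {n : ℕ} {a : Fin n → Fin n → Bool} {N : ℕ}

theorem BG_none (x : Option (Option (Fin n × Fin N))) (hx : x ≠ none) : (BG a N).Adj none x := by
  rcases x with _ | x
  · exact absurd rfl hx
  · trivial

theorem clique_of_set (hN : N = n + 3) {k : ℕ}
    {S : Finset (Option (Option (Fin n × Fin N)))} (hk : N * k ≤ S.card)
    (hS : ∀ s ∈ S, ∃ x, (x = s ∨ (BG a N).Adj x s) ∧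
      ∀ w ∈ S, w ≠ s → x ≠ w ∧ ¬ (BG a N).Adj x w) : HasK a k := by
  classical
  let T : Fin n → Finset (Fin N) := fun v =>
    Finset.univ.filter (fun i => some (some (v, i)) ∈ S)
  let A : Finset (Fin n) := Finset.univ.filter (fun v => 2 ≤ (T v).card)
  have hA : ∀ v ∈ A, ∀ w ∈ A, v ≠ w → a v w = true := by
    intro v hv w hw hvw
    by_contra hcon
    have hvw' : a v w = false := by simpa using hcon
    have hv2 : 1 < (T v).card := (Finset.mem_filter.1 hv).2
    have hw2 : 0 < (T w).card := lt_of_lt_of_le Nat.zero_lt_two (Finset.mem_filter.1 hw).2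
    obtain ⟨i, hi, i', hi', hii⟩ := Finset.one_lt_card.1 hv2
    obtain ⟨j, hj⟩ := Finset.card_pos.1 hw2
    have hiS : some (some (v, i)) ∈ S := (Finset.mem_filter.1 hi).2
    have hi'S : some (some (v, i')) ∈ S := (Finset.mem_filter.1 hi').2
    have hjS : some (some (w, j)) ∈ S := (Finset.mem_filter.1 hj).2
    obtain ⟨x, hx, hpriv⟩ := hS _ hiS
    have h1 := hpriv _ hi'S (by
      intro h
      simp only [Option.some.injEq, Prod.mk.injEq, true_and] at h
      exact hii h.symm)
    have h2 := hpriv _ hjS (by
      intro h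
      simp only [Option.some.injEq, Prod.mk.injEq] at h
      exact hvw h.1.symm)
    rcases hx with rfl | hx
    · exact h2.2 ⟨hvw, Or.inl hvw'⟩
    · rcases x with _ | _ | p
      · exact h1.2 trivial
      · exact hx
      · exact h1.2 ⟨hx.1, hx.2⟩
  have hcard : S.card ≤ 2 + ∑ v, (T v).card := by
    have hsub : S ⊆ {none, some none} ∪ Finset.univ.biUnion (fun v : Fin n =>
        (T v).image (fun i => (some (some (v, i)) : Option (Option (Fin n × Fin N))))) := by
      intro x hx
      rcases x with _ | _ | ⟨v, i⟩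
      · simp
      · simp
      · rw [Finset.mem_union]
        right
        rw [Finset.mem_biUnion]
        exact ⟨v, Finset.mem_univ _, Finset.mem_image.2
          ⟨i, Finset.mem_filter.2 ⟨Finset.mem_univ _, hx⟩, rfl⟩⟩
    refine (Finset.card_le_card hsub).trans ((Finset.card_union_le _ _).trans ?_)
    refine Nat.add_le_add Finset.card_le_two (Finset.card_biUnion_le.trans ?_)
    exact Finset.sum_le_sum (fun v _ => Finset.card_image_le)
  have hsum : ∑ v, (T v).card ≤ N * A.card + n := by
    have h1 : ∀ v, (T v).card ≤ (if v ∈ A then N else 0) + 1 := by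
      intro v
      by_cases hv : v ∈ A
      · rw [if_pos hv]
        have : (T v).card ≤ N := (Finset.card_le_univ _).trans (by simp)
        omega
      · rw [if_neg hv]
        have h2 : ¬ 2 ≤ (T v).card := fun h => hv (Finset.mem_filter.2 ⟨Finset.mem_univ _, h⟩)
        omega
    refine (Finset.sum_le_sum (fun v _ => h1 v)).trans ?_
    rw [Finset.sum_add_distrib, Finset.sum_ite_mem]
    simp [mul_comm]
  have hkA : k ≤ A.card := by
    by_contra hcon
    push Not at hcon
    have h1 : N * (A.card + 1) ≤ N * k := Nat.mul_le_mul_left _ hcon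
    have h2 : N * (A.card + 1) = N * A.card + N := by ring
    omega
  obtain ⟨K, hK, hKc⟩ := Finset.exists_subset_card_eq hkA
  exact ⟨K, hKc, fun u hu v hv huv => hA u (hK hu) v (hK hv) huv⟩

theorem set_of_clique (hsymm : ∀ u v, a u v = a v u) (hN : 0 < N) {k : ℕ} (h : HasK a k) :
    ∃ S : Finset (Option (Option (Fin n × Fin N))), N * k ≤ S.card ∧
      (∀ s ∈ S, ∀ t ∈ S, ¬ (BG a N).Adj s t) ∧ ∀ x, x ∈ S ∨ ∃ s ∈ S, (BG a N).Adj x s := by
  classical
  obtain ⟨K0, hK0, hK0c⟩ := h
  obtain ⟨K, hK, hmax⟩ := Finset.exists_max_image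
    (Finset.univ.filter (fun K : Finset (Fin n) => ∀ u ∈ K, ∀ v ∈ K, u ≠ v → a u v = true))
    Finset.card ⟨K0, Finset.mem_filter.2 ⟨Finset.mem_univ _, hK0c⟩⟩
  have hKc := (Finset.mem_filter.1 hK).2
  have hkK : k ≤ K.card := hK0 ▸ hmax K0 (Finset.mem_filter.2 ⟨Finset.mem_univ _, hK0c⟩)
  let emb : Fin n × Fin N → Option (Option (Fin n × Fin N)) := fun p => some (some p)
  have hinj : Function.Injective emb := fun p q h => by
    simpa [emb] using h
  let S0 := (K ×ˢ (Finset.univ : Finset (Fin N))).image emb
  have hS0 : S0.card = K.card * N := by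
    rw [Finset.card_image_of_injective _ hinj, Finset.card_product]
    simp
  have hmem0 : ∀ p, emb p ∈ S0 ↔ p.1 ∈ K := by
    intro p
    constructor
    · intro h1
      obtain ⟨q, hq, hqp⟩ := Finset.mem_image.1 h1
      rw [hinj hqp] at hq
      exact (Finset.mem_product.1 hq).1
    · intro h1
      exact Finset.mem_image.2 ⟨p, Finset.mem_product.2 ⟨h1, Finset.mem_univ _⟩, rfl⟩
  refine ⟨insert (some none) S0, ?_, ?_, ?_⟩
  · refine le_trans ?_ (Finset.card_le_card (Finset.subset_insert _ _))
    rw [hS0, mul_comm]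
    exact Nat.mul_le_mul_right _ hkK
  · intro s hs t ht hst
    have hcase : ∀ s ∈ insert (some none) S0, s = some none ∨ ∃ p, s = emb p ∧ p.1 ∈ K := by
      intro s hs
      rcases Finset.mem_insert.1 hs with h1 | h1
      · exact Or.inl h1
      · obtain ⟨p, hp, rfl⟩ := Finset.mem_image.1 h1
        exact Or.inr ⟨p, rfl, (Finset.mem_product.1 hp).1⟩
    rcases hcase s hs with rfl | ⟨p, rfl, hp⟩
    · rcases hcase t ht with rfl | ⟨q, rfl, hq⟩
      · exact hst
      · exact hst
    · rcases hcase t ht with rfl | ⟨q, rfl, hq⟩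
      · exact hst
      · obtain ⟨h1, h2⟩ := hst
        rcases h2 with h2 | h2
        · rw [hKc _ hp _ hq h1] at h2
          exact absurd h2 (by simp)
        · rw [hKc _ hq _ hp h1.symm] at h2
          exact absurd h2 (by simp)
  · intro x
    rcases x with _ | _ | ⟨w, j⟩
    · exact Or.inr ⟨some none, Finset.mem_insert_self _ _, trivial⟩
    · exact Or.inl (Finset.mem_insert_self _ _)
    · by_cases hw : w ∈ K
      · exact Or.inl (Finset.mem_insert_of_mem ((hmem0 (w, j)).2 hw))
      · right
        have hex : ∃ v ∈ K, a w v = false := by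
          by_contra hcon
          push Not at hcon
          have h1 := hmax (insert w K) (by
            refine Finset.mem_filter.2 ⟨Finset.mem_univ _, ?_⟩
            intro u hu v hv huv
            rcases Finset.mem_insert.1 hu with hu2 | hu2
            · rcases Finset.mem_insert.1 hv with hv2 | hv2
              · exact absurd (hu2.trans hv2.symm) huv
              · rw [hu2]
                simpa using hcon v hv2
            · rcases Finset.mem_insert.1 hv with hv2 | hv2
              · rw [hsymm, hv2]
                simpa using hcon u hu2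
              · exact hKc u hu2 v hv2 huv)
          rw [Finset.card_insert_of_notMem hw] at h1
          omega
        obtain ⟨v, hv, hwv⟩ := hex
        refine ⟨emb (v, ⟨0, hN⟩), Finset.mem_insert_of_mem ((hmem0 _).2 hv), ?_⟩
        refine ⟨fun h => hw ?_, Or.inl hwv⟩
        have h1 : w = v := h
        rw [h1]
        exact hv

end Pool.Agent.V11229.Bcast
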