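import Pool.Agent.V11229.FG

/-!
# Chromatic discrepancy: the combinatorial part
-/

namespace Pool.Agent.V11229.CD

open Finset

variable {V : Type} [Fintype V]

/-- The chromatic number of a finite graph. -/
noncomputable def chi {V : Type} (G : SimpleGraph V) : ℕ := sInf {k | G.Colorable k}

/-- `φ_c(G)`: the largest value of the number of colours on an induced subgraph minus its chromatic
number. -/
noncomputable def phiOf (G : SimpleGraph V) (c : V → ℕ) : ℕ :=
  sSup {m | ∃ S : Set V, m = (c '' S).ncard - chi (G.induce S)}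

/-- The chromatic discrepancy: the least `φ_c(G)` over the proper colourings `c`. -/
noncomputable def phi (G : SimpleGraph V) : ℕ :=
  sInf {m | ∃ c : V → ℕ, (∀ u v, G.Adj u v → c u ≠ c v) ∧ m = phiOf G c}

/-- Like `phiOf`, for connected induced subgraphs. -/
noncomputable def phiHatOf (G : SimpleGraph V) (c : V → ℕ) : ℕ :=
  sSup {m | ∃ S : Set V, (G.induce S).Connected ∧ m = (c '' S).ncard - chi (G.induce S)}

/-- The connected chromatic discrepancy. -/
noncomputable def phiHat (G : SimpleGraph V) : ℕ :=
  sInf {m | ∃ c : V → ℕ, (∀ u v, G.Adj u v → c u ≠ c v) ∧ m = phiHatOf G c}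

theorem chi_le {V : Type} {G : SimpleGraph V} {k : ℕ} (h : G.Colorable k) : chi G ≤ k :=
  Nat.sInf_le h

theorem colorable_chi {V : Type} [Finite V] (G : SimpleGraph V) : G.Colorable (chi G) := by
  cases nonempty_fintype V
  have hne : {k | G.Colorable k}.Nonempty := ⟨_, G.colorable_of_fintype⟩
  exact Nat.sInf_mem hne

theorem le_chi {V : Type} [Finite V] {G : SimpleGraph V} {k : ℕ} (h : ¬ G.Colorable k) :
    k < chi G := by
  by_contra hc
  exact h ((colorable_chi G).mono (not_lt.1 hc))

/-- the values in the definition are bounded -/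
theorem val_le (G : SimpleGraph V) (c : V → ℕ) (S : Set V) :
    (c '' S).ncard - chi (G.induce S) ≤ Fintype.card V := by
  have h1 : (c '' S).ncard ≤ S.ncard := Set.ncard_image_le (Set.toFinite S)
  have h2 : S.ncard ≤ Fintype.card V := by
    rw [← Nat.card_eq_fintype_card]
    exact Set.ncard_le_card S
  omega

theorem phiOf_le_iff (G : SimpleGraph V) (c : V → ℕ) (k : ℕ) :
    phiOf G c ≤ k ↔ ∀ S : Set V, (c '' S).ncard ≤ chi (G.induce S) + k := by
  unfold phiOf
  have hb : BddAbove {m | ∃ S : Set V, m = (c '' S).ncard - chi (G.induce S)} :=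
    ⟨Fintype.card V, by rintro _ ⟨S, rfl⟩; exact val_le G c S⟩
  constructor
  · intro h S
    have := (le_csSup hb ⟨S, rfl⟩).trans h
    omega
  · intro h
    refine csSup_le ⟨_, ∅, rfl⟩ ?_
    rintro _ ⟨S, rfl⟩
    have := h S
    omega

theorem phiHatOf_le_iff (G : SimpleGraph V) (c : V → ℕ) (k : ℕ) :
    phiHatOf G c ≤ k ↔ ∀ S : Set V, (G.induce S).Connected →
      (c '' S).ncard ≤ chi (G.induce S) + k := by
  unfold phiHatOf
  have hb : BddAbove {m | ∃ S : Set V, (G.induce S).Connected ∧
      m = (c '' S).ncard - chi (G.induce S)} :=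
    ⟨Fintype.card V, by rintro _ ⟨S, _, rfl⟩; exact val_le G c S⟩
  constructor
  · intro h S hS
    have := (le_csSup hb ⟨S, hS, rfl⟩).trans h
    omega
  · intro h
    rcases Set.eq_empty_or_nonempty {m | ∃ S : Set V, (G.induce S).Connected ∧
      m = (c '' S).ncard - chi (G.induce S)} with he | hne
    · rw [he]
      simp
    · refine csSup_le hne ?_
      rintro _ ⟨S, hS, rfl⟩
      have := h S hS
      omega

omit [Fintype V] in
theorem sInf_le_iff {P : (V → ℕ) → Prop} {f : (V → ℕ) → ℕ} (hP : ∃ c, P c) (k : ℕ) :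
    sInf {m | ∃ c, P c ∧ m = f c} ≤ k ↔ ∃ c, P c ∧ f c ≤ k := by
  constructor
  · intro h
    have hne : {m | ∃ c, P c ∧ m = f c}.Nonempty := by
      obtain ⟨c, hc⟩ := hP
      exact ⟨_, c, hc, rfl⟩
    obtain ⟨c, hc, hc2⟩ := Nat.sInf_mem hne
    exact ⟨c, hc, hc2 ▸ h⟩
  · rintro ⟨c, hc, hc2⟩
    have h1 : sInf {m | ∃ c, P c ∧ m = f c} ≤ f c := Nat.sInf_le ⟨c, hc, rfl⟩
    exact h1.trans hc2

theorem exists_proper (G : SimpleGraph V) : ∃ c : V → ℕ, ∀ u v, G.Adj u v → c u ≠ c v := by
  refine ⟨fun v => (Fintype.equivFin V v : ℕ), fun u v huv h => ?_⟩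
  exact huv.ne ((Fintype.equivFin V).injective (Fin.ext h))

theorem phi_le_iff (G : SimpleGraph V) (k : ℕ) : phi G ≤ k ↔
    ∃ c : V → ℕ, (∀ u v, G.Adj u v → c u ≠ c v) ∧
      ∀ S : Set V, (c '' S).ncard ≤ chi (G.induce S) + k := by
  unfold phi
  rw [sInf_le_iff (exists_proper G)]
  simp only [phiOf_le_iff]

theorem phiHat_le_iff (G : SimpleGraph V) (k : ℕ) : phiHat G ≤ k ↔
    ∃ c : V → ℕ, (∀ u v, G.Adj u v → c u ≠ c v) ∧
      ∀ S : Set V, (G.induce S).Connected → (c '' S).ncard ≤ chi (G.induce S) + k := by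
  unfold phiHat
  rw [sInf_le_iff (exists_proper G)]
  simp only [phiHatOf_le_iff]

/-! ### The layered graph -/

variable {U ι : Type} [Fintype U] [Fintype ι]

/-- The layered graph: one copy of `H` for every element of `ι`, and one copy of the complete
graph (the layer `none`); copies of different vertices in different layers are adjacent. -/
def LG (H : SimpleGraph U) (ι : Type) : SimpleGraph (U × Option ι) where
  Adj x y := x.1 ≠ y.1 ∧ (x.2 ≠ y.2 ∨ x.2 = none ∨ H.Adj x.1 y.1)
  symm := ⟨fun x y h => ⟨h.1.symm, by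
    rcases h.2 with h2 | h2 | h2
    · exact Or.inl h2.symm
    · by_cases h3 : x.2 = y.2
      · exact Or.inr (Or.inl (h3 ▸ h2))
      · exact Or.inl (fun h4 => h3 h4.symm)
    · exact Or.inr (Or.inr h2.symm)⟩⟩
  loopless := ⟨fun x h => h.1 rfl⟩

variable (H : SimpleGraph U)

omit [Fintype U] [Fintype ι] in
theorem LG_of_adj {x y : U × Option ι} (h : H.Adj x.1 y.1) : (LG H ι).Adj x y :=
  ⟨h.ne, Or.inr (Or.inr h)⟩

/-- If `H` is not `r`-colourable then the colouring of the layered graph by parts is good. -/
theorem partA {r : ℕ} (h : ¬ H.Colorable r) (S : Set (U × Option ι)) (e : U ≃ Fin (Fintype.card U)) :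
    ((fun x : U × Option ι => ((e x.1 : Fin _) : ℕ)) '' S).ncard ≤
      chi ((LG H ι).induce S) + (Fintype.card U - (r + 1)) := by
  classical
  set P : Finset U := Finset.univ.filter (fun u => ∃ a, (u, a) ∈ S) with hP
  have h1 : ((fun x : U × Option ι => ((e x.1 : Fin _) : ℕ)) '' S).ncard = P.card := by
    have : (fun x : U × Option ι => ((e x.1 : Fin _) : ℕ)) '' S =
        ((P.image (fun u => ((e u : Fin _) : ℕ)) : Finset ℕ) : Set ℕ) := by
      ext m
      simp only [Set.mem_image, Prod.exists, Finset.coe_image, hP, Finset.coe_filter,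
        Finset.mem_univ, true_and, Set.mem_ofPred_eq]
      constructor
      · rintro ⟨u, a, h1, rfl⟩
        exact ⟨u, ⟨a, h1⟩, rfl⟩
      · rintro ⟨u, ⟨a, h1⟩, rfl⟩
        exact ⟨u, a, h1, rfl⟩
    rw [this, Set.ncard_coe_finset, Finset.card_image_of_injective]
    intro a b hab
    exact e.injective (Fin.ext hab)
  rw [h1]
  have h2 := colorable_chi ((LG H ι).induce S)
  set j := chi ((LG H ι).induce S) with hj
  obtain ⟨d⟩ := h2
  have hrep : ∀ u : U, ∃ a : Option ι, u ∈ P → (u, a) ∈ S := by
    intro u
    by_cases hu : u ∈ P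
    · obtain ⟨a, ha⟩ := (Finset.mem_filter.1 hu).2
      exact ⟨a, fun _ => ha⟩
    · exact ⟨none, fun h => absurd h hu⟩
  choose g hg using hrep
  -- a colouring of `H`
  have hcol : H.Coloring (Fin j ⊕ {u // u ∉ P}) := by
    refine SimpleGraph.Coloring.mk (fun u => if hu : u ∈ P then
      Sum.inl (d ⟨(u, g u), hg u hu⟩) else Sum.inr ⟨u, hu⟩) ?_
    intro u v huv heq
    by_cases hu : u ∈ P <;> by_cases hv : v ∈ P
    · simp only [dif_pos hu, dif_pos hv, Sum.inl.injEq] at heq
      refine d.valid (v := ⟨(u, g u), hg u hu⟩) (w := ⟨(v, g v), hg v hv⟩) ?_ heq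
      rw [SimpleGraph.comap_adj]
      exact LG_of_adj H huv
    · simp only [dif_pos hu, dif_neg hv] at heq
      exact absurd heq (by simp)
    · simp only [dif_neg hu, dif_pos hv] at heq
      exact absurd heq (by simp)
    · simp only [dif_neg hu, dif_neg hv, Sum.inr.injEq, Subtype.mk.injEq] at heq
      exact huv.ne heq
  have h3 := hcol.colorable
  have h4 : Fintype.card (Fin j ⊕ {u // u ∉ P}) = j + (Fintype.card U - P.card) := by
    rw [Fintype.card_sum, Fintype.card_fin, Fintype.card_subtype_compl]
    simp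
  rw [h4] at h3
  have h5 : r < j + (Fintype.card U - P.card) := by
    by_contra hc
    exact h (h3.mono (not_lt.1 hc))
  have h6 : P.card ≤ Fintype.card U := Finset.card_le_univ P
  omega

omit [Fintype ι] in
theorem LG_colorable (e : U ≃ Fin (Fintype.card U)) : (LG H ι).Colorable (Fintype.card U) := by
  refine ⟨SimpleGraph.Coloring.mk (fun x => e x.1) ?_⟩
  intro x y hxy h
  exact hxy.1 (e.injective h)

omit [Fintype U] [Fintype ι] in
theorem LG_connected [Nontrivial U] : (LG H ι).Connected := by
  have key : ∀ x : U × Option ι, ∀ v, (LG H ι).Reachable x (v, none) := by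
    rintro ⟨u, a⟩ v
    by_cases huv : u = v
    · subst huv
      obtain ⟨w, hw⟩ := exists_ne u
      have h1 : (LG H ι).Adj (u, a) (w, none) := by
        refine ⟨hw.symm, ?_⟩
        by_cases ha : a = none
        · exact Or.inr (Or.inl ha)
        · exact Or.inl ha
      have h2 : (LG H ι).Adj (w, none) (u, none) := ⟨hw, Or.inr (Or.inl rfl)⟩
      exact h1.reachable.trans h2.reachable
    · have h1 : (LG H ι).Adj (u, a) (v, none) := by
        refine ⟨huv, ?_⟩
        by_cases ha : a = none
        · exact Or.inr (Or.inl ha)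
        · exact Or.inl ha
      exact h1.reachable
  have hU : Nonempty U := inferInstance
  obtain ⟨u0⟩ := hU
  refine (SimpleGraph.connected_iff _).2 ⟨fun x y => (key x u0).trans (key y u0).symm, ⟨(u0, none)⟩⟩

/-- If `H` is `r`-colourable, every proper colouring of the layered graph is bad somewhere, even on
a connected induced subgraph if `H` is connected. -/
theorem partB [Nontrivial U] {r : ℕ} (hc : H.Connected) (hr : H.Colorable r)
    (hn : r + 1 ≤ Fintype.card U) (hι : Fintype.card U ≤ Fintype.card ι)
    (c : U × Option ι → ℕ) (hcp : ∀ x y, (LG H ι).Adj x y → c x ≠ c y) :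
    ∃ S : Set (U × Option ι), ((LG H ι).induce S).Connected ∧
      chi ((LG H ι).induce S) + (Fintype.card U - (r + 1)) < (c '' S).ncard := by
  classical
  by_cases hinj : ∃ i : ι, Function.Injective (fun u : U => c (u, some i))
  · obtain ⟨i, hi⟩ := hinj
    let f : U → U × Option ι := fun u => (u, some i)
    have hf : Function.Injective f := fun a b h => (Prod.ext_iff.1 h).1
    have hadj : ∀ u v, (LG H ι).Adj (f u) (f v) ↔ H.Adj u v := by
      intro u v
      constructor
      · rintro ⟨_, h2⟩
        simpa [f] using h2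
      · intro h
        exact LG_of_adj H h
    have iso : H ≃g (LG H ι).induce (Set.range f) :=
      ⟨Equiv.ofInjective f hf, by
        intro a b
        rw [SimpleGraph.comap_adj]
        exact hadj a b⟩
    refine ⟨Set.range f, ?_, ?_⟩
    · exact iso.connected_iff.1 hc
    · have h1 : chi ((LG H ι).induce (Set.range f)) ≤ r := by
        apply chi_le
        obtain ⟨d⟩ := hr
        exact ⟨d.comp iso.symm.toHom⟩
      have h2 : (c '' Set.range f).ncard = Fintype.card U := by
        rw [← Set.range_comp]
        have : Function.Injective (c ∘ f) := hi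
        rw [← Set.image_univ, Set.ncard_image_of_injective _ this, Set.ncard_univ,
          Nat.card_eq_fintype_card]
      omega
  · push Not at hinj
    -- each layer has a private colour
    have hp : ∀ i : ι, ∃ u v : U, u ≠ v ∧ c (u, some i) = c (v, some i) := by
      intro i
      have := hinj i
      simp only [Function.Injective, not_forall] at this
      obtain ⟨u, v, h1, h2⟩ := this
      exact ⟨u, v, h2, h1⟩
    choose a b hab hcab using hp
    have priv : ∀ (i : ι) (x : U × Option ι), x.2 ≠ some i → c x ≠ c (a i, some i) := by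
      intro i x hx
      by_cases hxa : x.1 = a i
      · have hxb : x.1 ≠ b i := fun h => hab i (hxa ▸ h)
        rw [hcab]
        exact hcp x (b i, some i) ⟨hxb, Or.inl hx⟩
      · exact hcp x (a i, some i) ⟨hxa, Or.inl hx⟩
    let F : U ⊕ ι → ℕ := fun z => match z with
      | Sum.inl u => c (u, none)
      | Sum.inr i => c (a i, some i)
    have hF : Function.Injective F := by
      rintro (u | i) (v | j) h
      · by_contra hne
        have huv : u ≠ v := fun h => hne (by rw [h])
        exact hcp (u, none) (v, none) ⟨huv, Or.inr (Or.inl rfl)⟩ h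
      · exact absurd h (priv j (u, none) (by simp))
      · exact absurd h.symm (priv i (v, none) (by simp))
      · by_contra hne
        have hij : i ≠ j := fun h => hne (by rw [h])
        exact priv j (a i, some i) (by simpa using hij) h
    refine ⟨Set.univ, ?_, ?_⟩
    · have iso : (LG H ι).induce Set.univ ≃g LG H ι := SimpleGraph.induceUnivIso _
      exact iso.connected_iff.2 (LG_connected H)
    · have h1 : chi ((LG H ι).induce Set.univ) ≤ Fintype.card U := by
        apply chi_le
        obtain ⟨d⟩ := LG_colorable (ι := ι) H (Fintype.equivFin U)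
        exact ⟨d.comp (SimpleGraph.induceUnivIso _).toHom⟩
      have h2 : Fintype.card U + Fintype.card ι ≤ (c '' Set.univ).ncard := by
        have h3 : Set.range F ⊆ c '' Set.univ := by
          rintro _ ⟨z, rfl⟩
          rcases z with u | i
          · exact ⟨(u, none), trivial, rfl⟩
          · exact ⟨(a i, some i), trivial, rfl⟩
        have h4 := Set.ncard_le_ncard h3 (Set.toFinite _)
        rwa [← Set.image_univ, Set.ncard_image_of_injective _ hF, Set.ncard_univ,
          Nat.card_eq_fintype_card, Fintype.card_sum] at h4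
      omega

/-- The discrepancies of the layered graph decide colourability of `H`. -/
theorem phi_LG [Nontrivial U] {r : ℕ} (hc : H.Connected)
    (hn : r + 1 ≤ Fintype.card U) (hι : Fintype.card U ≤ Fintype.card ι) :
    (phi (LG H ι) ≤ Fintype.card U - (r + 1) ↔ ¬ H.Colorable r) ∧
    (phiHat (LG H ι) ≤ Fintype.card U - (r + 1) ↔ ¬ H.Colorable r) := by
  have hA : ¬ H.Colorable r → ∃ c : U × Option ι → ℕ, (∀ u v, (LG H ι).Adj u v → c u ≠ c v) ∧
      ∀ S : Set (U × Option ι), (c '' S).ncard ≤ chi ((LG H ι).induce S) +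
        (Fintype.card U - (r + 1)) := by
    intro h
    refine ⟨fun x => ((Fintype.equivFin U x.1 : Fin _) : ℕ), ?_, fun S => partA H h S _⟩
    intro x y hxy h
    exact hxy.1 ((Fintype.equivFin U).injective (Fin.ext h))
  constructor
  · rw [phi_le_iff]
    constructor
    · rintro ⟨c, hcp, h⟩ hr
      obtain ⟨S, _, hS⟩ := partB H hc hr hn hι c hcp
      have := h S
      omega
    · exact hA
  · rw [phiHat_le_iff]
    constructor
    · rintro ⟨c, hcp, h⟩ hr
      obtain ⟨S, hS1, hS⟩ := partB H hc hr hn hι c hcp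
      have := h S hS1
      omega
    · intro h
      obtain ⟨c, h1, h2⟩ := hA h
      exact ⟨c, h1, fun S _ => h2 S⟩

end Pool.Agent.V11229.CD
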