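import Pool.Agent.V11229.FG

/-!
# Unions of stars and double stars
-/

namespace Pool.Agent.V11229.DS

open SimpleGraph

/-- Vertices: `(z, 0)` is the centre `z`, and `(z, i)` with `1 ≤ i ≤ a z` are its leaves. -/
abbrev VT (Z : Type) (a : Z → ℕ) : Type := {x : Z × ℕ // x.2 ≤ a x.1}

/-- Every centre `z` has `a z` leaves, and the centres `z`, `w` with `R z w` are joined. -/
def CG {Z : Type} (a : Z → ℕ) (R : Z → Z → Prop) : SimpleGraph (VT Z a) where
  Adj x y := (x.1.1 = y.1.1 ∧ ((x.1.2 = 0 ∧ y.1.2 ≠ 0) ∨ (x.1.2 ≠ 0 ∧ y.1.2 = 0))) ∨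
    (x.1.2 = 0 ∧ y.1.2 = 0 ∧ x.1.1 ≠ y.1.1 ∧ (R x.1.1 y.1.1 ∨ R y.1.1 x.1.1))
  symm := ⟨fun x y h => by
    rcases h with ⟨h1, h2⟩ | ⟨h1, h2, h3, h4⟩
    · exact Or.inl ⟨h1.symm, by tauto⟩
    · exact Or.inr ⟨h2, h1, h3.symm, h4.symm⟩⟩
  loopless := ⟨fun x h => by
    rcases h with ⟨h1, h2⟩ | ⟨h1, h2, h3, h4⟩
    · rcases h2 with h2 | h2
      · exact h2.2 h2.1
      · exact h2.1 h2.2
    · exact h3 rfl⟩

variable {Z : Type} {a : Z → ℕ} {R : Z → Z → Prop}

/-- the centre -/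
def ctr (a : Z → ℕ) (z : Z) : VT Z a := ⟨(z, 0), Nat.zero_le _⟩

/-- A leaf has only one neighbour. -/
theorem leaf_unique {x y y' : VT Z a} (hx : x.1.2 ≠ 0) (h : (CG a R).Adj x y)
    (h' : (CG a R).Adj x y') : y = y' := by
  have key : ∀ w : VT Z a, (CG a R).Adj x w → w.1 = (x.1.1, 0) := by
    intro w hw
    rcases hw with ⟨h1, h2⟩ | ⟨h1, _⟩
    · rcases h2 with h2 | h2
      · exact absurd h2.1 hx
      · exact Prod.ext h1.symm h2.2
    · exact absurd h1 hx
  exact Subtype.ext ((key y h).trans (key y' h').symm)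

theorem centre_of_two {x y y' : VT Z a} (h : (CG a R).Adj x y) (h' : (CG a R).Adj x y')
    (hne : y ≠ y') : x.1.2 = 0 := by
  by_contra hx
  exact hne (leaf_unique hx h h')

/-- Each centre is joined to at most one other centre. -/
def Mt (R : Z → Z → Prop) : Prop := ∀ z w w', (R z w ∨ R w z) → (R z w' ∨ R w' z) → w = w'

/-- Such a graph has no path on five vertices. -/
theorem no_path (hR : Mt R) {x₀ x₁ x₂ x₃ x₄ : VT Z a} (h01 : (CG a R).Adj x₀ x₁)
    (h12 : (CG a R).Adj x₁ x₂) (h23 : (CG a R).Adj x₂ x₃) (h34 : (CG a R).Adj x₃ x₄)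
    (n02 : x₀ ≠ x₂) (n13 : x₁ ≠ x₃) (n24 : x₂ ≠ x₄) : False := by
  have c1 : x₁.1.2 = 0 := centre_of_two h01.symm h12 n02
  have c2 : x₂.1.2 = 0 := centre_of_two h12.symm h23 n13
  have c3 : x₃.1.2 = 0 := centre_of_two h23.symm h34 n24
  have r1 : R x₂.1.1 x₁.1.1 ∨ R x₁.1.1 x₂.1.1 := by
    rcases h12.symm with ⟨_, h⟩ | ⟨_, _, _, h⟩
    · rcases h with h | h
      · exact absurd c1 h.2
      · exact absurd c2 h.1
    · exact h
  have r2 : R x₂.1.1 x₃.1.1 ∨ R x₃.1.1 x₂.1.1 := by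
    rcases h23 with ⟨_, h⟩ | ⟨_, _, _, h⟩
    · rcases h with h | h
      · exact absurd c3 h.2
      · exact absurd c2 h.1
    · exact h
  have h := hR _ _ _ r1 r2
  exact n13 (Subtype.ext (Prod.ext h (c1.trans c3.symm)))

theorem isContained_iff_fun {V W : Type} (A : SimpleGraph V) (B : SimpleGraph W) :
    A.IsContained B ↔ ∃ f : V → W, Function.Injective f ∧ ∀ x y, A.Adj x y → B.Adj (f x) (f y) := by
  constructor
  · rintro ⟨f⟩
    exact ⟨f, f.injective, fun x y h => f.toHom.map_adj h⟩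
  · rintro ⟨f, hf, h⟩
    exact ⟨⟨⟨f, fun {x y} hxy => h x y hxy⟩, hf⟩⟩

theorem free_p5 (hR : Mt R) : (pathGraph 5).Free (CG a R) := by
  intro hc
  rw [isContained_iff_fun] at hc
  obtain ⟨f, hf, h⟩ := hc
  have adj : ∀ i j : Fin 5, i.val + 1 = j.val → (CG a R).Adj (f i) (f j) := fun i j hij =>
    h i j (by rw [pathGraph_adj]; exact Or.inl hij)
  exact no_path hR (adj 0 1 rfl) (adj 1 2 rfl) (adj 2 3 rfl) (adj 3 4 rfl)
    (fun h => absurd (hf h) (by decide)) (fun h => absurd (hf h) (by decide))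
    (fun h => absurd (hf h) (by decide))

/-- Containment of one such graph in another one with the same number of centres. -/
theorem contained_iff [Finite Z] {a b : Z → ℕ} {R S : Z → Z → Prop} (ha : ∀ z, 2 ≤ a z) :
    (CG a R).IsContained (CG b S) ↔ ∃ φ : Z ≃ Z, (∀ z, a z ≤ b (φ z)) ∧
      ∀ z w, z ≠ w → (R z w ∨ R w z) → (S (φ z) (φ w) ∨ S (φ w) (φ z)) := by
  rw [isContained_iff_fun]
  constructor
  · rintro ⟨f, hf, h⟩
    have hctr : ∀ z, (f (ctr a z)).1.2 = 0 := by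
      intro z
      have h1 : (CG a R).Adj (ctr a z) ⟨(z, 1), le_trans (by norm_num) (ha z)⟩ :=
        Or.inl ⟨rfl, Or.inl ⟨rfl, one_ne_zero⟩⟩
      have h2 : (CG a R).Adj (ctr a z) ⟨(z, 2), ha z⟩ :=
        Or.inl ⟨rfl, Or.inl ⟨rfl, two_ne_zero⟩⟩
      refine centre_of_two (h _ _ h1) (h _ _ h2) fun h3 => ?_
      have h4 := congrArg (fun x : VT Z a => x.1.2) (hf h3)
      simp at h4
    let g : Z → Z := fun z => (f (ctr a z)).1.1
    have hg : ∀ z, f (ctr a z) = ctr b (g z) := fun z => Subtype.ext (Prod.ext rfl (hctr z))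
    have hgi : Function.Injective g := by
      intro z w hzw
      have h1 : f (ctr a z) = f (ctr a w) := by rw [hg, hg, hzw]
      have h2 := congrArg (fun x : VT Z a => x.1.1) (hf h1)
      exact h2
    have hgb : Function.Bijective g := Finite.injective_iff_bijective.1 hgi
    refine ⟨Equiv.ofBijective g hgb, ?_, ?_⟩
    · intro z
      have hleaf : ∀ i : Fin (a z), ∃ j : Fin (b (g z)),
          f ⟨(z, i.val + 1), i.isLt⟩ = ⟨(g z, j.val + 1), j.isLt⟩ := by
        intro i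
        have h1 : (CG a R).Adj (ctr a z) ⟨(z, i.val + 1), i.isLt⟩ :=
          Or.inl ⟨rfl, Or.inl ⟨rfl, Nat.succ_ne_zero _⟩⟩
        have h2 := h _ _ h1
        rw [hg] at h2
        have h3 : (f ⟨(z, i.val + 1), i.isLt⟩).1.2 ≠ 0 := by
          intro h4
          obtain ⟨w, hw⟩ := hgb.2 (f ⟨(z, i.val + 1), i.isLt⟩).1.1
          have h5 : f ⟨(z, i.val + 1), i.isLt⟩ = f (ctr a w) := by
            rw [hg]
            exact Subtype.ext (Prod.ext hw.symm h4)
          have h6 := congrArg (fun x : VT Z a => x.1.2) (hf h5)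
          exact absurd h6 (Nat.succ_ne_zero _)
        rcases h2 with ⟨h4, h5⟩ | ⟨_, h4, _⟩
        · have h7 := (f ⟨(z, i.val + 1), i.isLt⟩).2
          have h8 : (f ⟨(z, i.val + 1), i.isLt⟩).1.1 = g z := h4.symm
          rw [h8] at h7
          refine ⟨⟨(f ⟨(z, i.val + 1), i.isLt⟩).1.2 - 1, by omega⟩, ?_⟩
          refine Subtype.ext (Prod.ext h8 ?_)
          simp only
          omega
        · exact absurd h4 h3
      choose j hj using hleaf
      have hji : Function.Injective j := by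
        intro i i' hii
        have h1 : f ⟨(z, i.val + 1), i.isLt⟩ = f ⟨(z, i'.val + 1), i'.isLt⟩ := by
          rw [hj, hj, hii]
        have h2 := congrArg (fun x : VT Z a => x.1.2) (hf h1)
        simp only at h2
        exact Fin.ext (by omega)
      have := Fintype.card_le_of_injective j hji
      simpa using this
    · intro z w hzw hr
      have h1 : (CG a R).Adj (ctr a z) (ctr a w) := Or.inr ⟨rfl, rfl, hzw, hr⟩
      have h2 := h _ _ h1
      rw [hg, hg] at h2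
      rcases h2 with ⟨_, h3⟩ | ⟨_, _, _, h3⟩
      · rcases h3 with h3 | h3
        · exact absurd rfl h3.2
        · exact absurd rfl h3.1
      · exact h3
  · rintro ⟨φ, h1, h2⟩
    refine ⟨fun x => ⟨(φ x.1.1, x.1.2), x.2.trans (h1 _)⟩, ?_, ?_⟩
    · intro x y hxy
      have h3 := congrArg (fun v : VT Z b => v.1.1) hxy
      have h4 := congrArg (fun v : VT Z b => v.1.2) hxy
      exact Subtype.ext (Prod.ext (φ.injective h3) h4)
    · rintro x y (⟨h3, h4⟩ | ⟨h3, h4, h5, h6⟩)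
      · exact Or.inl ⟨congrArg φ h3, h4⟩
      · exact Or.inr ⟨h3, h4, fun h => h5 (φ.injective h), h2 _ _ h5 h6⟩

end Pool.Agent.V11229.DS
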