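import Pool.Agent.V11229.DStar

/-!
# Placing double stars: the combinatorial core
-/

namespace Pool.Agent.V11229.DS

/-- number of leaves (relative to the block) of the host centres -/
def fH (n p q : ℕ) (s : Bool) : ℕ :=
  if p < n then (if q < n then (if s = true then q + 1 else q) else (if s = true then n else 0))
  else (if q < n then (if s = true then 1 else 0) else 0)

/-- number of leaves (relative to the block) of the pattern centres -/
def fP (n k p q : ℕ) (s : Bool) : ℕ :=
  if s = true then (if p < n then (if q < n then q + 1 else 0) else (if q < k then 1 else 0))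
  else (if p < n then (if q < n then q else 0) else 0)

/-- number of leaves of the host centres -/
def aH (n p q : ℕ) (s : Bool) : ℕ := (n + 2) * (p + 1) + fH n p q s

/-- number of leaves of the pattern centres -/
def aP (n k p q : ℕ) (s : Bool) : ℕ := (n + 2) * (p + 1) + fP n k p q s

/-- the pairs that carry a double star -/
def con (n : ℕ) (g : ℕ → ℕ → Bool) (p q : ℕ) : Bool :=
  !(decide (p = q)) && (decide (p = n) || (decide (q = n) || g p q))

theorem con_symm {n : ℕ} {g : ℕ → ℕ → Bool} {p q : ℕ} (hg : g p q = g q p) :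
    con n g p q = con n g q p := by
  unfold con
  rw [hg]
  by_cases h : p = q
  · subst h; rfl
  · have h' : q ≠ p := fun e => h e.symm
    simp only [h, h', decide_false]
    cases decide (p = n) <;> cases decide (q = n) <;> rfl

/-- the centres -/
abbrev ZT (n : ℕ) : Type := (Fin (n + 1) × Fin (n + 1)) × Bool

/-- the joined centres of the host -/
def RH (n : ℕ) (g : ℕ → ℕ → Bool) (z w : ZT n) : Prop :=
  z.1.1 = w.1.2 ∧ z.1.2 = w.1.1 ∧ con n g z.1.1 z.1.2 = true ∧ z.2 ≠ w.2

/-- the joined centres of the pattern -/
def RP (n : ℕ) (g : ℕ → ℕ → Bool) (z w : ZT n) : Prop :=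
  z.1.1 = w.1.2 ∧ z.1.2 = w.1.1 ∧ con n g z.1.1 z.1.2 = true ∧ z.2 = false ∧ w.2 = false

section

variable {n k : ℕ} {g : ℕ → ℕ → Bool}

theorem RH_symm (hg : ∀ p q, g p q = g q p) {z w : ZT n} (h : RH n g z w) : RH n g w z := by
  obtain ⟨h1, h2, h3, h4⟩ := h
  refine ⟨h2.symm, h1.symm, ?_, h4.symm⟩
  rw [← h1, ← h2, ← con_symm (hg _ _)]
  exact h3

theorem RP_symm (hg : ∀ p q, g p q = g q p) {z w : ZT n} (h : RP n g z w) : RP n g w z := by
  obtain ⟨h1, h2, h3, h4, h5⟩ := h
  refine ⟨h2.symm, h1.symm, ?_, h5, h4⟩
  rw [← h1, ← h2, ← con_symm (hg _ _)]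
  exact h3

theorem mt_RH (hg : ∀ p q, g p q = g q p) : Mt (RH n g) := by
  intro z w w' h h'
  have h1 : RH n g z w := h.elim id (RH_symm hg)
  have h2 : RH n g z w' := h'.elim id (RH_symm hg)
  obtain ⟨a1, a2, _, a3⟩ := h1
  obtain ⟨b1, b2, _, b3⟩ := h2
  refine Prod.ext (Prod.ext (a2.symm.trans b2) (a1.symm.trans b1)) ?_
  revert a3 b3
  cases z.2 <;> cases w.2 <;> cases w'.2 <;> simp

theorem mt_RP (hg : ∀ p q, g p q = g q p) : Mt (RP n g) := by
  intro z w w' h h'
  have h1 : RP n g z w := h.elim id (RP_symm hg)
  have h2 : RP n g z w' := h'.elim id (RP_symm hg)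
  obtain ⟨a1, a2, _, _, a3⟩ := h1
  obtain ⟨b1, b2, _, _, b3⟩ := h2
  exact Prod.ext (Prod.ext (a2.symm.trans b2) (a1.symm.trans b1)) (a3.trans b3.symm)

theorem fH_lt (p q : ℕ) (s : Bool) : fH n p q s < n + 2 := by
  unfold fH
  split_ifs <;> omega

theorem fP_lt (p q : ℕ) (s : Bool) : fP n k p q s < n + 2 := by
  unfold fP
  split_ifs <;> omega

theorem aP_ge (p q : ℕ) (s : Bool) : 2 ≤ aP n k p q s := by
  unfold aP
  nlinarith [Nat.zero_le (fP n k p q s), Nat.zero_le (n * p)]

/-- The placement preserves the blocks. -/
theorem block_eq (φ : ZT n ≃ ZT n)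
    (h : ∀ z, aP n k z.1.1 z.1.2 z.2 ≤ aH n (φ z).1.1 (φ z).1.2 (φ z).2) (z : ZT n) :
    (φ z).1.1 = z.1.1 := by
  have hle : ∀ z : ZT n, (z.1.1 : ℕ) ≤ (φ z).1.1 := by
    intro z
    have h1 := h z
    unfold aP aH at h1
    have h2 := fH_lt (n := n) (φ z).1.1 (φ z).1.2 (φ z).2
    by_contra hc
    have h3 : ((φ z).1.1 : ℕ) + 1 ≤ z.1.1 := by omega
    have h4 : (n + 2) * (((φ z).1.1 : ℕ) + 1) + (n + 2) ≤ (n + 2) * ((z.1.1 : ℕ) + 1) := by
      nlinarith
    omega
  have hsum : ∑ z : ZT n, (z.1.1 : ℕ) = ∑ z : ZT n, ((φ z).1.1 : ℕ) :=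
    (Equiv.sum_comp φ (fun z : ZT n => (z.1.1 : ℕ))).symm
  have h1 := (Finset.sum_eq_sum_iff_of_le (fun z _ => hle z)).1 hsum z (Finset.mem_univ _)
  exact (Fin.ext h1).symm

theorem fine_le (φ : ZT n ≃ ZT n)
    (h : ∀ z, aP n k z.1.1 z.1.2 z.2 ≤ aH n (φ z).1.1 (φ z).1.2 (φ z).2) (z : ZT n) :
    fP n k z.1.1 z.1.2 z.2 ≤ fH n z.1.1 (φ z).1.2 (φ z).2 := by
  have h1 := h z
  have h2 := block_eq φ h z
  unfold aP aH at h1
  rw [h2] at h1
  omega

/-- A placement of the pattern in the host gives a clique. -/
theorem core_mp (hg : ∀ p q, g p q = g q p) (φ : ZT n ≃ ZT n)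
    (h : ∀ z, aP n k z.1.1 z.1.2 z.2 ≤ aH n (φ z).1.1 (φ z).1.2 (φ z).2)
    (hr : ∀ z w, RP n g z w → RH n g (φ z) (φ w)) :
    ∃ K : Finset (Fin n), K.card = k ∧ ∀ u ∈ K, ∀ v ∈ K, u ≠ v → g u v = false := by
  classical
  have hb := block_eq φ h
  have hf := fine_le φ h
  -- the image of a centre of a double star
  have hd : ∀ p q : Fin (n + 1), con n g p q = true →
      (φ ((p, q), false)).1 = (p, q) ∧ (φ ((q, p), false)).2 = !(φ ((p, q), false)).2 := by
    intro p q hc
    have h1 := hr ((p, q), false) ((q, p), false) ⟨rfl, rfl, hc, rfl, rfl⟩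
    obtain ⟨_, h3, _, h5⟩ := h1
    have h6 := hb ((p, q), false)
    have h7 := hb ((q, p), false)
    refine ⟨Prod.ext h6 ?_, ?_⟩
    · exact h3.trans h7
    · revert h5
      cases (φ ((p, q), false)).2 <;> cases (φ ((q, p), false)).2 <;> simp
  let e : Fin n → Fin (n + 1) := Fin.castSucc
  let N : Fin (n + 1) := Fin.last n
  have hcn : ∀ v : Fin n, con n g (e v) N = true := by
    intro v
    have h1 : (e v : ℕ) = v := rfl
    have h2 : (N : ℕ) = n := rfl
    have h3 := v.isLt
    unfold con
    rw [h1, h2]
    have h4 : (v : ℕ) ≠ n := by omega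
    simp [h4]
  let K : Finset (Fin n) := Finset.univ.filter (fun v => (φ ((e v, N), false)).2 = true)
  have hK : ∀ v, v ∈ K ↔ φ ((e v, N), false) = ((e v, N), true) := by
    intro v
    rw [Finset.mem_filter]
    constructor
    · rintro ⟨_, h1⟩
      exact Prod.ext (hd _ _ (hcn v)).1 h1
    · intro h1
      exact ⟨Finset.mem_univ _, by rw [h1]⟩
  -- the number of elements
  have hcard : k ≤ K.card := by
    have hs : ∀ q : Fin (n + 1), (q : ℕ) < k → ∃ v : Fin n, v ∈ K ∧
        φ ((N, q), true) = ((N, e v), true) := by
      intro q hq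
      have h1 := hf ((N, q), true)
      have h2 := hb ((N, q), true)
      have hN : ((N : Fin (n + 1)) : ℕ) = n := rfl
      simp only at h2
      have h3 : fP n k (N : ℕ) (q : ℕ) true = 1 := by
        unfold fP
        rw [hN]
        simp [hq]
      simp only at h1
      rw [h3] at h1
      have h4 : ((φ ((N, q), true)).1.2 : ℕ) < n ∧ (φ ((N, q), true)).2 = true := by
        unfold fH at h1
        rw [hN, if_neg (lt_irrefl n)] at h1
        split_ifs at h1 with h5 h6
        · exact ⟨h5, h6⟩
        · omega
        · omega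
      obtain ⟨v, h5⟩ : ∃ v : Fin n, φ ((N, q), true) = ((N, e v), true) :=
        ⟨⟨_, h4.1⟩, Prod.ext (Prod.ext h2 (Fin.ext rfl)) h4.2⟩
      refine ⟨v, ?_, h5⟩
      rw [hK]
      have h6 := hd _ _ (hcn v)
      have h7 := hd N (e v) (by rw [← con_symm (hg _ _)]; exact hcn _)
      refine Prod.ext h6.1 ?_
      by_contra h8
      have h9 : (φ ((e v, N), false)).2 = false := by simpa using h8
      have h10 : φ ((N, e v), false) = φ ((N, q), true) := by
        rw [h5]
        refine Prod.ext h7.1 ?_
        have := h6.2
        rw [h9] at this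
        simpa using this
      have h11 := congrArg Prod.snd (φ.injective h10)
      simp at h11
    have hs' : ∀ q : {q : Fin (n + 1) // (q : ℕ) < k}, ∃ v : Fin n, v ∈ K ∧
        φ ((N, q.1), true) = ((N, e v), true) := fun q => hs q.1 q.2
    choose t ht1 ht2 using hs'
    have hti : Function.Injective t := by
      intro q q' hqq
      have h1 : φ ((N, q.1), true) = φ ((N, q'.1), true) := by rw [ht2, ht2, hqq]
      have h2 := congrArg (fun z : ZT n => z.1.2) (φ.injective h1)
      exact Subtype.ext h2
    have h1 : Fintype.card {q : Fin (n + 1) // (q : ℕ) < k} ≤ K.card := by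
      rw [← Finset.card_univ, ← Finset.card_image_of_injective _ hti]
      apply Finset.card_le_card
      intro v hv
      obtain ⟨q, _, rfl⟩ := Finset.mem_image.1 hv
      exact ht1 q
    have h2 : K.card ≤ n := by simpa using Finset.card_le_univ K
    have h3 : min k (n + 1) ≤ Fintype.card {q : Fin (n + 1) // (q : ℕ) < k} := by
      have : Function.Injective (fun i : Fin (min k (n + 1)) =>
          (⟨⟨i.1, by have := i.2; omega⟩, by have := i.2; simp only; omega⟩ :
            {q : Fin (n + 1) // (q : ℕ) < k})) := by
        intro i j hij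
        have h4 := congrArg (fun q : {q : Fin (n + 1) // (q : ℕ) < k} => (q.1 : ℕ)) hij
        exact Fin.ext h4
      simpa using Fintype.card_le_of_injective _ this
    omega
  -- the clique property
  have hcl : ∀ u ∈ K, ∀ v ∈ K, u ≠ v → g u v = false := by
    intro u hu v hv huv
    by_contra hgt
    have hgt' : g u v = true := by simpa using hgt
    have hcon : ∀ x y : Fin n, x ≠ y → g x y = true → con n g (e x) (e y) = true := by
      intro x y hxy hgg
      have h1 : (e x : ℕ) = x := rfl
      have h2 : (e y : ℕ) = y := rfl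
      unfold con
      rw [h1, h2, hgg]
      have h4 : (x : ℕ) ≠ y := fun hh => hxy (Fin.ext hh)
      simp [h4]
    have key : ∀ x y : Fin n, x ∈ K → x ≠ y → g x y = true →
        (φ ((e x, e y), false)).2 = false := by
      intro x y hx hxy hgg
      by_contra h1
      have h2 : φ ((e x, e y), false) = ((e x, e y), true) :=
        Prod.ext (hd _ _ (hcon x y hxy hgg)).1 (by simpa using h1)
      have h3 := (hK x).1 hx
      let S : Finset (ZT n) := Finset.univ.filter
        (fun z => z.1.1 = e x ∧ (z.1.2 : ℕ) < n ∧ (y : ℕ) ≤ z.1.2)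
      have hS : ∀ z, z ∈ S ↔ z.1.1 = e x ∧ (z.1.2 : ℕ) < n ∧ (y : ℕ) ≤ z.1.2 := by
        intro z
        simp [S]
      have hyn : (y : ℕ) < n := y.isLt
      have hxn : ((e x : Fin (n + 1)) : ℕ) < n := x.isLt
      have hNn : ((N : Fin (n + 1)) : ℕ) = n := rfl
      have hA : (insert ((e x, N), false) S).card = S.card + 1 := by
        apply Finset.card_insert_of_notMem
        rw [hS]
        rintro ⟨_, h4, _⟩
        simp only [hNn] at h4
        omega
      have hB : (insert ((e x, N), true) (S.erase ((e x, e y), false))).card = S.card := by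
        rw [Finset.card_insert_of_notMem, Finset.card_erase_of_mem]
        · have : 0 < S.card := Finset.card_pos.2 ⟨((e x, e y), false), by
            rw [hS]; exact ⟨rfl, hyn, le_refl _⟩⟩
          omega
        · rw [hS]; exact ⟨rfl, hyn, le_refl _⟩
        · rw [Finset.mem_erase, hS]
          rintro ⟨_, _, h4, _⟩
          simp only [hNn] at h4
          omega
      have hsub : (insert ((e x, N), false) S).image φ ⊆
          insert ((e x, N), true) (S.erase ((e x, e y), false)) := by
        intro w hw
        obtain ⟨z, hz, rfl⟩ := Finset.mem_image.1 hw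
        rw [Finset.mem_insert] at hz ⊢
        rcases hz with rfl | hz
        · exact Or.inl h3
        · rw [hS] at hz
          obtain ⟨h4, h5, h6⟩ := hz
          by_cases h7 : z = ((e x, e y), false)
          · subst h7
            rw [h2]
            right
            rw [Finset.mem_erase, hS]
            exact ⟨by simp, rfl, hyn, le_refl _⟩
          · have h8 : (y : ℕ) + 1 ≤ fP n k z.1.1 z.1.2 z.2 := by
              unfold fP
              rw [h4, if_pos hxn, if_pos h5, if_pos hxn, if_pos h5]
              split_ifs with h9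
              · omega
              · have h10 : (y : ℕ) ≠ z.1.2 := by
                  intro h11
                  apply h7
                  refine Prod.ext (Prod.ext h4 (Fin.ext h11.symm)) ?_
                  simpa using h9
                omega
            have h9 := hf z
            have h10 := hb z
            have h11 : (y : ℕ) + 1 ≤ fH n z.1.1 (φ z).1.2 (φ z).2 := h8.trans h9
            rw [h4] at h10 h11
            unfold fH at h11
            rw [if_pos hxn] at h11
            by_cases h12 : ((φ z).1.2 : ℕ) < n
            · rw [if_pos h12] at h11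
              right
              rw [Finset.mem_erase, hS]
              refine ⟨?_, h10, h12, ?_⟩
              · intro h13
                rw [h13] at h11
                simp only [Bool.false_eq_true, if_false] at h11
                have : ((e y : Fin (n + 1)) : ℕ) = y := rfl
                omega
              · split_ifs at h11 <;> omega
            · rw [if_neg h12] at h11
              left
              refine Prod.ext (Prod.ext h10 (Fin.ext ?_)) ?_
              · have := (φ z).1.2.isLt
                rw [hNn]
                omega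
              · split_ifs at h11 with h13
                · exact h13
                · omega
      have h4 := Finset.card_le_card hsub
      rw [Finset.card_image_of_injective _ φ.injective, hA, hB] at h4
      omega
    have h1 := key u v hu huv hgt'
    have h2 := key v u hv huv.symm ((hg _ _).trans hgt')
    have h3 := (hd _ _ (hcon u v huv hgt')).2
    rw [h1, h2] at h3
    simp at h3
  obtain ⟨K', hK', hK''⟩ := Finset.exists_subset_card_eq hcard
  exact ⟨K', hK'', fun u hu v hv huv => hcl u (hK' hu) v (hK' hv) huv⟩

/-- which of the two hosts of a pair takes the double star -/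
def sOr (n : ℕ) (g : ℕ → ℕ → Bool) (inK : Fin (n + 1) → Bool) (p q : Fin (n + 1)) : Bool :=
  if (p : ℕ) = n then !(inK q) else if (q : ℕ) = n then inK p else
    if con n g p q = true then
      (if inK p = true then false else if inK q = true then true else decide (p < q)) else false

/-- the placement -/
def plc (n : ℕ) (g : ℕ → ℕ → Bool) (inK : Fin (n + 1) → Bool)
    (ρ : Fin (n + 1) → Equiv.Perm (Fin (n + 1))) (z : ZT n) : ZT n :=
  if z.2 = true then ((z.1.1, ρ z.1.1 z.1.2), !(sOr n g inK z.1.1 (ρ z.1.1 z.1.2)))
  else (z.1, sOr n g inK z.1.1 z.1.2)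

theorem plc_injective (inK : Fin (n + 1) → Bool) (ρ : Fin (n + 1) → Equiv.Perm (Fin (n + 1))) :
    Function.Injective (plc n g inK ρ) := by
  rintro ⟨⟨p, q⟩, s⟩ ⟨⟨p', q'⟩, s'⟩ h
  unfold plc at h
  cases s <;> cases s'
  · simp only [Bool.false_eq_true, if_false, Prod.mk.injEq] at h
    obtain ⟨⟨rfl, rfl⟩, _⟩ := h
    rfl
  · simp only [Bool.false_eq_true, if_false, if_true, Prod.mk.injEq] at h
    obtain ⟨⟨rfl, h1⟩, h2⟩ := h
    rw [h1] at h2
    cases hh : sOr n g inK p (ρ p q') <;> rw [hh] at h2 <;> simp at h2
  · simp only [Bool.false_eq_true, if_false, if_true, Prod.mk.injEq] at h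
    obtain ⟨⟨rfl, h1⟩, h2⟩ := h
    rw [← h1] at h2
    cases hh : sOr n g inK p (ρ p q) <;> rw [hh] at h2 <;> simp at h2
  · simp only [if_true, Prod.mk.injEq] at h
    obtain ⟨⟨rfl, h1⟩, _⟩ := h
    rw [(ρ p).injective h1]

/-- A clique gives a placement. -/
theorem core_mpr (hg : ∀ p q, g p q = g q p) (K : Finset (Fin n)) (hK : K.card = k)
    (hcl : ∀ u ∈ K, ∀ v ∈ K, u ≠ v → g u v = false) :
    ∃ φ : ZT n ≃ ZT n, (∀ z, aP n k z.1.1 z.1.2 z.2 ≤ aH n (φ z).1.1 (φ z).1.2 (φ z).2) ∧
      ∀ z w, RP n g z w → RH n g (φ z) (φ w) := by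
  classical
  let inK : Fin (n + 1) → Bool := fun p => decide (∃ v ∈ K, Fin.castSucc v = p)
  have hkn : k ≤ n := by
    rw [← hK]
    simpa using Finset.card_le_univ K
  have hinK : ∀ p, inK p = true → ∃ v ∈ K, Fin.castSucc v = p := fun p hp => by
    simpa [inK] using hp
  -- the permutation of the last block
  have hcards : Fintype.card {q : Fin (n + 1) // (q : ℕ) < k} =
      Fintype.card {q : Fin (n + 1) // inK q = true} := by
    have h1 : Fintype.card {q : Fin (n + 1) // (q : ℕ) < k} = k := by
      have e : {q : Fin (n + 1) // (q : ℕ) < k} ≃ Fin k :=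
        ⟨fun q => ⟨q.1, q.2⟩, fun i => ⟨⟨i.1, by have := i.2; omega⟩, i.2⟩, fun _ => rfl,
          fun _ => rfl⟩
      rw [Fintype.card_congr e, Fintype.card_fin]
    have h2 : Fintype.card {q : Fin (n + 1) // inK q = true} = K.card := by
      rw [Fintype.card_subtype]
      have : (Finset.univ.filter (fun q : Fin (n + 1) => inK q = true)) =
          K.image Fin.castSucc := by
        ext q
        simp [inK]
      rw [this, Finset.card_image_of_injective _ (Fin.castSucc_injective n)]
    rw [h1, h2, hK]
  let e0 := Fintype.equivOfCardEq hcards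
  let π : Equiv.Perm (Fin (n + 1)) := e0.extendSubtype
  have hπ : ∀ q : Fin (n + 1), (q : ℕ) < k → inK (π q) = true := fun q hq =>
    e0.extendSubtype_mem q hq
  let ρ : Fin (n + 1) → Equiv.Perm (Fin (n + 1)) := fun p =>
    if (p : ℕ) = n then π else if inK p = true then Equiv.refl _ else finRotate (n + 1)
  have hlt : ∀ p : Fin (n + 1), (p : ℕ) ≠ n → (p : ℕ) < n := fun p hp => by
    have := p.isLt
    omega
  refine ⟨Equiv.ofBijective (plc n g inK ρ)
    (Finite.injective_iff_bijective.1 (plc_injective inK ρ)), ?_, ?_⟩
  · rintro ⟨⟨p, q⟩, s⟩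
    change aP n k p q s ≤ aH n (plc n g inK ρ ((p, q), s)).1.1 (plc n g inK ρ ((p, q), s)).1.2
      (plc n g inK ρ ((p, q), s)).2
    have hp1 : (plc n g inK ρ ((p, q), s)).1.1 = p := by
      unfold plc
      split_ifs <;> rfl
    unfold aP aH
    rw [hp1]
    apply Nat.add_le_add_left
    cases s
    · -- double star centres
      unfold plc fP
      simp only [Bool.false_eq_true, if_false]
      unfold fH
      split_ifs <;> omega
    · -- star centres
      have hpl : plc n g inK ρ ((p, q), true) = ((p, ρ p q), !(sOr n g inK p (ρ p q))) := rfl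
      rw [hpl]
      simp only
      by_cases hp : (p : ℕ) = n
      · have h1 : ρ p = π := if_pos hp
        rw [h1]
        unfold fP
        rw [if_pos rfl, if_neg (by omega)]
        by_cases hq : (q : ℕ) < k
        · rw [if_pos hq]
          have h2 := hπ q hq
          have h3 : sOr n g inK p (π q) = false := by
            unfold sOr
            rw [if_pos hp, h2]
            rfl
          obtain ⟨v, _, hv⟩ := hinK _ h2
          have h4 : ((π q : Fin (n + 1)) : ℕ) < n := by
            rw [← hv]
            exact v.isLt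
          rw [h3]
          unfold fH
          rw [if_neg (by omega), if_pos h4]
          simp
        · rw [if_neg hq]
          exact Nat.zero_le _
      · have hpn := hlt p hp
        by_cases hk : inK p = true
        · have h1 : ρ p = Equiv.refl _ := by
            simp only [ρ]
            rw [if_neg hp, if_pos hk]
          rw [h1]
          simp only [Equiv.refl_apply]
          unfold fP
          rw [if_pos rfl, if_pos hpn]
          by_cases hq : (q : ℕ) < n
          · have h3 : sOr n g inK p q = false := by
              unfold sOr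
              rw [if_neg hp, if_neg (by omega)]
              split_ifs <;> rfl
            rw [if_pos hq, h3]
            unfold fH
            rw [if_pos hpn, if_pos hq]
            simp
          · rw [if_neg hq]
            exact Nat.zero_le _
        · have h1 : ρ p = finRotate (n + 1) := by
            simp only [ρ]
            rw [if_neg hp, if_neg hk]
          rw [h1]
          unfold fP
          rw [if_pos rfl, if_pos hpn]
          by_cases hq : (q : ℕ) < n
          · have h4 : ((finRotate (n + 1) q : Fin (n + 1)) : ℕ) = q + 1 := by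
              have h5 : q ≠ Fin.last n := by
                intro h6
                rw [h6] at hq
                simp at hq
              exact coe_finRotate_of_ne_last h5
            rw [if_pos hq]
            unfold fH
            rw [if_pos hpn, h4]
            by_cases h5 : (q : ℕ) + 1 < n
            · rw [if_pos h5]
              split_ifs <;> omega
            · have h6 : (q : ℕ) + 1 = n := by omega
              have h3 : sOr n g inK p (finRotate (n + 1) q) = false := by
                unfold sOr
                rw [if_neg hp, if_pos (by rw [h4]; exact h6)]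
                simpa using hk
              rw [if_neg h5, h3]
              simp only [Bool.not_false, if_true]
              omega
          · rw [if_neg hq]
            exact Nat.zero_le _
  · rintro ⟨⟨p, q⟩, s⟩ ⟨⟨p', q'⟩, s'⟩ ⟨h1, h2, h3, h4, h5⟩
    simp only at h1 h2 h3 h4 h5
    subst h1 h2 h4 h5
    change RH n g (plc n g inK ρ ((p, q), false)) (plc n g inK ρ ((q, p), false))
    have e1 : plc n g inK ρ ((p, q), false) = ((p, q), sOr n g inK p q) := rfl
    have e2 : plc n g inK ρ ((q, p), false) = ((q, p), sOr n g inK q p) := rfl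
    rw [e1, e2]
    refine ⟨rfl, rfl, h3, ?_⟩
    simp only
    have h3' : con n g q p = true := by rw [← con_symm (hg _ _)]; exact h3
    have hne : (p : ℕ) ≠ q := by
      intro h
      unfold con at h3
      simp [h] at h3
    by_cases hp : (p : ℕ) = n
    · have hq : (q : ℕ) ≠ n := by omega
      unfold sOr
      rw [if_pos hp, if_neg hq, if_pos hp]
      cases inK q <;> simp
    · by_cases hq : (q : ℕ) = n
      · unfold sOr
        rw [if_neg hp, if_pos hq, if_pos hq]
        cases inK p <;> simp
      · unfold sOr
        rw [if_neg hp, if_neg hq, if_neg hq, if_neg hp, if_pos h3, if_pos h3']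
        by_cases hkp : inK p = true
        · by_cases hkq : inK q = true
          · exfalso
            obtain ⟨u, hu, hu'⟩ := hinK _ hkp
            obtain ⟨v, hv, hv'⟩ := hinK _ hkq
            have hup : (u : ℕ) = p := by rw [← hu']; rfl
            have hvq : (v : ℕ) = q := by rw [← hv']; rfl
            have h6 := hcl u hu v hv (fun h => hne (by rw [← hup, ← hvq, h]))
            rw [hup, hvq] at h6
            unfold con at h3
            rw [h6] at h3
            simp [hp, hq] at h3
          · simp [hkp, hkq]
        · by_cases hkq : inK q = true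
          · simp [hkp, hkq]
          · simp only [hkp, hkq]
            have h7 : p ≠ q := fun h => hne (by rw [h])
            rcases lt_or_gt_of_ne h7 with h8 | h8
            · simp [h8, h8.le, not_lt.2 h8.le]
            · simp [h8, h8.le, not_lt.2 h8.le]

theorem core (hg : ∀ p q, g p q = g q p) :
    (∃ φ : ZT n ≃ ZT n, (∀ z, aP n k z.1.1 z.1.2 z.2 ≤ aH n (φ z).1.1 (φ z).1.2 (φ z).2) ∧
      ∀ z w, RP n g z w → RH n g (φ z) (φ w)) ↔
    ∃ K : Finset (Fin n), K.card = k ∧ ∀ u ∈ K, ∀ v ∈ K, u ≠ v → g u v = false := by
  constructor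
  · rintro ⟨φ, h1, h2⟩
    exact core_mp hg φ h1 h2
  · rintro ⟨K, h1, h2⟩
    exact core_mpr hg K h1 h2

end

end Pool.Agent.V11229.DS
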