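import Pool.Agent.V11229.LMat

/-!
# Finite simple graphs as inputs, encoded by adjacency matrices
-/

namespace Pool.Agent.V11229

open Pool.Agent.NPC

/-- A finite simple graph with vertex set `{0, …, n-1}`. -/
structure FG where
  /-- the number of vertices -/
  n : ℕ
  /-- the graph -/
  G : SimpleGraph (Fin n)

/-- The adjacency matrix. -/
noncomputable def FG.mat (X : FG) : LMat Bool :=
  ⟨X.n, fun i j => open Classical in decide (X.G.Adj i j)⟩

theorem FG.mat_injective : Function.Injective FG.mat := by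
  classical
  rintro ⟨n, G⟩ ⟨n', G'⟩ h
  unfold FG.mat at h
  simp only [LMat.mk.injEq] at h
  obtain ⟨rfl, h⟩ := h
  have h' := eq_of_heq h
  congr 1
  ext i j
  have := congrFun (congrFun h' i) j
  simpa using this

/-- A graph is encoded by its adjacency matrix. -/
noncomputable instance : TEnc FG := ⟨fun X => toT X.mat, fun _ _ h => FG.mat_injective (TEnc.inj h)⟩

@[simp] theorem FG.mat_n (X : FG) : X.mat.n = X.n := rfl

theorem FG.mat_f (X : FG) (i j : Fin X.n) : X.mat.f i j = true ↔ X.G.Adj i j := by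
  simp [FG.mat]

theorem FG.ent_iff (X : FG) (i j : Fin X.n) : X.mat.ent false i j = true ↔ X.G.Adj i j := by
  have := LMat.ent_fin X.mat false i j
  rw [this]
  exact X.mat_f i j

/-- Being an adjacency matrix. -/
def okFG (M : LMat Bool) : Bool :=
  (List.range M.n).all (fun i => (List.range M.n).all (fun j =>
    decide (M.ent false i j = M.ent false j i) && (!(decide (i = j)) || !(M.ent false i j))))

theorem okFG_poly : Poly okFG := by
  unfold okFG
  refine Poly.allRange (n := fun M : LMat Bool => M.n) (p := fun M i =>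
    (List.range M.n).all (fun j => decide (M.ent false i j = M.ent false j i) &&
      (!(decide (i = j)) || !(M.ent false i j)))) (UPoly.lmat_n (by fun_prop)) ?_
  exact Poly.allRange (n := fun x : LMat Bool × ℕ => x.1.n)
    (p := fun x j => decide (x.1.ent false x.2 j = x.1.ent false j x.2) &&
      (!(decide (x.2 = j)) || !(x.1.ent false x.2 j))) (UPoly.lmat_n (by fun_prop)) (by fun_prop)

theorem okFG_iff (M : LMat Bool) : okFG M = true ↔ IsAdj M := by
  simp only [okFG, List.all_eq_true, List.mem_range, Bool.and_eq_true, decide_eq_true_eq,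
    Bool.or_eq_true, Bool.not_eq_true', decide_eq_false_iff_not]
  constructor
  · intro h
    refine ⟨fun u v => ?_, fun u => ?_⟩
    · have := (h u u.isLt v v.isLt).1
      rwa [LMat.ent_fin M false u v, LMat.ent_fin M false v u] at this
    · have := (h u u.isLt u u.isLt).2
      rw [LMat.ent_fin M false u u] at this
      simpa using this
  · rintro ⟨h1, h2⟩ i hi j hj
    refine ⟨?_, ?_⟩
    · rw [LMat.ent_lt M false hi hj, LMat.ent_lt M false hj hi]
      exact h1 _ _
    · by_cases hij : i = j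
      · right
        subst hij
        rw [LMat.ent_lt M false hi hj]
        exact h2 _
      · left
        exact hij

theorem FG.isAdj (X : FG) : IsAdj X.mat := by
  classical
  refine ⟨fun u v => ?_, fun u => ?_⟩
  · simp only [FG.mat]
    rw [Bool.eq_iff_iff]
    simp [X.G.adj_comm]
  · simp [FG.mat]

/-- The graph of a symmetric matrix. -/
abbrev FG.ofMat (M : LMat Bool) (h : IsAdj M) : FG where
  n := M.n
  G :=
    { Adj := fun i j => M.f i j = true
      symm := ⟨fun i j hij => by rw [h.1]; exact hij⟩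
      loopless := ⟨fun i hi => by rw [h.2] at hi; exact absurd hi (by simp)⟩ }

theorem FG.mat_ofMat (M : LMat Bool) (h : IsAdj M) : (FG.ofMat M h).mat = M := by
  classical
  unfold FG.mat FG.ofMat
  simp

/-- Membership in `NP` of a problem about graphs with further data. -/
theorem inNPP_FG {β γ : Type} [TEnc β] [TDec β] [TEnc γ] [TDec γ]
    {P : FG × β → Prop} {R : (LMat Bool × β) × γ → Bool} (hR : Poly R)
    (p : Polynomial ℕ)
    (h : ∀ a : FG × β, P a ↔ ∃ w : γ, sz w ≤ p.eval (sz (a.1.mat, a.2)) ∧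
      R ((a.1.mat, a.2), w) = true) : InNPP P := by
  refine inNPP_sub (fun a : FG × β => (a.1.mat, a.2)) (fun _ => rfl) hR p
    (fun y => okFG y.1) (okFG_poly.comp (NPC.Poly.fst NPC.Poly.id)) ?_ ?_ h
  · rintro ⟨M, b⟩ hM
    exact ⟨(FG.ofMat M ((okFG_iff M).1 hM), b), by simp [FG.mat_ofMat]⟩
  · intro a
    exact (okFG_iff _).2 a.1.isAdj

/-- Membership in `NP` of a problem about graphs. -/
theorem inNPP_FG' {γ : Type} [TEnc γ] [TDec γ]
    {P : FG → Prop} {R : LMat Bool × γ → Bool} (hR : Poly R)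
    (p : Polynomial ℕ)
    (h : ∀ a : FG, P a ↔ ∃ w : γ, sz w ≤ p.eval (sz a.mat) ∧ R (a.mat, w) = true) :
    InNPP P := by
  refine inNPP_sub (fun a : FG => a.mat) (fun _ => rfl) hR p okFG okFG_poly ?_ ?_ h
  · intro M hM
    exact ⟨FG.ofMat M ((okFG_iff M).1 hM), by simp [FG.mat_ofMat]⟩
  · intro a
    exact (okFG_iff _).2 a.isAdj

theorem sz_mat_gt (M : LMat Bool) : M.n < sz M := by
  have := length_lt_sz M.rows
  rw [LMat.length_rows] at this
  exact this

/-- The graph of a list of points with an adjacency function; loops are ignored and the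
adjacency is symmetrised. -/
abbrev FG.ofList {Λ : Type} [DecidableEq Λ] (vs : List Λ) (ad : Λ → Λ → Bool) : FG where
  n := vs.length
  G :=
    { Adj := fun i j => i ≠ j ∧ (ad vs[i] vs[j] = true ∨ ad vs[j] vs[i] = true)
      symm := ⟨fun i j hij => ⟨hij.1.symm, hij.2.symm⟩⟩
      loopless := ⟨fun i hi => hi.1 rfl⟩ }

theorem FG.mat_ofList {Λ : Type} [DecidableEq Λ] (vs : List Λ) (ad : Λ → Λ → Bool) :
    (FG.ofList vs ad).mat = ⟨vs.length, fun i j => !(decide (i = j)) &&
      (ad vs[i] vs[j] || ad vs[j] vs[i])⟩ := by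
  classical
  unfold FG.mat FG.ofList
  congr 1
  funext i j
  rw [Bool.eq_iff_iff]
  simp

theorem Poly.FG_ofList {α Λ : Type} [TEnc α] [TEnc Λ] [DecidableEq Λ] {vs : α → List Λ}
    {ad : α → Λ → Λ → Bool} (hvs : Poly vs)
    (had : Poly (fun p : (α × Λ) × Λ => ad p.1.1 p.1.2 p.2)) :
    Poly (fun a => FG.ofList (vs a) (ad a)) := by
  have h0 : Poly (fun a => (vs a).zipIdx) := NPC.Poly.zipIdx hvs
  have h1 : Poly (fun a => LMat.ofList (vs a).zipIdx (fun x y => !(decide (x.2 = y.2)) &&
      (ad a x.1 y.1 || ad a y.1 x.1))) := by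
    refine Poly.ofList (ad := fun a (x y : Λ × ℕ) => !(decide (x.2 = y.2)) &&
      (ad a x.1 y.1 || ad a y.1 x.1)) h0 ?_
    have e1 : Poly (fun p : (α × (Λ × ℕ)) × (Λ × ℕ) => ad p.1.1 p.1.2.1 p.2.1) :=
      had.comp (f := fun p : (α × (Λ × ℕ)) × (Λ × ℕ) => ((p.1.1, p.1.2.1), p.2.1)) (by fun_prop)
    have e2 : Poly (fun p : (α × (Λ × ℕ)) × (Λ × ℕ) => ad p.1.1 p.2.1 p.1.2.1) :=
      had.comp (f := fun p : (α × (Λ × ℕ)) × (Λ × ℕ) => ((p.1.1, p.2.1), p.1.2.1)) (by fun_prop)
    exact NPC.Poly.and (by fun_prop) (NPC.Poly.or e1 e2)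
  have h2 : ∀ a, (LMat.ofList (vs a).zipIdx (fun x y => !(decide (x.2 = y.2)) &&
      (ad a x.1 y.1 || ad a y.1 x.1))) = (FG.ofList (vs a) (ad a)).mat := by
    intro a
    rw [FG.mat_ofList]
    apply LMat.rows_injective
    unfold LMat.rows
    apply List.ext_getElem
    · simp
    · intro i hi hi'
      simp only [List.getElem_ofFn]
      apply List.ext_getElem
      · simp
      · intro j hj hj'
        simp [Fin.ext_iff]
  have h3 : Poly (fun a => (FG.ofList (vs a) (ad a)).mat) := h1.congr h2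
  exact h3

/-- The graph of a list of points is isomorphic to the graph on a type of labelled points. -/
theorem FG.ofList_iso {V Λ : Type} [DecidableEq Λ] (vs : List Λ) (hn : vs.Nodup) (c : V → Λ)
    (hc : Function.Injective c) (hmem : ∀ z, z ∈ vs ↔ ∃ x, c x = z) (ad : Λ → Λ → Bool)
    (H : SimpleGraph V)
    (hH : ∀ x y, H.Adj x y ↔ x ≠ y ∧ (ad (c x) (c y) = true ∨ ad (c y) (c x) = true)) :
    Nonempty ((FG.ofList vs ad).G ≃g H) := by
  obtain ⟨e, he⟩ := R671.exists_equiv vs hn c hc hmem
  refine ⟨⟨e, ?_⟩⟩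
  intro i j
  rw [hH, he i, he j, ne_eq, EmbeddingLike.apply_eq_iff_eq]

end Pool.Agent.V11229
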