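import Mathlib

/-!
# Continuous graphs and their half-chromatic number
-/

namespace Pool.Agent.V11229.Half

/-- The point of the closed edge `uv` at distance `t` from `u`, in barycentric coordinates. -/
noncomputable def seg {V : Type} (u v : V) (t : ℝ) : V → ℝ := open Classical in
  fun x => (if x = u then 1 - t else 0) + (if x = v then t else 0)

/-- The vertex `u` as a point of the continuous graph. -/
noncomputable def vtx {V : Type} (u : V) : V → ℝ := open Classical in
  fun x => if x = u then 1 else 0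

/-- `p` is a point of the continuous graph of `G`: a vertex or a point of a closed edge. -/
def IsPoint {V : Type} (G : SimpleGraph V) (p : V → ℝ) : Prop :=
  (∃ u, p = vtx u) ∨ ∃ u v, G.Adj u v ∧ ∃ t : ℝ, 0 ≤ t ∧ t ≤ 1 ∧ p = seg u v t

/-- `Path G p q l`: a path of length `l` from `p` to `q` inside the continuous graph, that is, a
sequence of moves, each inside a closed edge. -/
inductive Path {V : Type} (G : SimpleGraph V) (p : V → ℝ) : (V → ℝ) → ℝ → Prop
  | refl : Path G p p 0
  | step {u v : V} {s t l : ℝ} (h : Path G p (seg u v s) l) (huv : G.Adj u v)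
      (hs : 0 ≤ s ∧ s ≤ 1) (ht : 0 ≤ t ∧ t ≤ 1) : Path G p (seg u v t) (l + |s - t|)

/-- The closed ball with centre `p` and radius `r`. -/
def ball {V : Type} (G : SimpleGraph V) (p : V → ℝ) (r : ℝ) : Set (V → ℝ) :=
  {q | IsPoint G q ∧ ∃ l, l ≤ r ∧ Path G p q l}

/-- The continuous graph of `G` is `(1/2, c)`-colourable. -/
def HalfColorable {V : Type} (G : SimpleGraph V) (c : ℕ) : Prop :=
  ∃ (B : Set (Set (V → ℝ))) (f : Set (V → ℝ) → ℕ),
    (∀ b ∈ B, ∃ p, IsPoint G p ∧ b = ball G p (1 / 2)) ∧
    (∀ q, IsPoint G q → ∃ b ∈ B, q ∈ b) ∧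
    (∀ b ∈ B, f b < c) ∧
    ∀ b ∈ B, ∀ b' ∈ B, b ≠ b' → (b ∩ b').Nonempty → f b ≠ f b'

variable {V : Type} {G : SimpleGraph V}

theorem seg_left {u v : V} (h : u ≠ v) (t : ℝ) : seg u v t u = 1 - t := by
  simp [seg, h]

theorem seg_right {u v : V} (h : u ≠ v) (t : ℝ) : seg u v t v = t := by
  simp [seg, h.symm]

theorem seg_other {u v x : V} (h : x ≠ u) (h' : x ≠ v) (t : ℝ) : seg u v t x = 0 := by
  simp [seg, h, h']

theorem seg_zero (u v : V) : seg u v 0 = vtx u := by
  funext x
  simp [seg, vtx]

theorem seg_one (u v : V) : seg u v 1 = vtx v := by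
  funext x
  simp [seg, vtx]

theorem vtx_self (u : V) : vtx u u = 1 := by simp [vtx]

theorem vtx_ne {u x : V} (h : x ≠ u) : vtx u x = 0 := by simp [vtx, h]

theorem seg_comm (u v : V) (t : ℝ) : seg u v t = seg v u (1 - t) := by
  funext x
  simp only [seg]
  by_cases h1 : x = u <;> by_cases h2 : x = v <;> simp [h1, h2] <;> ring

theorem path_nonneg {p q : V → ℝ} {l : ℝ} (h : Path G p q l) : 0 ≤ l := by
  induction h with
  | refl => exact le_rfl
  | step h huv hs ht ih => exact add_nonneg ih (abs_nonneg _)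

/-- The coordinates are Lipschitz. -/
theorem path_coord {p q : V → ℝ} {l : ℝ} (h : Path G p q l) (x : V) : |p x - q x| ≤ l := by
  induction h with
  | refl => simp
  | @step u v s t l h huv hs ht ih =>
    have h1 : |seg u v s x - seg u v t x| ≤ |s - t| := by
      by_cases hu : x = u
      · subst hu
        rw [seg_left huv.ne, seg_left huv.ne]
        rw [show (1 - s) - (1 - t) = -(s - t) by ring, abs_neg]
      · by_cases hv : x = v
        · subst hv
          rw [seg_right huv.ne, seg_right huv.ne]
        · rw [seg_other hu hv, seg_other hu hv]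
          simp
    calc |p x - seg u v t x| ≤ |p x - seg u v s x| + |seg u v s x - seg u v t x| :=
          abs_sub_le _ _ _
      _ ≤ l + |s - t| := add_le_add ih h1

/-- The potential which is large in the middle of the edge `uv` and negative outside. -/
noncomputable def pot (u v : V) (x : V → ℝ) : ℝ := min (x u) (x v) - (1 - x u - x v)

theorem pot_step {u v a b : V} (huv : u ≠ v) (hab : a ≠ b) {s t : ℝ} (hs : 0 ≤ s ∧ s ≤ 1)
    (ht : 0 ≤ t ∧ t ≤ 1) : |pot u v (seg a b s) - pot u v (seg a b t)| ≤ |s - t| := by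
  obtain ⟨hs0, hs1⟩ := hs
  obtain ⟨ht0, ht1⟩ := ht
  unfold pot
  by_cases h1 : u = a
  · subst h1
    rw [seg_left hab, seg_left hab]
    by_cases h2 : v = b
    · subst h2
      rw [seg_right hab, seg_right hab]
      rcases le_total (1 - s) s with h3 | h3 <;> rcases le_total (1 - t) t with h4 | h4 <;>
        simp only [min_eq_left, min_eq_right, h3, h4] <;>
        rcases abs_cases (s - t) with h5 | h5 <;> rw [abs_le] <;> constructor <;> linarith
    · rw [seg_other huv.symm h2, seg_other huv.symm h2, min_eq_right (by linarith),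
        min_eq_right (by linarith)]
      rcases abs_cases (s - t) with h5 | h5 <;> rw [abs_le] <;> constructor <;> linarith
  · by_cases h2 : u = b
    · subst h2
      rw [seg_right hab, seg_right hab]
      by_cases h3 : v = a
      · subst h3
        rw [seg_left hab, seg_left hab]
        rcases le_total s (1 - s) with h3 | h3 <;> rcases le_total t (1 - t) with h4 | h4 <;>
          simp only [min_eq_left, min_eq_right, h3, h4] <;>
          rcases abs_cases (s - t) with h5 | h5 <;> rw [abs_le] <;> constructor <;> linarith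
      · rw [seg_other h3 huv.symm, seg_other h3 huv.symm, min_eq_right (by linarith),
          min_eq_right (by linarith)]
        rcases abs_cases (s - t) with h5 | h5 <;> rw [abs_le] <;> constructor <;> linarith
    · rw [seg_other h1 h2, seg_other h1 h2]
      by_cases h3 : v = a
      · subst h3
        rw [seg_left hab, seg_left hab, min_eq_left (by linarith), min_eq_left (by linarith)]
        rcases abs_cases (s - t) with h5 | h5 <;> rw [abs_le] <;> constructor <;> linarith
      · by_cases h4 : v = b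
        · subst h4
          rw [seg_right hab, seg_right hab, min_eq_left (by linarith),
            min_eq_left (by linarith)]
          rcases abs_cases (s - t) with h5 | h5 <;> rw [abs_le] <;> constructor <;> linarith
        · rw [seg_other h3 h4, seg_other h3 h4]
          simp

theorem path_pot {u v : V} (huv : u ≠ v) {p q : V → ℝ} {l : ℝ} (h : Path G p q l) :
    |pot u v p - pot u v q| ≤ l := by
  induction h with
  | refl => simp
  | @step a b s t l h hab hs ht ih =>
    calc |pot u v p - pot u v (seg a b t)| ≤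
          |pot u v p - pot u v (seg a b s)| + |pot u v (seg a b s) - pot u v (seg a b t)| :=
          abs_sub_le _ _ _
      _ ≤ l + |s - t| := add_le_add ih (pot_step huv hab.ne hs ht)

theorem point_nonneg {p : V → ℝ} (h : IsPoint G p) (x : V) : 0 ≤ p x := by
  rcases h with ⟨u, rfl⟩ | ⟨u, v, huv, t, h0, h1, rfl⟩
  · unfold vtx
    split_ifs <;> norm_num
  · unfold seg
    split_ifs <;> linarith

theorem point_vtx {p : V → ℝ} (h : IsPoint G p) {x : V} (hx : 1 ≤ p x) : p = vtx x := by
  rcases h with ⟨u, rfl⟩ | ⟨u, v, huv, t, h0, h1, rfl⟩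
  · by_cases hxu : x = u
    · rw [hxu]
    · rw [vtx_ne hxu] at hx
      norm_num at hx
  · by_cases hu : x = u
    · subst hu
      rw [seg_left huv.ne] at hx
      have : t = 0 := by linarith
      rw [this, seg_zero]
    · by_cases hv : x = v
      · subst hv
        rw [seg_right huv.ne] at hx
        have : t = 1 := by linarith
        rw [this, seg_one]
      · rw [seg_other hu hv] at hx
        norm_num at hx

/-- A point with two positive coordinates is inside an edge. -/
theorem point_edge {p : V → ℝ} (h : IsPoint G p) {u v : V} (huv : u ≠ v) (hu : 0 < p u)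
    (hv : 0 < p v) : G.Adj u v ∧ p = seg u v (p v) ∧ p u + p v = 1 := by
  rcases h with ⟨w, rfl⟩ | ⟨a, b, hab, t, h0, h1, rfl⟩
  · exfalso
    by_cases h1 : u = w
    · subst h1
      rw [vtx_ne huv.symm] at hv
      exact lt_irrefl _ hv
    · rw [vtx_ne h1] at hu
      exact lt_irrefl _ hu
  · have hua : u = a ∨ u = b := by
      by_contra hcon
      push Not at hcon
      rw [seg_other hcon.1 hcon.2] at hu
      exact lt_irrefl _ hu
    have hva : v = a ∨ v = b := by
      by_contra hcon
      push Not at hcon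
      rw [seg_other hcon.1 hcon.2] at hv
      exact lt_irrefl _ hv
    rcases hua with rfl | rfl
    · rcases hva with rfl | rfl
      · exact absurd rfl huv
      · rw [seg_right hab.ne, seg_left hab.ne]
        exact ⟨hab, rfl, by ring⟩
    · rcases hva with rfl | rfl
      · rw [seg_left hab.ne, seg_right hab.ne]
        exact ⟨hab.symm, seg_comm _ _ _, by ring⟩
      · exact absurd rfl huv

/-- Where the centre of a ball can be that contains the midpoint of the edge `uv`. -/
theorem mid_centre {p : V → ℝ} (hp : IsPoint G p) {u v : V} (huv : G.Adj u v)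
    (hm : seg u v (1 / 2) ∈ ball G p (1 / 2)) :
    (0 < p u ∧ 0 < p v) ∨ p = vtx u ∨ p = vtx v := by
  obtain ⟨_, l, hl, hpath⟩ := hm
  have h1 := path_pot huv.ne hpath
  have h2 : pot u v (seg u v (1 / 2)) = 1 / 2 := by
    unfold pot
    rw [seg_left huv.ne, seg_right huv.ne]
    norm_num
  rw [h2] at h1
  have h3 : 0 ≤ pot u v p := by
    have := abs_le.1 h1
    linarith
  have hu := point_nonneg hp u
  have hv := point_nonneg hp v
  by_cases h4 : 0 < p u ∧ 0 < p v
  · exact Or.inl h4
  · right
    have h5 : p u = 0 ∨ p v = 0 := by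
      by_contra hcon
      push Not at hcon
      exact h4 ⟨lt_of_le_of_ne hu (Ne.symm hcon.1), lt_of_le_of_ne hv (Ne.symm hcon.2)⟩
    unfold pot at h3
    rcases h5 with h5 | h5
    · rw [h5, min_eq_left hv] at h3
      exact Or.inr (point_vtx hp (by linarith))
    · rw [h5, min_eq_right hu] at h3
      exact Or.inl (point_vtx hp (by linarith))

theorem isPoint_vtx (u : V) : IsPoint G (vtx u) := Or.inl ⟨u, rfl⟩

theorem isPoint_seg {u v : V} (h : G.Adj u v) {t : ℝ} (h0 : 0 ≤ t) (h1 : t ≤ 1) :
    IsPoint G (seg u v t) := Or.inr ⟨u, v, h, t, h0, h1, rfl⟩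

/-- Movement inside an edge. -/
theorem seg_mem_ball {u v : V} (h : G.Adj u v) {s t : ℝ} (hs : 0 ≤ s ∧ s ≤ 1)
    (ht : 0 ≤ t ∧ t ≤ 1) (hst : |s - t| ≤ 1 / 2) : seg u v t ∈ ball G (seg u v s) (1 / 2) :=
  ⟨isPoint_seg h ht.1 ht.2, 0 + |s - t|, by linarith, Path.step Path.refl h hs ht⟩

/-- A ball which contains the vertex `u` and has its centre inside the edge `uv`. -/
theorem vtx_mem {p : V → ℝ} (hp : IsPoint G p) {u v : V} (huv : u ≠ v) (hu : 1 / 2 ≤ p u)
    (hv : 0 < p v) : vtx u ∈ ball G p (1 / 2) := by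
  obtain ⟨hadj, heq, hsum⟩ := point_edge hp huv (by linarith) hv
  have h1 := seg_mem_ball hadj (s := p v) (t := 0) ⟨hv.le, by linarith [point_nonneg hp u]⟩
    ⟨le_rfl, zero_le_one⟩ (by rw [sub_zero, abs_of_pos hv]; linarith)
  rw [seg_zero, ← heq] at h1
  exact h1

theorem mid_mem {p : V → ℝ} (hp : IsPoint G p) {u v : V} (huv : u ≠ v) (hu : 0 < p u)
    (hv : 0 < p v) : seg u v (1 / 2) ∈ ball G p (1 / 2) := by
  obtain ⟨hadj, heq, hsum⟩ := point_edge hp huv hu hv
  have h1 := seg_mem_ball hadj (s := p v) (t := 1 / 2) ⟨hv.le, by linarith⟩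
    (by norm_num) (by rw [abs_le]; constructor <;> linarith)
  rw [← heq] at h1
  exact h1

/-! ### Greedy colouring -/

open Finset in
theorem exists_low {V : Type} [DecidableEq V] (adj own : V → V → Prop)
    [DecidableRel adj] [DecidableRel own] (hsymm : ∀ u v, adj u v → adj v u)
    (h : ∀ u v, adj u v → own u v ∨ own v u) (C : ℕ) (S : Finset V)
    (hC : ∀ u ∈ S, (S.filter (fun v => adj u v ∧ own u v)).card ≤ C) (hS : S.Nonempty) :
    ∃ v ∈ S, (S.filter (fun w => adj v w)).card ≤ 2 * C := by
  by_contra hcon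
  push Not at hcon
  have h1 : ∑ v ∈ S, (S.filter (fun w => adj v w)).card ≤
      ∑ v ∈ S, ((S.filter (fun w => adj v w ∧ own v w)).card +
        (S.filter (fun w => adj w v ∧ own w v)).card) := by
    apply Finset.sum_le_sum
    intro v _
    refine (Finset.card_le_card ?_).trans (Finset.card_union_le _ _)
    intro w hw
    rw [Finset.mem_filter] at hw
    rw [Finset.mem_union, Finset.mem_filter, Finset.mem_filter]
    rcases h v w hw.2 with h2 | h2
    · exact Or.inl ⟨hw.1, hw.2, h2⟩
    · exact Or.inr ⟨hw.1, hsymm _ _ hw.2, h2⟩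
  have h2 : ∑ v ∈ S, (S.filter (fun w => adj w v ∧ own w v)).card =
      ∑ v ∈ S, (S.filter (fun w => adj v w ∧ own v w)).card := by
    simp only [Finset.card_filter]
    exact Finset.sum_comm
  rw [Finset.sum_add_distrib, h2] at h1
  have h3 : ∑ v ∈ S, (S.filter (fun w => adj v w ∧ own v w)).card ≤ ∑ _v ∈ S, C :=
    Finset.sum_le_sum hC
  have h4 : ∑ _v ∈ S, (2 * C + 1) ≤ ∑ v ∈ S, (S.filter (fun w => adj v w)).card :=
    Finset.sum_le_sum (fun v hv => hcon v hv)
  rw [Finset.sum_const, smul_eq_mul] at h3 h4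
  have h5 := hS.card_pos
  nlinarith

theorem greedy {V : Type} [DecidableEq V] (adj own : V → V → Prop)
    [DecidableRel adj] [DecidableRel own] (hsymm : ∀ u v, adj u v → adj v u)
    (hirr : ∀ u, ¬ adj u u)
    (h : ∀ u v, adj u v → own u v ∨ own v u) (C : ℕ) : ∀ (n : ℕ) (S : Finset V), S.card = n →
    (∀ u ∈ S, (S.filter (fun v => adj u v ∧ own u v)).card ≤ C) →
    ∃ f : V → Fin (2 * C + 1), ∀ u ∈ S, ∀ v ∈ S, adj u v → f u ≠ f v := by
  intro n
  induction n with
  | zero =>
    intro S hS _
    rw [Finset.card_eq_zero] at hS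
    subst hS
    exact ⟨fun _ => 0, fun u hu => absurd hu (Finset.notMem_empty u)⟩
  | succ n ih =>
    intro S hS hC
    obtain ⟨v, hv, hdeg⟩ := exists_low adj own hsymm h C S hC
      (Finset.card_pos.1 (by omega))
    obtain ⟨f, hf⟩ := ih (S.erase v) (by rw [Finset.card_erase_of_mem hv]; omega) (by
      intro u hu
      refine (Finset.card_le_card ?_).trans (hC u (Finset.mem_of_mem_erase hu))
      exact Finset.filter_subset_filter _ (Finset.erase_subset _ _))
    have hfree : ∃ c : Fin (2 * C + 1), c ∉ (S.filter (fun w => adj v w)).image f := by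
      by_contra hcon
      push Not at hcon
      have h1 : (Finset.univ : Finset (Fin (2 * C + 1))) ⊆
          (S.filter (fun w => adj v w)).image f := fun c _ => hcon c
      have h2 := (Finset.card_le_card h1).trans Finset.card_image_le
      rw [Finset.card_univ, Fintype.card_fin] at h2
      omega
    obtain ⟨c, hc⟩ := hfree
    refine ⟨fun w => if w = v then c else f w, ?_⟩
    intro u hu w hw huw
    by_cases h1 : u = v
    · by_cases h2 : w = v
      · exfalso
        rw [h1, h2] at huw
        exact hirr _ huw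
      · simp only [h1, if_true, if_neg h2]
        intro h3
        apply hc
        rw [h3, Finset.mem_image]
        exact ⟨w, Finset.mem_filter.2 ⟨hw, h1 ▸ huw⟩, rfl⟩
    · by_cases h2 : w = v
      · simp only [h2, if_true, if_neg h1]
        intro h3
        apply hc
        rw [← h3, Finset.mem_image]
        exact ⟨u, Finset.mem_filter.2 ⟨hu, hsymm _ _ (h2 ▸ huw)⟩, rfl⟩
      · simp only [if_neg h1, if_neg h2]
        exact hf u (Finset.mem_erase.2 ⟨h1, hu⟩) w (Finset.mem_erase.2 ⟨h2, hw⟩) huw

/-! ### The main inequality -/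

theorem colorable_of_half [Finite V] {c : ℕ} (h : HalfColorable G c) :
    G.Colorable (3 * c + 1) := by
  classical
  have : Fintype V := Fintype.ofFinite V
  obtain ⟨B, f, hball, hcov, hlt, hf⟩ := h
  let own : V → V → Prop := fun u v => ∃ p, IsPoint G p ∧ 1 / 2 ≤ p u ∧ 0 < p v ∧
    ball G p (1 / 2) ∈ B
  let cen : V → Prop := fun u => ball G (vtx u) (1 / 2) ∈ B
  let adj : V → V → Prop := fun u v => G.Adj u v ∧ ¬ cen u ∧ ¬ cen v
  have hown : ∀ u v, adj u v → own u v ∨ own v u := by
    rintro u v ⟨huv, hu, hv⟩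
    obtain ⟨b, hb, hm⟩ := hcov _ (isPoint_seg huv (t := 1 / 2) (by norm_num) (by norm_num))
    obtain ⟨p, hp, rfl⟩ := hball b hb
    rcases mid_centre hp huv hm with h1 | h1 | h1
    · obtain ⟨_, _, hsum⟩ := point_edge hp huv.ne h1.1 h1.2
      rcases le_total (1 / 2) (p u) with h2 | h2
      · exact Or.inl ⟨p, hp, h2, h1.2, hb⟩
      · exact Or.inr ⟨p, hp, by linarith, h1.1, hb⟩
    · rw [h1] at hb
      exact absurd hb hu
    · rw [h1] at hb
      exact absurd hb hv
  have hcount : ∀ u, (Finset.univ.filter (fun v => adj u v ∧ own u v)).card ≤ c := by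
    intro u
    have hch : ∀ v : V, ∃ p, (G.Adj u v ∧ own u v) → (IsPoint G p ∧ 1 / 2 ≤ p u ∧ 0 < p v ∧
        ball G p (1 / 2) ∈ B) := by
      intro v
      by_cases h1 : G.Adj u v ∧ own u v
      · obtain ⟨p, hp⟩ := h1.2
        exact ⟨p, fun _ => hp⟩
      · exact ⟨fun _ => 0, fun h2 => absurd h2 h1⟩
    choose P hP using hch
    have h1 : ((Finset.univ.filter (fun v => adj u v ∧ own u v)).image
        (fun v => f (ball G (P v) (1 / 2)))) ⊆ Finset.range c := by
      intro x hx
      rw [Finset.mem_image] at hx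
      obtain ⟨v, hv, rfl⟩ := hx
      rw [Finset.mem_filter] at hv
      exact Finset.mem_range.2 (hlt _ (hP v ⟨hv.2.1.1, hv.2.2⟩).2.2.2)
    have h2 := Finset.card_le_card h1
    rw [Finset.card_range, Finset.card_image_of_injOn] at h2
    · exact h2
    · intro v hv v' hv' heq
      by_contra hne
      have hv1 : adj u v ∧ own u v := by simpa using hv
      have hv2 : adj u v' ∧ own u v' := by simpa using hv'
      obtain ⟨p1, p2, p3, p4⟩ := hP v ⟨hv1.1.1, hv1.2⟩
      obtain ⟨q1, q2, q3, q4⟩ := hP v' ⟨hv2.1.1, hv2.2⟩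
      refine hf _ p4 _ q4 ?_ ?_ heq
      · intro hbb
        have hm := mid_mem p1 hv1.1.1.ne (by linarith) p3
        rw [hbb] at hm
        obtain ⟨_, heq2, hs2⟩ := point_edge q1 hv2.1.1.ne (by linarith) q3
        rcases mid_centre q1 hv1.1.1 hm with h3 | h3 | h3
        · have h4 : P v' v = 0 := by
            rw [heq2]
            exact seg_other hv1.1.1.ne.symm hne _
          linarith [h3.2]
        · have h4 : P v' v' = 0 := by
            rw [h3]
            exact vtx_ne hv2.1.1.ne.symm
          linarith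
        · have h4 : P v' u = 0 := by
            rw [h3]
            exact vtx_ne hv1.1.1.ne
          linarith
      · exact ⟨vtx u, vtx_mem p1 hv1.1.1.ne p2 p3, vtx_mem q1 hv2.1.1.ne q2 q3⟩
  obtain ⟨g, hg⟩ := greedy adj own (fun u v huv => ⟨huv.1.symm, huv.2.2, huv.2.1⟩)
    (fun u hu => G.irrefl hu.1) hown c _ Finset.univ rfl (fun u _ => hcount u)
  let col : V → Fin c ⊕ Fin (2 * c + 1) := fun v =>
    if hv : cen v then .inl ⟨f (ball G (vtx v) (1 / 2)), hlt _ hv⟩ else .inr (g v)
  have hproper : ∀ {u v : V}, G.Adj u v → col u ≠ col v := by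
    intro u v huv
    by_cases hu : cen u
    · by_cases hv : cen v
      · simp only [col, dif_pos hu, dif_pos hv]
        intro heq
        have h1 := congrArg Fin.val (Sum.inl_injective heq)
        refine hf _ hu _ hv ?_ ?_ h1
        · intro hbb
          have h2 : vtx u ∈ ball G (vtx u) (1 / 2) :=
            ⟨isPoint_vtx u, 0, by norm_num, Path.refl⟩
          rw [hbb] at h2
          obtain ⟨_, l, hl, hpath⟩ := h2
          have h3 := path_coord hpath u
          rw [vtx_self, vtx_ne huv.ne] at h3
          norm_num at h3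
          linarith
        · refine ⟨seg u v (1 / 2), ?_, ?_⟩
          · have h2 := seg_mem_ball huv (s := 0) (t := 1 / 2) (by norm_num) (by norm_num)
              (by rw [zero_sub, abs_neg, abs_of_pos] <;> norm_num)
            rwa [seg_zero] at h2
          · have h2 := seg_mem_ball huv (s := 1) (t := 1 / 2) (by norm_num) (by norm_num)
              (by rw [abs_of_pos] <;> norm_num)
            rwa [seg_one] at h2
      · simp only [col, dif_pos hu, dif_neg hv]
        exact Sum.inl_ne_inr
    · by_cases hv : cen v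
      · simp only [col, dif_neg hu, dif_pos hv]
        exact Sum.inr_ne_inl
      · simp only [col, dif_neg hu, dif_neg hv]
        intro heq
        exact hg u (Finset.mem_univ _) v (Finset.mem_univ _) ⟨huv, hu, hv⟩
          (Sum.inr_injective heq)
  have hcol := (SimpleGraph.Coloring.mk col hproper).colorable
  have hcard : Fintype.card (Fin c ⊕ Fin (2 * c + 1)) = 3 * c + 1 := by
    rw [Fintype.card_sum, Fintype.card_fin, Fintype.card_fin]
    ring
  rw [hcard] at hcol
  exact hcol

/-- The trivial inequality. -/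
theorem half_of_colorable {c : ℕ} (h : G.Colorable c) : HalfColorable G c := by
  classical
  obtain ⟨C⟩ := h
  have hinj : ∀ u v : V, ball G (vtx u) (1 / 2) = ball G (vtx v) (1 / 2) → u = v := by
    intro u v hbb
    by_contra huv
    have h2 : vtx u ∈ ball G (vtx u) (1 / 2) := ⟨isPoint_vtx u, 0, by norm_num, Path.refl⟩
    rw [hbb] at h2
    obtain ⟨_, l, hl, hpath⟩ := h2
    have h3 := path_coord hpath u
    rw [vtx_self, vtx_ne huv] at h3
    norm_num at h3
    linarith
  let f : Set (V → ℝ) → ℕ := fun b =>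
    if hb : ∃ u, ball G (vtx u) (1 / 2) = b then (C hb.choose : ℕ) else 0
  have hfu : ∀ u, f (ball G (vtx u) (1 / 2)) = C u := by
    intro u
    have hb : ∃ w, ball G (vtx w) (1 / 2) = ball G (vtx u) (1 / 2) := ⟨u, rfl⟩
    have h1 : hb.choose = u := hinj _ _ hb.choose_spec
    simp only [f, dif_pos hb]
    rw [h1]
  refine ⟨Set.range (fun u => ball G (vtx u) (1 / 2)), f, ?_, ?_, ?_, ?_⟩
  · rintro _ ⟨u, rfl⟩
    exact ⟨vtx u, isPoint_vtx u, rfl⟩
  · intro q hq
    rcases hq with ⟨u, rfl⟩ | ⟨u, v, huv, t, h0, h1, rfl⟩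
    · exact ⟨_, ⟨u, rfl⟩, isPoint_vtx u, 0, by norm_num, Path.refl⟩
    · rcases le_total t (1 / 2) with h2 | h2
      · refine ⟨_, ⟨u, rfl⟩, ?_⟩
        have h3 := seg_mem_ball huv (s := 0) (t := t) (by norm_num) ⟨h0, h1⟩
          (by rw [zero_sub, abs_neg, abs_of_nonneg h0]; exact h2)
        rwa [seg_zero] at h3
      · refine ⟨_, ⟨v, rfl⟩, ?_⟩
        have h3 := seg_mem_ball huv (s := 1) (t := t) (by norm_num) ⟨h0, h1⟩
          (by rw [abs_of_nonneg (by linarith)]; linarith)
        rwa [seg_one] at h3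
  · rintro _ ⟨u, rfl⟩
    simp only
    rw [hfu]
    exact (C u).isLt
  · rintro _ ⟨u, rfl⟩ _ ⟨v, rfl⟩ hne ⟨q, hq1, hq2⟩
    simp only at hne ⊢
    rw [hfu, hfu]
    have huv : u ≠ v := fun h => hne (by rw [h])
    obtain ⟨hqp, l, hl, hpath⟩ := hq1
    obtain ⟨_, l', hl', hpath'⟩ := hq2
    have h1 := (abs_le.1 (path_coord hpath u)).2
    have h2 := (abs_le.1 (path_coord hpath' v)).2
    rw [vtx_self] at h1 h2
    have hadj := (point_edge hqp huv (by linarith) (by linarith)).1
    intro heq
    exact C.valid hadj (Fin.ext heq)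

end Pool.Agent.V11229.Half
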