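import Pool.Agent.V11229.FG
import Pool.Agent.V11229.Tuples
import Pool.Agent.H642R2.TMSim

/-!
# Replacing small instances of graph problems by trivial ones
-/

namespace Pool.Agent.V11229

open Pool.Agent.NPC

/-- Composition of a polynomial-time map to encoded data with a polynomial-time function. -/
theorem polyTime_then {α β : Type} [TEnc α] [TEnc β] {f : List Bool → α} {g : α → β}
    (hf : PolyTime (fun x => bits (f x))) (hg : Poly g) : PolyTime (fun x => bits (g (f x))) := by
  have h1 : PC (fun x : List Bool => x) (bits : α → List Bool) f := by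
    obtain ⟨c, p, h⟩ := H642R2.TMSim.polyTime_toPC hf
    exact ⟨c, p, h⟩
  obtain ⟨c, p, h⟩ := PC.comp (g := g) (f := f) hg h1
  exact PC.toPolyTime ⟨c, p, h⟩

theorem Poly.fg_mat {α : Type} [TEnc α] {f : α → FG} (h : Poly f) : Poly (fun a => (f a).mat) := by
  have h1 : Poly (fun X : FG => X.mat) := by
    obtain ⟨c, p, hc⟩ := (NPC.Poly.id : Poly (fun X : FG => X))
    exact ⟨c, p, hc⟩
  exact h1.comp h

/-- The list `l` is a proper colouring with `k` colours. -/
def okCol (M : LMat Bool) (k : ℕ) (l : List ℕ) : Bool :=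
  (List.range M.n).all (fun i => decide (l.getD i 0 < k) && (List.range M.n).all (fun j =>
    !(M.ent false i j) || !(decide (l.getD i 0 = l.getD j 0))))

/-- Brute force colouring of graphs with at most `n0` vertices. -/
def colB (n0 : ℕ) (M : LMat Bool) (k : ℕ) : Bool := anyT n0 (M.n + 1) [] (okCol M k)

theorem okCol_iff (X : FG) (k : ℕ) (l : List ℕ) : okCol X.mat k l = true ↔
    ∀ i : Fin X.n, l.getD i 0 < k ∧ ∀ j : Fin X.n, X.G.Adj i j → l.getD i 0 ≠ l.getD j 0 := by
  unfold okCol
  simp only [List.all_eq_true, List.mem_range, Bool.and_eq_true, decide_eq_true_eq,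
    Bool.or_eq_true, Bool.not_eq_true', decide_eq_false_iff_not, FG.mat_n]
  constructor
  · intro h i
    refine ⟨(h i i.isLt).1, fun j hij => ?_⟩
    rcases (h i i.isLt).2 j j.isLt with h1 | h1
    · rw [(X.ent_iff i j).2 hij] at h1
      exact absurd h1 (by simp)
    · exact h1
  · intro h i hi
    refine ⟨(h ⟨i, hi⟩).1, fun j hj => ?_⟩
    by_cases hij : X.mat.ent false i j = true
    · exact Or.inr ((h ⟨i, hi⟩).2 ⟨j, hj⟩ ((X.ent_iff ⟨i, hi⟩ ⟨j, hj⟩).1 hij))
    · left
      simpa using hij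

theorem colB_iff {n0 : ℕ} (X : FG) (k : ℕ) (hn : X.n ≤ n0) :
    colB n0 X.mat k = true ↔ X.G.Colorable k := by
  unfold colB
  rw [anyT_iff]
  constructor
  · rintro ⟨l, hl, _, h⟩
    rw [List.append_nil, okCol_iff] at h
    exact ⟨SimpleGraph.Coloring.mk (fun i => (⟨l.getD i 0, (h i).1⟩ : Fin k)) (by
      intro i j hij heq
      exact (h i).2 j hij (congrArg Fin.val heq))⟩
  · intro h
    obtain ⟨c, h1, h2, h3⟩ : ∃ c : Fin X.n → ℕ, (∀ i, c i < k) ∧ (∀ i, c i < X.n + 1) ∧
        ∀ i j, X.G.Adj i j → c i ≠ c j := by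
      rcases Nat.lt_or_ge X.n k with hk | hk
      · exact ⟨fun i => i, fun i => i.isLt.trans hk, fun i => i.isLt.trans (Nat.lt_succ_self _),
          fun i j hij heq => hij.ne (Fin.ext heq)⟩
      · obtain ⟨C⟩ := h
        exact ⟨fun i => C i, fun i => (C i).isLt,
          fun i => ((C i).isLt.trans_le hk).trans (Nat.lt_succ_self _),
          fun i j hij heq => C.valid hij (Fin.ext heq)⟩
    refine ⟨(List.range n0).map (fun i => if h : i < X.n then c ⟨i, h⟩ else 0), by simp, ?_, ?_⟩
    · intro x hx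
      rw [List.mem_map] at hx
      obtain ⟨i, _, rfl⟩ := hx
      rw [FG.mat_n]
      split_ifs with hi
      · exact h2 _
      · omega
    · have hg : ∀ i : Fin X.n, ((List.range n0).map
          (fun i => if h : i < X.n then c ⟨i, h⟩ else 0)).getD i 0 = c i := by
        intro i
        have hi : i.val < n0 := by omega
        rw [List.getD_eq_getElem _ _ (by simpa using hi)]
        simp
      rw [List.append_nil, okCol_iff]
      intro i
      rw [hg]
      refine ⟨h1 i, fun j hij => ?_⟩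
      rw [hg]
      exact h3 i j hij

/-- The graph with `n` vertices and no edges. -/
def emptyFG (n : ℕ) : FG := ⟨n, ⊥⟩

/-- Small instances are replaced by trivial ones. -/
noncomputable def small (n0 : ℕ) (I : FG × ℕ) : FG × ℕ :=
  if n0 ≤ I.1.n then I else if colB n0 I.1.mat I.2 = true then (emptyFG 0, 0) else (emptyFG 1, 0)

theorem colB_poly {α : Type} [TEnc α] (n0 : ℕ) {M : α → LMat Bool} {k : α → ℕ} (hM : Poly M)
    (hk : Poly k) : Poly (fun a => colB n0 (M a) (k a)) := by
  unfold colB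
  refine Poly.anyT n0 (n := fun a => (M a).n + 1) (acc := fun _ => [])
    (p := fun a => okCol (M a) (k a)) (UPoly.add (UPoly.lmat_n hM) (UPoly.const 1))
    (NPC.Poly.const _) ?_
  unfold okCol
  have hM' : Poly (fun x : α × List ℕ => M x.1) := hM.comp (NPC.Poly.fst NPC.Poly.id)
  have hk' : Poly (fun x : α × List ℕ => k x.1) := hk.comp (NPC.Poly.fst NPC.Poly.id)
  refine Poly.allRange (n := fun x : α × List ℕ => (M x.1).n) (p := fun x i =>
    decide (x.2.getD i 0 < k x.1) && (List.range (M x.1).n).all (fun j =>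
      !((M x.1).ent false i j) || !(decide (x.2.getD i 0 = x.2.getD j 0))))
    (UPoly.lmat_n hM') ?_
  have hM2 : Poly (fun x : (α × List ℕ) × ℕ => M x.1.1) :=
    hM.comp (f := fun x : (α × List ℕ) × ℕ => x.1.1) (by fun_prop)
  have hk2 : Poly (fun x : (α × List ℕ) × ℕ => k x.1.1) :=
    hk.comp (f := fun x : (α × List ℕ) × ℕ => x.1.1) (by fun_prop)
  refine NPC.Poly.and (by fun_prop) ?_
  have hM3 : Poly (fun x : ((α × List ℕ) × ℕ) × ℕ => M x.1.1.1) :=
    hM.comp (f := fun x : ((α × List ℕ) × ℕ) × ℕ => x.1.1.1) (by fun_prop)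
  exact Poly.allRange (n := fun x : (α × List ℕ) × ℕ => (M x.1.1).n) (p := fun x j =>
    !((M x.1.1).ent false x.2 j) || !(decide (x.1.2.getD x.2 0 = x.1.2.getD j 0)))
    (UPoly.lmat_n hM2) (by fun_prop)

theorem small_poly (n0 : ℕ) : Poly (small n0) := by
  unfold small
  have hm : Poly (fun I : FG × ℕ => I.1.mat) := Poly.fg_mat (NPC.Poly.fst NPC.Poly.id)
  have hn : Poly (fun I : FG × ℕ => I.1.n) := Poly.lmat_n hm
  refine NPC.Poly.ite (p := fun I : FG × ℕ => n0 ≤ I.1.n) (by fun_prop) NPC.Poly.id ?_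
  refine NPC.Poly.ite (p := fun I : FG × ℕ => colB n0 I.1.mat I.2 = true) ?_
    (NPC.Poly.const _) (NPC.Poly.const _)
  have h1 := colB_poly n0 hm (NPC.Poly.snd NPC.Poly.id)
  refine h1.congr (fun I => ?_)
  cases colB n0 I.1.mat I.2 <;> rfl

end Pool.Agent.V11229
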