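import Mathlib

/-!
# Locating-dominating coalition partitions of a twin-pair graph
-/

namespace Pool.Agent.V11229.Ldc

/-- Locating-dominating sets. -/
def IsLD {V : Type} (G : SimpleGraph V) (D : Set V) : Prop :=
  (∀ v, v ∉ D → ∃ w ∈ D, G.Adj v w) ∧
  ∀ u v, u ∉ D → v ∉ D → u ≠ v → G.neighborSet u ∩ D ≠ G.neighborSet v ∩ D

/-- The fibres of `π` form an LDC-partition with `m` parts. -/
def IsLDC {V : Type} (G : SimpleGraph V) {m : ℕ} (π : V → Fin m) : Prop :=
  Function.Surjective π ∧
    ∀ i, ¬ IsLD G (π ⁻¹' {i}) ∧ ∃ j, j ≠ i ∧ IsLD G (π ⁻¹' {i} ∪ π ⁻¹' {j})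

/-- There is an LDC-partition with at least `k` parts. -/
def HasLDC {V : Type} (G : SimpleGraph V) (k : ℕ) : Prop :=
  ∃ m, k ≤ m ∧ ∃ π : V → Fin m, IsLDC G π

theorem bne {a b c : Bool} (h1 : a ≠ c) (h2 : b ≠ c) : a = b := by
  cases a <;> cases b <;> cases c <;> simp_all

theorem twin_mem {V : Type} {G : SimpleGraph V} {D : Set V} (h : IsLD G D) {c c' : V}
    (hne : c ≠ c') (hN : G.neighborSet c = G.neighborSet c') : c ∈ D ∨ c' ∈ D := by
  by_contra hcon
  push Not at hcon
  exact h.2 c c' hcon.1 hcon.2 hne (by rw [hN])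

/-! ### The graph -/

/-- ground vertices: `none`, and `some (g, b)` -/
abbrev Gd (n : ℕ) : Type := Option (Fin n × Bool)

/-- test vertices -/
abbrev Ts (n r : ℕ) : Type := (Fin n × Bool × Bool) ⊕ Fin r

/-- vertices -/
abbrev VV (n r : ℕ) : Type := Gd n ⊕ Ts n r

variable {n r : ℕ} (L : Fin n → Finset (Fin n × Bool)) (α β : Fin r → Fin n)

/-- the neighbours of a test vertex -/
def nb : Ts n r → Finset (Gd n)
  | .inl (g, false, _) => {some (g, false), some (g, true)}
  | .inl (g, true, _) => {some (g, false), some (g, true)} ∪ (L g).image some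
  | .inr i => {none, some (α i, false), some (α i, true), some (β i, false), some (β i, true)}

/-- the graph -/
def GG : SimpleGraph (VV n r) where
  Adj x y := match x, y with
    | .inl e, .inr t => e ∈ nb L α β t
    | .inr t, .inl e => e ∈ nb L α β t
    | .inl _, .inl _ => False
    | .inr _, .inr _ => False
  symm := ⟨fun x y h => by
    rcases x with e | t <;> rcases y with e' | t'
    · exact h
    · exact h
    · exact h
    · exact h⟩
  loopless := ⟨fun x h => by
    rcases x with e | t
    · exact h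
    · exact h⟩

variable {L α β}

theorem adj_gt {e : Gd n} {t : Ts n r} : (GG L α β).Adj (.inl e) (.inr t) ↔ e ∈ nb L α β t := Iff.rfl

theorem adj_tg {e : Gd n} {t : Ts n r} : (GG L α β).Adj (.inr t) (.inl e) ↔ e ∈ nb L α β t := Iff.rfl

theorem nb_tw (g : Fin n) (k e : Bool) : nb L α β (.inl (g, k, e)) = nb L α β (.inl (g, k, !e)) := by
  cases k <;> rfl

theorem nset_tw (g : Fin n) (k e : Bool) : (GG L α β).neighborSet (.inr (.inl (g, k, e))) =
    (GG L α β).neighborSet (.inr (.inl (g, k, !e))) := by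
  ext x
  rcases x with x | x
  · change x ∈ nb L α β _ ↔ x ∈ nb L α β _
    rw [nb_tw]
  · exact Iff.rfl

theorem mem_nb_c {g h : Fin n} {b e : Bool} :
    (some (h, b) : Gd n) ∈ nb L α β (.inl (g, false, e)) ↔ h = g := by
  simp only [nb, Finset.mem_insert, Finset.mem_singleton, Option.some.injEq, Prod.mk.injEq]
  cases b <;> simp

theorem mem_nb_d {g h : Fin n} {b e : Bool} :
    (some (h, b) : Gd n) ∈ nb L α β (.inl (g, true, e)) ↔ h = g ∨ (h, b) ∈ L g := by
  simp only [nb, Finset.mem_union, Finset.mem_insert, Finset.mem_singleton, Option.some.injEq,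
    Prod.mk.injEq, Finset.mem_image, exists_eq_right]
  cases b <;> simp

theorem mem_nb_a {i : Fin r} {h : Fin n} {b : Bool} :
    (some (h, b) : Gd n) ∈ nb L α β (.inr i) ↔ h = α i ∨ h = β i := by
  simp only [nb, Finset.mem_insert, Finset.mem_singleton, Option.some.injEq, Prod.mk.injEq,
    reduceCtorEq, false_or]
  cases b <;> simp

theorem none_nb_l {g : Fin n} {k e : Bool} : (none : Gd n) ∉ nb L α β (.inl (g, k, e)) := by
  cases k <;> simp [nb]

theorem none_nb_a {i : Fin r} : (none : Gd n) ∈ nb L α β (.inr i) := by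
  simp [nb]

theorem card_nb (hL : ∀ g, (L g).card ≤ 3) (t : Ts n r) : (nb L α β t).card ≤ 5 := by
  rcases t with ⟨g, k, e⟩ | i
  · cases k
    · exact Finset.card_le_two.trans (by norm_num)
    · refine (Finset.card_union_le _ _).trans ?_
      have h1 : ((L g).image (some : Fin n × Bool → Gd n)).card ≤ 3 :=
        Finset.card_image_le.trans (hL g)
      have h2 : ({some (g, false), some (g, true)} : Finset (Gd n)).card ≤ 2 := Finset.card_le_two
      omega
  · exact Finset.card_le_five

/-! ### No coalition of all parts with one part -/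

theorem no_star (hL : ∀ g, (L g).card ≤ 3) {m : ℕ} (hr : 11 ≤ r) (hm : r + 3 ≤ m) (π : VV n r → Fin m) (i₀ : Fin m)
    (hX : ¬ IsLD (GG L α β) (π ⁻¹' {i₀}))
    (hs : ∀ i, i ≠ i₀ → IsLD (GG L α β) (π ⁻¹' {i₀} ∪ π ⁻¹' {i})) : False := by
  classical
  have hit : ∀ F : Finset (VV n r), (∀ i, i ≠ i₀ → ∃ v ∈ F, π v = i) → m ≤ F.card + 1 := by
    intro F hF
    have h1 : (Finset.univ.erase i₀) ⊆ F.image π := by
      intro i hi
      obtain ⟨v, hv, hv'⟩ := hF i (Finset.ne_of_mem_erase hi)
      exact Finset.mem_image.2 ⟨v, hv, hv'⟩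
    have h2 := (Finset.card_le_card h1).trans Finset.card_image_le
    rw [Finset.card_erase_of_mem (Finset.mem_univ _), Finset.card_univ, Fintype.card_fin] at h2
    omega
  have twX : ∀ (g : Fin n) (k e : Bool), π (.inr (.inl (g, k, e))) ≠ i₀ →
      π (.inr (.inl (g, k, !e))) = i₀ := by
    intro g k e h1
    by_contra h2
    have h3 := hit {.inr (.inl (g, k, e)), .inr (.inl (g, k, !e))} (by
      intro i hi
      have hne : (.inr (.inl (g, k, e)) : VV n r) ≠ .inr (.inl (g, k, !e)) := by
        cases e <;> simp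
      rcases twin_mem (hs i hi) hne (nset_tw g k e) with h | h
      · rcases h with h | h
        · exact absurd h h1
        · exact ⟨_, by simp, h⟩
      · rcases h with h | h
        · exact absurd h h2
        · exact ⟨_, by simp, h⟩)
    have h4 : ({.inr (.inl (g, k, e)), .inr (.inl (g, k, !e))} : Finset (VV n r)).card ≤ 2 :=
      Finset.card_le_two
    omega
  -- some clock vertex of each gadget is in the central part
  have hclock : ∀ g : Fin n, ∃ e, π (.inr (.inl (g, false, e))) = i₀ := by
    intro g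
    by_cases h : π (.inr (.inl (g, false, false))) = i₀
    · exact ⟨_, h⟩
    · exact ⟨_, twX g false false h⟩
  -- undominated vertices
  have caseU : ∀ v : VV n r, π v ≠ i₀ → (∀ w, π w = i₀ → ¬ (GG L α β).Adj v w) → False := by
    intro v hv hund
    rcases v with e | t
    · rcases e with _ | ⟨g, b⟩
      · have h3 := hit (insert (.inl none) (Finset.univ.image (fun i : Fin r => .inr (.inr i)))) (by
          intro i hi
          by_cases h : (.inl none : VV n r) ∈ π ⁻¹' {i₀} ∪ π ⁻¹' {i}
          · rcases h with h | h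
            · exact absurd h hv
            · exact ⟨_, Finset.mem_insert_self _ _, h⟩
          · obtain ⟨w, hw, hadj⟩ := (hs i hi).1 _ h
            rcases hw with hw | hw
            · exact absurd hadj (hund w hw)
            · rcases w with w | w
              · exact absurd hadj (fun h => h)
              · rcases w with ⟨g, k, e⟩ | j
                · exact absurd hadj none_nb_l
                · exact ⟨_, Finset.mem_insert_of_mem
                    (Finset.mem_image.2 ⟨j, Finset.mem_univ _, rfl⟩), hw⟩)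
        have h4 := Finset.card_insert_le (.inl none : VV n r)
          (Finset.univ.image (fun i : Fin r => (.inr (.inr i) : VV n r)))
        have h5 : (Finset.univ.image (fun i : Fin r => (.inr (.inr i) : VV n r))).card ≤ r :=
          Finset.card_image_le.trans (by simp)
        omega
      · obtain ⟨e, he⟩ := hclock g
        exact hund _ he (adj_gt.2 (mem_nb_c.2 rfl))
    · have h3 := hit (insert (.inr t) ((nb L α β t).image Sum.inl)) (by
        intro i hi
        by_cases h : (.inr t : VV n r) ∈ π ⁻¹' {i₀} ∪ π ⁻¹' {i}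
        · rcases h with h | h
          · exact absurd h hv
          · exact ⟨_, Finset.mem_insert_self _ _, h⟩
        · obtain ⟨w, hw, hadj⟩ := (hs i hi).1 _ h
          rcases hw with hw | hw
          · exact absurd hadj (hund w hw)
          · rcases w with w | w
            · exact ⟨_, Finset.mem_insert_of_mem (Finset.mem_image.2 ⟨w, hadj, rfl⟩), hw⟩
            · exact absurd hadj (fun h => h))
      have h4 := Finset.card_insert_le (.inr t : VV n r) ((nb L α β t).image Sum.inl)
      have h5 : ((nb L α β t).image (Sum.inl : Gd n → VV n r)).card ≤ 5 :=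
        Finset.card_image_le.trans (card_nb hL t)
      omega
  -- unseparated vertices
  have sep : ∀ u v : VV n r, u ≠ v → π u ≠ i₀ → π v ≠ i₀ → ∀ i, i ≠ i₀ → π u ≠ i → π v ≠ i →
      (GG L α β).neighborSet u ∩ π ⁻¹' {i₀} = (GG L α β).neighborSet v ∩ π ⁻¹' {i₀} →
      ∃ w, π w = i ∧ ¬ ((GG L α β).Adj u w ↔ (GG L α β).Adj v w) := by
    intro u v huv hu hv i hi hui hvi hN
    by_contra hcon
    push Not at hcon
    refine (hs i hi).2 u v ?_ ?_ huv ?_
    · rintro (h | h)
      · exact hu h
      · exact hui h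
    · rintro (h | h)
      · exact hv h
      · exact hvi h
    · ext w
      have e1 : w ∈ (GG L α β).neighborSet u ∩ π ⁻¹' {i₀} ↔
          w ∈ (GG L α β).neighborSet v ∩ π ⁻¹' {i₀} := by rw [hN]
      constructor
      · rintro ⟨h1, h2 | h2⟩
        · exact ⟨(e1.1 ⟨h1, h2⟩).1, Or.inl h2⟩
        · exact ⟨(hcon w h2).1 h1, Or.inr h2⟩
      · rintro ⟨h1, h2 | h2⟩
        · exact ⟨(e1.2 ⟨h1, h2⟩).1, Or.inl h2⟩
        · exact ⟨(hcon w h2).2 h1, Or.inr h2⟩
  have caseG : ∀ (g : Fin n) (b : Bool) (v : VV n r), (.inl (some (g, b)) : VV n r) ≠ v →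
      π (.inl (some (g, b))) ≠ i₀ → π v ≠ i₀ →
      (GG L α β).neighborSet (.inl (some (g, b))) ∩ π ⁻¹' {i₀} =
        (GG L α β).neighborSet v ∩ π ⁻¹' {i₀} → False := by
    intro g b v hne hu hv hN
    obtain ⟨e, he⟩ := hclock g
    have h0 : (some (g, b) : Gd n) ∈ nb L α β (.inl (g, false, e)) := mem_nb_c.2 rfl
    have h1 : (.inr (.inl (g, false, e)) : VV n r) ∈
        (GG L α β).neighborSet (.inl (some (g, b))) ∩ π ⁻¹' {i₀} := ⟨h0, he⟩
    rw [hN] at h1
    replace h1 : (GG L α β).Adj v (.inr (.inl (g, false, e))) := h1.1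
    rcases v with y | t
    · rcases y with _ | ⟨g', b'⟩
      · exact none_nb_l (adj_gt.1 h1)
      · have hg : g' = g := mem_nb_c.1 (adj_gt.1 h1)
        subst hg
        have hb : b' = !b := by
          cases b <;> cases b' <;> simp at hne ⊢
        subst hb
        have h3 := hit {.inl (some (g', b)), .inl (some (g', !b))} (by
          intro i hi
          by_contra hcon
          have hc1 : π (.inl (some (g', b))) ≠ i := fun h => hcon ⟨_, by simp, h⟩
          have hc2 : π (.inl (some (g', !b))) ≠ i := fun h => hcon ⟨_, by simp, h⟩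
          obtain ⟨w, hw, hsep⟩ := sep _ _ hne hu hv i hi hc1 hc2 hN
          rcases w with w | w
          · exact hsep Iff.rfl
          · rcases w with ⟨h, k, e'⟩ | j
            · have hwi : π (.inr (.inl (h, k, e'))) ≠ i₀ := by rw [hw]; exact hi
              have h4 := twX h k e' hwi
              apply hsep
              rw [adj_gt, adj_gt, nb_tw]
              have e1 : (.inr (.inl (h, k, !e')) : VV n r) ∈
                  (GG L α β).neighborSet (.inl (some (g', b))) ∩ π ⁻¹' {i₀} ↔
                  (.inr (.inl (h, k, !e')) : VV n r) ∈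
                  (GG L α β).neighborSet (.inl (some (g', !b))) ∩ π ⁻¹' {i₀} := by rw [hN]
              constructor
              · intro h5
                exact (e1.1 ⟨h5, h4⟩).1
              · intro h5
                exact (e1.2 ⟨h5, h4⟩).1
            · apply hsep
              rw [adj_gt, adj_gt, mem_nb_a, mem_nb_a])
        have h4 : ({.inl (some (g', b)), .inl (some (g', !b))} : Finset (VV n r)).card ≤ 2 :=
          Finset.card_le_two
        omega
    · exact h1
  -- a defect of the central part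
  apply hX
  refine ⟨fun v hv => ?_, fun u v hu hv huv hN => ?_⟩
  · by_contra hcon
    push Not at hcon
    exact caseU v hv (fun w hw => hcon w hw)
  · rcases u with y | t
    · rcases y with _ | ⟨g, b⟩
      · rcases v with y' | t'
        · rcases y' with _ | ⟨g', b'⟩
          · exact huv rfl
          · exact caseG g' b' _ huv.symm hv hu hN.symm
        · refine caseU _ hu (fun w hw hadj => ?_)
          have h1 : w ∈ (GG L α β).neighborSet (.inl none) ∩ π ⁻¹' {i₀} := ⟨hadj, hw⟩
          rw [hN] at h1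
          rcases w with w | w
          · exact hadj
          · exact h1.1
      · exact caseG g b _ huv hu hv hN
    · rcases v with y' | t'
      · rcases y' with _ | ⟨g', b'⟩
        · refine caseU _ hv (fun w hw hadj => ?_)
          have h1 : w ∈ (GG L α β).neighborSet (.inl none) ∩ π ⁻¹' {i₀} := ⟨hadj, hw⟩
          rw [← hN] at h1
          rcases w with w | w
          · exact hadj
          · exact h1.1
        · exact caseG g' b' _ huv.symm hv hu hN.symm
      · have h3 := hit ({.inr t, .inr t'} ∪ ((nb L α β t).image Sum.inl ∪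
            (nb L α β t').image Sum.inl)) (by
          intro i hi
          by_cases hc1 : π (.inr t) = i
          · exact ⟨_, by simp, hc1⟩
          by_cases hc2 : π (.inr t') = i
          · exact ⟨.inr t', by simp, hc2⟩
          obtain ⟨w, hw, hsep⟩ := sep _ _ huv hu hv i hi hc1 hc2 hN
          refine ⟨w, ?_, hw⟩
          rcases w with w | w
          · by_cases h5 : w ∈ nb L α β t
            · exact Finset.mem_union_right _ (Finset.mem_union_left _
                (Finset.mem_image.2 ⟨w, h5, rfl⟩))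
            · by_cases h6 : w ∈ nb L α β t'
              · exact Finset.mem_union_right _ (Finset.mem_union_right _
                  (Finset.mem_image.2 ⟨w, h6, rfl⟩))
              · exact absurd (by rw [adj_tg, adj_tg]; tauto) hsep
          · exact absurd Iff.rfl hsep)
        have h4 : ({.inr t, .inr t'} : Finset (VV n r)).card ≤ 2 := Finset.card_le_two
        have h5 : ((nb L α β t).image (Sum.inl : Gd n → VV n r)).card ≤ 5 :=
          Finset.card_image_le.trans (card_nb hL t)
        have h6 : ((nb L α β t').image (Sum.inl : Gd n → VV n r)).card ≤ 5 :=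
          Finset.card_image_le.trans (card_nb hL t')
        have h7 := Finset.card_union_le ({.inr t, .inr t'} : Finset (VV n r))
          ((nb L α β t).image Sum.inl ∪ (nb L α β t').image Sum.inl)
        have h8 := Finset.card_union_le ((nb L α β t).image (Sum.inl : Gd n → VV n r))
          ((nb L α β t').image Sum.inl)
        omega

/-! ### Two disjoint locating-dominating sets -/

/-- the condition encoded by the graph -/
def Good (L : Fin n → Finset (Fin n × Bool)) : Prop :=
  ∃ x : Fin n → Bool, ∀ g, (∃ p ∈ L g, p.2 = x p.1) ∧ ∃ p ∈ L g, p.2 ≠ x p.1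

theorem side {D E : Set (VV n r)} (hD : IsLD (GG L α β) D) (hE : IsLD (GG L α β) E)
    (hdis : ∀ v, v ∈ D → v ∉ E) (g : Fin n) (k : Bool) :
    ∃ e, (.inr (.inl (g, k, e)) : VV n r) ∉ D := by
  by_contra hcon
  push Not at hcon
  have hne : (.inr (.inl (g, k, false)) : VV n r) ≠ .inr (.inl (g, k, !false)) := by simp
  rcases twin_mem hE hne (nset_tw g k false) with h | h
  · exact hdis _ (hcon false) h
  · exact hdis _ (hcon true) h

theorem ground {D E : Set (VV n r)} (hD : IsLD (GG L α β) D) (hE : IsLD (GG L α β) E)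
    (hdis : ∀ v, v ∈ D → v ∉ E) (g : Fin n) : ∃ b, (.inl (some (g, b)) : VV n r) ∈ D := by
  obtain ⟨e, he⟩ := side hD hE hdis g false
  obtain ⟨w, hw, hadj⟩ := hD.1 _ he
  rcases w with w | w
  · rcases w with _ | ⟨h, b⟩
    · exact absurd hadj none_nb_l
    · have hh : h = g := mem_nb_c.1 hadj
      subst hh
      exact ⟨b, hw⟩
  · exact absurd hadj (fun h => h)

theorem lits {D E : Set (VV n r)} (hD : IsLD (GG L α β) D) (hE : IsLD (GG L α β) E)
    (hdis : ∀ v, v ∈ D → v ∉ E) (g : Fin n) :
    ∃ p ∈ L g, (.inl (some p) : VV n r) ∈ D := by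
  obtain ⟨e, he⟩ := side hD hE hdis g false
  obtain ⟨e', he'⟩ := side hD hE hdis g true
  by_contra hcon
  push Not at hcon
  refine hD.2 _ _ he he' (by simp) ?_
  ext w
  constructor
  · rintro ⟨h1, h2⟩
    refine ⟨?_, h2⟩
    rcases w with w | w
    · replace h1 : w ∈ nb L α β (.inl (g, false, e)) := h1
      change w ∈ nb L α β (.inl (g, true, e'))
      rcases w with _ | ⟨h, b⟩
      · exact absurd h1 none_nb_l
      · exact mem_nb_d.2 (Or.inl (mem_nb_c.1 h1))
    · exact h1
  · rintro ⟨h1, h2⟩
    refine ⟨?_, h2⟩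
    rcases w with w | w
    · replace h1 : w ∈ nb L α β (.inl (g, true, e')) := h1
      change w ∈ nb L α β (.inl (g, false, e))
      rcases w with _ | ⟨h, b⟩
      · exact absurd h1 none_nb_l
      · rcases mem_nb_d.1 h1 with h3 | h3
        · exact mem_nb_c.2 h3
        · exact absurd h2 (hcon _ h3)
    · exact h1

theorem good_of_two {D E : Set (VV n r)} (hD : IsLD (GG L α β) D) (hE : IsLD (GG L α β) E)
    (hdis : ∀ v, v ∈ D → v ∉ E) : Good L := by
  classical
  have hdis' : ∀ v, v ∈ E → v ∉ D := fun v h1 h2 => hdis v h2 h1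
  let x : Fin n → Bool := fun g => decide ((.inl (some (g, true)) : VV n r) ∈ D)
  have hmem : ∀ g b, (.inl (some (g, b)) : VV n r) ∈ D ↔ b = x g := by
    intro g b
    obtain ⟨b1, h1⟩ := ground hD hE hdis g
    obtain ⟨b2, h2⟩ := ground hE hD hdis' g
    by_cases h : (.inl (some (g, true)) : VV n r) ∈ D
    · have hx : x g = true := decide_eq_true h
      rw [hx]
      have hb2 : b2 = false := by
        by_contra hb
        rw [Bool.not_eq_false] at hb
        rw [hb] at h2
        exact hdis _ h h2
      rw [hb2] at h2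
      cases b
      · simp only [Bool.false_eq_true, iff_false]
        exact hdis' _ h2
      · simpa using h
    · have hx : x g = false := decide_eq_false h
      rw [hx]
      have hb1 : b1 = false := by
        by_contra hb
        rw [Bool.not_eq_false] at hb
        rw [hb] at h1
        exact h h1
      rw [hb1] at h1
      cases b
      · simpa using h1
      · simpa using h
  refine ⟨x, fun g => ⟨?_, ?_⟩⟩
  · obtain ⟨p, hp, hpD⟩ := lits hD hE hdis g
    exact ⟨p, hp, (hmem p.1 p.2).1 hpD⟩
  · obtain ⟨p, hp, hpE⟩ := lits hE hD hdis' g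
    exact ⟨p, hp, fun h => hdis' _ hpE ((hmem p.1 p.2).2 h)⟩

theorem good_of_hasLDC (hL : ∀ g, (L g).card ≤ 3) (hr : 11 ≤ r)
    (h : HasLDC (GG L α β) (r + 3)) : Good L := by
  obtain ⟨m, hm, π, _, hπ⟩ := h
  have hnl : ∀ i, ¬ IsLD (GG L α β) (π ⁻¹' {i}) := fun i => (hπ i).1
  have key : ∀ a b c d : Fin m, a ≠ c → a ≠ d → b ≠ c → b ≠ d →
      IsLD (GG L α β) (π ⁻¹' {a} ∪ π ⁻¹' {b}) → IsLD (GG L α β) (π ⁻¹' {c} ∪ π ⁻¹' {d}) →
      Good L := by
    intro a b c d h1 h2 h3 h4 hD hE
    refine good_of_two hD hE ?_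
    rintro v (hv | hv) (hv' | hv')
    · exact h1 (hv.symm.trans hv')
    · exact h2 (hv.symm.trans hv')
    · exact h3 (hv.symm.trans hv')
    · exact h4 (hv.symm.trans hv')
  by_contra hcon
  obtain ⟨b, hb, hab⟩ := (hπ ⟨0, by omega⟩).2
  set a : Fin m := ⟨0, by omega⟩ with ha
  -- the partner of a further part is `a` or `b`
  have hpart : ∀ i, i ≠ a → i ≠ b → IsLD (GG L α β) (π ⁻¹' {a} ∪ π ⁻¹' {i}) ∨
      IsLD (GG L α β) (π ⁻¹' {b} ∪ π ⁻¹' {i}) := by
    intro i hia hib
    obtain ⟨j, hj, hij⟩ := (hπ i).2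
    by_cases hja : j = a
    · left
      rw [hja] at hij
      rwa [Set.union_comm]
    · by_cases hjb : j = b
      · right
        rw [hjb] at hij
        rwa [Set.union_comm]
      · exact absurd (key a b i j (Ne.symm hia) (Ne.symm hja) (Ne.symm hib) (Ne.symm hjb) hab hij)
          hcon
  by_cases hA : ∀ i, i ≠ a → IsLD (GG L α β) (π ⁻¹' {a} ∪ π ⁻¹' {i})
  · exact no_star hL hr hm π a (hnl a) hA
  · by_cases hB : ∀ i, i ≠ b → IsLD (GG L α β) (π ⁻¹' {b} ∪ π ⁻¹' {i})
    · exact no_star hL hr hm π b (hnl b) hB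
    · push Not at hA hB
      obtain ⟨i, hia, hi⟩ := hA
      obtain ⟨j, hjb, hj⟩ := hB
      have hib : i ≠ b := by
        rintro rfl
        exact hi hab
      have hja : j ≠ a := by
        rintro rfl
        exact hj (by rwa [Set.union_comm])
      have h1 := (hpart i hia hib).resolve_left hi
      have h2 := (hpart j hja hjb).resolve_right hj
      have hij : i ≠ j := by
        rintro rfl
        exact hj h1
      exact hcon (key b i a j hb (Ne.symm hjb) hia hij h1 h2)

/-! ### The partition from a solution -/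

/-- the structural conditions -/
structure Str (L : Fin n → Finset (Fin n × Bool)) (α β : Fin r → Fin n) : Prop where
  own : ∀ g h b, (h, b) ∈ L g → h ≠ g
  two : ∀ g h b b', (h, b) ∈ L g → (g, b') ∈ L h → False
  ai : Function.Injective α
  ab : ∀ i j, α i ≠ β j
  la : ∀ i b, (β i, b) ∉ L (α i)
  lb : ∀ i b, (α i, b) ∉ L (β i)

/-- the sets used -/
def DD (σ : Fin n → Bool) (e : Bool) (w : Option (Fin r)) : Set (VV n r) := fun v => match v with
  | .inl (some (g, b)) => b = σ g
  | .inl none => w = none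
  | .inr (.inl (_, _, e')) => e' = e
  | .inr (.inr i) => w = some i

theorem isLD_DD (hS : Str L α β) (σ : Fin n → Bool) (e : Bool) (w : Option (Fin r))
    (hσ : ∀ g, ∃ p ∈ L g, p.2 = σ p.1) : IsLD (GG L α β) (DD σ e w) := by
  have hcl : ∀ g : Fin n, (.inr (.inl (g, false, e)) : VV n r) ∈ DD σ e w := fun g => rfl
  have hgr : ∀ g : Fin n, (.inl (some (g, σ g)) : VV n r) ∈ DD σ e w := fun g => rfl
  refine ⟨?_, ?_⟩
  · rintro (v | v) hv
    · rcases v with _ | ⟨g, b⟩
      · rcases w with _ | i
        · exact absurd rfl hv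
        · exact ⟨.inr (.inr i), rfl, none_nb_a⟩
      · exact ⟨_, hcl g, adj_gt.2 (mem_nb_c.2 rfl)⟩
    · rcases v with ⟨g, k, e'⟩ | i
      · refine ⟨_, hgr g, ?_⟩
        cases k
        · exact mem_nb_c.2 rfl
        · exact mem_nb_d.2 (Or.inl rfl)
      · exact ⟨_, hgr (α i), mem_nb_a.2 (Or.inl rfl)⟩
  · -- it is enough to find a member adjacent to exactly one of the two vertices
    have red : ∀ u v : VV n r, (∃ x ∈ DD σ e w, ¬ ((GG L α β).Adj u x ↔ (GG L α β).Adj v x)) →
        (GG L α β).neighborSet u ∩ DD σ e w ≠ (GG L α β).neighborSet v ∩ DD σ e w := by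
      rintro u v ⟨x, hx, hne⟩ heq
      apply hne
      have h1 : x ∈ (GG L α β).neighborSet u ∩ DD σ e w ↔
          x ∈ (GG L α β).neighborSet v ∩ DD σ e w := by rw [heq]
      exact ⟨fun h => (h1.1 ⟨h, hx⟩).1, fun h => (h1.2 ⟨h, hx⟩).1⟩
    have hG : ∀ (g : Fin n) (b : Bool) (v : VV n r), (.inl (some (g, b)) : VV n r) ∉ DD σ e w →
        v ∉ DD σ e w → (.inl (some (g, b)) : VV n r) ≠ v →
        ∃ x ∈ DD σ e w, ¬ ((GG L α β).Adj (.inl (some (g, b))) x ↔ (GG L α β).Adj v x) := by
      intro g b v hu hv hne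
      refine ⟨_, hcl g, fun h => ?_⟩
      have h1 := h.1 (adj_gt.2 (mem_nb_c.2 rfl))
      rcases v with v | v
      · rcases v with _ | ⟨g', b'⟩
        · exact none_nb_l h1
        · have hg : g' = g := mem_nb_c.1 h1
          subst hg
          apply hne
          have e1 : b ≠ σ g' := hu
          have e2 : b' ≠ σ g' := hv
          rw [bne e1 e2]
      · exact h1
    have hN : ∀ t : Ts n r, (.inl none : VV n r) ∉ DD σ e w →
        ∃ x ∈ DD σ e w, ¬ ((GG L α β).Adj (.inl none) x ↔ (GG L α β).Adj (.inr t) x) := by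
      intro t hu
      rcases w with _ | i
      · exact absurd rfl hu
      · exact ⟨.inr (.inr i), rfl, fun h => h.1 none_nb_a⟩
    -- two test vertices of gadgets
    have hgg : ∀ (g h : Fin n) (k k' e' e'' : Bool), (g, k) ≠ (h, k') →
        ∃ x ∈ DD σ e w, ¬ ((GG L α β).Adj (.inr (.inl (g, k, e'))) x ↔
          (GG L α β).Adj (.inr (.inl (h, k', e''))) x) := by
      intro g h k k' e' e'' hne
      by_cases hgh : g = h
      · subst hgh
        obtain ⟨p, hp, hp2⟩ := hσ g
        have hpg := hS.own g p.1 p.2 hp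
        have hpD : (.inl (some (p.1, p.2)) : VV n r) ∈ DD σ e w := hp2
        have hk : k ≠ k' := fun h => hne (by rw [h])
        refine ⟨_, hpD, ?_⟩
        rw [adj_tg, adj_tg]
        cases k <;> cases k'
        · exact absurd rfl hk
        · rw [mem_nb_c, mem_nb_d]
          intro h
          exact hpg (h.2 (Or.inr hp))
        · rw [mem_nb_c, mem_nb_d]
          intro h
          exact hpg (h.1 (Or.inr hp))
        · exact absurd rfl hk
      · by_cases h1 : (some (g, σ g) : Gd n) ∈ nb L α β (.inl (h, k', e''))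
        · have hk' : k' = true ∧ (g, σ g) ∈ L h := by
            cases k'
            · exact absurd (mem_nb_c.1 h1) hgh
            · exact ⟨rfl, (mem_nb_d.1 h1).resolve_left hgh⟩
          refine ⟨_, hgr h, ?_⟩
          rw [adj_tg, adj_tg]
          intro h2
          have h3 : (some (h, σ h) : Gd n) ∈ nb L α β (.inl (h, k', e'')) := by
            rw [hk'.1]
            exact mem_nb_d.2 (Or.inl rfl)
          have h4 := h2.2 h3
          cases k
          · exact hgh (mem_nb_c.1 h4).symm
          · rcases mem_nb_d.1 h4 with h5 | h5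
            · exact hgh h5.symm
            · exact hS.two _ _ _ _ h5 hk'.2
        · refine ⟨_, hgr g, ?_⟩
          rw [adj_tg, adj_tg]
          intro h2
          apply h1
          apply h2.1
          cases k
          · exact mem_nb_c.2 rfl
          · exact mem_nb_d.2 (Or.inl rfl)
    have hga : ∀ (g : Fin n) (k e' : Bool) (i : Fin r),
        ∃ x ∈ DD σ e w, ¬ ((GG L α β).Adj (.inr (.inl (g, k, e'))) x ↔
          (GG L α β).Adj (.inr (.inr i)) x) := by
      intro g k e' i
      by_contra hcon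
      push Not at hcon
      have h1 := (hcon _ (hgr (α i))).2 (mem_nb_a.2 (Or.inl rfl))
      have h2 := (hcon _ (hgr (β i))).2 (mem_nb_a.2 (Or.inr rfl))
      have h3 := (hcon _ (hgr g)).1 (by
        cases k
        · exact mem_nb_c.2 rfl
        · exact mem_nb_d.2 (Or.inl rfl))
      rw [adj_tg] at h1 h2 h3
      rcases mem_nb_a.1 h3 with h4 | h4
      · cases k
        · exact hS.ab i i ((h4.symm.trans (mem_nb_c.1 h2).symm))
        · rcases mem_nb_d.1 h2 with h5 | h5
          · exact hS.ab i i ((h4.symm.trans h5.symm))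
          · rw [h4] at h5
            exact hS.la _ _ h5
      · cases k
        · exact hS.ab i i ((mem_nb_c.1 h1).trans h4)
        · rcases mem_nb_d.1 h1 with h5 | h5
          · exact hS.ab i i (h5.trans h4)
          · rw [h4] at h5
            exact hS.lb _ _ h5
    rintro (u | u) (v | v) hu hv huv
    · rcases u with _ | ⟨g, b⟩
      · rcases v with _ | ⟨g', b'⟩
        · exact absurd rfl huv
        · apply red
          obtain ⟨x, hx, hx'⟩ := hG g' b' _ hv hu huv.symm
          exact ⟨x, hx, fun h => hx' h.symm⟩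
      · exact red _ _ (hG g b _ hu hv huv)
    · rcases u with _ | ⟨g, b⟩
      · exact red _ _ (hN v hu)
      · exact red _ _ (hG g b _ hu hv huv)
    · rcases v with _ | ⟨g, b⟩
      · apply red
        obtain ⟨x, hx, hx'⟩ := hN u hv
        exact ⟨x, hx, fun h => hx' h.symm⟩
      · apply red
        obtain ⟨x, hx, hx'⟩ := hG g b _ hv hu huv.symm
        exact ⟨x, hx, fun h => hx' h.symm⟩
    · rcases u with ⟨g, k, e'⟩ | i <;> rcases v with ⟨h, k', e''⟩ | j
      · apply red
        apply hgg
        intro hh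
        have e1 : e' ≠ e := hu
        have e2 : e'' ≠ e := hv
        apply huv
        rw [(Prod.mk.inj hh).1, (Prod.mk.inj hh).2, bne e1 e2]
      · exact red _ _ (hga g k e' j)
      · apply red
        obtain ⟨x, hx, hx'⟩ := hga h k' e'' i
        exact ⟨x, hx, fun h => hx' h.symm⟩
      · apply red
        refine ⟨_, hgr (α i), ?_⟩
        rw [adj_tg, adj_tg, mem_nb_a, mem_nb_a]
        intro h
        rcases h.1 (Or.inl rfl) with h1 | h1
        · exact huv (by rw [hS.ai h1])
        · exact hS.ab _ _ h1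

/-- the partition, with colours in a sum type -/
def prt (x : Fin n → Bool) (v : VV n r) : Fin r ⊕ Fin 3 := match v with
  | .inl (some (g, b)) => if b = x g then .inr 0 else .inr 1
  | .inl none => .inr 2
  | .inr (.inl (_, _, e)) => if e = false then .inr 0 else .inr 1
  | .inr (.inr i) => .inl i

theorem hasLDC_of_sum {V : Type} {G : SimpleGraph V} (π : V → Fin r ⊕ Fin 3)
    (h1 : Function.Surjective π)
    (h2 : ∀ i, ¬ IsLD G (π ⁻¹' {i}) ∧ ∃ j, j ≠ i ∧ IsLD G (π ⁻¹' {i} ∪ π ⁻¹' {j})) :
    HasLDC G (r + 3) := by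
  let e : Fin r ⊕ Fin 3 ≃ Fin (r + 3) := finSumFinEquiv
  have hpre : ∀ i : Fin r ⊕ Fin 3, (fun v => e (π v)) ⁻¹' {e i} = π ⁻¹' {i} := by
    intro i
    ext v
    simp
  refine ⟨r + 3, le_rfl, fun v => e (π v), e.surjective.comp h1, fun i => ?_⟩
  obtain ⟨i, rfl⟩ := e.surjective i
  obtain ⟨h3, j, hj, h4⟩ := h2 i
  rw [hpre]
  refine ⟨h3, e j, fun h => hj (e.injective h), ?_⟩
  rw [hpre]
  exact h4

theorem hasLDC_of_good (hS : Str L α β) (hr : 0 < r) (h : Good L) :
    HasLDC (GG L α β) (r + 3) := by
  obtain ⟨x, hx⟩ := h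
  have hA : ∀ i : Fin r, prt x ⁻¹' {.inr 0} ∪ prt x ⁻¹' {.inl i} =
      DD x false (some i) := by
    intro i
    ext v
    rcases v with (_ | ⟨g, b⟩) | (⟨g, k, e⟩ | j)
    · change ((Sum.inr 2 : Fin r ⊕ Fin 3) = .inr 0 ∨ (Sum.inr 2 : Fin r ⊕ Fin 3) = .inl i) ↔
        (some i : Option (Fin r)) = none
      simp
    · change ((if b = x g then (Sum.inr 0 : Fin r ⊕ Fin 3) else .inr 1) = .inr 0 ∨
        (if b = x g then (Sum.inr 0 : Fin r ⊕ Fin 3) else .inr 1) = .inl i) ↔ b = x g
      split_ifs with hb
      · simp [hb]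
      · simp [hb]
    · change ((if e = false then (Sum.inr 0 : Fin r ⊕ Fin 3) else .inr 1) = .inr 0 ∨
        (if e = false then (Sum.inr 0 : Fin r ⊕ Fin 3) else .inr 1) = .inl i) ↔ e = false
      split_ifs with hb
      · simp [hb]
      · simp [hb]
    · change ((Sum.inl j : Fin r ⊕ Fin 3) = .inr 0 ∨ (Sum.inl j : Fin r ⊕ Fin 3) = .inl i) ↔
        some i = some j
      simp [eq_comm]
  have hB : prt x ⁻¹' {.inr 1} ∪ prt x ⁻¹' {.inr 2} =
      (DD (fun g => !(x g)) true none : Set (VV n r)) := by
    ext v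
    rcases v with (_ | ⟨g, b⟩) | (⟨g, k, e⟩ | j)
    · change ((Sum.inr 2 : Fin r ⊕ Fin 3) = .inr 1 ∨ (Sum.inr 2 : Fin r ⊕ Fin 3) = .inr 2) ↔
        (none : Option (Fin r)) = none
      simp
    · change ((if b = x g then (Sum.inr 0 : Fin r ⊕ Fin 3) else .inr 1) = .inr 1 ∨
        (if b = x g then (Sum.inr 0 : Fin r ⊕ Fin 3) else .inr 1) = .inr 2) ↔ b = !(x g)
      split_ifs with hb
      · rw [hb]
        cases x g <;> simp
      · have h1 : b = !(x g) := bne (c := x g) hb (by cases x g <;> decide)
        simp [h1]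
    · change ((if e = false then (Sum.inr 0 : Fin r ⊕ Fin 3) else .inr 1) = .inr 1 ∨
        (if e = false then (Sum.inr 0 : Fin r ⊕ Fin 3) else .inr 1) = .inr 2) ↔ e = true
      cases e <;> simp
    · change ((Sum.inl j : Fin r ⊕ Fin 3) = .inr 1 ∨ (Sum.inl j : Fin r ⊕ Fin 3) = .inr 2) ↔
        (none : Option (Fin r)) = some j
      simp
  have hLA : ∀ i : Fin r, IsLD (GG L α β) (prt x ⁻¹' {.inr 0} ∪ prt x ⁻¹' {.inl i}) := by
    intro i
    rw [hA]
    exact isLD_DD hS x false (some i) (fun g => (hx g).1)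
  have hLB : IsLD (GG L α β) (prt x ⁻¹' {.inr 1} ∪ prt x ⁻¹' {.inr 2}) := by
    rw [hB]
    refine isLD_DD hS _ true none (fun g => ?_)
    obtain ⟨p, hp, hp2⟩ := (hx g).2
    refine ⟨p, hp, ?_⟩
    revert hp2
    cases p.2 <;> cases x p.1 <;> simp
  let g0 : Fin n := α ⟨0, hr⟩
  have hif : ∀ (p : Prop) [Decidable p] (i : Fin r),
      (if p then (Sum.inr 0 : Fin r ⊕ Fin 3) else .inr 1) ≠ .inl i := by
    intro p _ i
    split_ifs <;> simp
  have hif2 : ∀ (p : Prop) [Decidable p],
      (if p then (Sum.inr 0 : Fin r ⊕ Fin 3) else .inr 1) ≠ .inr 2 := by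
    intro p _
    split_ifs <;> simp
  have h01 : ∀ q : Fin 3, q ≠ 2 → ¬ IsLD (GG L α β) (prt x ⁻¹' {.inr q}) := by
    intro q hq h
    obtain ⟨w, hw, hadj⟩ := h.1 (.inl none) (by
      change ¬ ((Sum.inr 2 : Fin r ⊕ Fin 3) = .inr q)
      simp [Ne.symm hq])
    rcases w with w | w
    · exact hadj
    · rcases w with ⟨g, k, e⟩ | j
      · exact none_nb_l hadj
      · have h1 : (Sum.inl j : Fin r ⊕ Fin 3) = .inr q := hw
        exact absurd h1 (by simp)
  have h2 : ¬ IsLD (GG L α β) (prt x ⁻¹' {.inr 2}) := by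
    intro h
    obtain ⟨w, hw, hadj⟩ := h.1 (.inl (some (g0, false))) (hif2 _)
    rcases w with w | w
    · exact hadj
    · rcases w with ⟨g, k, e⟩ | j
      · exact hif2 _ hw
      · have h1 : (Sum.inl j : Fin r ⊕ Fin 3) = .inr 2 := hw
        exact absurd h1 (by simp)
  have hl : ∀ i : Fin r, ¬ IsLD (GG L α β) (prt x ⁻¹' {.inl i}) := by
    intro i h
    obtain ⟨w, hw, hadj⟩ := h.1 (.inr (.inl (g0, false, false)))
      (hif ((false : Bool) = false) i)
    rcases w with w | w
    · rcases w with _ | ⟨g, b⟩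
      · have h1 : (Sum.inr 2 : Fin r ⊕ Fin 3) = .inl i := hw
        exact absurd h1 (by simp)
      · exact hif _ i hw
    · exact hadj
  refine hasLDC_of_sum (prt x) ?_ ?_
  · rintro (i | q)
    · exact ⟨.inr (.inr i), rfl⟩
    · match q with
      | 0 => exact ⟨.inr (.inl (g0, false, false)), rfl⟩
      | 1 => exact ⟨.inr (.inl (g0, false, true)), rfl⟩
      | 2 => exact ⟨.inl none, rfl⟩
  · rintro (i | q)
    · exact ⟨hl i, .inr 0, by simp, by rw [Set.union_comm]; exact hLA i⟩
    · match q with
      | 0 => exact ⟨h01 0 (by decide), .inl ⟨0, hr⟩, by simp, hLA _⟩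
      | 1 => exact ⟨h01 1 (by decide), .inr 2, by simp, hLB⟩
      | 2 => exact ⟨h2, .inr 1, by simp, by rw [Set.union_comm]; exact hLB⟩

/-! ### Connectedness -/

theorem reach_gadget (g : Fin n) (b b' k e : Bool) :
    (GG L α β).Reachable (.inl (some (g, b))) (.inl (some (g, b'))) ∧
    (GG L α β).Reachable (.inl (some (g, b))) (.inr (.inl (g, k, e))) := by
  have h1 : ∀ b, (GG L α β).Adj (.inl (some (g, b))) (.inr (.inl (g, k, e))) := by
    intro b
    rw [adj_gt]
    cases k
    · exact mem_nb_c.2 rfl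
    · exact mem_nb_d.2 (Or.inl rfl)
  exact ⟨(h1 b).reachable.trans (h1 b').symm.reachable, (h1 b).reachable⟩

theorem connected_GG (hr : 0 < r) (h0 : (α ⟨0, hr⟩).val = 0)
    (H : ∀ g : Fin n, g.val ≠ 0 → ∃ h : Fin n, h.val < g.val ∧ ∃ b, (h, b) ∈ L g ∨ (g, b) ∈ L h) :
    (GG L α β).Connected := by
  let v0 : VV n r := .inl (some (α ⟨0, hr⟩, false))
  have hg : ∀ (m : ℕ) (g : Fin n), g.val = m → ∀ b,
      (GG L α β).Reachable v0 (.inl (some (g, b))) := by
    intro m
    induction m using Nat.strong_induction_on with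
    | _ m ih =>
      intro g hgm b
      by_cases hm : m = 0
      · have hg0 : g = α ⟨0, hr⟩ := Fin.ext (by rw [hgm, h0, hm])
        rw [hg0]
        exact (reach_gadget (α ⟨0, hr⟩) false b false false).1
      · obtain ⟨h, hlt, b', hh⟩ := H g (by omega)
        rw [hgm] at hlt
        have h1 := ih h.val hlt h rfl
        rcases hh with hh | hh
        · have h2 : (GG L α β).Adj (.inl (some (h, b'))) (.inr (.inl (g, true, false))) :=
            adj_gt.2 (mem_nb_d.2 (Or.inr hh))
          exact ((h1 b').trans h2.reachable).trans (reach_gadget g b b true false).2.symm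
        · have h2 : (GG L α β).Adj (.inl (some (g, b'))) (.inr (.inl (h, true, false))) :=
            adj_gt.2 (mem_nb_d.2 (Or.inr hh))
          exact (((h1 b').trans (reach_gadget h b' b' true false).2).trans
            h2.symm.reachable).trans (reach_gadget g b' b true false).1
  have ha : ∀ i : Fin r, (GG L α β).Reachable v0 (.inr (.inr i)) := by
    intro i
    have h2 : (GG L α β).Adj (.inl (some (α i, false))) (.inr (.inr i)) :=
      adj_gt.2 (mem_nb_a.2 (Or.inl rfl))
    exact (hg _ (α i) rfl false).trans h2.reachable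
  have hall : ∀ v, (GG L α β).Reachable v0 v := by
    rintro ((_ | ⟨g, b⟩) | (⟨g, k, e⟩ | i))
    · have h2 : (GG L α β).Adj (.inl none) (.inr (.inr ⟨0, hr⟩)) := adj_gt.2 none_nb_a
      exact (ha ⟨0, hr⟩).trans h2.symm.reachable
    · exact hg _ g rfl b
    · exact (hg _ g rfl false).trans (reach_gadget g false false k e).2
    · exact ha i
  have : Nonempty (VV n r) := ⟨v0⟩
  exact ⟨fun u v => (hall u).symm.trans (hall v)⟩

theorem colorable_GG : (GG L α β).Colorable 2 := by
  refine ⟨⟨fun v => match v with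
    | .inl _ => (0 : Fin 2)
    | .inr _ => 1, ?_⟩⟩
  rintro (u | u) (v | v) h
  · exact absurd h (fun h => h)
  · simp
  · simp
  · exact absurd h (fun h => h)

end Pool.Agent.V11229.Ldc
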