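import Pool.Agent.V11229.LdcCore
import Pool.Agent.V11229.FG
import Pool.Agent.H648R3.WC.Nae

/-!
# The reduction from monotone not-all-equal satisfiability to locating-dominating coalitions
-/

namespace Pool.Agent.V11229.Ldc

open Pool.Agent.NPC Pool.Agent.NPC.WC648

/-- formulas -/
abbrev F4 : Type := List (NV × NV × NV)

/-- the variable at the occurrence number `o` -/
def vrN (φ : F4) (o : ℕ) : NV :=
  if o % 3 = 0 then (φ.getD (o / 3) ((0, 0, true), (0, 0, true), (0, 0, true))).1 else
    if o % 3 = 1 then (φ.getD (o / 3) ((0, 0, true), (0, 0, true), (0, 0, true))).2.1 else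
      (φ.getD (o / 3) ((0, 0, true), (0, 0, true), (0, 0, true))).2.2

/-- the first occurrence of a variable -/
def fo (φ : F4) (v : NV) : ℕ :=
  (((List.range (φ.length * 3)).filter (fun j => decide (vrN φ j = v))).head?).getD 0

theorem fo_spec (φ : F4) {o : ℕ} (ho : o < φ.length * 3) :
    fo φ (vrN φ o) < φ.length * 3 ∧ vrN φ (fo φ (vrN φ o)) = vrN φ o := by
  unfold fo
  rw [List.head?_filter]
  cases h1 : (List.range (φ.length * 3)).find? (fun j => decide (vrN φ j = vrN φ o)) with
  | some j =>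
    rw [List.find?_range_eq_some] at h1
    obtain ⟨h2, h3, _⟩ := h1
    rw [List.mem_range] at h3
    simp only [decide_eq_true_eq] at h2
    exact ⟨h3, h2⟩
  | none =>
    rw [List.find?_range_eq_none] at h1
    have := h1 o ho
    simp at this

theorem vrN_eq (φ : F4) {j : ℕ} (hj : j < φ.length) : vrN φ (3 * j) = φ[j].1 ∧
    vrN φ (3 * j + 1) = φ[j].2.1 ∧ vrN φ (3 * j + 2) = φ[j].2.2 := by
  have h1 : (3 * j) / 3 = j := by omega
  have h2 : (3 * j + 1) / 3 = j := by omega
  have h3 : (3 * j + 2) / 3 = j := by omega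
  have m1 : (3 * j) % 3 = 0 := by omega
  have m2 : (3 * j + 1) % 3 = 1 := by omega
  have m3 : (3 * j + 2) % 3 = 2 := by omega
  refine ⟨?_, ?_, ?_⟩
  · unfold vrN
    rw [if_pos m1, h1, List.getD_eq_getElem _ _ hj]
  · unfold vrN
    rw [if_neg (by omega), if_pos m2, h2, List.getD_eq_getElem _ _ hj]
  · unfold vrN
    rw [if_neg (by omega), if_neg (by omega), h3, List.getD_eq_getElem _ _ hj]

/-- the number of gadgets which are not clause gadgets -/
def n1 (r : ℕ) (φ : F4) : ℕ := 2 * r + φ.length * 3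

/-- the number of gadgets -/
def nn (r : ℕ) (φ : F4) : ℕ := n1 r φ + φ.length

/-- the next gadget -/
def nxt (r : ℕ) (φ : F4) (g : ℕ) : ℕ := if g + 1 < n1 r φ then g + 1 else 0

/-- the gadget of the variable at an occurrence -/
def tg (r : ℕ) (φ : F4) (o : ℕ) : ℕ := 2 * r + fo φ (vrN φ o)

/-- membership in the lists -/
def lb (r : ℕ) (φ : F4) (g h : ℕ) (b : Bool) : Bool :=
  if g < n1 r φ then decide (h = nxt r φ g)
  else !b && (decide (h = tg r φ (3 * (g - n1 r φ))) ||
    (decide (h = tg r φ (3 * (g - n1 r φ) + 1)) || decide (h = tg r φ (3 * (g - n1 r φ) + 2))))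

theorem lb_lt {r : ℕ} {φ : F4} {g h : ℕ} {b : Bool} (hg : g < n1 r φ) :
    lb r φ g h b = true ↔ h = nxt r φ g := by
  unfold lb
  rw [if_pos hg, decide_eq_true_eq]

theorem lb_ge {r : ℕ} {φ : F4} {g h : ℕ} {b : Bool} (hg : n1 r φ ≤ g) :
    lb r φ g h b = true ↔ b = false ∧ (h = tg r φ (3 * (g - n1 r φ)) ∨
      h = tg r φ (3 * (g - n1 r φ) + 1) ∨ h = tg r φ (3 * (g - n1 r φ) + 2)) := by
  unfold lb
  rw [if_neg (by omega)]
  simp

theorem tg_lt (r : ℕ) (φ : F4) {o : ℕ} (ho : o < φ.length * 3) : tg r φ o < n1 r φ := by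
  have := (fo_spec φ ho).1
  unfold tg n1
  omega

theorem nxt_lt {r : ℕ} {φ : F4} {g : ℕ} (hg : g < n1 r φ) : nxt r φ g < n1 r φ := by
  unfold nxt
  split_ifs with h
  · exact h
  · omega

theorem lb_bound {r : ℕ} {φ : F4} {g h : ℕ} {b : Bool} (hg : g < nn r φ)
    (h1 : lb r φ g h b = true) : h < n1 r φ := by
  by_cases hg1 : g < n1 r φ
  · rw [(lb_lt hg1).1 h1]
    exact nxt_lt hg1
  · push Not at hg1
    have h2 : g - n1 r φ < φ.length := by
      unfold nn at hg
      omega
    rcases ((lb_ge hg1).1 h1).2 with h3 | h3 | h3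
    · rw [h3]
      exact tg_lt r φ (by omega)
    · rw [h3]
      exact tg_lt r φ (by omega)
    · rw [h3]
      exact tg_lt r φ (by omega)

/-- the lists of the gadgets -/
def LL (r : ℕ) (φ : F4) (g : Fin (nn r φ)) : Finset (Fin (nn r φ) × Bool) :=
  Finset.univ.filter (fun p => lb r φ g p.1 p.2 = true)

theorem mem_LL {r : ℕ} {φ : F4} {g h : Fin (nn r φ)} {b : Bool} :
    (h, b) ∈ LL r φ g ↔ lb r φ g h b = true := by
  simp [LL]

theorem card_LL (r : ℕ) (φ : F4) (g : Fin (nn r φ)) : (LL r φ g).card ≤ 3 := by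
  classical
  have hinj : Function.Injective (fun p : Fin (nn r φ) × Bool => (p.1.val, p.2)) := by
    rintro ⟨a, b⟩ ⟨c, d⟩ h
    simp only [Prod.mk.injEq] at h
    rw [Fin.ext h.1, h.2]
  rw [← Finset.card_image_of_injective _ hinj]
  by_cases hg : g.val < n1 r φ
  · have h1 : (LL r φ g).image (fun p : Fin (nn r φ) × Bool => (p.1.val, p.2)) ⊆
        {(nxt r φ g, false), (nxt r φ g, true)} := by
      intro q hq
      rw [Finset.mem_image] at hq
      obtain ⟨⟨h, b⟩, hp, rfl⟩ := hq
      rw [mem_LL, lb_lt hg] at hp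
      cases b <;> simp [hp]
    exact (Finset.card_le_card h1).trans (Finset.card_le_two.trans (by norm_num))
  · push Not at hg
    have h1 : (LL r φ g).image (fun p : Fin (nn r φ) × Bool => (p.1.val, p.2)) ⊆
        {(tg r φ (3 * (g - n1 r φ)), false), (tg r φ (3 * (g - n1 r φ) + 1), false),
          (tg r φ (3 * (g - n1 r φ) + 2), false)} := by
      intro q hq
      rw [Finset.mem_image] at hq
      obtain ⟨⟨h, b⟩, hp, rfl⟩ := hq
      rw [mem_LL, lb_ge hg] at hp
      obtain ⟨rfl, hp⟩ := hp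
      simp only [Finset.mem_insert, Finset.mem_singleton, Prod.mk.injEq, and_true]
      exact hp
    exact (Finset.card_le_card h1).trans Finset.card_le_three

/-- the first gadgets at the vertices which mark the parts -/
def al (r : ℕ) (φ : F4) (i : Fin r) : Fin (nn r φ) := ⟨i, by unfold nn n1; omega⟩

/-- the second gadgets at the vertices which mark the parts -/
def be (r : ℕ) (φ : F4) (i : Fin r) : Fin (nn r φ) := ⟨r + i, by unfold nn n1; omega⟩

theorem str_LL (r : ℕ) (φ : F4) (hr : 2 ≤ r) : Str (LL r φ) (al r φ) (be r φ) := by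
  have hn : 2 * r ≤ n1 r φ := by
    unfold n1
    omega
  refine ⟨?_, ?_, ?_, ?_, ?_, ?_⟩
  · intro g h b hh heq
    rw [mem_LL] at hh
    have h1 := lb_bound g.isLt hh
    have h2 : g.val < n1 r φ := by rw [← heq]; exact h1
    rw [lb_lt h2, heq] at hh
    unfold nxt at hh
    split_ifs at hh <;> omega
  · intro g h b b' h1 h2
    rw [mem_LL] at h1 h2
    have h3 := lb_bound g.isLt h1
    have h4 := lb_bound h.isLt h2
    rw [lb_lt h4] at h1
    rw [lb_lt h3] at h2
    unfold nxt at h1 h2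
    split_ifs at h1 h2 <;> omega
  · intro i j h
    have h1 := congrArg Fin.val h
    exact Fin.ext h1
  · intro i j h
    have h1 := congrArg Fin.val h
    simp only [al, be] at h1
    have := i.isLt
    omega
  · intro i b h
    have hi := i.isLt
    rw [mem_LL, lb_lt (by simp only [al]; omega)] at h
    simp only [al, be, nxt] at h
    split_ifs at h <;> omega
  · intro i b h
    have hi := i.isLt
    rw [mem_LL, lb_lt (by simp only [be]; omega)] at h
    simp only [al, be, nxt] at h
    split_ifs at h <;> omega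

theorem good_iff (r : ℕ) (φ : F4) : Good (LL r φ) ↔ NAE φ := by
  constructor
  · rintro ⟨x, hx⟩
    let x' : ℕ → Bool := fun i => if h : i < nn r φ then x ⟨i, h⟩ else false
    have hx' : ∀ g : Fin (nn r φ), x' g = x g := fun g => dif_pos g.isLt
    refine ⟨fun v => x' (2 * r + fo φ v), ?_⟩
    rintro t ht ⟨h1, h2⟩
    obtain ⟨j, hj, rfl⟩ := List.getElem_of_mem ht
    obtain ⟨e0, e1, e2⟩ := vrN_eq φ hj
    let g : Fin (nn r φ) := ⟨n1 r φ + j, by unfold nn; omega⟩
    have hg : n1 r φ ≤ g.val := Nat.le_add_right _ _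
    have hgj : g.val - n1 r φ = j := Nat.add_sub_cancel_left _ _
    have hall : ∀ p ∈ LL r φ g, p.2 = false ∧ x p.1 = x' (2 * r + fo φ φ[j].1) := by
      rintro ⟨h, b⟩ hp
      rw [mem_LL, lb_ge hg, hgj] at hp
      refine ⟨hp.1, ?_⟩
      simp only
      rw [← hx']
      rcases hp.2 with h3 | h3 | h3
      · rw [h3, tg, e0]
      · rw [h3, tg, e1]
        exact h1.symm
      · rw [h3, tg, e2]
        exact (h1.trans h2).symm
    obtain ⟨⟨p, hp, hp2⟩, q, hq, hq2⟩ := hx g
    rw [(hall p hp).1, (hall p hp).2] at hp2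
    rw [(hall q hq).1, (hall q hq).2] at hq2
    exact hq2 hp2
  · rintro ⟨τ, hτ⟩
    let x : Fin (nn r φ) → Bool := fun g => τ (vrN φ (g.val - 2 * r))
    refine ⟨x, fun g => ?_⟩
    by_cases hg : g.val < n1 r φ
    · have h1 := nxt_lt hg
      let h : Fin (nn r φ) := ⟨nxt r φ g, by unfold nn; omega⟩
      have hmem : ∀ b, (h, b) ∈ LL r φ g := fun b => mem_LL.2 ((lb_lt hg).2 rfl)
      exact ⟨⟨_, hmem (x h), rfl⟩, _, hmem (!(x h)), by cases x h <;> simp⟩
    · push Not at hg
      have hj : g.val - n1 r φ < φ.length := by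
        have := g.isLt
        unfold nn at this
        omega
      have hu : ∀ o, o < φ.length * 3 → ∀ h : Fin (nn r φ), h.val = tg r φ o →
          x h = τ (vrN φ o) := by
        intro o ho h hh
        change τ (vrN φ (h.val - 2 * r)) = _
        rw [hh, tg, Nat.add_sub_cancel_left, (fo_spec φ ho).2]
      have hnt := hτ φ[g.val - n1 r φ] (List.getElem_mem _)
      obtain ⟨e0, e1, e2⟩ := vrN_eq φ hj
      rw [← e0, ← e1, ← e2] at hnt
      have l0 := tg_lt r φ (o := 3 * (g.val - n1 r φ)) (by omega)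
      have l1 := tg_lt r φ (o := 3 * (g.val - n1 r φ) + 1) (by omega)
      have l2 := tg_lt r φ (o := 3 * (g.val - n1 r φ) + 2) (by omega)
      let h0 : Fin (nn r φ) := ⟨tg r φ (3 * (g.val - n1 r φ)), by unfold nn; omega⟩
      let h1 : Fin (nn r φ) := ⟨tg r φ (3 * (g.val - n1 r φ) + 1), by unfold nn; omega⟩
      let h2 : Fin (nn r φ) := ⟨tg r φ (3 * (g.val - n1 r φ) + 2), by unfold nn; omega⟩
      have m0 : (h0, false) ∈ LL r φ g := mem_LL.2 ((lb_ge hg).2 ⟨rfl, Or.inl rfl⟩)
      have m1 : (h1, false) ∈ LL r φ g := mem_LL.2 ((lb_ge hg).2 ⟨rfl, Or.inr (Or.inl rfl)⟩)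
      have m2 : (h2, false) ∈ LL r φ g := mem_LL.2 ((lb_ge hg).2 ⟨rfl, Or.inr (Or.inr rfl)⟩)
      have v0 := hu _ (by omega) h0 rfl
      have v1 := hu _ (by omega) h1 rfl
      have v2 := hu _ (by omega) h2 rfl
      rw [← v0, ← v1, ← v2] at hnt
      have key : ∀ a b c : Bool, ¬ (a = b ∧ b = c) →
          (false = a ∨ false = b ∨ false = c) ∧ (false ≠ a ∨ false ≠ b ∨ false ≠ c) := by
        decide
      obtain ⟨k1, k2⟩ := key _ _ _ hnt
      refine ⟨?_, ?_⟩
      · rcases k1 with k | k | k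
        · exact ⟨_, m0, k⟩
        · exact ⟨_, m1, k⟩
        · exact ⟨_, m2, k⟩
      · rcases k2 with k | k | k
        · exact ⟨_, m0, k⟩
        · exact ⟨_, m1, k⟩
        · exact ⟨_, m2, k⟩

/-- the graph of a formula -/
abbrev GR (r : ℕ) (φ : F4) : SimpleGraph (VV (nn r φ) r) := GG (LL r φ) (al r φ) (be r φ)

theorem hasLDC_GR (r : ℕ) (φ : F4) (hr : 11 ≤ r) : HasLDC (GR r φ) (r + 3) ↔ NAE φ := by
  rw [← good_iff r φ]
  exact ⟨fun h => good_of_hasLDC (card_LL r φ) hr h,
    fun h => hasLDC_of_good (str_LL r φ (by omega)) (by omega) h⟩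

theorem connected_GR (r : ℕ) (φ : F4) (hr : 0 < r) : (GR r φ).Connected := by
  refine connected_GG hr rfl (fun g hg => ?_)
  by_cases hg1 : g.val < n1 r φ
  · have hlt := g.isLt
    refine ⟨⟨g.val - 1, by omega⟩, by simp only; omega, false, Or.inr ?_⟩
    rw [mem_LL, lb_lt (by simp only; omega)]
    unfold nxt
    simp only
    rw [if_pos (by omega)]
    omega
  · push Not at hg1
    have hj : g.val - n1 r φ < φ.length := by
      have := g.isLt
      unfold nn at this
      omega
    have l0 := tg_lt r φ (o := 3 * (g.val - n1 r φ)) (by omega)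
    refine ⟨⟨tg r φ (3 * (g.val - n1 r φ)), by unfold nn; omega⟩, by simp only; omega, false,
      Or.inl ?_⟩
    rw [mem_LL, lb_ge hg1]
    exact ⟨rfl, Or.inl rfl⟩

/-! ### The graph as an input -/

/-- labels of vertices -/
abbrev Lab : Type := (ℕ × ℕ) × ℕ

/-- the labels which occur -/
def okV (r : ℕ) (φ : F4) (x : Lab) : Bool :=
  if x.1.1 = 0 then decide (x.1.2 < nn r φ) && decide (x.2 < 2)
  else if x.1.1 = 1 then decide (x.1.2 = 0) && decide (x.2 = 0)
  else if x.1.1 = 2 then decide (x.1.2 < nn r φ)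
  else decide (x.1.2 < r) && decide (x.2 = 0)

/-- the vertices -/
def vs (r : ℕ) (φ : F4) : List Lab :=
  ((List.range 4 ×ˢ List.range (nn r φ + r)) ×ˢ List.range 4).filter (okV r φ)

/-- the edges, from ground vertices to test vertices -/
def ad (r : ℕ) (φ : F4) (x y : Lab) : Bool :=
  if y.1.1 = 2 then decide (x.1.1 = 0) && (decide (x.1.2 = y.1.2) ||
    (decide (2 ≤ y.2) && lb r φ y.1.2 x.1.2 (decide (x.2 = 1))))
  else decide (y.1.1 = 3) && (decide (x.1.1 = 1) || (decide (x.1.1 = 0) &&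
    (decide (x.1.2 = y.1.2) || decide (x.1.2 = r + y.1.2))))

theorem ad_iff {r : ℕ} {φ : F4} {x y : Lab} : ad r φ x y = true ↔
    (y.1.1 = 2 ∧ x.1.1 = 0 ∧ (x.1.2 = y.1.2 ∨
      (2 ≤ y.2 ∧ lb r φ y.1.2 x.1.2 (decide (x.2 = 1)) = true))) ∨
    (y.1.1 = 3 ∧ (x.1.1 = 1 ∨ (x.1.1 = 0 ∧ (x.1.2 = y.1.2 ∨ x.1.2 = r + y.1.2)))) := by
  unfold ad
  split_ifs with h
  · rw [Bool.and_eq_true, decide_eq_true_eq, Bool.or_eq_true, decide_eq_true_eq,
      Bool.and_eq_true, decide_eq_true_eq]
    constructor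
    · rintro ⟨h1, h2⟩
      exact Or.inl ⟨h, h1, h2⟩
    · rintro (⟨_, h1, h2⟩ | ⟨h1, _⟩)
      · exact ⟨h1, h2⟩
      · omega
  · rw [Bool.and_eq_true, decide_eq_true_eq, Bool.or_eq_true, decide_eq_true_eq,
      Bool.and_eq_true, decide_eq_true_eq, Bool.or_eq_true, decide_eq_true_eq,
      decide_eq_true_eq]
    constructor
    · intro h1
      exact Or.inr h1
    · rintro (⟨h1, _⟩ | h1)
      · exact absurd h1 h
      · exact h1

/-- the labelling -/
def lab {n r : ℕ} (v : VV n r) : Lab := match v with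
  | .inl none => ((1, 0), 0)
  | .inl (some (g, b)) => ((0, g), if b = true then 1 else 0)
  | .inr (.inl (g, k, e)) => ((2, g), (if k = true then 2 else 0) + if e = true then 1 else 0)
  | .inr (.inr i) => ((3, i), 0)

theorem lab_inj {n r : ℕ} : Function.Injective (lab : VV n r → Lab) := by
  rintro ((_ | ⟨g, b⟩) | (⟨g, k, e⟩ | i)) ((_ | ⟨g', b'⟩) | (⟨g', k', e'⟩ | i')) h
  · rfl
  · simp [lab] at h
  · simp [lab] at h
  · simp [lab] at h
  · simp [lab] at h
  · simp only [lab, Prod.mk.injEq, true_and] at h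
    rw [Fin.ext h.1]
    cases b <;> cases b' <;> simp at h ⊢
  · simp [lab] at h
  · simp [lab] at h
  · simp [lab] at h
  · simp [lab] at h
  · simp only [lab, Prod.mk.injEq, true_and] at h
    rw [Fin.ext h.1]
    cases k <;> cases k' <;> cases e <;> cases e' <;> simp at h ⊢
  · simp [lab] at h
  · simp [lab] at h
  · simp [lab] at h
  · simp [lab] at h
  · simp only [lab, Prod.mk.injEq, true_and, and_true] at h
    rw [Fin.ext h]

theorem mem_vs (r : ℕ) (φ : F4) (hr : 0 < r) (z : Lab) :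
    z ∈ vs r φ ↔ ∃ x : VV (nn r φ) r, lab x = z := by
  obtain ⟨⟨a, g⟩, c⟩ := z
  unfold vs
  rw [List.mem_filter, List.mem_product, List.mem_product, List.mem_range, List.mem_range,
    List.mem_range]
  constructor
  · rintro ⟨⟨⟨h1, h2⟩, h3⟩, h4⟩
    unfold okV at h4
    simp only at h1 h2 h3 h4
    split_ifs at h4 with c0 c1 c2
    · rw [Bool.and_eq_true, decide_eq_true_eq, decide_eq_true_eq] at h4
      subst c0
      refine ⟨.inl (some (⟨g, h4.1⟩, decide (c = 1))), ?_⟩
      simp only [lab, decide_eq_true_eq, Prod.mk.injEq, true_and]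
      split_ifs with h5 <;> omega
    · rw [Bool.and_eq_true, decide_eq_true_eq, decide_eq_true_eq] at h4
      obtain ⟨rfl, rfl⟩ := h4
      subst c1
      exact ⟨.inl none, rfl⟩
    · rw [decide_eq_true_eq] at h4
      subst c2
      refine ⟨.inr (.inl (⟨g, h4⟩, decide (2 ≤ c), decide (c % 2 = 1))), ?_⟩
      simp only [lab, decide_eq_true_eq, Prod.mk.injEq, true_and]
      split_ifs with h5 h6 <;> omega
    · rw [Bool.and_eq_true, decide_eq_true_eq, decide_eq_true_eq] at h4
      obtain ⟨h4, rfl⟩ := h4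
      have h5 : a = 3 := by omega
      subst h5
      exact ⟨.inr (.inr ⟨g, h4⟩), rfl⟩
  · rintro ⟨(_ | ⟨h, b⟩) | (⟨h, k, e⟩ | i), hx⟩
    · simp only [lab, Prod.mk.injEq] at hx
      obtain ⟨⟨rfl, rfl⟩, rfl⟩ := hx
      exact ⟨⟨⟨by norm_num, by omega⟩, by norm_num⟩, by simp [okV]⟩
    · simp only [lab, Prod.mk.injEq] at hx
      obtain ⟨⟨rfl, rfl⟩, rfl⟩ := hx
      have hh := h.isLt
      refine ⟨⟨⟨by norm_num, by omega⟩, by split_ifs <;> omega⟩, ?_⟩
      unfold okV
      simp only [if_true, Bool.and_eq_true, decide_eq_true_eq]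
      exact ⟨hh, by split_ifs <;> omega⟩
    · simp only [lab, Prod.mk.injEq] at hx
      obtain ⟨⟨rfl, rfl⟩, rfl⟩ := hx
      have hh := h.isLt
      refine ⟨⟨⟨by norm_num, by omega⟩, by split_ifs <;> omega⟩, ?_⟩
      unfold okV
      simp
    · simp only [lab, Prod.mk.injEq] at hx
      obtain ⟨⟨rfl, rfl⟩, rfl⟩ := hx
      have hh := i.isLt
      exact ⟨⟨⟨by norm_num, by omega⟩, by norm_num⟩, by simp [okV]⟩

theorem iso_GR (r : ℕ) (φ : F4) (hr : 0 < r) :
    Nonempty ((FG.ofList (vs r φ) (ad r φ)).G ≃g GR r φ) := by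
  refine FG.ofList_iso (vs r φ) ?_ lab lab_inj (mem_vs r φ hr) (ad r φ) (GR r φ) ?_
  · unfold vs
    exact List.Nodup.filter _ (List.Nodup.product (List.Nodup.product List.nodup_range
      List.nodup_range) List.nodup_range)
  · have hgt : ∀ (e : Gd (nn r φ)) (t : Ts (nn r φ) r),
        e ∈ nb (LL r φ) (al r φ) (be r φ) t ↔ ad r φ (lab (.inl e : VV (nn r φ) r))
          (lab (.inr t : VV (nn r φ) r)) = true := by
      rintro (_ | ⟨h, b⟩) (⟨g, k, e⟩ | i)
      · rw [ad_iff]
        constructor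
        · intro h1
          exact absurd h1 none_nb_l
        · rintro (⟨_, h1, _⟩ | ⟨h1, _⟩)
          · exact absurd h1 (by simp [lab])
          · exact absurd h1 (by simp [lab])
      · rw [ad_iff]
        constructor
        · intro _
          exact Or.inr ⟨rfl, Or.inl rfl⟩
        · intro _
          exact none_nb_a
      · have hb : decide ((lab (.inl (some (h, b)) : VV (nn r φ) r)).2 = 1) = b := by
          cases b <;> rfl
        rw [ad_iff, hb]
        cases k
        · rw [mem_nb_c]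
          constructor
          · intro h1
            exact Or.inl ⟨rfl, rfl, Or.inl (congrArg Fin.val h1)⟩
          · rintro (⟨_, _, h1 | ⟨h1, _⟩⟩ | ⟨h1, _⟩)
            · exact Fin.ext h1
            · exfalso
              cases e <;> simp [lab] at h1
            · exact absurd h1 (by simp [lab])
        · rw [mem_nb_d, mem_LL]
          constructor
          · rintro (h1 | h1)
            · exact Or.inl ⟨rfl, rfl, Or.inl (congrArg Fin.val h1)⟩
            · exact Or.inl ⟨rfl, rfl, Or.inr ⟨Nat.le_add_right 2 _, h1⟩⟩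
          · rintro (⟨_, _, h1 | ⟨_, h1⟩⟩ | ⟨h1, _⟩)
            · exact Or.inl (Fin.ext h1)
            · exact Or.inr h1
            · exact absurd h1 (by simp [lab])
      · rw [mem_nb_a, ad_iff]
        constructor
        · rintro (h1 | h1)
          · exact Or.inr ⟨rfl, Or.inr ⟨rfl, Or.inl (congrArg Fin.val h1)⟩⟩
          · exact Or.inr ⟨rfl, Or.inr ⟨rfl, Or.inr (congrArg Fin.val h1)⟩⟩
        · rintro (⟨h1, _⟩ | ⟨_, h1 | ⟨_, h1 | h1⟩⟩)
          · exact absurd h1 (by simp [lab])
          · exact absurd h1 (by simp [lab])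
          · exact Or.inl (Fin.ext h1)
          · exact Or.inr (Fin.ext h1)
    have htg : ∀ (t : Ts (nn r φ) r) (y : Lab), ad r φ (lab (.inr t : VV (nn r φ) r)) y =
        true → False := by
      rintro (⟨g, k, e⟩ | i) y h
      · rw [ad_iff] at h
        rcases h with ⟨_, h, _⟩ | ⟨_, h | ⟨h, _⟩⟩
        · exact absurd h (by simp [lab])
        · exact absurd h (by simp [lab])
        · exact absurd h (by simp [lab])
      · rw [ad_iff] at h
        rcases h with ⟨_, h, _⟩ | ⟨_, h | ⟨h, _⟩⟩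
        · exact absurd h (by simp [lab])
        · exact absurd h (by simp [lab])
        · exact absurd h (by simp [lab])
    have hgg : ∀ (e : Gd (nn r φ)) (y : Lab), ad r φ y (lab (.inl e : VV (nn r φ) r)) =
        true → False := by
      rintro (_ | ⟨h, b⟩) y h1
      · rw [ad_iff] at h1
        rcases h1 with ⟨h1, _⟩ | ⟨h1, _⟩
        · exact absurd h1 (by simp [lab])
        · exact absurd h1 (by simp [lab])
      · rw [ad_iff] at h1
        rcases h1 with ⟨h1, _⟩ | ⟨h1, _⟩
        · exact absurd h1 (by simp [lab])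
        · exact absurd h1 (by simp [lab])
    rintro (e | t) (e' | t')
    · constructor
      · exact fun h => absurd h (fun h => h)
      · rintro ⟨_, h | h⟩
        · exact (hgg _ _ h).elim
        · exact (hgg _ _ h).elim
    · change e ∈ nb (LL r φ) (al r φ) (be r φ) t' ↔ _
      rw [hgt]
      constructor
      · exact fun h => ⟨by simp, Or.inl h⟩
      · rintro ⟨_, h | h⟩
        · exact h
        · exact (hgg _ _ h).elim
    · change e' ∈ nb (LL r φ) (al r φ) (be r φ) t ↔ _
      rw [hgt]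
      constructor
      · exact fun h => ⟨by simp, Or.inr h⟩
      · rintro ⟨_, h | h⟩
        · exact (hgg _ _ h).elim
        · exact h
    · constructor
      · exact fun h => absurd h (fun h => h)
      · rintro ⟨_, h | h⟩
        · exact (htg t _ h).elim
        · exact (htg t' _ h).elim

/-! ### Polynomial time -/

theorem vrN_poly {α : Type} [TEnc α] {f : α → F4} {o : α → ℕ} (h : Poly f) (h' : Poly o) :
    Poly (fun x => vrN (f x) (o x)) := by
  unfold vrN
  have h1 : Poly (fun x => o x % 3) := NPC.Poly.mod h' (NPC.Poly.const 3)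
  have h2 : Poly (fun x => o x / 3) := NPC.Poly.div h' (NPC.Poly.const 3)
  have h3 : Poly (fun x => (f x).getD (o x / 3)
      ((0, 0, true), (0, 0, true), (0, 0, true))) := NPC.Poly.getD h h2 (NPC.Poly.const _)
  fun_prop

attribute [local fun_prop] vrN_poly

theorem fo_poly {α : Type} [TEnc α] {f : α → F4} {v : α → NV} (h : Poly f) (h' : Poly v) :
    Poly (fun x => fo (f x) (v x)) := by
  unfold fo
  have u : UPoly (fun x => (f x).length * 3) := UPoly.mul (UPoly.length h) (UPoly.const 3)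
  have h1 : Poly (fun x => (List.range ((f x).length * 3)).filter
      (fun j => decide (vrN (f x) j = v x))) :=
    NPC.Poly.filter (l := fun x => List.range ((f x).length * 3))
      (p := fun x j => decide (vrN (f x) j = v x)) u.range (by fun_prop)
  exact NPC.Poly.optGetD (NPC.Poly.head? h1) (NPC.Poly.const 0)

attribute [local fun_prop] fo_poly

theorem lb_poly {α : Type} [TEnc α] (r : ℕ) {f : α → F4} {g h : α → ℕ} {b : α → Bool}
    (hf : Poly f) (hg : Poly g) (hh : Poly h) (hb : Poly b) :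
    Poly (fun x => lb r (f x) (g x) (h x) (b x)) := by
  unfold lb nxt tg n1
  fun_prop

attribute [local fun_prop] lb_poly

theorem vs_poly (r : ℕ) : Poly (vs r) := by
  unfold vs
  have h1 : Poly (fun φ : F4 => List.range (nn r φ + r)) := by
    unfold nn n1
    have u : UPoly (fun φ : F4 => φ.length) := UPoly.length NPC.Poly.id
    exact UPoly.range (UPoly.add (UPoly.add (UPoly.add (UPoly.const (2 * r))
      (UPoly.mul u (UPoly.const 3))) u) (UPoly.const r))
  refine NPC.Poly.filter (p := okV r) (by fun_prop) ?_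
  unfold okV nn n1
  fun_prop

/-- the reduction -/
def red (r : ℕ) (φ : F4) : FG := FG.ofList (vs r φ) (ad r φ)

theorem red_poly (r : ℕ) : Poly (red r) := by
  unfold red
  refine Poly.FG_ofList (ad := fun φ => ad r φ) (vs_poly r) ?_
  unfold ad
  fun_prop

end Pool.Agent.V11229.Ldc
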