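import Pool.Agent.H648R3.WC.Next
import Pool.Agent.H671R2.PolyAuto
import Pool.Agent.NPC.Sat2

/-!
# Occurrences of variables in 3SAT formulas
-/

namespace Pool.Agent.V11229

open Pool.Agent.NPC Pool.Agent.H648R3.WC

/-- formulas -/
abbrev F3 : Type := List (Lit ℕ × Lit ℕ × Lit ℕ)

/-- the literal at the occurrence number `o` -/
def lt (φ : F3) (o : ℕ) : Lit ℕ :=
  if o % 3 = 0 then (φ.getD (o / 3) ((true, 0), (true, 0), (true, 0))).1 else
    if o % 3 = 1 then (φ.getD (o / 3) ((true, 0), (true, 0), (true, 0))).2.1 else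
      (φ.getD (o / 3) ((true, 0), (true, 0), (true, 0))).2.2

/-- the variable at an occurrence -/
def vr (φ : F3) (o : ℕ) : ℕ := (lt φ o).2

/-- the next occurrence of the same variable -/
def nx (φ : F3) (o : ℕ) : ℕ := nxtf (φ.length * 3) (vr φ) o

/-- the next occurrence, as a permutation -/
noncomputable def nxP (φ : F3) : Fin (φ.length * 3) ≃ Fin (φ.length * 3) :=
  perm (φ.length * 3) (vr φ)

theorem nxP_val (φ : F3) (o : Fin (φ.length * 3)) : ((nxP φ o : Fin _) : ℕ) = nx φ o := rfl

theorem lt_poly {α : Type} [TEnc α] {f : α → F3} {o : α → ℕ} (h : Poly f) (h' : Poly o) :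
    Poly (fun x => lt (f x) (o x)) := by
  unfold lt
  have h1 : Poly (fun x => o x % 3) := NPC.Poly.mod h' (NPC.Poly.const 3)
  have h2 : Poly (fun x => o x / 3) := NPC.Poly.div h' (NPC.Poly.const 3)
  have h3 : Poly (fun x => (f x).getD (o x / 3) ((true, 0), (true, 0), (true, 0))) :=
    NPC.Poly.getD h h2 (NPC.Poly.const _)
  fun_prop

attribute [fun_prop] lt_poly

theorem vr_poly {α : Type} [TEnc α] {f : α → F3} {o : α → ℕ} (h : Poly f) (h' : Poly o) :
    Poly (fun x => vr (f x) (o x)) := by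
  unfold vr
  fun_prop

attribute [fun_prop] vr_poly

theorem nx_poly {α : Type} [TEnc α] {f : α → F3} {o : α → ℕ} (h : Poly f) (h' : Poly o) :
    Poly (fun x => nx (f x) (o x)) := by
  unfold nx nxtf
  have u : UPoly (fun x => (f x).length * 3) := UPoly.mul (UPoly.length h) (UPoly.const 3)
  have h1 : Poly (fun x => (List.range ((f x).length * 3)).filter
      (fun j => decide (o x < j) && decide (vr (f x) j = vr (f x) (o x)))) :=
    NPC.Poly.filter (l := fun x => List.range ((f x).length * 3))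
      (p := fun x j => decide (o x < j) && decide (vr (f x) j = vr (f x) (o x))) u.range
      (by fun_prop)
  have h2 : Poly (fun x => (List.range ((f x).length * 3)).filter
      (fun j => decide (vr (f x) j = vr (f x) (o x)))) :=
    NPC.Poly.filter (l := fun x => List.range ((f x).length * 3))
      (p := fun x j => decide (vr (f x) j = vr (f x) (o x))) u.range
      (by fun_prop)
  exact NPC.Poly.optGetD (NPC.Poly.head? h1) (NPC.Poly.optGetD (NPC.Poly.head? h2)
    (NPC.Poly.const 0))

attribute [fun_prop] nx_poly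

/-- the occurrence `r` in clause `j` -/
def oc {m : ℕ} (j : Fin m) (r : Fin 3) : Fin (m * 3) := ⟨3 * j + r, by omega⟩

theorem lt_oc (φ : F3) (j : Fin φ.length) : lt φ (oc j 0) = φ[j].1 ∧ lt φ (oc j 1) = φ[j].2.1 ∧
    lt φ (oc j 2) = φ[j].2.2 := by
  have h1 : (3 * (j : ℕ)) / 3 = j := by omega
  have h2 : (3 * (j : ℕ) + 1) / 3 = j := by omega
  have h3 : (3 * (j : ℕ) + 2) / 3 = j := by omega
  have m1 : (3 * (j : ℕ)) % 3 = 0 := by omega
  have m2 : (3 * (j : ℕ) + 1) % 3 = 1 := by omega
  have m3 : (3 * (j : ℕ) + 2) % 3 = 2 := by omega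
  have hj := j.isLt
  refine ⟨?_, ?_, ?_⟩
  · simp [lt, oc, List.getD_eq_getElem?_getD]
  · simp [lt, oc, h2, m2, List.getD_eq_getElem?_getD]
  · simp [lt, oc, h3, m3, List.getD_eq_getElem?_getD]

theorem exists_oc {m : ℕ} (o : Fin (m * 3)) : ∃ j r, oc j r = o := by
  refine ⟨⟨o / 3, by omega⟩, ⟨o % 3, by omega⟩, ?_⟩
  apply Fin.ext
  simp only [oc]
  omega

theorem oc_inj {m : ℕ} {j j' : Fin m} {r r' : Fin 3} (h : oc j r = oc j' r') : j = j' ∧ r = r' := by
  have h1 := congrArg Fin.val h
  simp only [oc] at h1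
  constructor <;> apply Fin.ext <;> omega

/-- Satisfiability in terms of truth values of the occurrences. -/
theorem sat3_iff (φ : F3) : SAT3 φ ↔ ∃ y : Fin (φ.length * 3) → Bool,
    (∀ o, y (nxP φ o) = y o) ∧ ∀ j, ∃ r, y (oc j r) = (lt φ (oc j r)).1 := by
  constructor
  · rintro ⟨τ, hτ⟩
    refine ⟨fun o => τ (vr φ o), fun o => ?_, fun j => ?_⟩
    · simp only
      rw [nxP_val]
      congr 1
      exact nxtf_class (f := vr φ) o.isLt
    · obtain ⟨h1, h2, h3⟩ := lt_oc φ j
      rcases hτ φ[j] (List.getElem_mem _) with h | h | h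
      · refine ⟨0, ?_⟩
        simp only [vr]
        rw [h1]
        exact h
      · refine ⟨1, ?_⟩
        simp only [vr]
        rw [h2]
        exact h
      · refine ⟨2, ?_⟩
        simp only [vr]
        rw [h3]
        exact h
  · rintro ⟨y, hy, hc⟩
    have hconst := perm_const (N := φ.length * 3) (f := vr φ) (y := y) hy
    classical
    let τ : ℕ → Bool := fun v => if h : ∃ o : Fin (φ.length * 3), vr φ o = v then
      y h.choose else true
    have hτ : ∀ o : Fin (φ.length * 3), τ (vr φ o) = y o := by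
      intro o
      have h : ∃ o' : Fin (φ.length * 3), vr φ o' = vr φ o := ⟨o, rfl⟩
      simp only [τ, dif_pos h]
      exact hconst _ _ h.choose_spec
    refine ⟨τ, fun c hcm => ?_⟩
    obtain ⟨j, hj, rfl⟩ := List.getElem_of_mem hcm
    obtain ⟨r, hr⟩ := hc ⟨j, hj⟩
    obtain ⟨h1, h2, h3⟩ := lt_oc φ ⟨j, hj⟩
    rw [← hτ, vr] at hr
    match r, hr with
    | 0, hr =>
      rw [h1] at hr
      exact Or.inl hr
    | 1, hr =>
      rw [h2] at hr
      exact Or.inr (Or.inl hr)
    | 2, hr =>
      rw [h3] at hr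
      exact Or.inr (Or.inr hr)

end Pool.Agent.V11229
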