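import Pool.Agent.V11229.FG
import Pool.Agent.V11229.Occ

/-!
# A Boolean constraint problem with non-constant solutions
-/

namespace Pool.Agent.V11229.MC

open Pool.Agent.NPC

/-- Instances: the number of variables and the constraints; the constraint `(s, x, y)` says that the
value of `s` is the value of `x` or the value of `y`. -/
abbrev CI : Type := ℕ × List (ℕ × ℕ × ℕ)

/-- There is a non-constant solution. -/
def NonConst (I : CI) : Prop := ∃ f : ℕ → Bool, (∃ i < I.1, ∃ j < I.1, f i ≠ f j) ∧
  ∀ c ∈ I.2, f c.1 = f c.2.1 ∨ f c.1 = f c.2.2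

/-- The promise: variables are in range, every variable is in some constraint. -/
def PrC (I : CI) : Prop := (∀ c ∈ I.2, c.1 < I.1 ∧ c.2.1 < I.1 ∧ c.2.2 < I.1) ∧ I.1 ≤ I.2.length

/-- the variable of a literal -/
def lb (l : Lit ℕ) : ℕ := 2 + 2 * l.2 + (if l.1 = true then 0 else 1)

/-- the constraints for one clause -/
def clC (m : ℕ) (p : (Lit ℕ × Lit ℕ × Lit ℕ) × ℕ) : List (ℕ × ℕ × ℕ) :=
  [(2 + 6 * m + p.2, lb p.1.1, lb p.1.2.1), (0, 2 + 6 * m + p.2, lb p.1.2.2)]

/-- the constraints for one variable -/
def vrC (x : ℕ) : List (ℕ × ℕ × ℕ) := [(0, 2 + 2 * x, 3 + 2 * x), (1, 2 + 2 * x, 3 + 2 * x)]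

/-- the reduction from 3SAT -/
def redC (φ : F3) : CI :=
  (2 + 7 * φ.length, ((List.range (2 + 7 * φ.length)).map (fun b => (b, 0, 1)) ++
    (List.range (3 * φ.length)).flatMap vrC) ++ φ.zipIdx.flatMap (clC φ.length))

theorem redC_poly : Poly redC := by
  unfold redC
  have u : UPoly (fun φ : F3 => φ.length) := UPoly.length NPC.Poly.id
  have h1 : Poly (fun φ : F3 => List.range (2 + 7 * φ.length)) :=
    UPoly.range (UPoly.add (UPoly.const 2) (UPoly.mul (UPoly.const 7) u))
  have h2 : Poly (fun φ : F3 => List.range (3 * φ.length)) :=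
    UPoly.range (UPoly.mul (UPoly.const 3) u)
  refine NPC.Poly.pair (by fun_prop) (NPC.Poly.append (NPC.Poly.append (by fun_prop) ?_) ?_)
  · unfold vrC
    fun_prop
  · unfold clC lb
    fun_prop

theorem redC_correct (φ : F3) (hb : Bounded3 φ) : SAT3 φ ↔ NonConst (redC φ) := by
  constructor
  · rintro ⟨τ, hτ⟩
    let f : ℕ → Bool := fun b => if b = 0 then true else if b = 1 then false else
      if b < 2 + 6 * φ.length then (τ ((b - 2) / 2) == decide (b % 2 = 0)) else
        match φ[b - (2 + 6 * φ.length)]? with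
        | some c => (τ c.1.2 == c.1.1) || (τ c.2.1.2 == c.2.1.1)
        | none => false
    have f0 : f 0 = true := rfl
    have f1 : f 1 = false := rfl
    have fv : ∀ l : Lit ℕ, l.2 < 3 * φ.length → f (lb l) = (τ l.2 == l.1) := by
      rintro ⟨s, v⟩ hv
      simp only at hv
      have h1 : lb (s, v) ≠ 0 := by unfold lb; omega
      have h2 : lb (s, v) ≠ 1 := by unfold lb; omega
      have h3 : lb (s, v) < 2 + 6 * φ.length := by
        unfold lb
        cases s <;> simp <;> omega
      simp only [f, h1, h2, h3, if_false, if_true]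
      cases s
      · have h4 : (lb (false, v) - 2) / 2 = v := by unfold lb; simp; omega
        have h5 : lb (false, v) % 2 = 1 := by unfold lb; simp; omega
        rw [h4, h5]
        simp
      · have h4 : (lb (true, v) - 2) / 2 = v := by unfold lb; simp
        have h5 : lb (true, v) % 2 = 0 := by unfold lb; simp
        rw [h4, h5]
        simp
    have fs : ∀ (j : ℕ) (c), φ[j]? = some c →
        f (2 + 6 * φ.length + j) = ((τ c.1.2 == c.1.1) || (τ c.2.1.2 == c.2.1.1)) := by
      intro j c hj
      have h1 : 2 + 6 * φ.length + j ≠ 0 := by omega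
      have h2 : 2 + 6 * φ.length + j ≠ 1 := by omega
      have h3 : ¬ (2 + 6 * φ.length + j < 2 + 6 * φ.length) := by omega
      simp only [f, h1, h2, h3, if_false, Nat.add_sub_cancel_left, hj]
    refine ⟨f, ⟨0, by simp [redC], 1, by simp [redC]; omega, by rw [f0, f1]; simp⟩, ?_⟩
    intro c hc
    simp only [redC, List.mem_append, List.mem_map, List.mem_flatMap, List.mem_range] at hc
    rcases hc with (⟨b, _, rfl⟩ | ⟨x, hx, hc⟩) | ⟨⟨d, j⟩, hd, hc⟩
    · simp only [f0, f1]
      cases f b <;> simp
    · have e1 := fv (true, x) hx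
      have e2 := fv (false, x) hx
      have l1 : lb (true, x) = 2 + 2 * x := by simp [lb]
      have l2 : lb (false, x) = 3 + 2 * x := by simp [lb]; omega
      rw [l1] at e1
      rw [l2] at e2
      simp only [vrC, List.mem_cons, List.not_mem_nil, or_false] at hc
      rcases hc with rfl | rfl
      · simp only [f0, e1, e2]
        cases τ x <;> simp
      · simp only [f1, e1, e2]
        cases τ x <;> simp
    · rw [List.mem_zipIdx_iff_getElem?] at hd
      simp only at hd
      obtain ⟨b1, b2, b3⟩ := hb d (List.mem_of_getElem? hd)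
      have hs := hτ d (List.mem_of_getElem? hd)
      simp only [clC, List.mem_cons, List.not_mem_nil, or_false] at hc
      rcases hc with rfl | rfl
      · simp only
        rw [fs j d hd, fv _ b1, fv _ b2]
        cases (τ d.1.2 == d.1.1) <;> cases (τ d.2.1.2 == d.2.1.1) <;> simp
      · simp only
        rw [fs j d hd, fv _ b3, f0]
        rcases hs with h | h | h
        · left; simp [h]
        · left; simp [h]
        · right; simp [h]
  · rintro ⟨f, ⟨i, hi, j, hj, hij⟩, hc⟩
    simp only [redC] at hi hj hc
    have hm : ∀ b < 2 + 7 * φ.length, f b = f 0 ∨ f b = f 1 := by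
      intro b hb'
      refine hc (b, 0, 1) ?_
      simp only [List.mem_append, List.mem_map, List.mem_range]
      exact Or.inl (Or.inl ⟨b, hb', rfl⟩)
    have h01 : f 0 ≠ f 1 := by
      intro h
      apply hij
      have h1 := hm i hi
      have h2 := hm j hj
      rw [← h, or_self] at h1 h2
      rw [h1, h2]
    have hv : ∀ x < 3 * φ.length, (f 0 = f (2 + 2 * x) ∨ f 0 = f (3 + 2 * x)) ∧
        (f 1 = f (2 + 2 * x) ∨ f 1 = f (3 + 2 * x)) := by
      intro x hx
      constructor
      · refine hc (0, 2 + 2 * x, 3 + 2 * x) ?_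
        simp only [List.mem_append, List.mem_flatMap, List.mem_range]
        exact Or.inl (Or.inr ⟨x, hx, by simp [vrC]⟩)
      · refine hc (1, 2 + 2 * x, 3 + 2 * x) ?_
        simp only [List.mem_append, List.mem_flatMap, List.mem_range]
        exact Or.inl (Or.inr ⟨x, hx, by simp [vrC]⟩)
    refine ⟨fun x => (f (2 + 2 * x) == f 0), fun c hcm => ?_⟩
    obtain ⟨j, hj', rfl⟩ := List.getElem_of_mem hcm
    obtain ⟨b1, b2, b3⟩ := hb _ hcm
    have hcl : ∀ d ∈ clC φ.length (φ[j], j), f d.1 = f d.2.1 ∨ f d.1 = f d.2.2 := by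
      intro d hd
      apply hc
      rw [List.mem_append, List.mem_flatMap]
      right
      exact ⟨(φ[j], j), by simp [List.mem_zipIdx_iff_getElem?], hd⟩
    have e1 := hcl _ (by simp [clC] : (2 + 6 * φ.length + j, lb φ[j].1, lb φ[j].2.1) ∈ _)
    have e2 := hcl _ (by simp [clC] : (0, 2 + 6 * φ.length + j, lb φ[j].2.2) ∈ _)
    simp only at e1 e2
    have key : ∀ l : Lit ℕ, l.2 < 3 * φ.length → f (lb l) = f 0 → (f (2 + 2 * l.2) == f 0) = l.1 := by
      rintro ⟨s, x⟩ hx h
      obtain ⟨h1, h2⟩ := hv x hx
      cases s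
      · have : lb (false, x) = 3 + 2 * x := by simp [lb]; omega
        rw [this] at h
        simp only [beq_eq_false_iff_ne, ne_eq]
        intro h3
        rcases h2 with h2 | h2
        · exact h01 (h3.symm.trans h2.symm)
        · exact h01 (h.symm.trans h2.symm)
      · have : lb (true, x) = 2 + 2 * x := by simp [lb]
        rw [this] at h
        simpa using h
    rcases e2 with e2 | e2
    · rcases e1 with e1 | e1
      · exact Or.inl (key _ b1 (e1.symm.trans e2.symm))
      · exact Or.inr (Or.inl (key _ b2 (e1.symm.trans e2.symm)))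
    · exact Or.inr (Or.inr (key _ b3 e2.symm))

theorem redC_pr (φ : F3) (hb : Bounded3 φ) : PrC (redC φ) := by
  constructor
  · intro c hc
    simp only [redC, List.mem_append, List.mem_map, List.mem_flatMap, List.mem_range] at hc ⊢
    rcases hc with (⟨b, hb', rfl⟩ | ⟨x, hx, hc⟩) | ⟨⟨d, j⟩, hd, hc⟩
    · simp only
      omega
    · simp only [vrC, List.mem_cons, List.not_mem_nil, or_false] at hc
      rcases hc with rfl | rfl <;> simp only <;> omega
    · rw [List.mem_zipIdx_iff_getElem?] at hd
      simp only at hd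
      obtain ⟨b1, b2, b3⟩ := hb d (List.mem_of_getElem? hd)
      have hj : j < φ.length := (List.getElem?_eq_some_iff.1 hd).1
      have hl : ∀ l : Lit ℕ, l.2 < 3 * φ.length → lb l < 2 + 7 * φ.length := by
        intro l hl
        unfold lb
        split_ifs <;> omega
      have h1 := hl _ b1
      have h2 := hl _ b2
      have h3 := hl _ b3
      simp only [clC, List.mem_cons, List.not_mem_nil, or_false] at hc
      rcases hc with rfl | rfl <;> simp only <;> omega
  · simp only [redC, List.length_append, List.length_map, List.length_range]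
    omega

/-- The constraint problem is hard. -/
theorem hardPr_nonConst : HardPr PrC NonConst :=
  hardPr_SAT3b.trans redC_poly (fun φ h => redC_pr φ h.2.1) (fun φ h => redC_correct φ h.2.1)

end Pool.Agent.V11229.MC
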