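import Mathlib

/-!
# The split-join distance of partitions
-/

namespace Pool.Agent.V11229.Pmed

variable {S : Type}

/-- `Y` arises from `X` by replacing two classes (those of `a` and of `b`) by their union. -/
def Joins (X Y : Setoid S) : Prop :=
  ∃ a b, ¬ X a b ∧ ∀ x y, Y x y ↔ X x y ∨ (X x a ∧ X b y) ∨ (X x b ∧ X a y)

/-- `Y` arises from `X` by one operation: by replacing two classes by their union, or by replacing
one class by two nonempty classes whose union is that class. -/
def Step (X Y : Setoid S) : Prop := Joins X Y ∨ Joins Y X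

/-- `Reach n X Y`: `n` operations turn `X` into `Y`. -/
inductive Reach : ℕ → Setoid S → Setoid S → Prop
  | zero (X : Setoid S) : Reach 0 X X
  | succ {n : ℕ} {X Y Z : Setoid S} (h : Reach n X Y) (h' : Step Y Z) : Reach (n + 1) X Z

/-- The least number of operations needed to turn `X` into `Y`. -/
noncomputable def pdist (X Y : Setoid S) : ℕ := sInf {n | Reach n X Y}

/-- The number of classes. -/
noncomputable def cl (X : Setoid S) : ℕ := Nat.card (Quotient X)

/-- the classes of `a` and `b` are replaced by their union -/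
def addP (X : Setoid S) (a b : S) : Setoid S where
  r x y := X x y ∨ (X x a ∧ X b y) ∨ (X x b ∧ X a y)
  iseqv := by
    refine ⟨fun x => Or.inl (X.refl x), ?_, ?_⟩
    · rintro x y (h | ⟨h, h'⟩ | ⟨h, h'⟩)
      · exact Or.inl (X.symm h)
      · exact Or.inr (Or.inr ⟨X.symm h', X.symm h⟩)
      · exact Or.inr (Or.inl ⟨X.symm h', X.symm h⟩)
    · rintro x y z (h | ⟨h, h'⟩ | ⟨h, h'⟩) (k | ⟨k, k'⟩ | ⟨k, k'⟩)
      · exact Or.inl (X.trans h k)
      · exact Or.inr (Or.inl ⟨X.trans h k, k'⟩)
      · exact Or.inr (Or.inr ⟨X.trans h k, k'⟩)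
      · exact Or.inr (Or.inl ⟨h, X.trans h' k⟩)
      · exact Or.inr (Or.inl ⟨h, k'⟩)
      · exact Or.inl (X.trans h k')
      · exact Or.inr (Or.inr ⟨h, X.trans h' k⟩)
      · exact Or.inl (X.trans h k')
      · exact Or.inr (Or.inr ⟨h, k'⟩)

theorem addP_iff (X : Setoid S) (a b x y : S) :
    addP X a b x y ↔ X x y ∨ (X x a ∧ X b y) ∨ (X x b ∧ X a y) := Iff.rfl

theorem addP_le (X Z : Setoid S) (a b : S) : addP X a b ≤ Z ↔ X ≤ Z ∧ Z a b := by
  constructor
  · intro h
    exact ⟨fun x y hxy => h (Or.inl hxy), h (Or.inr (Or.inl ⟨X.refl a, X.refl b⟩))⟩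
  · rintro ⟨h, hab⟩ x y (k | ⟨k, k'⟩ | ⟨k, k'⟩)
    · exact h k
    · exact Z.trans (h k) (Z.trans hab (h k'))
    · exact Z.trans (h k) (Z.trans (Z.symm hab) (h k'))

theorem addP_sup (X Y : Setoid S) (a b : S) : addP X a b ⊔ Y = addP (X ⊔ Y) a b := by
  apply eq_of_forall_ge_iff
  intro Z
  rw [sup_le_iff, addP_le, addP_le, sup_le_iff]
  tauto

theorem addP_self {X : Setoid S} {a b : S} (h : X a b) : addP X a b = X := by
  apply le_antisymm
  · exact (addP_le _ _ _ _).2 ⟨le_rfl, h⟩
  · exact fun x y hxy => Or.inl hxy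

theorem joins_iff (X Y : Setoid S) : Joins X Y ↔ ∃ a b, ¬ X a b ∧ Y = addP X a b := by
  unfold Joins
  refine exists_congr fun a => exists_congr fun b => and_congr Iff.rfl ?_
  constructor
  · intro h
    ext x y
    exact h x y
  · rintro rfl x y
    exact Iff.rfl

theorem cl_addP [Finite S] {X : Setoid S} {a b : S} (h : ¬ X a b) :
    cl (addP X a b) + 1 = cl X := by
  classical
  let f : {q : Quotient X // q ≠ ⟦b⟧} → Quotient (addP X a b) := fun q =>
    Quotient.map' (s₁ := X) (s₂ := addP X a b) id (fun x y hxy => Or.inl hxy) q.1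
  have hf : ∀ (x : S) (hx : (⟦x⟧ : Quotient X) ≠ ⟦b⟧), f ⟨⟦x⟧, hx⟩ = ⟦x⟧ := fun x hx => rfl
  have hbij : Function.Bijective f := by
    constructor
    · rintro ⟨q, hq⟩ ⟨q', hq'⟩ heq
      induction q using Quotient.inductionOn with
      | h x =>
      induction q' using Quotient.inductionOn with
      | h y =>
      rw [hf, hf, Quotient.eq] at heq
      apply Subtype.ext
      rcases heq with k | ⟨_, k⟩ | ⟨k, _⟩
      · exact Quotient.sound k
      · exact absurd (Quotient.sound (X.symm k)) hq'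
      · exact absurd (Quotient.sound k) hq
    · intro q
      induction q using Quotient.inductionOn with
      | h x =>
      by_cases hx : (⟦x⟧ : Quotient X) = ⟦b⟧
      · have hab : (⟦a⟧ : Quotient X) ≠ ⟦b⟧ := fun h' => h (Quotient.exact h')
        refine ⟨⟨⟦a⟧, hab⟩, ?_⟩
        rw [hf]
        exact Quotient.sound (Or.inr (Or.inl ⟨X.refl a, X.symm (Quotient.exact hx)⟩))
      · exact ⟨⟨⟦x⟧, hx⟩, hf x hx⟩
  have h1 : cl (addP X a b) = Nat.card {q : Quotient X // q ≠ ⟦b⟧} :=
    (Nat.card_eq_of_bijective f hbij).symm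
  have : Fintype (Quotient X) := Fintype.ofFinite _
  have h2 : Nat.card {q : Quotient X // q ≠ ⟦b⟧} = Nat.card (Quotient X) - 1 := by
    rw [Nat.card_eq_fintype_card, Nat.card_eq_fintype_card, Fintype.card_subtype_compl]
    congr 1
  have h3 : 0 < Nat.card (Quotient X) := by
    have : Nonempty (Quotient X) := ⟨⟦b⟧⟩
    exact Nat.card_pos
  rw [h1, h2]
  unfold cl
  omega

theorem cl_addP' [Finite S] (X : Setoid S) (a b : S) [Decidable (X a b)] :
    cl (addP X a b) + (if X a b then 0 else 1) = cl X := by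
  split_ifs with h
  · rw [addP_self h, add_zero]
  · exact cl_addP h

/-! ### The distance -/

theorem reach_trans {m n : ℕ} {X Y Z : Setoid S} (h : Reach m X Y) (h' : Reach n Y Z) :
    Reach (m + n) X Z := by
  induction h' with
  | zero => exact h
  | succ _ hs ih => exact (ih h).succ hs

theorem step_symm {X Y : Setoid S} (h : Step X Y) : Step Y X := h.symm

theorem reach_symm {n : ℕ} {X Y : Setoid S} (h : Reach n X Y) : Reach n Y X := by
  induction h with
  | zero X => exact Reach.zero X
  | @succ n X Y Z _ hs ih =>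
    have h1 : Reach 1 Z Y := (Reach.zero Z).succ (step_symm hs)
    have h2 := reach_trans h1 ih
    rwa [add_comm] at h2

section Fin

variable [Finite S]

theorem cl_sup_addP (X Y : Setoid S) (a b : S) :
    cl (addP X a b ⊔ Y) = cl (X ⊔ Y) ∨ cl (addP X a b ⊔ Y) + 1 = cl (X ⊔ Y) := by
  classical
  rw [addP_sup]
  have := cl_addP' (X ⊔ Y) a b
  split_ifs at this <;> omega

/-- the formula for the distance -/
noncomputable def phi (X Y : Setoid S) : ℤ := cl X + cl Y - 2 * cl (X ⊔ Y)

theorem phi_step {X X' : Setoid S} (Y : Setoid S) (h : Step X X') :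
    phi X Y ≤ phi X' Y + 1 := by
  have key : ∀ X X' : Setoid S, Joins X X' → phi X Y ≤ phi X' Y + 1 ∧
      phi X' Y ≤ phi X Y + 1 := by
    intro X X' h
    obtain ⟨a, b, hab, rfl⟩ := (joins_iff X X').1 h
    have h1 := cl_addP hab
    have h2 := cl_sup_addP X Y a b
    unfold phi
    omega
  rcases h with h | h
  · exact (key _ _ h).1
  · exact (key _ _ h).2

theorem phi_le_of_reach {n : ℕ} {X Y : Setoid S} (h : Reach n X Y) (Z : Setoid S) :
    phi X Z ≤ phi Y Z + n := by
  induction h with
  | zero X => simp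
  | succ _ hs ih =>
    have := phi_step Z hs
    push_cast
    omega

theorem reach_of_le {X Z : Setoid S} (h : X ≤ Z) :
    cl Z ≤ cl X ∧ Reach (cl X - cl Z) X Z := by
  induction hk : cl X using Nat.strong_induction_on generalizing X with
  | _ k ih =>
    by_cases hXZ : X = Z
    · subst hXZ
      rw [hk]
      simp only [le_refl, Nat.sub_self, true_and]
      exact Reach.zero X
    · have h1 : ∃ a b, Z a b ∧ ¬ X a b := by
        by_contra hc
        push Not at hc
        exact hXZ (le_antisymm h (fun x y hxy => hc x y hxy))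
      obtain ⟨a, b, hZ, hX⟩ := h1
      have h2 := cl_addP hX
      have h3 : addP X a b ≤ Z := (addP_le _ _ _ _).2 ⟨h, hZ⟩
      obtain ⟨h4, h5⟩ := ih (cl (addP X a b)) (by omega) h3 rfl
      refine ⟨by omega, ?_⟩
      have h6 : Reach 1 X (addP X a b) :=
        (Reach.zero X).succ (Or.inl ((joins_iff _ _).2 ⟨a, b, hX, rfl⟩))
      have h7 := reach_trans h6 h5
      have h8 : 1 + (cl (addP X a b) - cl Z) = k - cl Z := by omega
      rwa [h8] at h7

/-- The distance of two partitions. -/
theorem pdist_eq (X Y : Setoid S) : (pdist X Y : ℤ) = cl X + cl Y - 2 * cl (X ⊔ Y) := by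
  obtain ⟨h1, h2⟩ := reach_of_le (le_sup_left : X ≤ X ⊔ Y)
  obtain ⟨h3, h4⟩ := reach_of_le (le_sup_right : Y ≤ X ⊔ Y)
  have h5 := reach_trans h2 (reach_symm h4)
  have h6 : pdist X Y ≤ (cl X - cl (X ⊔ Y)) + (cl Y - cl (X ⊔ Y)) := Nat.sInf_le h5
  have h7 : Reach (pdist X Y) X Y := by
    have := Nat.sInf_mem (s := {n | Reach n X Y}) ⟨_, h5⟩
    exact this
  have h8 := phi_le_of_reach h7 Y
  unfold phi at h8
  rw [sup_idem] at h8
  omega

omit [Finite S] in
theorem cl_bot : cl (⊥ : Setoid S) = Nat.card S := by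
  unfold cl
  refine (Nat.card_eq_of_bijective (fun x : S => (⟦x⟧ : Quotient (⊥ : Setoid S))) ⟨?_, ?_⟩).symm
  · intro x y h
    exact Quotient.exact h
  · intro q
    induction q using Quotient.inductionOn with
    | h x => exact ⟨x, rfl⟩

omit [Finite S] in
theorem cl_top [Nonempty S] : cl (⊤ : Setoid S) = 1 := by
  unfold cl
  rw [Nat.card_eq_one_iff_unique]
  refine ⟨⟨fun x y => ?_⟩, ⟨⟦Classical.arbitrary S⟧⟩⟩
  induction x using Quotient.inductionOn with
  | h x =>
  induction y using Quotient.inductionOn with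
  | h y => exact Quotient.sound trivial

end Fin

end Pool.Agent.V11229.Pmed
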