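import Pool.Agent.V11229.Pmed

/-!
# Blocks of four elements for the partition median problem
-/

namespace Pool.Agent.V11229.Pmed

/-- the partition given by labels: two elements are in the same class if they have the same label -/
abbrev part {n : ℕ} (l : Fin n → ℕ) : Setoid (Fin n) := Setoid.ker l

/-! ### Partitions with two pairs -/

/-- two pairs of elements -/
abbrev Quad : Type := (ℕ × ℕ) × (ℕ × ℕ)

/-- labels of the partition with the two pairs as classes, all other classes being singletons -/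
def labq (t : Quad) (z : ℕ) : ℕ := if z = t.1.2 then t.1.1 else if z = t.2.2 then t.2.1 else z

/-- four different elements -/
structure Good (n : ℕ) (t : Quad) : Prop where
  p : t.1.1 < n
  q : t.1.2 < n
  r : t.2.1 < n
  s : t.2.2 < n
  pq : t.1.1 ≠ t.1.2
  pr : t.1.1 ≠ t.2.1
  ps : t.1.1 ≠ t.2.2
  qr : t.1.2 ≠ t.2.1
  qs : t.1.2 ≠ t.2.2
  rs : t.2.1 ≠ t.2.2

theorem part_labq {n : ℕ} {t : Quad} (h : Good n t) : part (fun z : Fin n => labq t z) =
    addP (addP ⊥ ⟨t.1.1, h.p⟩ ⟨t.1.2, h.q⟩) ⟨t.2.1, h.r⟩ ⟨t.2.2, h.s⟩ := by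
  obtain ⟨⟨p, q⟩, r, s⟩ := t
  obtain ⟨h1, h2, h3, h4, h5, h6, h7, h8, h9, h10⟩ := h
  simp only at h1 h2 h3 h4 h5 h6 h7 h8 h9 h10
  ext x y
  obtain ⟨x, hx⟩ := x
  obtain ⟨y, hy⟩ := y
  have hbot : ∀ (a b : Fin n), (⊥ : Setoid (Fin n)) a b ↔ a = b := fun a b => Iff.rfl
  rw [Setoid.ker_def]
  simp only [addP_iff, hbot, Fin.mk.injEq, labq]
  split_ifs <;> omega

section Rel

variable {n : ℕ} (Y : Setoid (Fin n))

/-- the relation as a relation of numbers -/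
def rr (p q : ℕ) : Prop := ∃ (hp : p < n) (hq : q < n), Y ⟨p, hp⟩ ⟨q, hq⟩

theorem rr_iff {p q : ℕ} (hp : p < n) (hq : q < n) : rr Y p q ↔ Y ⟨p, hp⟩ ⟨q, hq⟩ :=
  ⟨fun ⟨_, _, h⟩ => h, fun h => ⟨hp, hq, h⟩⟩

theorem rr_symm {p q : ℕ} (h : rr Y p q) : rr Y q p := by
  obtain ⟨hp, hq, h⟩ := h
  exact ⟨hq, hp, Y.symm h⟩

theorem rr_comm {p q : ℕ} : rr Y p q ↔ rr Y q p := ⟨rr_symm Y, rr_symm Y⟩

theorem rr_trans {p q r : ℕ} (h : rr Y p q) (h' : rr Y q r) : rr Y p r := by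
  obtain ⟨hp, hq, h⟩ := h
  obtain ⟨hq', hr, h'⟩ := h'
  exact ⟨hp, hr, Y.trans h h'⟩

open Classical in
/-- the number of classes lost by the two pairs -/
noncomputable def rho (t : Quad) : ℕ :=
  (if rr Y t.1.1 t.1.2 then 0 else 1) +
  (if rr Y t.2.1 t.2.2 ∨ (rr Y t.2.1 t.1.1 ∧ rr Y t.1.2 t.2.2) ∨
    (rr Y t.2.1 t.1.2 ∧ rr Y t.1.1 t.2.2) then 0 else 1)

theorem pdist_quad {t : Quad} (h : Good n t) :
    (pdist (part (fun z : Fin n => labq t z)) Y : ℤ) = n - 2 - cl Y + 2 * rho Y t := by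
  classical
  rw [pdist_eq, part_labq h, addP_sup, addP_sup, bot_sup_eq]
  have e1 : cl (addP (⊥ : Setoid (Fin n)) ⟨t.1.1, h.p⟩ ⟨t.1.2, h.q⟩) + 1 = n := by
    rw [cl_addP, cl_bot, Nat.card_fin]
    intro h1
    exact h.pq (congrArg Fin.val (show (⟨t.1.1, h.p⟩ : Fin n) = ⟨t.1.2, h.q⟩ from h1))
  have e2 : cl (addP (addP (⊥ : Setoid (Fin n)) ⟨t.1.1, h.p⟩ ⟨t.1.2, h.q⟩) ⟨t.2.1, h.r⟩
      ⟨t.2.2, h.s⟩) + 1 = cl (addP (⊥ : Setoid (Fin n)) ⟨t.1.1, h.p⟩ ⟨t.1.2, h.q⟩) := by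
    rw [cl_addP]
    have hbot : ∀ (a b : Fin n), (⊥ : Setoid (Fin n)) a b ↔ a = b := fun a b => Iff.rfl
    rw [addP_iff]
    simp only [hbot, Fin.mk.injEq]
    have := h.rs
    have := h.pr
    have := h.qr
    omega
  have e3 := cl_addP' (addP Y ⟨t.1.1, h.p⟩ ⟨t.1.2, h.q⟩) ⟨t.2.1, h.r⟩ ⟨t.2.2, h.s⟩
  have e4 := cl_addP' Y ⟨t.1.1, h.p⟩ ⟨t.1.2, h.q⟩
  have e5 : rho Y t = (if Y ⟨t.1.1, h.p⟩ ⟨t.1.2, h.q⟩ then 0 else 1) +
      (if (addP Y ⟨t.1.1, h.p⟩ ⟨t.1.2, h.q⟩) ⟨t.2.1, h.r⟩ ⟨t.2.2, h.s⟩ then 0 else 1) := by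
    unfold rho
    rw [addP_iff]
    simp only [rr_iff Y h.p h.q, rr_iff Y h.r h.s, rr_iff Y h.r h.p, rr_iff Y h.q h.s,
      rr_iff Y h.r h.q, rr_iff Y h.p h.s]
    congr
  omega

theorem sum_quads (Q : List Quad) (hQ : ∀ t ∈ Q, Good n t) :
    (((Q.map fun t => pdist (part (fun z : Fin n => labq t z)) Y).sum : ℕ) : ℤ) =
      Q.length * (n - 2 - cl Y) + 2 * (((Q.map (rho Y)).sum : ℕ) : ℤ) := by
  induction Q with
  | nil => simp
  | cons t Q ih =>
    have h1 := ih fun t ht => hQ t (List.mem_cons_of_mem _ ht)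
    have h2 := pdist_quad Y (hQ t List.mem_cons_self)
    simp only [List.map_cons, List.sum_cons, List.length_cons]
    push_cast at h1 ⊢
    rw [h1, h2]
    ring

end Rel

/-! ### Classes -/

section Classes

variable {N : ℕ} (Y : Setoid (Fin (4 * N)))

/-- first elements of classes within the block `g` -/
def Rep (g i : ℕ) : Prop := ∀ j < i, ¬ rr Y (4 * g + j) (4 * g + i)

theorem exists_rep (g : Fin N) : ∀ i < 4, ∃ i' < 4, Rep Y g i' ∧ rr Y (4 * g + i') (4 * g + i) := by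
  intro i
  induction i using Nat.strong_induction_on with
  | _ i ih =>
    intro hi
    by_cases h : Rep Y g i
    · exact ⟨i, hi, h, ⟨by omega, by omega, Y.refl _⟩⟩
    · unfold Rep at h
      push Not at h
      obtain ⟨j, hj, hj'⟩ := h
      obtain ⟨i', h1, h2, h3⟩ := ih j hj (by omega)
      exact ⟨i', h1, h2, rr_trans Y h3 hj'⟩

open Classical in
/-- the number of classes within a block -/
noncomputable def mm (g : ℕ) : ℕ :=
  (if Rep Y g 0 then 1 else 0) + (if Rep Y g 1 then 1 else 0) + (if Rep Y g 2 then 1 else 0) +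
    (if Rep Y g 3 then 1 else 0)

theorem cl_le : cl Y ≤ ∑ g : Fin N, mm Y g ∧ (cl Y = ∑ g : Fin N, mm Y g →
    ∀ g h i j : ℕ, g < N → h < N → i < 4 → j < 4 → rr Y (4 * g + i) (4 * h + j) → g = h) := by
  classical
  let A : Type := {p : Fin N × Fin 4 // Rep Y p.1 p.2}
  let F : A → Quotient Y := fun p => ⟦⟨4 * p.1.1 + p.1.2, by omega⟩⟧
  have hsurj : Function.Surjective F := by
    intro q
    induction q using Quotient.inductionOn with
    | h z =>
      obtain ⟨z, hz⟩ := z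
      obtain ⟨i', h1, h2, h3⟩ := exists_rep Y ⟨z / 4, by omega⟩ (z % 4) (by omega)
      refine ⟨⟨(⟨z / 4, by omega⟩, ⟨i', h1⟩), h2⟩, ?_⟩
      apply Quotient.sound
      have h4 : 4 * (z / 4) + z % 4 = z := by omega
      obtain ⟨_, _, h5⟩ := h3
      simp only [h4] at h5
      exact h5
  have hcard : Fintype.card A = ∑ g : Fin N, mm Y g := by
    rw [Fintype.card_subtype, Finset.card_filter, Fintype.sum_prod_type]
    refine Finset.sum_congr rfl fun g _ => ?_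
    rw [Fin.sum_univ_four]
    rfl
  have hfin : Fintype (Quotient Y) := Fintype.ofFinite _
  have hq : cl Y = Fintype.card (Quotient Y) := Nat.card_eq_fintype_card
  refine ⟨?_, ?_⟩
  · rw [hq, ← hcard]
    exact Fintype.card_le_of_surjective F hsurj
  · intro heq g h i j hg hh hi hj hr
    have hbij : Function.Bijective F := by
      rw [Fintype.bijective_iff_surjective_and_card]
      exact ⟨hsurj, by rw [hcard, ← heq, hq]⟩
    obtain ⟨i', h1, h2, h3⟩ := exists_rep Y ⟨g, hg⟩ i hi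
    obtain ⟨j', k1, k2, k3⟩ := exists_rep Y ⟨h, hh⟩ j hj
    have h5 := rr_trans Y h3 (rr_trans Y hr (rr_symm Y k3))
    obtain ⟨_, _, h6⟩ := h5
    have h7 := hbij.1 (a₁ := ⟨(⟨g, hg⟩, ⟨i', h1⟩), h2⟩) (a₂ := ⟨(⟨h, hh⟩, ⟨j', k1⟩), k2⟩)
      (Quotient.sound h6)
    have h8 := congrArg (fun p : A => p.1.1.1) h7
    exact h8

/-- the first partition of a block -/
def aq (g : ℕ) : Quad := ((4 * g + 0, 4 * g + 1), (4 * g + 2, 4 * g + 3))
/-- the second partition of a block -/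
def bq (g : ℕ) : Quad := ((4 * g + 0, 4 * g + 2), (4 * g + 1, 4 * g + 3))
/-- the coupling of two blocks -/
def cq (u v : ℕ) : Quad := ((4 * u + 0, 4 * v + 0), (4 * u + 1, 4 * v + 2))

theorem good_aq {g : ℕ} (hg : g < N) : Good (4 * N) (aq g) := by
  unfold aq
  constructor <;> simp only <;> omega

theorem good_bq {g : ℕ} (hg : g < N) : Good (4 * N) (bq g) := by
  unfold bq
  constructor <;> simp only <;> omega

theorem good_cq {u v : ℕ} (hu : u < N) (hv : v < N) (h : u ≠ v) : Good (4 * N) (cq u v) := by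
  unfold cq
  constructor <;> simp only <;> omega

/-- the inequality for a block, and the case of equality -/
theorem loc (AB AC AD BC BD CD : Prop) [Decidable AB] [Decidable AC] [Decidable AD]
    [Decidable BC] [Decidable BD] [Decidable CD]
    (h1 : AB → BC → AC) (h2 : AB → AC → BC) (h3 : AC → BC → AB)
    (h4 : AB → BD → AD) (h5 : AB → AD → BD) (h6 : AD → BD → AB)
    (h7 : AC → CD → AD) (h8 : AC → AD → CD) (h9 : AD → CD → AC)
    (h10 : BC → CD → BD) (h11 : BC → BD → CD) (h12 : BD → CD → BC) :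
    5 * (1 + (if AB then 0 else 1) + (if AC ∨ BC then 0 else 1) +
      (if AD ∨ BD ∨ CD then 0 else 1)) ≤
      4 * (((if AB then 0 else 1) + (if CD ∨ (AC ∧ BD) ∨ (BC ∧ AD) then 0 else 1)) +
        ((if AC then 0 else 1) + (if BD ∨ (AB ∧ CD) ∨ (BC ∧ AD) then 0 else 1))) + 6 ∧
    (5 * (1 + (if AB then 0 else 1) + (if AC ∨ BC then 0 else 1) +
      (if AD ∨ BD ∨ CD then 0 else 1)) =
      4 * (((if AB then 0 else 1) + (if CD ∨ (AC ∧ BD) ∨ (BC ∧ AD) then 0 else 1)) +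
        ((if AC then 0 else 1) + (if BD ∨ (AB ∧ CD) ∨ (BC ∧ AD) then 0 else 1))) + 6 →
      (AB ∧ CD ∧ ¬ AC) ∨ (AC ∧ BD ∧ ¬ AB)) := by
  by_cases AB <;> by_cases AC <;> by_cases AD <;> by_cases BC <;> by_cases BD <;>
    by_cases CD <;> simp_all

open Classical in
theorem block {g : ℕ} :
    5 * mm Y g ≤ 4 * (rho Y (aq g) + rho Y (bq g)) + 6 ∧
    (5 * mm Y g = 4 * (rho Y (aq g) + rho Y (bq g)) + 6 →
      (rr Y (4 * g + 0) (4 * g + 1) ∧ rr Y (4 * g + 2) (4 * g + 3) ∧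
        ¬ rr Y (4 * g + 0) (4 * g + 2)) ∨
      (rr Y (4 * g + 0) (4 * g + 2) ∧ rr Y (4 * g + 1) (4 * g + 3) ∧
        ¬ rr Y (4 * g + 0) (4 * g + 1))) := by
  have tr : ∀ {p q r : ℕ}, rr Y p q → rr Y q r → rr Y p r := rr_trans Y
  have sy : ∀ {p q : ℕ}, rr Y p q → rr Y q p := rr_symm Y
  have key := loc (rr Y (4 * g + 0) (4 * g + 1)) (rr Y (4 * g + 0) (4 * g + 2))
    (rr Y (4 * g + 0) (4 * g + 3)) (rr Y (4 * g + 1) (4 * g + 2))
    (rr Y (4 * g + 1) (4 * g + 3)) (rr Y (4 * g + 2) (4 * g + 3))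
    (fun h h' => tr h h') (fun h h' => tr (sy h) h') (fun h h' => tr h (sy h'))
    (fun h h' => tr h h') (fun h h' => tr (sy h) h') (fun h h' => tr h (sy h'))
    (fun h h' => tr h h') (fun h h' => tr (sy h) h') (fun h h' => tr h (sy h'))
    (fun h h' => tr h h') (fun h h' => tr (sy h) h') (fun h h' => tr h (sy h'))
  have e1 : mm Y g = 1 + (if rr Y (4 * g + 0) (4 * g + 1) then 0 else 1) +
      (if rr Y (4 * g + 0) (4 * g + 2) ∨ rr Y (4 * g + 1) (4 * g + 2) then 0 else 1) +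
      (if rr Y (4 * g + 0) (4 * g + 3) ∨ rr Y (4 * g + 1) (4 * g + 3) ∨
        rr Y (4 * g + 2) (4 * g + 3) then 0 else 1) := by
    have r0 : Rep Y g 0 := fun j hj => absurd hj (Nat.not_lt_zero _)
    have r1 : Rep Y g 1 ↔ ¬ rr Y (4 * g + 0) (4 * g + 1) := by
      constructor
      · intro h
        exact h 0 (by omega)
      · intro h j hj
        interval_cases j
        exact h
    have r2 : Rep Y g 2 ↔ ¬ (rr Y (4 * g + 0) (4 * g + 2) ∨ rr Y (4 * g + 1) (4 * g + 2)) := by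
      rw [not_or]
      constructor
      · intro h
        exact ⟨h 0 (by omega), h 1 (by omega)⟩
      · rintro ⟨h, h'⟩ j hj
        interval_cases j
        · exact h
        · exact h'
    have r3 : Rep Y g 3 ↔ ¬ (rr Y (4 * g + 0) (4 * g + 3) ∨ rr Y (4 * g + 1) (4 * g + 3) ∨
        rr Y (4 * g + 2) (4 * g + 3)) := by
      rw [not_or, not_or]
      constructor
      · intro h
        exact ⟨h 0 (by omega), h 1 (by omega), h 2 (by omega)⟩
      · rintro ⟨h, h', h''⟩ j hj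
        interval_cases j
        · exact h
        · exact h'
        · exact h''
    unfold mm
    rw [if_pos r0]
    simp only [r1, r2, r3, ite_not]
  have e2 : rho Y (aq g) = (if rr Y (4 * g + 0) (4 * g + 1) then 0 else 1) +
      (if rr Y (4 * g + 2) (4 * g + 3) ∨ (rr Y (4 * g + 0) (4 * g + 2) ∧
        rr Y (4 * g + 1) (4 * g + 3)) ∨ (rr Y (4 * g + 1) (4 * g + 2) ∧
        rr Y (4 * g + 0) (4 * g + 3)) then 0 else 1) := by
    unfold rho aq
    simp only [rr_comm Y (p := 4 * g + 2) (q := 4 * g + 0), rr_comm Y (p := 4 * g + 2)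
      (q := 4 * g + 1)]
  have e3 : rho Y (bq g) = (if rr Y (4 * g + 0) (4 * g + 2) then 0 else 1) +
      (if rr Y (4 * g + 1) (4 * g + 3) ∨ (rr Y (4 * g + 0) (4 * g + 1) ∧
        rr Y (4 * g + 2) (4 * g + 3)) ∨ (rr Y (4 * g + 1) (4 * g + 2) ∧
        rr Y (4 * g + 0) (4 * g + 3)) then 0 else 1) := by
    unfold rho bq
    simp only [rr_comm Y (p := 4 * g + 1) (q := 4 * g + 0)]
  rw [e1, e2, e3]
  exact key

end Classes

end Pool.Agent.V11229.Pmed
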