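import Pool.Agent.V11229.FG

/-!
# A list of primes computable in polynomial time
-/

namespace Pool.Agent.V11229.Role

open Pool.Agent.NPC

/-- trial division, for numbers up to `B` -/
def isPrB (B p : ℕ) : Bool := decide (2 ≤ p) &&
  (List.range B).all (fun d => decide (d < 2) || decide (p ≤ d) || !(decide (p % d = 0)))

theorem isPrB_iff {B p : ℕ} (h : p ≤ B) : isPrB B p = true ↔ p.Prime := by
  unfold isPrB
  simp only [Bool.and_eq_true, decide_eq_true_eq, List.all_eq_true, List.mem_range,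
    Bool.or_eq_true, Bool.not_eq_true', decide_eq_false_iff_not]
  rw [Nat.prime_def_lt']
  constructor
  · rintro ⟨h1, h2⟩
    refine ⟨h1, fun m hm hmp hdvd => ?_⟩
    have h3 := h2 m (by omega)
    have h4 : p % m = 0 := Nat.mod_eq_zero_of_dvd hdvd
    omega
  · rintro ⟨h1, h2⟩
    refine ⟨h1, fun d hd => ?_⟩
    by_cases hd2 : d < 2
    · exact Or.inl (Or.inl hd2)
    · by_cases hpd : p ≤ d
      · exact Or.inl (Or.inr hpd)
      · right
        intro h4
        exact h2 d (by omega) (by omega) (Nat.dvd_of_mod_eq_zero h4)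

/-- the bound for the primes -/
def bnd (n : ℕ) : ℕ := (n + 10) * (n + 10) + 1

/-- the primes below the bound -/
def prL (n : ℕ) : List ℕ := (List.range (bnd n)).filter (isPrB (bnd n))

theorem prL_nodup (n : ℕ) : (prL n).Nodup := List.Nodup.filter _ List.nodup_range

theorem mem_prL {n p : ℕ} (h : p ∈ prL n) : p.Prime ∧ p < bnd n := by
  unfold prL at h
  rw [List.mem_filter, List.mem_range] at h
  exact ⟨(isPrB_iff h.1.le).1 h.2, h.1⟩

theorem real_bound {M : ℝ} (hM : 10 ≤ M) :
    M - 10 ≤ (M ^ 2 * Real.log 2 - Real.log (M ^ 2 + 1)) / Real.log (M ^ 2) := by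
  have h2 : (0.6931471803 : ℝ) < Real.log 2 := Real.log_two_gt_d9
  have h2' : Real.log 2 < (0.6931471808 : ℝ) := Real.log_two_lt_d9
  have hpos : 0 < M := by linarith
  have hlogM : Real.log M ≤ M / 4 := by
    have h3 : Real.log (M / 8) ≤ M / 8 - 1 := Real.log_le_sub_one_of_pos (by positivity)
    have h4 : Real.log (M / 8) = Real.log M - 3 * Real.log 2 := by
      rw [Real.log_div hpos.ne' (by norm_num)]
      have : (8 : ℝ) = 2 ^ 3 := by norm_num
      rw [this, Real.log_pow]
      norm_num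
    linarith
  have hlog1 : 0 < Real.log M := Real.log_pos (by linarith)
  have hlogsq : Real.log (M ^ 2) = 2 * Real.log M := by
    rw [Real.log_pow]
    norm_num
  have hlog3 : Real.log (M ^ 2 + 1) ≤ 2 * Real.log M + 1 := by
    have h5 : M ^ 2 + 1 ≤ M ^ 2 * 2 := by nlinarith
    have h6 : Real.log (M ^ 2 + 1) ≤ Real.log (M ^ 2 * 2) :=
      Real.log_le_log (by positivity) h5
    rw [Real.log_mul (by positivity) (by norm_num), hlogsq] at h6
    linarith
  rw [hlogsq, le_div_iff₀ (by linarith)]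
  have h7 : (M - 10) * (2 * Real.log M) ≤ (M - 10) * (M / 2) :=
    mul_le_mul_of_nonneg_left (by linarith) (by linarith)
  have h8 : M ^ 2 * 0.6931471803 ≤ M ^ 2 * Real.log 2 :=
    mul_le_mul_of_nonneg_left h2.le (by positivity)
  nlinarith

theorem length_prL (n : ℕ) : n ≤ (prL n).length := by
  have h1 : (prL n).length = Nat.primeCounting ((n + 10) * (n + 10)) := by
    unfold Nat.primeCounting Nat.primeCounting'
    rw [Nat.count_eq_card_filter_range]
    unfold prL bnd
    rw [← List.toFinset_card_of_nodup (List.Nodup.filter _ List.nodup_range)]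
    congr 1
    ext p
    rw [List.mem_toFinset, List.mem_filter, List.mem_range, Finset.mem_filter, Finset.mem_range]
    constructor
    · rintro ⟨h1, h2⟩
      exact ⟨h1, (isPrB_iff h1.le).1 h2⟩
    · rintro ⟨h1, h2⟩
      exact ⟨h1, (isPrB_iff h1.le).2 h2⟩
  rw [h1]
  have h2 := Chebyshev.pi_ge ((n + 10) * (n + 10))
  have h3 := real_bound (M := (n : ℝ) + 10) (by
    have : (0 : ℝ) ≤ n := Nat.cast_nonneg n
    linarith)
  have h4 : (((n + 10) * (n + 10) : ℕ) : ℝ) = ((n : ℝ) + 10) ^ 2 := by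
    push_cast
    ring
  rw [h4] at h2
  have h5 : (n : ℝ) ≤ (Nat.primeCounting ((n + 10) * (n + 10)) : ℝ) := by
    calc (n : ℝ) = (n : ℝ) + 10 - 10 := by ring
      _ ≤ _ := h3
      _ ≤ _ := h2
  exact_mod_cast h5

/-- the length assigned to a type -/
def qf (n t : ℕ) : ℕ := (prL n).getD t 2

theorem qf_prime (n t : ℕ) : (qf n t).Prime := by
  unfold qf
  rcases Nat.lt_or_ge t (prL n).length with h | h
  · rw [List.getD_eq_getElem _ _ h]
    exact (mem_prL (List.getElem_mem h)).1
  · rw [List.getD_eq_default _ _ h]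
    exact Nat.prime_two

theorem qf_lt (n t : ℕ) : qf n t < bnd n := by
  unfold qf
  rcases Nat.lt_or_ge t (prL n).length with h | h
  · rw [List.getD_eq_getElem _ _ h]
    exact (mem_prL (List.getElem_mem h)).2
  · rw [List.getD_eq_default _ _ h]
    unfold bnd
    nlinarith

theorem qf_inj {n s t : ℕ} (hs : s < n) (ht : t < n) (h : qf n s = qf n t) : s = t := by
  unfold qf at h
  have hl := length_prL n
  rw [List.getD_eq_getElem _ _ (by omega), List.getD_eq_getElem _ _ (by omega)] at h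
  exact (List.Nodup.getElem_inj_iff (prL_nodup n)).1 h

theorem qf_dvd {n s a b c : ℕ} (hs : s < n) (ha : a < n) (hb : b < n) (hc : c < n) :
    qf n s ∣ qf n a * qf n b * qf n c ↔ s = a ∨ s = b ∨ s = c := by
  constructor
  · intro h
    rcases (qf_prime n s).dvd_mul.1 h with h | h
    · rcases (qf_prime n s).dvd_mul.1 h with h | h
      · exact Or.inl (qf_inj hs ha ((Nat.prime_dvd_prime_iff_eq (qf_prime _ _) (qf_prime _ _)).1 h))
      · exact Or.inr (Or.inl
          (qf_inj hs hb ((Nat.prime_dvd_prime_iff_eq (qf_prime _ _) (qf_prime _ _)).1 h)))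
    · exact Or.inr (Or.inr
        (qf_inj hs hc ((Nat.prime_dvd_prime_iff_eq (qf_prime _ _) (qf_prime _ _)).1 h)))
  · rintro (rfl | rfl | rfl)
    · exact Dvd.dvd.mul_right (Dvd.dvd.mul_right dvd_rfl _) _
    · exact Dvd.dvd.mul_right (Dvd.dvd.mul_left dvd_rfl _) _
    · exact Dvd.dvd.mul_left dvd_rfl _

theorem bnd_upoly {α : Type} [TEnc α] {n : α → ℕ} (h : UPoly n) : UPoly (fun a => bnd (n a)) := by
  unfold bnd
  exact UPoly.add (UPoly.mul (UPoly.add h (UPoly.const 10)) (UPoly.add h (UPoly.const 10)))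
    (UPoly.const 1)

theorem prL_poly {α : Type} [TEnc α] {n : α → ℕ} (h : UPoly n) : Poly (fun a => prL (n a)) := by
  unfold prL
  have hb := bnd_upoly h
  refine NPC.Poly.filter (p := fun a p => isPrB (bnd (n a)) p) hb.range ?_
  unfold isPrB
  have h1 : Poly (fun x : α × ℕ => decide (2 ≤ x.2)) := by fun_prop
  refine NPC.Poly.and h1 ?_
  refine Poly.allRange (n := fun x : α × ℕ => bnd (n x.1))
    (p := fun x d => decide (d < 2) || decide (x.2 ≤ d) || !(decide (x.2 % d = 0)))
    (hb.comp (NPC.Poly.fst NPC.Poly.id)) ?_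
  have h2 : Poly (fun x : (α × ℕ) × ℕ => x.1.2 % x.2) :=
    NPC.Poly.mod (by fun_prop) (by fun_prop)
  fun_prop

theorem qf_poly {α : Type} [TEnc α] {n t : α → ℕ} (h : UPoly n) (ht : Poly t) :
    Poly (fun a => qf (n a) (t a)) := by
  unfold qf
  exact NPC.Poly.getD (prL_poly h) ht (NPC.Poly.const 2)

end Pool.Agent.V11229.Role
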