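import Pool.Agent.V11229.RoleCore
import Pool.Agent.V11229.RolePr
import Pool.Agent.V11229.Occ

/-!
# From satisfiability to the choice of types
-/

namespace Pool.Agent.V11229.Role

open Pool.Agent.NPC

/-- the number of occurrences -/
abbrev nO (φ : F3) : ℕ := φ.length * 3

/-- the number of paths in a group -/
def cnt (φ : F3) (g : ℕ) : ℕ := if g = 0 then 2 * nO φ else if g = 4 then 2 * nO φ else nO φ

/-- the type of an occurrence whose literal is true -/
def tp (φ : F3) (o : ℕ) : ℕ := 2 * o + (if (lt φ o).1 = true then 0 else 1)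

/-- the type of an occurrence whose literal is false -/
def fp (φ : F3) (o : ℕ) : ℕ := 2 * o + (if (lt φ o).1 = true then 1 else 0)

/-- the three types allowed for a path -/
def Jt (φ : F3) (g k : ℕ) : ℕ × ℕ × ℕ :=
  if g = 0 then (k, k, k) else if g = 4 then (k, k, k) else
  if g = 1 then (2 * k, 2 * k + 1, 2 * k) else
  if g = 3 then (2 * k + 1, 2 * nx φ k, 2 * k + 1) else
  if k % 3 = 0 then (fp φ k, fp φ (k + 1), fp φ (k + 2)) else (tp φ (k - 1), tp φ k, fp φ k)

/-- the length of a path -/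
def lenF (φ : F3) (g k : ℕ) : ℕ :=
  qf (2 * nO φ) (Jt φ g k).1 * qf (2 * nO φ) (Jt φ g k).2.1 * qf (2 * nO φ) (Jt φ g k).2.2

/-- the paths of the host -/
abbrev KT (φ : F3) : Type := {x : ℕ × ℕ // x.1 < 5 ∧ x.2 < cnt φ x.1}

/-- the types -/
abbrev TT (φ : F3) : Type := Fin (2 * nO φ)

/-- the group of a path -/
def gK {φ : F3} (κ : KT φ) : ℕ := κ.1.1

/-- the length of a path -/
def lK {φ : F3} (κ : KT φ) : ℕ := lenF φ κ.1.1 κ.1.2

/-- the length of a path of the target -/
def qT {φ : F3} (τ : TT φ) : ℕ := qf (2 * nO φ) τ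

theorem nx_lt {φ : F3} {o : ℕ} (h : o < nO φ) : nx φ o < nO φ := (nxP φ ⟨o, h⟩).isLt

theorem J_lt {φ : F3} (κ : KT φ) : (Jt φ κ.1.1 κ.1.2).1 < 2 * nO φ ∧
    (Jt φ κ.1.1 κ.1.2).2.1 < 2 * nO φ ∧ (Jt φ κ.1.1 κ.1.2).2.2 < 2 * nO φ := by
  obtain ⟨⟨g, k⟩, hg, hk⟩ := κ
  simp only at hg hk ⊢
  unfold cnt at hk
  unfold Jt
  by_cases h0 : g = 0
  · rw [if_pos h0] at hk ⊢
    exact ⟨hk, hk, hk⟩
  rw [if_neg h0] at hk ⊢
  by_cases h4 : g = 4
  · rw [if_pos h4] at hk ⊢
    exact ⟨hk, hk, hk⟩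
  rw [if_neg h4] at hk ⊢
  by_cases h1 : g = 1
  · rw [if_pos h1]
    simp only
    omega
  rw [if_neg h1]
  by_cases h3 : g = 3
  · rw [if_pos h3]
    have := nx_lt hk
    simp only
    omega
  rw [if_neg h3]
  by_cases hm : k % 3 = 0
  · rw [if_pos hm]
    unfold fp
    unfold nO at hk ⊢
    simp only
    refine ⟨?_, ?_, ?_⟩ <;> split_ifs <;> omega
  · rw [if_neg hm]
    unfold fp tp
    simp only
    refine ⟨?_, ?_, ?_⟩ <;> split_ifs <;> omega

theorem choice_iff (φ : F3) : Choice (K := KT φ) (T := TT φ) gK lK qT ↔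
    ∃ t : KT φ → TT φ, (∀ κ, (t κ : ℕ) = (Jt φ κ.1.1 κ.1.2).1 ∨
      (t κ : ℕ) = (Jt φ κ.1.1 κ.1.2).2.1 ∨ (t κ : ℕ) = (Jt φ κ.1.1 κ.1.2).2.2) ∧
    ∀ a < 6, ∀ τ : TT φ, ∃ κ : KT φ, (κ.1.1 = a ∨ κ.1.1 + 1 = a) ∧ t κ = τ := by
  unfold Choice
  apply exists_congr
  intro t
  refine and_congr (forall_congr' fun κ => ?_) Iff.rfl
  obtain ⟨h1, h2, h3⟩ := J_lt κ
  unfold qT lK lenF
  exact qf_dvd (t κ).isLt h1 h2 h3

theorem sat_of_choice {φ : F3} (t : KT φ → TT φ)
    (ht : ∀ κ, (t κ : ℕ) = (Jt φ κ.1.1 κ.1.2).1 ∨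
      (t κ : ℕ) = (Jt φ κ.1.1 κ.1.2).2.1 ∨ (t κ : ℕ) = (Jt φ κ.1.1 κ.1.2).2.2)
    (hc : ∀ a < 6, ∀ τ : TT φ, ∃ κ : KT φ, (κ.1.1 = a ∨ κ.1.1 + 1 = a) ∧ t κ = τ) : SAT3 φ := by
  classical
  have hcnt : ∀ g, g = 1 ∨ g = 2 ∨ g = 3 → cnt φ g = nO φ := by
    intro g hg
    unfold cnt
    rw [if_neg (by omega), if_neg (by omega)]
  let k2 : Fin (nO φ) → KT φ := fun k => ⟨(2, k), by norm_num, by
    change (k : ℕ) < cnt φ 2
    rw [hcnt 2 (by norm_num)]
    exact k.isLt⟩
  let S : Finset (TT φ) := Finset.univ.image (fun k => t (k2 k))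
  have hS : S.card ≤ nO φ := by
    refine Finset.card_image_le.trans ?_
    simp
  have hmemS : ∀ κ : KT φ, κ.1.1 = 2 → t κ ∈ S := by
    rintro ⟨⟨g, k⟩, hg, hk⟩ h2
    simp only at h2 hk
    subst h2
    rw [hcnt 2 (by norm_num)] at hk
    exact Finset.mem_image.2 ⟨⟨k, hk⟩, Finset.mem_univ _, rfl⟩
  have hM1 : ∀ τ, τ ∉ S → ∃ κ : KT φ, κ.1.1 = 1 ∧ t κ = τ := by
    intro τ hτ
    obtain ⟨κ, h1, h2⟩ := hc 2 (by norm_num) τ
    refine ⟨κ, ?_, h2⟩
    rcases h1 with h1 | h1
    · exact absurd (hmemS κ h1) (by rw [h2]; exact hτ)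
    · omega
  have hM3 : ∀ τ, τ ∉ S → ∃ κ : KT φ, κ.1.1 = 3 ∧ t κ = τ := by
    intro τ hτ
    obtain ⟨κ, h1, h2⟩ := hc 3 (by norm_num) τ
    refine ⟨κ, ?_, h2⟩
    rcases h1 with h1 | h1
    · exact h1
    · exact absurd (hmemS κ (by omega)) (by rw [h2]; exact hτ)
  have hJ1 : ∀ κ : KT φ, κ.1.1 = 1 → (t κ : ℕ) = 2 * κ.1.2 ∨ (t κ : ℕ) = 2 * κ.1.2 + 1 := by
    intro κ hκ
    have h := ht κ
    unfold Jt at h
    rw [hκ, if_neg (by norm_num), if_neg (by norm_num), if_pos rfl] at h
    tauto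
  have hJ3 : ∀ κ : KT φ, κ.1.1 = 3 → (t κ : ℕ) = 2 * κ.1.2 + 1 ∨
      (t κ : ℕ) = 2 * nx φ κ.1.2 := by
    intro κ hκ
    have h := ht κ
    unfold Jt at h
    rw [hκ, if_neg (by norm_num), if_neg (by norm_num), if_neg (by norm_num), if_pos rfl] at h
    tauto
  -- at most one type of each pair is missing in group 2
  have hone : ∀ τ τ' : TT φ, τ ∉ S → τ' ∉ S → (τ : ℕ) / 2 = (τ' : ℕ) / 2 → τ = τ' := by
    intro τ τ' h h' hd
    obtain ⟨κ, hκ, rfl⟩ := hM1 τ h
    obtain ⟨κ', hκ', rfl⟩ := hM1 τ' h'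
    have e1 := hJ1 κ hκ
    have e2 := hJ1 κ' hκ'
    have : κ = κ' := by
      apply Subtype.ext
      apply Prod.ext
      · rw [hκ, hκ']
      · omega
    rw [this]
  have hdiv : ∀ τ : TT φ, (τ : ℕ) / 2 < nO φ := fun τ => by
    have := τ.isLt
    omega
  have hsurj : ∀ o : Fin (nO φ), ∃ τ : TT φ, τ ∉ S ∧ (τ : ℕ) / 2 = o := by
    have h1 : (Sᶜ.image (fun τ : TT φ => (⟨(τ : ℕ) / 2, hdiv τ⟩ : Fin (nO φ)))).card = Sᶜ.card := by
      apply Finset.card_image_of_injOn
      intro τ hτ τ' hτ' h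
      have h2 := congrArg Fin.val h
      simp only [Finset.coe_compl, Set.mem_compl_iff, Finset.mem_coe] at hτ hτ'
      exact hone τ τ' hτ hτ' h2
    have h2 : Sᶜ.card = 2 * nO φ - S.card := by
      rw [Finset.card_compl, Fintype.card_fin]
    have h3 : Sᶜ.image (fun τ : TT φ => (⟨(τ : ℕ) / 2, hdiv τ⟩ : Fin (nO φ))) = Finset.univ := by
      apply Finset.eq_univ_of_card
      apply le_antisymm (Finset.card_le_univ _)
      rw [h1, h2, Fintype.card_fin]
      omega
    intro o
    have h4 : o ∈ Sᶜ.image (fun τ : TT φ => (⟨(τ : ℕ) / 2, hdiv τ⟩ : Fin (nO φ))) := by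
      rw [h3]
      exact Finset.mem_univ o
    obtain ⟨τ, hτ, rfl⟩ := Finset.mem_image.1 h4
    exact ⟨τ, Finset.mem_compl.1 hτ, rfl⟩
  let ty : Fin (nO φ) → Bool → TT φ := fun o b => ⟨2 * o + (if b = true then 0 else 1), by
    have := o.isLt
    split_ifs <;> omega⟩
  have hty : ∀ o b, ((ty o b : TT φ) : ℕ) = 2 * o + (if b = true then 0 else 1) := fun o b => rfl
  let y : Fin (nO φ) → Bool := fun o => decide (ty o true ∉ S)
  have hy : ∀ o, ty o (y o) ∉ S := by
    intro o
    by_cases h : ty o true ∉ S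
    · have : y o = true := decide_eq_true h
      rw [this]
      exact h
    · have hyo : y o = false := decide_eq_false h
      rw [hyo]
      obtain ⟨τ, hτ, ho⟩ := hsurj o
      have : τ = ty o true ∨ τ = ty o false := by
        have h1 : (τ : ℕ) = 2 * o ∨ (τ : ℕ) = 2 * o + 1 := by omega
        rcases h1 with h1 | h1
        · left
          apply Fin.ext
          rw [h1, hty]
          simp
        · right
          apply Fin.ext
          rw [h1, hty]
          simp
      rcases this with rfl | rfl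
      · exact absurd hτ h
      · exact hτ
  have hy' : ∀ o, ty o (!(y o)) ∈ S := by
    intro o
    by_contra h
    have h1 := hone _ _ h (hy o) (by rw [hty, hty]; split_ifs <;> omega)
    have h2 := congrArg Fin.val h1
    rw [hty, hty] at h2
    cases hyo : y o <;> rw [hyo] at h2 <;> simp at h2
  -- propagation
  have hprop : ∀ o, y (nxP φ o) = true → y o = true := by
    intro o h
    by_contra hne
    have hf : y o = false := by simpa using hne
    have h1 := hy o
    have h2 := hy (nxP φ o)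
    rw [hf] at h1
    rw [h] at h2
    obtain ⟨κ, hκ, e⟩ := hM3 _ h1
    obtain ⟨κ', hκ', e'⟩ := hM3 _ h2
    have v := congrArg Fin.val e
    have v' := congrArg Fin.val e'
    rw [hty] at v v'
    simp only [Bool.false_eq_true, if_false, if_true, add_zero] at v v'
    have b1 : κ.1.2 = o := by
      rcases hJ3 κ hκ with h3 | h3 <;> omega
    have hk' : κ'.1.2 < nO φ := by
      have := κ'.2.2
      rw [hκ', hcnt 3 (by norm_num)] at this
      exact this
    have b2 : nx φ κ'.1.2 = nxP φ o := by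
      rcases hJ3 κ' hκ' with h3 | h3 <;> omega
    have b3 : nxP φ ⟨κ'.1.2, hk'⟩ = nxP φ o := Fin.ext b2
    have b4 := congrArg Fin.val ((nxP φ).injective b3)
    simp only at b4
    have : κ = κ' := by
      apply Subtype.ext
      apply Prod.ext
      · rw [hκ, hκ']
      · rw [b1, b4]
    rw [this] at v
    omega
  have hconst : ∀ o, y (nxP φ o) = y o := by
    let A : Finset (Fin (nO φ)) := Finset.univ.filter (fun o => y o = false)
    have hAm : ∀ o, o ∈ A ↔ y o = false := fun o => by simp [A]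
    have hA : A.image (nxP φ) ⊆ A := by
      intro o ho
      obtain ⟨o', ho', rfl⟩ := Finset.mem_image.1 ho
      rw [hAm] at ho' ⊢
      by_contra h
      have h1 : y (nxP φ o') = true := by simpa using h
      rw [hprop o' h1] at ho'
      exact absurd ho' (by simp)
    have hA' : A.image (nxP φ) = A := by
      apply Finset.eq_of_subset_of_card_le hA
      rw [Finset.card_image_of_injective _ (nxP φ).injective]
    intro o
    by_cases h : y (nxP φ o) = true
    · rw [h, hprop o h]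
    · have h1 : nxP φ o ∈ A := by
        rw [hAm]
        simpa using h
      rw [← hA'] at h1
      obtain ⟨o', ho', e⟩ := Finset.mem_image.1 h1
      rw [(nxP φ).injective e, hAm] at ho'
      rw [ho']
      simpa using h
  rw [sat3_iff]
  refine ⟨y, hconst, fun j => ?_⟩
  by_contra hcon
  push Not at hcon
  have hin : ∀ r : Fin 3, ∃ k : Fin (nO φ), (t (k2 k) : ℕ) = tp φ (oc j r) := by
    intro r
    have h1 := hy' (oc j r)
    have h2 : (!(y (oc j r))) = (lt φ (oc j r)).1 := by
      have := hcon r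
      cases h3 : y (oc j r) <;> cases h4 : (lt φ (oc j r)).1 <;> simp_all
    rw [h2] at h1
    obtain ⟨k, _, hk⟩ := Finset.mem_image.1 h1
    refine ⟨k, ?_⟩
    have h5 := congrArg Fin.val hk
    rw [hty] at h5
    exact h5
  have hk : ∀ (r : Fin 3) (k : Fin (nO φ)), (t (k2 k) : ℕ) = tp φ (oc j r) →
      (k : ℕ) % 3 ≠ 0 ∧ ((k : ℕ) = oc j r ∨ (k : ℕ) = oc j r + 1) := by
    intro r k h
    have h1 := ht (k2 k)
    have e : Jt φ (k2 k).1.1 (k2 k).1.2 = if (k : ℕ) % 3 = 0 then
        (fp φ k, fp φ (k + 1), fp φ (k + 2)) else (tp φ (k - 1), tp φ k, fp φ k) := by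
      change Jt φ 2 k = _
      unfold Jt
      rw [if_neg (by norm_num), if_neg (by norm_num), if_neg (by norm_num), if_neg (by norm_num)]
    rw [e, h] at h1
    have hfp : ∀ o o', tp φ o = fp φ o' → False := by
      intro o o' h
      unfold tp fp at h
      have ho : o = o' := by split_ifs at h <;> omega
      subst ho
      split_ifs at h <;> omega
    have htp : ∀ o o', tp φ o = tp φ o' → o = o' := by
      intro o o' h
      unfold tp at h
      split_ifs at h <;> omega
    by_cases hm : (k : ℕ) % 3 = 0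
    · exfalso
      rw [if_pos hm] at h1
      rcases h1 with h1 | h1 | h1
      · exact hfp _ _ h1
      · exact hfp _ _ h1
      · exact hfp _ _ h1
    · rw [if_neg hm] at h1
      refine ⟨hm, ?_⟩
      rcases h1 with h1 | h1 | h1
      · have := htp _ _ h1
        right
        omega
      · have := htp _ _ h1
        left
        omega
      · exact absurd (hfp _ _ h1) (by simp)
  obtain ⟨k0, h0⟩ := hin 0
  obtain ⟨k1, h1⟩ := hin 1
  obtain ⟨k2', h2⟩ := hin 2
  obtain ⟨m0, c0⟩ := hk 0 k0 h0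
  obtain ⟨m1, c1⟩ := hk 1 k1 h1
  obtain ⟨m2, c2⟩ := hk 2 k2' h2
  have v0 : ((oc j 0 : Fin (φ.length * 3)) : ℕ) = 3 * j := rfl
  have v1 : ((oc j 1 : Fin (φ.length * 3)) : ℕ) = 3 * j + 1 := rfl
  have v2 : ((oc j 2 : Fin (φ.length * 3)) : ℕ) = 3 * j + 2 := rfl
  rw [v0] at c0 h0
  rw [v1] at c1 h1
  rw [v2] at c2 h2
  have htp : ∀ o o', tp φ o = tp φ o' → o = o' := by
    intro o o' h
    unfold tp at h
    split_ifs at h <;> omega
  have n01 : k0 ≠ k1 := by
    rintro rfl
    have := htp _ _ (h0.symm.trans h1)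
    omega
  have n12 : k1 ≠ k2' := by
    rintro rfl
    have := htp _ _ (h1.symm.trans h2)
    omega
  have n01' : (k0 : ℕ) ≠ k1 := fun h => n01 (Fin.ext h)
  have n12' : (k1 : ℕ) ≠ k2' := fun h => n12 (Fin.ext h)
  omega

theorem choice_of_sat {φ : F3} (h : SAT3 φ) : ∃ t : KT φ → TT φ,
    (∀ κ, (t κ : ℕ) = (Jt φ κ.1.1 κ.1.2).1 ∨
      (t κ : ℕ) = (Jt φ κ.1.1 κ.1.2).2.1 ∨ (t κ : ℕ) = (Jt φ κ.1.1 κ.1.2).2.2) ∧
    ∀ a < 6, ∀ τ : TT φ, ∃ κ : KT φ, (κ.1.1 = a ∨ κ.1.1 + 1 = a) ∧ t κ = τ := by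
  classical
  rw [sat3_iff] at h
  obtain ⟨y, hy, hcl⟩ := h
  -- values on natural numbers
  let Y : ℕ → Bool := fun o => if h : o < nO φ then y ⟨o, h⟩ else true
  have hY : ∀ o : Fin (nO φ), Y o = y o := fun o => dif_pos o.isLt
  have hYnx : ∀ o, o < nO φ → Y (nx φ o) = Y o := by
    intro o ho
    have h1 := hy ⟨o, ho⟩
    rw [← hY, ← hY] at h1
    exact h1
  -- the true type and the false type of an occurrence
  let c : ℕ → ℕ := fun o => 2 * o + (if Y o = true then 1 else 0)
  let s : ℕ → Bool := fun o => decide (Y o = (lt φ o).1)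
  have hcs : ∀ o, s o = true → c o = fp φ o := by
    intro o ho
    have h1 : Y o = (lt φ o).1 := of_decide_eq_true ho
    change 2 * o + (if Y o = true then 1 else 0) = fp φ o
    unfold fp
    rw [h1]
  have hcs' : ∀ o, s o = false → c o = tp φ o := by
    intro o ho
    have h1 : ¬ Y o = (lt φ o).1 := of_decide_eq_false ho
    change 2 * o + (if Y o = true then 1 else 0) = tp φ o
    unfold tp
    cases h2 : Y o <;> cases h3 : (lt φ o).1 <;> simp_all
  have hcdiv : ∀ o, c o / 2 = o := by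
    intro o
    change (2 * o + (if Y o = true then 1 else 0)) / 2 = o
    split_ifs <;> omega
  let f : ℕ → ℕ → ℕ := fun g k =>
    if g = 0 then k else if g = 4 then k else
    if g = 1 then 2 * k + (if Y k = true then 0 else 1) else
    if g = 3 then (if Y k = true then 2 * nx φ k else 2 * k + 1) else
    if k % 3 = 0 then (if s k = true then c k else if s (k + 1) = true then c (k + 1)
      else c (k + 2)) else
    if k % 3 = 1 then (if s (k - 1) = true then c k else c (k - 1)) else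
    (if s (k - 2) = true ∨ s (k - 1) = true then c k else c (k - 1))
  have hf0 : ∀ k, f 0 k = k := fun k => rfl
  have hf4 : ∀ k, f 4 k = k := fun k => rfl
  have hf1 : ∀ k, f 1 k = 2 * k + (if Y k = true then 0 else 1) := fun k => rfl
  have hf3 : ∀ k, f 3 k = (if Y k = true then 2 * nx φ k else 2 * k + 1) := fun k => rfl
  have hf2 : ∀ k, f 2 k = if k % 3 = 0 then (if s k = true then c k else if s (k + 1) = true
      then c (k + 1) else c (k + 2)) else
    if k % 3 = 1 then (if s (k - 1) = true then c k else c (k - 1)) else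
    (if s (k - 2) = true ∨ s (k - 1) = true then c k else c (k - 1)) := fun k => rfl
  have hclause : ∀ j, j < φ.length → s (3 * j) = true ∨ s (3 * j + 1) = true ∨
      s (3 * j + 2) = true := by
    intro j hj
    obtain ⟨r, hr⟩ := hcl ⟨j, hj⟩
    rw [← hY] at hr
    match r, hr with
    | 0, hr => exact Or.inl (decide_eq_true hr)
    | 1, hr => exact Or.inr (Or.inl (decide_eq_true hr))
    | 2, hr => exact Or.inr (Or.inr (decide_eq_true hr))
  have hmem : ∀ g k, g < 5 → k < cnt φ g → f g k = (Jt φ g k).1 ∨ f g k = (Jt φ g k).2.1 ∨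
      f g k = (Jt φ g k).2.2 := by
    intro g k hg hk
    interval_cases g
    · exact Or.inl rfl
    · rw [hf1]
      have e : Jt φ 1 k = (2 * k, 2 * k + 1, 2 * k) := rfl
      rw [e]
      split_ifs
      · exact Or.inl rfl
      · exact Or.inr (Or.inl rfl)
    · rw [hf2]
      have e : Jt φ 2 k = if k % 3 = 0 then
        (fp φ k, fp φ (k + 1), fp φ (k + 2)) else (tp φ (k - 1), tp φ k, fp φ k) := rfl
      rw [e]
      have hkN : k < φ.length * 3 := hk
      by_cases hm : k % 3 = 0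
      · rw [if_pos hm, if_pos hm]
        by_cases h1 : s k = true
        · rw [if_pos h1]
          exact Or.inl (hcs _ h1)
        rw [if_neg h1]
        by_cases h2 : s (k + 1) = true
        · rw [if_pos h2]
          exact Or.inr (Or.inl (hcs _ h2))
        rw [if_neg h2]
        right; right
        apply hcs
        have h3 := hclause (k / 3) (by omega)
        have e3 : 3 * (k / 3) = k := by omega
        rw [e3] at h3
        tauto
      · rw [if_neg hm, if_neg hm]
        have hself : c k = tp φ k ∨ c k = fp φ k := by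
          by_cases h1 : s k = true
          · exact Or.inr (hcs _ h1)
          · exact Or.inl (hcs' _ (by simpa using h1))
        by_cases hm1 : k % 3 = 1
        · rw [if_pos hm1]
          by_cases h1 : s (k - 1) = true
          · rw [if_pos h1]
            exact Or.inr hself
          · rw [if_neg h1]
            exact Or.inl (hcs' _ (by simpa using h1))
        · rw [if_neg hm1]
          by_cases h1 : s (k - 2) = true ∨ s (k - 1) = true
          · rw [if_pos h1]
            exact Or.inr hself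
          · rw [if_neg h1]
            push Not at h1
            exact Or.inl (hcs' _ (by simpa using h1.2))
    · rw [hf3]
      have e : Jt φ 3 k = (2 * k + 1, 2 * nx φ k, 2 * k + 1) := rfl
      rw [e]
      split_ifs
      · exact Or.inr (Or.inl rfl)
      · exact Or.inl rfl
    · exact Or.inl rfl
  have hflt : ∀ κ : KT φ, f κ.1.1 κ.1.2 < 2 * nO φ := by
    intro κ
    obtain ⟨h1, h2, h3⟩ := J_lt κ
    rcases hmem κ.1.1 κ.1.2 κ.2.1 κ.2.2 with h | h | h <;> omega
  refine ⟨fun κ => ⟨f κ.1.1 κ.1.2, hflt κ⟩, fun κ => hmem κ.1.1 κ.1.2 κ.2.1 κ.2.2, ?_⟩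
  have hget : ∀ (τ : TT φ) (g k : ℕ) (hg : g < 5) (hk : k < cnt φ g), f g k = τ →
      ∀ a, (g = a ∨ g + 1 = a) → ∃ κ : KT φ, (κ.1.1 = a ∨ κ.1.1 + 1 = a) ∧
        (⟨f κ.1.1 κ.1.2, hflt κ⟩ : TT φ) = τ := by
    intro τ g k hg hk h a ha
    exact ⟨⟨(g, k), hg, hk⟩, ha, Fin.ext h⟩
  have hval : ∀ τ : TT φ, (τ : ℕ) = 2 * ((τ : ℕ) / 2) + (if Y ((τ : ℕ) / 2) = true then 0 else 1) ∨
      (τ : ℕ) = c ((τ : ℕ) / 2) := by
    intro τ
    change _ ∨ (τ : ℕ) = 2 * ((τ : ℕ) / 2) + (if Y ((τ : ℕ) / 2) = true then 1 else 0)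
    split_ifs <;> omega
  -- group 2 covers the types `c o`
  have hcov2 : ∀ τ : TT φ, (τ : ℕ) = c ((τ : ℕ) / 2) → ∃ k, k < nO φ ∧ f 2 k = τ := by
    intro τ hτ
    have hlt := τ.isLt
    have hN : nO φ = φ.length * 3 := rfl
    set o := (τ : ℕ) / 2 with ho
    rw [hτ]
    have hcl' := hclause (o / 3) (by omega)
    by_cases hm : o % 3 = 0
    · -- first literal
      have e : 3 * (o / 3) = o := by omega
      rw [e] at hcl'
      by_cases h1 : s o = true
      · refine ⟨o, by omega, ?_⟩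
        rw [hf2, if_pos hm, if_pos h1]
      · refine ⟨o + 1, by omega, ?_⟩
        rw [hf2, if_neg (by omega), if_pos (by omega), Nat.add_sub_cancel, if_neg h1]
    · by_cases hm1 : o % 3 = 1
      · have e : 3 * (o / 3) = o - 1 := by omega
        have e' : 3 * (o / 3) + 1 = o := by omega
        have e'' : 3 * (o / 3) + 2 = o + 1 := by omega
        rw [e', e'', e] at hcl'
        by_cases h0 : s (o - 1) = true
        · refine ⟨o, by omega, ?_⟩
          rw [hf2, if_neg hm, if_pos hm1, if_pos h0]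
        · by_cases h1 : s o = true
          · refine ⟨o - 1, by omega, ?_⟩
            have e3 : o - 1 + 1 = o := by omega
            rw [hf2, if_pos (by omega), if_neg h0, e3, if_pos h1]
          · refine ⟨o + 1, by omega, ?_⟩
            have e3 : o + 1 - 2 = o - 1 := by omega
            rw [hf2, if_neg (by omega), if_neg (by omega), e3, Nat.add_sub_cancel, if_neg]
            push Not
            exact ⟨h0, h1⟩
      · have e : 3 * (o / 3) = o - 2 := by omega
        have e' : 3 * (o / 3) + 1 = o - 1 := by omega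
        by_cases h0 : s (o - 2) = true ∨ s (o - 1) = true
        · refine ⟨o, by omega, ?_⟩
          rw [hf2, if_neg hm, if_neg hm1, if_pos h0]
        · refine ⟨o - 2, by omega, ?_⟩
          push Not at h0
          have e3 : o - 2 + 1 = o - 1 := by omega
          have e4 : o - 2 + 2 = o := by omega
          rw [hf2, if_pos (by omega), if_neg h0.1, e3, if_neg h0.2, e4]
  intro a ha τ
  have hlt := τ.isLt
  interval_cases a
  · exact hget τ 0 τ (by norm_num) (by unfold cnt; rw [if_pos rfl]; exact hlt) rfl 0 (by norm_num)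
  · exact hget τ 0 τ (by norm_num) (by unfold cnt; rw [if_pos rfl]; exact hlt) rfl 1 (by norm_num)
  · rcases hval τ with h | h
    · exact hget τ 1 ((τ : ℕ) / 2) (by norm_num) (by change (τ : ℕ) / 2 < nO φ; omega)
        (by rw [hf1]; exact h.symm) 2 (by norm_num)
    · obtain ⟨k, hk, hk'⟩ := hcov2 τ h
      exact hget τ 2 k (by norm_num) hk hk' 2 (by norm_num)
  · rcases hval τ with h | h
    · by_cases hYo : Y ((τ : ℕ) / 2) = true
      · rw [if_pos hYo] at h
        let o : Fin (nO φ) := ⟨(τ : ℕ) / 2, by omega⟩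
        let o' : Fin (nO φ) := (nxP φ).symm o
        have h1 : nx φ o' = (τ : ℕ) / 2 := congrArg Fin.val ((nxP φ).apply_symm_apply o)
        have h2 : Y o' = true := by
          rw [← hYnx o' o'.isLt, h1]
          exact hYo
        refine hget τ 3 o' (by norm_num) (by change (o' : ℕ) < nO φ; exact o'.isLt) ?_ 3
          (by norm_num)
        rw [hf3, if_pos h2, h1]
        omega
      · rw [if_neg hYo] at h
        refine hget τ 3 ((τ : ℕ) / 2) (by norm_num) (by change (τ : ℕ) / 2 < nO φ; omega) ?_ 3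
          (by norm_num)
        rw [hf3, if_neg hYo]
        exact h.symm
    · obtain ⟨k, hk, hk'⟩ := hcov2 τ h
      exact hget τ 2 k (by norm_num) hk hk' 3 (by norm_num)
  · exact hget τ 4 τ (by norm_num) (by change (τ : ℕ) < 2 * nO φ; exact hlt) rfl 4 (by norm_num)
  · exact hget τ 4 τ (by norm_num) (by change (τ : ℕ) < 2 * nO φ; exact hlt) rfl 5 (by norm_num)

end Pool.Agent.V11229.Role
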