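import Mathlib

/-!
# Locally surjective homomorphisms between bundles of paths
-/

namespace Pool.Agent.V11229.Role

/-- A locally surjective homomorphism. -/
def IsRole {V W : Type} (G : SimpleGraph V) (R : SimpleGraph W) (r : V → W) : Prop :=
  (∀ u v, G.Adj u v → R.Adj (r u) (r v)) ∧ ∀ u, r '' G.neighborSet u = R.neighborSet (r u)

/-- The image of a map folding a path of length `L` onto a path of length `q`. -/
structure Fold (q L : ℕ) (f : ℕ → ℕ) : Prop where
  le : ∀ i ≤ L, f i ≤ q
  step : ∀ i < L, f (i + 1) = f i + 1 ∨ f i = f (i + 1) + 1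
  sur : ∀ i ≤ L, ∀ j ≤ q, (j = f i + 1 ∨ f i = j + 1) →
    (i < L ∧ f (i + 1) = j) ∨ (0 < i ∧ f (i - 1) = j)

theorem Fold.flip {q L : ℕ} {f : ℕ → ℕ} (h : Fold q L f) : Fold q L (fun i => q - f i) := by
  refine ⟨fun i _ => Nat.sub_le _ _, fun i hi => ?_, fun i hi j hj hij => ?_⟩
  · have h1 := h.le i (by omega)
    have h2 := h.le (i + 1) (by omega)
    have h3 := h.step i hi
    omega
  · have h1 := h.le i hi
    rcases h.sur i hi (q - j) (Nat.sub_le _ _) (by omega) with ⟨h2, h3⟩ | ⟨h2, h3⟩
    · left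
      exact ⟨h2, by omega⟩
    · right
      exact ⟨h2, by omega⟩

theorem Fold.run {q L : ℕ} {f : ℕ → ℕ} (h : Fold q L f) {s : ℕ} (hs : f s = 0) :
    ∀ j ≤ q, s + j ≤ L → f (s + j) = j := by
  intro j
  induction j using Nat.strong_induction_on with
  | _ j ih =>
    intro hj hL
    match j, ih, hj, hL with
    | 0, _, _, _ => simpa using hs
    | 1, _, _, hL =>
      have := h.step s (by omega)
      omega
    | j + 2, ih, hj, hL =>
      have h1 := ih (j + 1) (by omega) (by omega) (by omega)
      have h0 := ih j (by omega) (by omega) (by omega)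
      rcases h.sur (s + (j + 1)) (by omega) (j + 2) hj (by omega) with ⟨_, h3⟩ | ⟨_, h3⟩
      · have e : s + (j + 1) + 1 = s + (j + 2) := by omega
        rw [e] at h3
        exact h3
      · have e : s + (j + 1) - 1 = s + j := by omega
        rw [e] at h3
        omega

theorem Fold.run' {q L : ℕ} {f : ℕ → ℕ} (h : Fold q L f) {s : ℕ} (hs : f s = q) {j : ℕ}
    (hj : j ≤ q) (hL : s + j ≤ L) : f (s + j) = q - j := by
  have h1 := h.flip.run (s := s) (by simp [hs]) j hj hL
  have h2 := h.le (s + j) hL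
  omega

theorem Fold.ends {q L : ℕ} {f : ℕ → ℕ} (h : Fold q L f) (hq : 0 < q) (b : ℕ) (hb : b * q ≤ L) :
    f (b * q) = 0 ∨ f (b * q) = q := by
  induction b with
  | zero =>
    rw [Nat.zero_mul] at hb ⊢
    by_contra hcon
    push Not at hcon
    have h1 := h.le 0 hb
    have h2 := h.sur 0 hb (f 0 + 1) (by omega) (Or.inl rfl)
    have h3 := h.sur 0 hb (f 0 - 1) (by omega) (Or.inr (by omega))
    omega
  | succ b ih =>
    have e : (b + 1) * q = b * q + q := by ring
    rw [e] at hb ⊢
    rcases ih (by omega) with h1 | h1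
    · right
      exact h.run h1 q le_rfl hb
    · left
      have := h.run' h1 le_rfl hb
      omega

theorem Fold.dvd {q L : ℕ} {f : ℕ → ℕ} (h : Fold q L f) (hq : 0 < q) : q ∣ L := by
  have hdm : L / q * q + L % q = L := by rw [mul_comm]; exact Nat.div_add_mod L q
  have hlt := Nat.mod_lt L hq
  rw [Nat.dvd_iff_mod_eq_zero]
  by_contra hne
  have hpos : 0 < L % q := Nat.pos_of_ne_zero hne
  have hval : f L = L % q ∨ f L = q - L % q := by
    rcases h.ends hq (L / q) (by omega) with h1 | h1
    · left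
      have := h.run h1 (L % q) hlt.le (by omega)
      rwa [hdm] at this
    · right
      have := h.run' h1 (j := L % q) hlt.le (by omega)
      rwa [hdm] at this
  have h2 := h.sur L le_rfl (f L + 1) (by omega) (Or.inl rfl)
  have h3 := h.sur L le_rfl (f L - 1) (by omega) (Or.inr (by omega))
  omega

/-- the zigzag -/
def tri (q i : ℕ) : ℕ := if (i / q) % 2 = 0 then i % q else q - i % q

theorem tri_le {q : ℕ} (hq : 0 < q) (i : ℕ) : tri q i ≤ q := by
  unfold tri
  have := Nat.mod_lt i hq
  split_ifs <;> omega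

theorem tri_self {q j : ℕ} (hj : j ≤ q) (hq : 0 < q) : tri q j = j := by
  unfold tri
  rcases Nat.lt_or_ge j q with h | h
  · rw [Nat.div_eq_of_lt h, Nat.mod_eq_of_lt h]
    simp
  · have e : j = q := by omega
    subst e
    rw [Nat.div_self hq, Nat.mod_self]
    simp

theorem div_mod_succ {q : ℕ} (hq : 0 < q) (i : ℕ) :
    ((i + 1) / q = i / q ∧ (i + 1) % q = i % q + 1) ∨
    ((i + 1) / q = i / q + 1 ∧ (i + 1) % q = 0 ∧ i % q + 1 = q) := by
  have h1 := Nat.div_add_mod i q
  have h2 := Nat.mod_lt i hq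
  rcases Nat.lt_or_ge (i % q + 1) q with h | h
  · left
    have e : i + 1 = (i % q + 1) + q * (i / q) := by omega
    constructor
    · rw [e, Nat.add_mul_div_left _ _ hq, Nat.div_eq_of_lt h, Nat.zero_add]
    · rw [e, Nat.add_mul_mod_self_left, Nat.mod_eq_of_lt h]
  · right
    have h3 : i % q + 1 = q := by omega
    have e : i + 1 = q * (i / q + 1) := by rw [Nat.mul_add, Nat.mul_one]; omega
    refine ⟨?_, ?_, h3⟩
    · rw [e, Nat.mul_div_cancel_left _ hq]
    · rw [e, Nat.mul_mod_right]

theorem tri_up {q : ℕ} (hq : 0 < q) {i : ℕ} (hi : (i / q) % 2 = 0) :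
    tri q (i + 1) = tri q i + 1 := by
  unfold tri
  have h2 := Nat.mod_lt i hq
  rcases div_mod_succ hq i with ⟨h3, h4⟩ | ⟨h3, h4, h5⟩
  · rw [h3, h4, if_pos hi, if_pos hi]
  · rw [h3, h4, if_pos hi, if_neg (by omega)]
    omega

theorem tri_down {q : ℕ} (hq : 0 < q) {i : ℕ} (hi : (i / q) % 2 = 1) :
    tri q i = tri q (i + 1) + 1 := by
  unfold tri
  have h2 := Nat.mod_lt i hq
  rcases div_mod_succ hq i with ⟨h3, h4⟩ | ⟨h3, h4, h5⟩
  · rw [h3, h4, if_neg (by omega), if_neg (by omega)]
    omega
  · rw [h3, h4, if_neg (by omega), if_pos (by omega)]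
    omega

theorem fold_tri {q L : ℕ} (hq : 0 < q) (hL : 0 < L) (h : q ∣ L) : Fold q L (tri q) := by
  refine ⟨fun i _ => tri_le hq i, fun i _ => ?_, fun i hi j hj hij => ?_⟩
  · rcases Nat.mod_two_eq_zero_or_one (i / q) with h1 | h1
    · exact Or.inl (tri_up hq h1)
    · exact Or.inr (tri_down hq h1)
  · have hqL : q ≤ L := Nat.le_of_dvd hL h
    rcases Nat.eq_zero_or_pos (i % q) with h0 | h0
    · -- an endpoint of the short path
      have hval : tri q i = 0 ∨ tri q i = q := by
        unfold tri
        rw [h0]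
        split_ifs <;> simp
      rcases Nat.lt_or_ge i L with hlt | hge
      · left
        refine ⟨hlt, ?_⟩
        have h3 : tri q (i + 1) = tri q i + 1 ∨ tri q i = tri q (i + 1) + 1 := by
          rcases Nat.mod_two_eq_zero_or_one (i / q) with h1 | h1
          · exact Or.inl (tri_up hq h1)
          · exact Or.inr (tri_down hq h1)
        have h4 := tri_le hq (i + 1)
        omega
      · right
        have hiL : i = L := le_antisymm hi hge
        refine ⟨by omega, ?_⟩
        obtain ⟨k, rfl⟩ : ∃ k, i = k + 1 := ⟨i - 1, by omega⟩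
        rw [Nat.add_sub_cancel]
        have h3 : tri q (k + 1) = tri q k + 1 ∨ tri q k = tri q (k + 1) + 1 := by
          rcases Nat.mod_two_eq_zero_or_one (k / q) with h1 | h1
          · exact Or.inl (tri_up hq h1)
          · exact Or.inr (tri_down hq h1)
        have h4 := tri_le hq k
        omega
    · have hlt : i < L := by
        rcases Nat.lt_or_ge i L with hlt | hge
        · exact hlt
        · exfalso
          have hiL : i = L := le_antisymm hi hge
          rw [hiL, Nat.mod_eq_zero_of_dvd h] at h0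
          exact absurd h0 (lt_irrefl _)
      obtain ⟨k, rfl⟩ : ∃ k, i = k + 1 := by
        refine ⟨i - 1, ?_⟩
        have : i ≠ 0 := by
          rintro rfl
          simp at h0
        omega
      have hdiv : (k + 1) / q = k / q := by
        rcases div_mod_succ hq k with ⟨h3, _⟩ | ⟨_, h4, _⟩
        · exact h3
        · omega
      rw [Nat.add_sub_cancel]
      rcases Nat.mod_two_eq_zero_or_one (k / q) with h1 | h1
      · have e1 := tri_up hq h1
        have e2 := tri_up hq (i := k + 1) (by rw [hdiv]; exact h1)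
        rcases hij with hij | hij
        · left
          exact ⟨hlt, by omega⟩
        · right
          exact ⟨by omega, by omega⟩
      · have e1 := tri_down hq h1
        have e2 := tri_down hq (i := k + 1) (by rw [hdiv]; exact h1)
        rcases hij with hij | hij
        · right
          exact ⟨by omega, by omega⟩
        · left
          exact ⟨hlt, by omega⟩

/-! ### The two graphs -/

/-- The vertices of a bundle of paths. -/
abbrev PV (K : Type) (len : K → ℕ) : Type := {x : K × ℕ // x.2 ≤ len x.1}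

/-- Adjacency in the bundle of paths. -/
def PAdj {K : Type} {len : K → ℕ} (x y : PV K len) : Prop :=
  x.1.1 = y.1.1 ∧ (x.1.2 + 1 = y.1.2 ∨ y.1.2 + 1 = x.1.2)

theorem PAdj.symm {K : Type} {len : K → ℕ} {x y : PV K len} (h : PAdj x y) : PAdj y x :=
  ⟨h.1.symm, h.2.symm⟩

/-- The host graph: six long vertices forming a path, five groups of paths between them. -/
def HG (K : Type) (g len : K → ℕ) : SimpleGraph (Fin 6 ⊕ PV K len) where
  Adj x y := match x, y with
    | .inl a, .inl b => a.val + 1 = b.val ∨ b.val + 1 = a.val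
    | .inl a, .inr u => g u.1.1 = a.val ∨ g u.1.1 + 1 = a.val
    | .inr u, .inl a => g u.1.1 = a.val ∨ g u.1.1 + 1 = a.val
    | .inr u, .inr v => PAdj u v
  symm := ⟨fun x y h => by
    rcases x with a | u <;> rcases y with b | v
    · exact Or.symm h
    · exact h
    · exact h
    · exact PAdj.symm h⟩
  loopless := ⟨fun x h => by
    rcases x with a | u
    · rcases h with h | h <;> omega
    · rcases h.2 with h | h <;> omega⟩

/-- The target graph: two long vertices joined to each other and to all paths. -/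
def TG (T : Type) (q : T → ℕ) : SimpleGraph (Bool ⊕ PV T q) where
  Adj x y := match x, y with
    | .inl a, .inl b => a ≠ b
    | .inl _, .inr _ => True
    | .inr _, .inl _ => True
    | .inr u, .inr v => PAdj u v
  symm := ⟨fun x y h => by
    rcases x with a | u <;> rcases y with b | v
    · exact Ne.symm h
    · trivial
    · trivial
    · exact PAdj.symm h⟩
  loopless := ⟨fun x h => by
    rcases x with a | u
    · exact h rfl
    · rcases h.2 with h | h <;> omega⟩

/-- The combinatorial problem: every path gets a type, such that two consecutive groups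
together get all types. -/
def Choice {K T : Type} (g : K → ℕ) (len : K → ℕ) (q : T → ℕ) : Prop :=
  ∃ t : K → T, (∀ κ, q (t κ) ∣ len κ) ∧
    ∀ a < 6, ∀ τ : T, ∃ κ, (g κ = a ∨ g κ + 1 = a) ∧ t κ = τ

theorem role_of_choice {K T : Type} {g len : K → ℕ} {q : T → ℕ} (hg : ∀ κ, g κ < 5)
    (hlen : ∀ κ, 0 < len κ) (hq : ∀ τ, 0 < q τ) (h : Choice g len q) :
    ∃ r, IsRole (HG K g len) (TG T q) r := by
  obtain ⟨t, ht, hcov⟩ := h
  have hF : ∀ κ, Fold (q (t κ)) (len κ) (tri (q (t κ))) :=
    fun κ => fold_tri (hq _) (hlen κ) (ht κ)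
  let r : Fin 6 ⊕ PV K len → Bool ⊕ PV T q := fun x => match x with
    | .inl a => .inl (decide (a.val % 2 = 0))
    | .inr u => .inr ⟨(t u.1.1, tri (q (t u.1.1)) u.1.2), tri_le (hq _) _⟩
  have hhom : ∀ u v, (HG K g len).Adj u v → (TG T q).Adj (r u) (r v) := by
    rintro (a | u) (b | v) huv
    · change decide (a.val % 2 = 0) ≠ decide (b.val % 2 = 0)
      rw [ne_eq, decide_eq_decide]
      rcases huv with h | h <;> omega
    · trivial
    · trivial
    · obtain ⟨h1, h2⟩ := huv
      refine ⟨?_, ?_⟩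
      · change t u.1.1 = t v.1.1
        rw [h1]
      · change tri (q (t u.1.1)) u.1.2 + 1 = tri (q (t v.1.1)) v.1.2 ∨
          tri (q (t v.1.1)) v.1.2 + 1 = tri (q (t u.1.1)) u.1.2
        rw [← h1]
        have hv : v.1.2 ≤ len u.1.1 := by rw [h1]; exact v.2
        rcases h2 with h2 | h2
        · have := (hF u.1.1).step u.1.2 (by omega)
          rw [h2] at this
          omega
        · have hu := u.2
          have := (hF u.1.1).step v.1.2 (by omega)
          rw [h2] at this
          omega
  refine ⟨r, hhom, fun x => ?_⟩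
  apply Set.Subset.antisymm
  · rintro _ ⟨v, hv, rfl⟩
    exact hhom _ _ hv
  · intro w hw
    rcases x with a | u
    · rcases w with c | w
      · -- the other long vertex
        have hc : decide (a.val % 2 = 0) ≠ c := hw
        have ha := a.isLt
        rcases Nat.lt_or_ge a.val 5 with h5 | h5
        · refine ⟨.inl ⟨a.val + 1, by omega⟩, Or.inl rfl, ?_⟩
          change Sum.inl (decide ((a.val + 1) % 2 = 0)) = Sum.inl c
          congr 1
          cases c
          · rw [ne_eq, Bool.not_eq_false, decide_eq_true_eq] at hc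
            rw [decide_eq_false_iff_not]
            omega
          · rw [ne_eq, Bool.not_eq_true, decide_eq_false_iff_not] at hc
            rw [decide_eq_true_eq]
            omega
        · refine ⟨.inl ⟨a.val - 1, by omega⟩, Or.inr (by change a.val - 1 + 1 = a.val; omega), ?_⟩
          change Sum.inl (decide ((a.val - 1) % 2 = 0)) = Sum.inl c
          congr 1
          cases c
          · rw [ne_eq, Bool.not_eq_false, decide_eq_true_eq] at hc
            rw [decide_eq_false_iff_not]
            omega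
          · rw [ne_eq, Bool.not_eq_true, decide_eq_false_iff_not] at hc
            rw [decide_eq_true_eq]
            omega
      · obtain ⟨κ, hκ, hτ⟩ := hcov a.val a.isLt w.1.1
        have hw2 : w.1.2 ≤ q (t κ) := by rw [hτ]; exact w.2
        refine ⟨.inr ⟨(κ, w.1.2), le_trans hw2 (Nat.le_of_dvd (hlen κ) (ht κ))⟩, hκ, ?_⟩
        change Sum.inr _ = Sum.inr _
        congr 1
        apply Subtype.ext
        apply Prod.ext
        · exact hτ
        · exact tri_self hw2 (hq _)
    · rcases w with c | w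
      · have hgu := hg u.1.1
        by_cases hc : decide (g u.1.1 % 2 = 0) = c
        · refine ⟨.inl ⟨g u.1.1, by omega⟩, Or.inl rfl, ?_⟩
          change Sum.inl (decide (g u.1.1 % 2 = 0)) = Sum.inl c
          rw [hc]
        · refine ⟨.inl ⟨g u.1.1 + 1, by omega⟩, Or.inr rfl, ?_⟩
          change Sum.inl (decide ((g u.1.1 + 1) % 2 = 0)) = Sum.inl c
          congr 1
          cases c
          · rw [Bool.not_eq_false, decide_eq_true_eq] at hc
            rw [decide_eq_false_iff_not]
            omega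
          · rw [Bool.not_eq_true, decide_eq_false_iff_not] at hc
            rw [decide_eq_true_eq]
            omega
      · obtain ⟨h1, h2⟩ := hw
        change t u.1.1 = w.1.1 at h1
        change tri (q (t u.1.1)) u.1.2 + 1 = w.1.2 ∨ w.1.2 + 1 = tri (q (t u.1.1)) u.1.2 at h2
        have hw2 : w.1.2 ≤ q (t u.1.1) := by rw [h1]; exact w.2
        rcases (hF u.1.1).sur u.1.2 u.2 w.1.2 hw2 (by omega) with ⟨h3, h4⟩ | ⟨h3, h4⟩
        · refine ⟨.inr ⟨(u.1.1, u.1.2 + 1), h3⟩, ⟨rfl, Or.inl rfl⟩, ?_⟩
          change Sum.inr _ = Sum.inr _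
          congr 1
          exact Subtype.ext (Prod.ext h1 h4)
        · refine ⟨.inr ⟨(u.1.1, u.1.2 - 1), le_trans (Nat.sub_le _ _) u.2⟩,
            ⟨rfl, Or.inr (by change u.1.2 - 1 + 1 = u.1.2; omega)⟩, ?_⟩
          change Sum.inr _ = Sum.inr _
          congr 1
          exact Subtype.ext (Prod.ext h1 h4)

theorem choice_of_role {K T : Type} {g len : K → ℕ} {q : T → ℕ} (hg : ∀ κ, g κ < 5)
    (hne : ∀ a < 5, ∃ κ, g κ = a)
    (hlen : ∀ κ, 0 < len κ) (hq : ∀ τ, 0 < q τ) (τ₀ τ₁ : T) (hτ : τ₀ ≠ τ₁)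
    {r : Fin 6 ⊕ PV K len → Bool ⊕ PV T q} (h : IsRole (HG K g len) (TG T q) r) :
    Choice g len q := by
  classical
  obtain ⟨hhom, hsur⟩ := h
  have hsur' : ∀ u w, (TG T q).Adj (r u) w → ∃ v, (HG K g len).Adj u v ∧ r v = w := by
    intro u w hw
    have : w ∈ r '' (HG K g len).neighborSet u := by rw [hsur]; exact hw
    obtain ⟨v, hv, hv'⟩ := this
    exact ⟨v, hv, hv'⟩
  -- vertices of paths go to vertices of paths
  have hpath : ∀ u : PV K len, ∃ w : PV T q, r (.inr u) = .inr w := by
    intro u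
    rcases hru : r (.inr u) with b | w
    · exfalso
      -- the neighbours of `u`
      have hnb : ∀ v, (HG K g len).Adj (.inr u) v → v = .inl ⟨g u.1.1, by have := hg u.1.1; omega⟩ ∨
          v = .inl ⟨g u.1.1 + 1, by have := hg u.1.1; omega⟩ ∨
          (∃ h, v = .inr ⟨(u.1.1, u.1.2 + 1), h⟩) ∨ (∃ h, v = .inr ⟨(u.1.1, u.1.2 - 1), h⟩) := by
        rintro (a | v) huv
        · rcases huv with h1 | h1
          · left
            congr 1
            exact Fin.ext h1.symm
          · right; left
            congr 1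
            exact Fin.ext h1.symm
        · obtain ⟨h1, h2⟩ := huv
          rcases h2 with h2 | h2
          · right; right; left
            have e : v.1 = (u.1.1, u.1.2 + 1) := Prod.ext h1.symm h2.symm
            exact ⟨by have := v.2; rw [e] at this; exact this,
              by congr 1; exact Subtype.ext e⟩
          · right; right; right
            have e : v.1 = (u.1.1, u.1.2 - 1) := Prod.ext h1.symm (by simp only; omega)
            exact ⟨by have := v.2; rw [e] at this; exact this,
              by congr 1; exact Subtype.ext e⟩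
      have hset : ∃ S : Finset (Bool ⊕ PV T q), S.card ≤ 4 ∧
          ∀ w, (TG T q).Adj (.inl b) w → w ∈ S := by
        refine ⟨{r (.inl ⟨g u.1.1, by have := hg u.1.1; omega⟩),
          r (.inl ⟨g u.1.1 + 1, by have := hg u.1.1; omega⟩),
          (if h : u.1.2 + 1 ≤ len u.1.1 then r (.inr ⟨(u.1.1, u.1.2 + 1), h⟩) else .inl b),
          (if h : u.1.2 - 1 ≤ len u.1.1 then r (.inr ⟨(u.1.1, u.1.2 - 1), h⟩) else .inl b)},
          Finset.card_le_four, ?_⟩
        intro w hw
        obtain ⟨v, hv, rfl⟩ := hsur' (.inr u) w (by rw [hru]; exact hw)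
        simp only [Finset.mem_insert, Finset.mem_singleton]
        rcases hnb v hv with rfl | rfl | ⟨h, rfl⟩ | ⟨h, rfl⟩
        · exact Or.inl rfl
        · exact Or.inr (Or.inl rfl)
        · refine Or.inr (Or.inr (Or.inl ?_))
          rw [dif_pos h]
        · refine Or.inr (Or.inr (Or.inr ?_))
          rw [dif_pos h]
      obtain ⟨S, hS, hmem⟩ := hset
      have h5 : ({.inl (!b), .inr ⟨(τ₀, 0), Nat.zero_le _⟩, .inr ⟨(τ₀, 1), hq τ₀⟩,
          .inr ⟨(τ₁, 0), Nat.zero_le _⟩, .inr ⟨(τ₁, 1), hq τ₁⟩} : Finset (Bool ⊕ PV T q)) ⊆ S := by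
        intro w hw
        simp only [Finset.mem_insert, Finset.mem_singleton] at hw
        apply hmem
        rcases hw with rfl | rfl | rfl | rfl | rfl
        · change b ≠ !b
          cases b <;> decide
        all_goals trivial
      have h6 := Finset.card_le_card h5
      have h7 : ({.inl (!b), .inr ⟨(τ₀, 0), Nat.zero_le _⟩, .inr ⟨(τ₀, 1), hq τ₀⟩,
          .inr ⟨(τ₁, 0), Nat.zero_le _⟩, .inr ⟨(τ₁, 1), hq τ₁⟩} :
            Finset (Bool ⊕ PV T q)).card = 5 := by
        rw [Finset.card_insert_of_notMem, Finset.card_insert_of_notMem,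
          Finset.card_insert_of_notMem, Finset.card_insert_of_notMem, Finset.card_singleton]
        all_goals simp [hτ]
      omega
    · exact ⟨w, rfl⟩
  choose w hw using hpath
  have hwadj : ∀ u v : PV K len, PAdj u v → PAdj (w u) (w v) := by
    intro u v huv
    have h1 := hhom (.inr u) (.inr v) huv
    rw [hw, hw] at h1
    exact h1
  -- long vertices go to long vertices
  have hlong : ∀ a : Fin 6, ∃ b : Bool, r (.inl a) = .inl b := by
    intro a
    obtain ⟨κ, hκ⟩ : ∃ κ, g κ = a.val ∨ g κ + 1 = a.val := by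
      have ha := a.isLt
      rcases Nat.lt_or_ge a.val 5 with h5 | h5
      · obtain ⟨κ, hκ⟩ := hne a.val h5
        exact ⟨κ, Or.inl hκ⟩
      · obtain ⟨κ, hκ⟩ := hne 4 (by norm_num)
        exact ⟨κ, Or.inr (by omega)⟩
    rcases hra : r (.inl a) with b | y
    · exact ⟨b, rfl⟩
    · exfalso
      let u₀ : PV K len := ⟨(κ, 0), Nat.zero_le _⟩
      let u₁ : PV K len := ⟨(κ, 1), hlen κ⟩
      have h0 := hhom (.inl a) (.inr u₀) hκ
      have h1 := hhom (.inl a) (.inr u₁) hκ
      have h2 := hwadj u₀ u₁ ⟨rfl, Or.inl rfl⟩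
      rw [hra, hw] at h0 h1
      obtain ⟨_, h0⟩ := h0
      obtain ⟨_, h1⟩ := h1
      obtain ⟨_, h2⟩ := h2
      omega
  have hconst : ∀ κ : K, ∀ i (hi : i ≤ len κ),
      (w ⟨(κ, i), hi⟩).1.1 = (w ⟨(κ, 0), Nat.zero_le _⟩).1.1 := by
    intro κ i
    induction i with
    | zero => intro _; rfl
    | succ i ih =>
      intro hi
      rw [← ih (Nat.le_of_succ_le hi)]
      exact (hwadj ⟨(κ, i + 1), hi⟩ ⟨(κ, i), Nat.le_of_succ_le hi⟩ ⟨rfl, Or.inr rfl⟩).1
  let t : K → T := fun κ => (w ⟨(κ, 0), Nat.zero_le _⟩).1.1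
  have hfold : ∀ κ, q (t κ) ∣ len κ := by
    intro κ
    let f : ℕ → ℕ := fun i => if h : i ≤ len κ then (w ⟨(κ, i), h⟩).1.2 else 0
    have hf : ∀ i (h : i ≤ len κ), f i = (w ⟨(κ, i), h⟩).1.2 := fun i h => dif_pos h
    refine Fold.dvd (f := f) ⟨fun i hi => ?_, fun i hi => ?_, fun i hi j hj hij => ?_⟩ (hq _)
    · rw [hf i hi]
      have := (w ⟨(κ, i), hi⟩).2
      rw [hconst κ i hi] at this
      exact this
    · rw [hf i hi.le, hf (i + 1) hi]
      have := (hwadj ⟨(κ, i), hi.le⟩ ⟨(κ, i + 1), hi⟩ ⟨rfl, Or.inl rfl⟩).2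
      omega
    · rw [hf i hi] at hij
      have h1 : (TG T q).Adj (r (.inr ⟨(κ, i), hi⟩)) (.inr ⟨(t κ, j), hj⟩) := by
        rw [hw]
        exact ⟨hconst κ i hi, hij.imp Eq.symm Eq.symm⟩
      obtain ⟨v, hv, hrv⟩ := hsur' _ _ h1
      rcases v with a | v
      · obtain ⟨b, hb⟩ := hlong a
        rw [hb] at hrv
        exact absurd hrv (by simp)
      · rw [hw] at hrv
        have h3 : w v = ⟨(t κ, j), hj⟩ := Sum.inr_injective hrv
        obtain ⟨h4, h5⟩ := hv
        simp only at h4 h5
        rcases h5 with h5 | h5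
        · left
          have e : v = ⟨(κ, i + 1), by have := v.2; rw [← h4, ← h5] at this; exact this⟩ :=
            Subtype.ext (Prod.ext h4.symm h5.symm)
          have hlt : i + 1 ≤ len κ := by have := v.2; rw [← h4, ← h5] at this; exact this
          refine ⟨hlt, ?_⟩
          rw [hf _ hlt, ← e, h3]
        · right
          have hle : i - 1 ≤ len κ := by omega
          have e : v = ⟨(κ, i - 1), hle⟩ :=
            Subtype.ext (Prod.ext h4.symm (by simp only; omega))
          refine ⟨by omega, ?_⟩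
          rw [hf _ hle, ← e, h3]
  refine ⟨t, hfold, fun a ha τ => ?_⟩
  obtain ⟨b, hb⟩ := hlong ⟨a, ha⟩
  obtain ⟨v, hv, hrv⟩ := hsur' (.inl ⟨a, ha⟩) (.inr ⟨(τ, 0), Nat.zero_le _⟩)
    (by rw [hb]; trivial)
  rcases v with a' | v
  · obtain ⟨b', hb'⟩ := hlong a'
    rw [hb'] at hrv
    exact absurd hrv (by simp)
  · rw [hw] at hrv
    have h3 : w v = ⟨(τ, 0), Nat.zero_le _⟩ := Sum.inr_injective hrv
    refine ⟨v.1.1, hv, ?_⟩
    have h4 := hconst v.1.1 v.1.2 v.2
    change (w v).1.1 = _ at h4
    rw [h3] at h4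
    exact h4.symm

end Pool.Agent.V11229.Role
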