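import Pool.Agent.V11229.LMat
import Pool.Agent.H671R2.GraphEnc

/-!
# Weakly stable matchings with ties and incomplete lists: the core of a reduction
-/

namespace Pool.Agent.V11229.Smti

section Defs

variable {U W U' W' : Type}

/-- `(m, w)` is an acceptable pair: each of the two lists the other. -/
def Acc (p q : U → W → ℕ) (m : U) (w : W) : Prop := 0 < p m w ∧ 0 < q m w

/-- `M` is a matching: a set of acceptable pairs in which every agent appears at most once. -/
structure IsMatching (p q : U → W → ℕ) (M : Set (U × W)) : Prop where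
  acc : ∀ m w, (m, w) ∈ M → Acc p q m w
  man : ∀ m w w', (m, w) ∈ M → (m, w') ∈ M → w = w'
  woman : ∀ m m' w, (m, w) ∈ M → (m', w) ∈ M → m = m'

/-- The man `m` is unmatched in `M` or strictly prefers `w` to his partner in `M`. -/
def ManPrefers (p : U → W → ℕ) (M : Set (U × W)) (m : U) (w : W) : Prop :=
  ∀ w', (m, w') ∈ M → p m w < p m w'

/-- The woman `w` is unmatched in `M` or strictly prefers `m` to her partner in `M`. -/
def WomanPrefers (q : U → W → ℕ) (M : Set (U × W)) (m : U) (w : W) : Prop :=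
  ∀ m', (m', w) ∈ M → q m w < q m' w

/-- `M` is a weakly stable matching. -/
def WeaklyStable (p q : U → W → ℕ) (M : Set (U × W)) : Prop :=
  IsMatching p q M ∧
    ∀ m w, Acc p q m w → (m, w) ∉ M → ¬ (ManPrefers p M m w ∧ WomanPrefers q M m w)

/-- `M` is a man-optimal weakly stable matching: no man strictly prefers his situation in another
weakly stable matching. -/
def ManOptimal (p q : U → W → ℕ) (M : Set (U × W)) : Prop :=
  WeaklyStable p q M ∧
    ∀ M', WeaklyStable p q M' → ∀ m w, (m, w) ∈ M' → ¬ ManPrefers p M m w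

theorem weaklyStable_equiv (e : U ≃ U') (e' : W ≃ W') (p q : U' → W' → ℕ) (M : Set (U' × W')) :
    WeaklyStable (fun i j => p (e i) (e' j)) (fun i j => q (e i) (e' j))
      {x | (e x.1, e' x.2) ∈ M} ↔ WeaklyStable p q M := by
  unfold WeaklyStable
  refine and_congr ?_ ?_
  · constructor
    · rintro ⟨h1, h2, h3⟩
      refine ⟨?_, ?_, ?_⟩
      · rw [e.surjective.forall]
        intro m
        rw [e'.surjective.forall]
        intro w h
        exact h1 m w h
      · rw [e.surjective.forall]
        intro m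
        rw [e'.surjective.forall]
        intro w
        rw [e'.surjective.forall]
        intro w' h h'
        rw [h2 m w w' h h']
      · rw [e.surjective.forall]
        intro m
        rw [e.surjective.forall]
        intro m'
        rw [e'.surjective.forall]
        intro w h h'
        rw [h3 m m' w h h']
    · rintro ⟨h1, h2, h3⟩
      refine ⟨fun m w h => h1 _ _ h, fun m w w' h h' => e'.injective (h2 _ _ _ h h'),
        fun m m' w h h' => e.injective (h3 _ _ _ h h')⟩
  · rw [e.surjective.forall]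
    refine forall_congr' fun m => ?_
    rw [e'.surjective.forall]
    refine forall_congr' fun w => ?_
    refine imp_congr Iff.rfl (imp_congr Iff.rfl (not_congr (and_congr ?_ ?_)))
    · unfold ManPrefers
      rw [e'.surjective.forall]
      rfl
    · unfold WomanPrefers
      rw [e.surjective.forall]
      rfl

theorem exists_pull (e : U ≃ U') (e' : W ≃ W') (M : Set (U × W)) :
    ∃ M' : Set (U' × W'), {x | (e x.1, e' x.2) ∈ M'} = M :=
  ⟨{y | (e.symm y.1, e'.symm y.2) ∈ M}, by ext ⟨x, y⟩; simp⟩

theorem manOptimal_equiv (e : U ≃ U') (e' : W ≃ W') (p q : U' → W' → ℕ) (M : Set (U' × W')) :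
    ManOptimal (fun i j => p (e i) (e' j)) (fun i j => q (e i) (e' j))
      {x | (e x.1, e' x.2) ∈ M} ↔ ManOptimal p q M := by
  unfold ManOptimal
  rw [weaklyStable_equiv]
  refine and_congr Iff.rfl ?_
  constructor
  · intro h M' hM'
    have h1 := h _ ((weaklyStable_equiv e e' p q M').2 hM')
    rw [e.surjective.forall]
    intro m
    rw [e'.surjective.forall]
    intro w hw hc
    refine h1 m w hw ?_
    intro w' hw'
    exact hc _ hw'
  · intro h M' hM' m w hw hc
    obtain ⟨M'', rfl⟩ := exists_pull e e' M'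
    refine h M'' ((weaklyStable_equiv e e' p q M'').1 hM') (e m) (e' w) hw ?_
    unfold ManPrefers
    rw [e'.surjective.forall]
    exact hc

theorem exists_manOptimal_equiv (e : U ≃ U') (e' : W ≃ W') (p q : U' → W' → ℕ) :
    (∃ M, ManOptimal (fun i j => p (e i) (e' j)) (fun i j => q (e i) (e' j)) M) ↔
      ∃ M, ManOptimal p q M := by
  constructor
  · rintro ⟨M, hM⟩
    obtain ⟨M', rfl⟩ := exists_pull e e' M
    exact ⟨M', (manOptimal_equiv e e' p q M').1 hM⟩
  · rintro ⟨M, hM⟩
    exact ⟨_, (manOptimal_equiv e e' p q M).2 hM⟩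

end Defs

/-! ### The gadget -/

/-- The agents of either sex. -/
inductive Ag (C X : Type) : Type
  | c (t : C)
  | x (l : X)
  | f
  | a

section Gadget

variable {C X : Type} [DecidableEq X]

/-- the ranks in the lists of the men -/
def pp (E : C → C → Bool) : Ag C X → Ag C X → ℕ
  | .c s, .c t => if E s t = true then 1 else 0
  | .c _, .x _ => 2
  | .c _, .f => 3
  | .x _, .c _ => 2
  | .x l, .x m => if l = m then 1 else 0
  | .x _, .f => 3
  | .f, .x _ => 2
  | .f, .f => 1
  | .f, .a => 3
  | .a, .f => 1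
  | _, _ => 0

/-- the ranks in the lists of the women -/
def qq (E : C → C → Bool) : Ag C X → Ag C X → ℕ
  | .c s, .c t => if E s t = true then 1 else 0
  | .x _, .c _ => 2
  | .c _, .x _ => 1
  | .f, .x _ => 2
  | .x l, .x m => if l = m then 3 else 0
  | .c _, .f => 1
  | .x _, .f => 1
  | .f, .f => 2
  | .a, .f => 2
  | .f, .a => 1
  | _, _ => 0

/-- the matching in which the last man and the last woman are unmatched -/
def M0 : Set (Ag C X × Ag C X) := {y | y.1 = y.2 ∧ y.1 ≠ Ag.a}

variable {E : C → C → Bool}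

theorem ws_M0 (hE : ∀ s, E s s = true) : WeaklyStable (pp E) (qq E) (M0 : Set (Ag C X × Ag C X)) := by
  refine ⟨⟨?_, ?_, ?_⟩, ?_⟩
  · rintro m w ⟨h, h'⟩
    simp only at h h'
    subst h
    rcases m with s | l | _ | _
    · simp [Acc, pp, qq, hE]
    · simp [Acc, pp, qq]
    · simp [Acc, pp, qq]
    · exact absurd rfl h'
  · rintro m w w' ⟨h, _⟩ ⟨h', _⟩
    simp only at h h'
    rw [← h, ← h']
  · rintro m w w' ⟨h, _⟩ ⟨h', _⟩
    simp only at h h'
    rw [h, h']
  · rintro m w ⟨h1, h2⟩ _ ⟨h3, h4⟩
    rcases m with s | l | _ | _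
    · have := h3 (.c s) ⟨rfl, by simp⟩
      simp only [pp, hE, if_true] at this h1
      omega
    · have := h3 (.x l) ⟨rfl, by simp⟩
      simp only [pp, if_true] at this h1
      omega
    · have := h3 .f ⟨rfl, by simp⟩
      simp only [pp] at this h1
      omega
    · rcases w with s | l | _ | _
      · simp [pp] at h1
      · simp [pp] at h1
      · have := h4 .f ⟨rfl, by simp⟩
        simp [qq] at this
      · simp [pp] at h1

/-- A man-optimal matching exists if and only if the last man is never matched. -/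
theorem exists_manOptimal_iff (hE : ∀ s, E s s = true) :
    (∃ M, ManOptimal (pp E) (qq E) (M : Set (Ag C X × Ag C X))) ↔
      ¬ ∃ M, WeaklyStable (pp E) (qq E) M ∧ ((Ag.a : Ag C X), (Ag.f : Ag C X)) ∈ M := by
  constructor
  · rintro ⟨M, hM, hM'⟩ ⟨M1, h1, h2⟩
    have h3 : ((Ag.a : Ag C X), (Ag.f : Ag C X)) ∈ M := by
      by_contra hc
      refine hM' M1 h1 _ _ h2 ?_
      intro w hw
      exfalso
      have h4 := (hM.1.acc _ _ hw).1
      rcases w with s | l | _ | _
      · simp [pp] at h4
      · simp [pp] at h4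
      · exact hc hw
      · simp [pp] at h4
    refine hM' M0 (ws_M0 hE) .f .f ⟨rfl, by simp⟩ ?_
    intro w hw
    have h4 := (hM.1.acc _ _ hw).1
    rcases w with s | l | _ | _
    · simp [pp] at h4
    · simp [pp]
    · have := hM.1.woman _ _ _ h3 hw
      simp at this
    · simp [pp]
  · intro h
    refine ⟨M0, ws_M0 hE, ?_⟩
    intro M' hM' m w hw hc
    rcases m with s | l | _ | _
    · have h2 := hc (.c s) ⟨rfl, by simp⟩
      have h3 := (hM'.1.acc _ _ hw).1
      simp only [pp, hE, if_true] at h2 h3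
      omega
    · have h2 := hc (.x l) ⟨rfl, by simp⟩
      have h3 := (hM'.1.acc _ _ hw).1
      simp only [pp, if_true] at h2 h3
      omega
    · have h2 := hc .f ⟨rfl, by simp⟩
      have h3 := (hM'.1.acc _ _ hw).1
      simp only [pp] at h2 h3
      omega
    · have h3 := (hM'.1.acc _ _ hw).1
      rcases w with s | l | _ | _
      · simp [pp] at h3
      · simp [pp] at h3
      · exact h ⟨M', hM', hw⟩
      · simp [pp] at h3

/-- From a weakly stable matching in which the last man is matched. -/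
theorem exists_sets [Finite C] [Finite X] {M : Set (Ag C X × Ag C X)}
    (hM : WeaklyStable (pp E) (qq E) M) (ha : ((Ag.a : Ag C X), (Ag.f : Ag C X)) ∈ M) :
    ∃ α β : X → C, Function.Injective α ∧ Function.Injective β ∧
      ∀ l l', E (α l) (β l') = false := by
  classical
  obtain ⟨⟨hacc, hman, hwom⟩, hst⟩ := hM
  -- all men are matched
  have h1 : ∀ m : Ag C X, ∃ w, (m, w) ∈ M := by
    intro m
    by_contra hc
    push Not at hc
    rcases m with s | l | _ | _
    · refine hst (.c s) .f (by simp [Acc, pp, qq]) (hc _) ⟨fun w hw => absurd hw (hc _), ?_⟩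
      intro m' hm'
      rw [hwom _ _ _ hm' ha]
      simp [qq]
    · refine hst (.x l) .f (by simp [Acc, pp, qq]) (hc _) ⟨fun w hw => absurd hw (hc _), ?_⟩
      intro m' hm'
      rw [hwom _ _ _ hm' ha]
      simp [qq]
    · refine hst .f .a (by simp [Acc, pp, qq]) (hc _) ⟨fun w hw => absurd hw (hc _), ?_⟩
      intro m' hm'
      have h2 := (hacc _ _ hm').1
      rcases m' with s | l | _ | _
      · simp [pp] at h2
      · simp [pp] at h2
      · exact absurd hm' (hc _)
      · simp [pp] at h2
    · exact hc _ ha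
  choose g hg using h1
  have hinj : Function.Injective g := by
    intro m m' h
    have h2 := hg m'
    rw [← h] at h2
    exact hwom _ _ _ (hg m) h2
  have : Finite (Ag C X) := by
    have : Function.Injective (fun y : Ag C X => (match y with
      | .c s => Sum.inl s
      | .x l => Sum.inr (Sum.inl l)
      | .f => Sum.inr (Sum.inr true)
      | .a => Sum.inr (Sum.inr false) : C ⊕ (X ⊕ Bool))) := by
      rintro (_ | _ | _ | _) (_ | _ | _ | _) h <;> simp_all
    exact Finite.of_injective _ this
  have hsurj : Function.Surjective g := Finite.surjective_of_injective hinj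
  have hw : ∀ w : Ag C X, ∃ m, (m, w) ∈ M := by
    intro w
    obtain ⟨m, rfl⟩ := hsurj w
    exact ⟨m, hg m⟩
  -- the man `f` is matched to the last woman
  have hf : ((Ag.f : Ag C X), (Ag.a : Ag C X)) ∈ M := by
    obtain ⟨m, hm⟩ := hw .a
    have h2 := (hacc _ _ hm).1
    rcases m with s | l | _ | _
    · simp [pp] at h2
    · simp [pp] at h2
    · exact hm
    · simp [pp] at h2
  have hxw : ∀ l : X, ∃ s : C, (Ag.c s, Ag.x l) ∈ M := by
    intro l
    obtain ⟨m, hm⟩ := hw (.x l)
    have h2 := (hacc _ _ hm).1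
    rcases m with s | l' | _ | _
    · exact ⟨s, hm⟩
    · exfalso
      have h3 : l' = l := by
        by_contra hc
        simp [pp, hc] at h2
      subst h3
      refine hst .f (.x l') (by simp [Acc, pp, qq]) ?_ ⟨?_, ?_⟩
      · intro hc
        have := hman _ _ _ hf hc
        simp at this
      · intro w' hw'
        rw [hman _ _ _ hw' hf]
        simp [pp]
      · intro m' hm'
        rw [hwom _ _ _ hm' hm]
        simp [qq]
    · have := hman _ _ _ hf hm
      simp at this
    · simp [pp] at h2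
  choose α hα using hxw
  have hxm : ∀ l : X, ∃ s : C, (Ag.x l, Ag.c s) ∈ M := by
    intro l
    have hm := hg (.x l)
    have h2 := (hacc _ _ hm).1
    rcases hgl : g (.x l) with s | l' | _ | _
    · exact ⟨s, hgl ▸ hm⟩
    · rw [hgl] at hm
      have := hwom _ _ _ hm (hα l')
      simp at this
    · rw [hgl] at hm
      have := hwom _ _ _ hm ha
      simp at this
    · rw [hgl] at hm
      have := hwom _ _ _ hm hf
      simp at this
  choose β hβ using hxm
  refine ⟨α, β, ?_, ?_, ?_⟩
  · intro l l' h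
    have h2 := hα l'
    rw [← h] at h2
    have := hman _ _ _ (hα l) h2
    simpa using this
  · intro l l' h
    have h2 := hβ l'
    rw [← h] at h2
    have := hwom _ _ _ (hβ l) h2
    simpa using this
  · intro l l'
    by_contra hc
    rw [Bool.not_eq_false] at hc
    refine hst (.c (α l)) (.c (β l')) (by simp [Acc, pp, qq, hc]) ?_ ⟨?_, ?_⟩
    · intro h2
      have := hman _ _ _ h2 (hα l)
      simp at this
    · intro w' hw'
      rw [hman _ _ _ hw' (hα l)]
      simp [pp, hc]
    · intro m' hm'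
      rw [hwom _ _ _ hm' (hβ l')]
      simp [qq, hc]

/-- The matching from two sets. -/
def M1 (α β : X → C) : Set (Ag C X × Ag C X) :=
  {y | (∃ s, (∀ l, α l ≠ s) ∧ (∀ l, β l ≠ s) ∧ y = (.c s, .c s)) ∨
    (∃ l, y = (.c (β l), .c (α l))) ∨ (∃ l, y = (.c (α l), .x l)) ∨ (∃ l, y = (.x l, .c (β l))) ∨
    y = (.f, .a) ∨ y = (.a, .f)}

theorem ws_M1 {α β : X → C} (hE : ∀ s, E s s = true) (hα : Function.Injective α)
    (hβ : Function.Injective β) (hd : ∀ l l', α l ≠ β l') (h1 : ∀ l l', E (α l) (β l') = false)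
    (h2 : ∀ l l', E (β l) (α l') = true) : WeaklyStable (pp E) (qq E) (M1 α β) := by
  have hd' : ∀ l l', β l ≠ α l' := fun l l' h => hd l' l h.symm
  -- the partners
  have k1 : ∀ s, (∀ l, α l ≠ s) → (∀ l, β l ≠ s) → ((Ag.c s : Ag C X), (Ag.c s : Ag C X)) ∈ M1 α β :=
    fun s h h' => Or.inl ⟨s, h, h', rfl⟩
  have k2 : ∀ l, ((Ag.c (β l) : Ag C X), (Ag.c (α l) : Ag C X)) ∈ M1 α β :=
    fun l => Or.inr (Or.inl ⟨l, rfl⟩)
  have k3 : ∀ l, ((Ag.c (α l) : Ag C X), (Ag.x l : Ag C X)) ∈ M1 α β :=
    fun l => Or.inr (Or.inr (Or.inl ⟨l, rfl⟩))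
  have k4 : ∀ l, ((Ag.x l : Ag C X), (Ag.c (β l) : Ag C X)) ∈ M1 α β :=
    fun l => Or.inr (Or.inr (Or.inr (Or.inl ⟨l, rfl⟩)))
  have k5 : ((Ag.f : Ag C X), (Ag.a : Ag C X)) ∈ M1 α β :=
    Or.inr (Or.inr (Or.inr (Or.inr (Or.inl rfl))))
  have k6 : ((Ag.a : Ag C X), (Ag.f : Ag C X)) ∈ M1 α β :=
    Or.inr (Or.inr (Or.inr (Or.inr (Or.inr rfl))))
  refine ⟨⟨?_, ?_, ?_⟩, ?_⟩
  · rintro m w (⟨s, _, _, h⟩ | ⟨l, h⟩ | ⟨l, h⟩ | ⟨l, h⟩ | h | h) <;>
      simp only [Prod.mk.injEq] at h <;> obtain ⟨rfl, rfl⟩ := h <;> simp [Acc, pp, qq, hE, h2]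
  · rintro m w w' (⟨s, hs, hs', h⟩ | ⟨l, h⟩ | ⟨l, h⟩ | ⟨l, h⟩ | h | h)
      (⟨s', ht, ht', h'⟩ | ⟨l', h'⟩ | ⟨l', h'⟩ | ⟨l', h'⟩ | h' | h') <;>
      simp only [Prod.mk.injEq] at h h' <;> obtain ⟨rfl, rfl⟩ := h <;> obtain ⟨h', rfl⟩ := h' <;>
      simp_all [hα.eq_iff, hβ.eq_iff]
  · rintro m w w' (⟨s, hs, hs', h⟩ | ⟨l, h⟩ | ⟨l, h⟩ | ⟨l, h⟩ | h | h)
      (⟨s', ht, ht', h'⟩ | ⟨l', h'⟩ | ⟨l', h'⟩ | ⟨l', h'⟩ | h' | h') <;>
      simp only [Prod.mk.injEq] at h h' <;> obtain ⟨rfl, rfl⟩ := h <;> obtain ⟨rfl, h'⟩ := h' <;>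
      simp_all [hα.eq_iff, hβ.eq_iff]
  · rintro m w ⟨h3, h4⟩ _ ⟨h5, h6⟩
    rcases m with s | l | _ | _
    · by_cases hs : ∃ l, α l = s
      · obtain ⟨l, rfl⟩ := hs
        have h7 := h5 _ (k3 l)
        rcases w with t | l' | _ | _
        · by_cases ht : ∃ l', β l' = t
          · obtain ⟨l', rfl⟩ := ht
            simp [pp, h1] at h3
          · push Not at ht
            by_cases ht2 : ∃ l', α l' = t
            · obtain ⟨l', rfl⟩ := ht2
              have h8 := h6 _ (k2 l')
              simp only [qq, h2, if_true] at h8 h4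
              omega
            · push Not at ht2
              have h8 := h6 _ (k1 t ht2 ht)
              simp only [qq, hE, if_true] at h8 h4
              omega
        · simp [pp] at h7
        · simp [pp] at h7
        · simp [pp] at h3
      · push Not at hs
        by_cases hs2 : ∃ l, β l = s
        · obtain ⟨l, rfl⟩ := hs2
          have h7 := h5 _ (k2 l)
          simp only [pp, h2, if_true] at h7 h3
          omega
        · push Not at hs2
          have h7 := h5 _ (k1 s hs hs2)
          simp only [pp, hE, if_true] at h7 h3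
          omega
    · have h7 := h5 _ (k4 l)
      rcases w with t | l' | _ | _
      · simp [pp] at h7
      · have h8 := h6 _ (k3 l')
        simp only [qq] at h8 h4
        omega
      · simp [pp] at h7
      · simp [pp] at h3
    · have h7 := h5 _ k5
      rcases w with t | l' | _ | _
      · simp [pp] at h3
      · have h8 := h6 _ (k3 l')
        simp [qq] at h8
      · have h8 := h6 _ k6
        simp [qq] at h8
      · simp at h7
    · have h7 := h5 _ k6
      simp only [pp] at h7 h3
      omega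

end Gadget

end Pool.Agent.V11229.Smti
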