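import Pool.Agent.V11229.XCover
import Pool.Agent.H671R2.PolyAuto
import Pool.Agent.NPC.Dec

/-!
# Common strip partitions of strings: general lemmas
-/

namespace Pool.Agent.V11229.Strip

open Pool.Agent.NPC

/-- `B` is a strip partition of `G`: a factorisation of `G` into blocks of length at least two. -/
def IsStrip (B : List (List ℕ)) (G : List ℕ) : Prop := B.flatten = G ∧ ∀ b ∈ B, 2 ≤ b.length

/-- The two strings admit a common strip partition. -/
def CStrip (I : List ℕ × List ℕ) : Prop :=
  ∃ B C : List (List ℕ), IsStrip B I.1 ∧ IsStrip C I.2 ∧ B.Perm C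

/-! ### Membership in `NP` -/

theorem sz_blocks (B : List (List ℕ)) : sz B ≤ sz B.flatten + 2 * B.length := by
  induction B with
  | nil => simp
  | cons b B ih =>
    have h := sz_append b B.flatten
    rw [sz_list_cons, List.flatten_cons, List.length_cons]
    omega

theorem length_blocks {B : List (List ℕ)} (h : ∀ b ∈ B, 2 ≤ b.length) :
    B.length ≤ B.flatten.length := by
  induction B with
  | nil => simp
  | cons b B ih =>
    have h1 := h b (by simp)
    have h2 := ih (fun b hb => h b (by simp [hb]))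
    rw [List.flatten_cons, List.length_append, List.length_cons]
    omega

/-- the verifier -/
def verS (x : (List ℕ × List ℕ) × (List (List ℕ) × List (List ℕ))) : Bool :=
  (decide (x.2.1.flatten = x.1.1) && decide (x.2.2.flatten = x.1.2)) &&
  ((x.2.1.all (fun b => decide (2 ≤ b.length)) && x.2.2.all (fun b => decide (2 ≤ b.length))) &&
  (x.2.1 ++ x.2.2).all (fun b => decide ((x.2.1.filter (fun c => decide (c = b))).length =
    (x.2.2.filter (fun c => decide (c = b))).length)))

theorem verS_poly : Poly verS := by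
  unfold verS
  fun_prop

theorem verS_iff (I : List ℕ × List ℕ) (B C : List (List ℕ)) : verS (I, (B, C)) = true ↔
    IsStrip B I.1 ∧ IsStrip C I.2 ∧ B.Perm C := by
  have key : ∀ (l : List (List ℕ)) (b : List ℕ),
      (l.filter (fun c => decide (c = b))).length = l.count b := by
    intro l b
    rw [List.count_eq_length_filter]
    congr 1
    apply List.filter_congr
    intro c _
    rw [beq_eq_decide]
  simp only [verS, IsStrip, Bool.and_eq_true, decide_eq_true_eq, List.all_eq_true, key,
    List.mem_append]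
  constructor
  · rintro ⟨⟨h1, h2⟩, ⟨h3, h4⟩, h5⟩
    refine ⟨⟨h1, h3⟩, ⟨h2, h4⟩, ?_⟩
    rw [List.perm_iff_count]
    intro b
    by_cases hb : b ∈ B ∨ b ∈ C
    · exact h5 b hb
    · push Not at hb
      rw [List.count_eq_zero_of_not_mem hb.1, List.count_eq_zero_of_not_mem hb.2]
  · rintro ⟨⟨h1, h3⟩, ⟨h2, h4⟩, h5⟩
    exact ⟨⟨h1, h2⟩, ⟨h3, h4⟩, fun b _ => List.perm_iff_count.1 h5 b⟩

theorem inNPP_cstrip : InNPP CStrip := by
  refine inNPP_of (β := List (List ℕ) × List (List ℕ)) verS_poly (10 * Polynomial.X + 10) ?_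
  rintro ⟨G, H⟩
  constructor
  · rintro ⟨B, C, hB, hC, hBC⟩
    refine ⟨(B, C), ?_, (verS_iff _ _ _).2 ⟨hB, hC, hBC⟩⟩
    have e1 := sz_blocks B
    have e2 := sz_blocks C
    have e3 := length_blocks hB.2
    have e4 := length_blocks hC.2
    rw [hB.1] at e1 e3
    rw [hC.1] at e2 e4
    simp only at e1 e2 e3 e4
    have e5 := length_lt_sz G
    have e6 := length_lt_sz H
    rw [sz_pair, sz_pair]
    simp only [Polynomial.eval_add, Polynomial.eval_mul, Polynomial.eval_X,
      Polynomial.eval_ofNat]
    omega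
  · rintro ⟨⟨B, C⟩, _, h⟩
    obtain ⟨hB, hC, hBC⟩ := (verS_iff _ _ _).1 h
    exact ⟨B, C, hB, hC, hBC⟩

/-! ### Strings with separators -/

/-- the letters of separators -/
def Sp (x : ℕ) : Prop := x % 16 = 15 ∨ (x ≠ 0 ∧ x % 16 = 0)

/-- the `k`-th separator -/
def sep (k : ℕ) : List ℕ := [16 * k + 15, 16 * k + 16]

/-- separators `k`, ..., `k + n - 1` -/
def seps (k n : ℕ) : List ℕ := (List.range n).flatMap (fun i => sep (k + i))

/-- pieces with separators after them -/
def sepcat : ℕ → List (List ℕ) → List ℕ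
  | _, [] => []
  | k, p :: ps => p ++ (sep k ++ sepcat (k + 1) ps)

theorem sepcat_eq (ps : List (List ℕ)) (k : ℕ) :
    sepcat k ps = (ps.zipIdx k).flatMap (fun p => p.1 ++ sep p.2) := by
  induction ps generalizing k with
  | nil => rfl
  | cons p ps ih =>
    rw [sepcat, ih, List.zipIdx_cons, List.flatMap_cons]
    simp

theorem seps_succ (k n : ℕ) : seps k (n + 1) = sep k ++ seps (k + 1) n := by
  unfold seps
  rw [List.range_succ_eq_map, List.flatMap_cons, List.flatMap_map]
  congr 1
  apply List.flatMap_congr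
  intro i _
  congr 1
  omega

/-- the first string -/
def s1 (P Q : List (List ℕ)) : List ℕ := sepcat 0 P ++ seps P.length Q.length
/-- the second string -/
def s2 (P Q : List (List ℕ)) : List ℕ := seps 0 P.length ++ sepcat P.length Q

/-- the adjacencies in the first string; `K` is the number of pieces -/
def R1 (K x y : ℕ) : Prop := (¬ Sp x ∧ ¬ Sp y) ∨ (∃ k, x = 16 * k + 15 ∧ y = 16 * k + 16) ∨
  (∃ k < K, ¬ Sp x ∧ y = 16 * k + 15) ∨ (∃ k, k + 1 < K ∧ x = 16 * k + 16 ∧ ¬ Sp y) ∨
  (∃ k, K ≤ k + 1 ∧ x = 16 * k + 16 ∧ y = 16 * (k + 1) + 15)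

/-- the adjacencies in the second string -/
def R2 (K x y : ℕ) : Prop := (¬ Sp x ∧ ¬ Sp y) ∨ (∃ k, x = 16 * k + 15 ∧ y = 16 * k + 16) ∨
  (∃ k, K ≤ k ∧ ¬ Sp x ∧ y = 16 * k + 15) ∨ (∃ k, K ≤ k + 1 ∧ x = 16 * k + 16 ∧ ¬ Sp y) ∨
  (∃ k, k + 1 < K ∧ x = 16 * k + 16 ∧ y = 16 * (k + 1) + 15)

theorem R12 {K x y : ℕ} (h1 : R1 K x y) (h2 : R2 K x y) : (¬ Sp x ∧ ¬ Sp y) ∨
    (∃ k, x = 16 * k + 15 ∧ y = 16 * k + 16) := by
  unfold R1 R2 Sp at *
  rcases h1 with h | h | ⟨k, h1, h, rfl⟩ | ⟨k, h1, rfl, h⟩ | ⟨k, h1, rfl, rfl⟩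
  · exact Or.inl h
  · exact Or.inr h
  · rcases h2 with h' | ⟨k', h', h''⟩ | ⟨k', h', h'', h3⟩ | ⟨k', h', h'', h3⟩ | ⟨k', h', h'', h3⟩ <;>
      omega
  · rcases h2 with h' | ⟨k', h', h''⟩ | ⟨k', h', h'', h3⟩ | ⟨k', h', h'', h3⟩ | ⟨k', h', h'', h3⟩ <;>
      omega
  · rcases h2 with h' | ⟨k', h', h''⟩ | ⟨k', h', h'', h3⟩ | ⟨k', h', h'', h3⟩ | ⟨k', h', h'', h3⟩ <;>
      omega

/-- nonempty pieces without letters of separators -/
def Good (P : List (List ℕ)) : Prop := ∀ p ∈ P, p ≠ [] ∧ ∀ x ∈ p, ¬ Sp x

theorem sp_a (k : ℕ) : Sp (16 * k + 15) := by unfold Sp; omega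
theorem sp_b (k : ℕ) : Sp (16 * k + 16) := by unfold Sp; omega

theorem chain_nonSp {R : ℕ → ℕ → Prop} (hR : ∀ x y, ¬ Sp x → ¬ Sp y → R x y) :
    ∀ p : List ℕ, (∀ x ∈ p, ¬ Sp x) → List.IsChain R p := by
  intro p
  induction p with
  | nil => intro _; exact List.isChain_nil
  | cons x p ih =>
    intro h
    rw [List.isChain_cons]
    refine ⟨fun y hy => hR _ _ (h _ (by simp)) (h _ ?_), ih fun x hx => h x (by simp [hx])⟩
    exact List.mem_cons_of_mem _ (List.mem_of_mem_head? hy)

/-- chains through pieces with separators -/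
theorem chain_sepcat {R : ℕ → ℕ → Prop} (hR : ∀ x y, ¬ Sp x → ¬ Sp y → R x y)
    (hR2 : ∀ k, R (16 * k + 15) (16 * k + 16)) :
    ∀ (ps : List (List ℕ)) (k : ℕ) (tail : List ℕ), Good ps → List.IsChain R tail →
      (∀ j, k ≤ j → j < k + ps.length → ∀ x, ¬ Sp x → R x (16 * j + 15)) →
      (∀ j, k ≤ j → j + 1 < k + ps.length → ∀ x, ¬ Sp x → R (16 * j + 16) x) →
      (ps ≠ [] → ∀ y ∈ tail.head?, R (16 * (k + ps.length - 1) + 16) y) →
      List.IsChain R (sepcat k ps ++ tail) := by
  intro ps
  induction ps with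
  | nil => intro k tail _ h _ _ _; exact h
  | cons p ps ih =>
    intro k tail hg ht h1 h2 h3
    have hp := hg p (by simp)
    have hg' : Good ps := fun p hp => hg p (by simp [hp])
    rw [sepcat, List.append_assoc, List.append_assoc, List.isChain_append]
    refine ⟨chain_nonSp hR p hp.2, ?_, ?_⟩
    · rw [sep, List.cons_append, List.cons_append, List.nil_append, List.isChain_cons_cons,
        List.isChain_cons]
      refine ⟨hR2 k, ?_, ?_⟩
      · intro y hy
        cases ps with
        | nil =>
          have := h3 (by simp) y (by simpa [sepcat] using hy)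
          simpa using this
        | cons p' ps' =>
          have hp' := hg' p' (by simp)
          obtain ⟨z, r, hzr⟩ := List.exists_cons_of_ne_nil hp'.1
          rw [sepcat, hzr] at hy
          simp only [List.cons_append, List.head?_cons, Option.mem_def, Option.some.injEq] at hy
          subst hy
          exact h2 k le_rfl (by simp) _ (hp'.2 _ (by rw [hzr]; simp))
      · apply ih (k + 1) tail hg' ht
        · intro j hj hj' x hx
          exact h1 j (by omega) (by rw [List.length_cons]; omega) x hx
        · intro j hj hj' x hx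
          exact h2 j (by omega) (by rw [List.length_cons]; omega) x hx
        · intro hne y hy
          have := h3 (by simp) y hy
          have h5 : 0 < ps.length := List.length_pos_iff.2 hne
          rw [List.length_cons] at this
          rwa [show k + 1 + ps.length - 1 = k + (ps.length + 1) - 1 by omega]
    · intro x hx y hy
      rw [sep] at hy
      simp only [List.cons_append, List.head?_cons, Option.mem_def, Option.some.injEq] at hy
      subst hy
      exact h1 k le_rfl (by simp) x (hp.2 x (List.mem_of_mem_getLast? hx))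

/-- chains through separators -/
theorem chain_seps {R : ℕ → ℕ → Prop} (hR2 : ∀ k, R (16 * k + 15) (16 * k + 16)) :
    ∀ (n : ℕ) (k : ℕ) (tail : List ℕ), List.IsChain R tail →
      (∀ j, k ≤ j → j + 1 < k + n → R (16 * j + 16) (16 * (j + 1) + 15)) →
      (n ≠ 0 → ∀ y ∈ tail.head?, R (16 * (k + n - 1) + 16) y) →
      List.IsChain R (seps k n ++ tail) := by
  intro n
  induction n with
  | zero => intro k tail h _ _; exact h
  | succ n ih =>
    intro k tail ht h2 h3
    rw [seps_succ, List.append_assoc, sep, List.cons_append, List.cons_append, List.nil_append,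
      List.isChain_cons_cons, List.isChain_cons]
    refine ⟨hR2 k, ?_, ?_⟩
    · intro y hy
      cases n with
      | zero =>
        have := h3 (by simp) y (by simpa [seps] using hy)
        simpa using this
      | succ n =>
        rw [seps_succ, sep] at hy
        simp only [List.cons_append, List.head?_cons, Option.mem_def, Option.some.injEq] at hy
        subst hy
        exact h2 k le_rfl (by omega)
    · apply ih (k + 1) tail ht
      · intro j hj hj'
        exact h2 j (by omega) (by omega)
      · intro hne y hy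
        have := h3 (by simp) y hy
        rwa [show k + 1 + n - 1 = k + (n + 1) - 1 by omega]

theorem head_seps (k n : ℕ) (y : ℕ) (h : y ∈ (seps k n).head?) : y = 16 * k + 15 := by
  cases n with
  | zero => simp [seps] at h
  | succ n =>
    rw [seps_succ, sep] at h
    simp only [List.cons_append, List.head?_cons, Option.mem_def, Option.some.injEq] at h
    exact h.symm

theorem head_sepcat (k : ℕ) (ps : List (List ℕ)) (hg : Good ps) (y : ℕ)
    (h : y ∈ (sepcat k ps).head?) : ¬ Sp y := by
  cases ps with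
  | nil => simp [sepcat] at h
  | cons p ps =>
    have hp := hg p (by simp)
    obtain ⟨z, r, hzr⟩ := List.exists_cons_of_ne_nil hp.1
    rw [sepcat, hzr] at h
    simp only [List.cons_append, List.head?_cons, Option.mem_def, Option.some.injEq] at h
    subst h
    exact hp.2 _ (by rw [hzr]; simp)

theorem chain_sub {R : ℕ → ℕ → Prop} {b : List ℕ} {B : List (List ℕ)} (hb : b ∈ B)
    (h : List.IsChain R B.flatten) : List.IsChain R b := by
  obtain ⟨B1, B2, rfl⟩ := List.append_of_mem hb
  rw [List.flatten_append, List.flatten_cons] at h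
  exact (List.isChain_append.1 (List.isChain_append.1 h).2.1).1

theorem chain_s1 (P Q : List (List ℕ)) (hP : Good P) :
    List.IsChain (R1 P.length) (s1 P Q) := by
  unfold s1
  have hs : List.IsChain (R1 P.length) (seps P.length Q.length) := by
    have := chain_seps (R := R1 P.length) (fun k => Or.inr (Or.inl ⟨k, rfl, rfl⟩)) Q.length
      P.length [] List.isChain_nil (fun j hj _ => Or.inr (Or.inr (Or.inr (Or.inr
        ⟨j, by omega, rfl, rfl⟩)))) (by simp)
    rwa [List.append_nil] at this
  refine chain_sepcat (R := R1 P.length) (fun x y hx hy => Or.inl ⟨hx, hy⟩)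
    (fun k => Or.inr (Or.inl ⟨k, rfl, rfl⟩)) P 0 _ hP hs ?_ ?_ ?_
  · intro j _ hj x hx
    exact Or.inr (Or.inr (Or.inl ⟨j, by omega, hx, rfl⟩))
  · intro j _ hj x hx
    exact Or.inr (Or.inr (Or.inr (Or.inl ⟨j, by omega, rfl, hx⟩)))
  · intro hne y hy
    have h5 : 0 < P.length := List.length_pos_iff.2 hne
    rw [head_seps _ _ _ hy]
    exact Or.inr (Or.inr (Or.inr (Or.inr ⟨0 + P.length - 1, by omega, rfl, by omega⟩)))

theorem chain_s2 (P Q : List (List ℕ)) (hQ : Good Q) :
    List.IsChain (R2 P.length) (s2 P Q) := by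
  unfold s2
  have hs : List.IsChain (R2 P.length) (sepcat P.length Q) := by
    have := chain_sepcat (R := R2 P.length) (fun x y hx hy => Or.inl ⟨hx, hy⟩)
      (fun k => Or.inr (Or.inl ⟨k, rfl, rfl⟩)) Q P.length [] hQ List.isChain_nil
      (fun j hj _ x hx => Or.inr (Or.inr (Or.inl ⟨j, hj, hx, rfl⟩)))
      (fun j hj _ x hx => Or.inr (Or.inr (Or.inr (Or.inl ⟨j, by omega, rfl, hx⟩)))) (by simp)
    rwa [List.append_nil] at this
  refine chain_seps (R := R2 P.length) (fun k => Or.inr (Or.inl ⟨k, rfl, rfl⟩)) _ 0 _ hs ?_ ?_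
  · intro j _ hj
    exact Or.inr (Or.inr (Or.inr (Or.inr ⟨j, by omega, rfl, rfl⟩)))
  · intro hne y hy
    exact Or.inr (Or.inr (Or.inr (Or.inl ⟨0 + P.length - 1, by omega, rfl,
      head_sepcat _ _ hQ _ hy⟩)))

/-- A block whose adjacencies occur in both strings. -/
theorem cls_block {K : ℕ} {b : List ℕ} (hb : 2 ≤ b.length) (h1 : List.IsChain (R1 K) b)
    (h2 : List.IsChain (R2 K) b) : (∀ x ∈ b, ¬ Sp x) ∨ ∃ k, b = sep k := by
  have key : ∀ (b : List ℕ) (x : ℕ), ¬ Sp x → List.IsChain (R1 K) (x :: b) →
      List.IsChain (R2 K) (x :: b) → ∀ y ∈ b, ¬ Sp y := by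
    intro b
    induction b with
    | nil => intro x _ _ _ y hy; simp at hy
    | cons z b ih =>
      intro x hx h1 h2
      rw [List.isChain_cons_cons] at h1 h2
      have hz : ¬ Sp z := by
        rcases R12 h1.1 h2.1 with h | ⟨k, rfl, _⟩
        · exact h.2
        · exact absurd (sp_a k) hx
      intro y hy
      rcases List.mem_cons.1 hy with rfl | hy
      · exact hz
      · exact ih z hz h1.2 h2.2 y hy
  match b, hb with
  | x :: y :: r, _ =>
    have h1' := List.isChain_cons_cons.1 h1
    have h2' := List.isChain_cons_cons.1 h2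
    rcases R12 h1'.1 h2'.1 with h | ⟨k, rfl, rfl⟩
    · left
      intro z hz
      rcases List.mem_cons.1 hz with rfl | hz
      · exact h.1
      · exact key _ _ h.1 h1 h2 z hz
    · right
      refine ⟨k, ?_⟩
      cases r with
      | nil => rfl
      | cons z r =>
        exfalso
        have h1'' := List.isChain_cons_cons.1 h1'.2
        have h2'' := List.isChain_cons_cons.1 h2'.2
        rcases R12 h1''.1 h2''.1 with h | ⟨j, h, _⟩
        · exact h.1 (sp_b k)
        · omega

/-- the blocks are parsed at a separator -/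
theorem parse_sep : ∀ (B : List (List ℕ)) (p : List ℕ) (k : ℕ) (rest : List ℕ),
    (∀ b ∈ B, b ≠ [] ∧ ((∀ x ∈ b, ¬ Sp x) ∨ ∃ k, b = sep k)) → (∀ x ∈ p, ¬ Sp x) →
    B.flatten = p ++ (sep k ++ rest) →
    ∃ B1 B2, B = B1 ++ sep k :: B2 ∧ B1.flatten = p ∧ B2.flatten = rest := by
  intro B
  induction B with
  | nil =>
    intro p k rest _ _ h
    simp [sep] at h
  | cons b B ih =>
    intro p k rest hB hp h
    obtain ⟨hb0, hb⟩ := hB b (by simp)
    have hB' := fun c (hc : c ∈ B) => hB c (List.mem_cons_of_mem _ hc)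
    rw [List.flatten_cons] at h
    rcases hb with hb | ⟨j, rfl⟩
    · rcases List.append_eq_append_iff.1 h with ⟨a, ha, h'⟩ | ⟨a, ha, h'⟩
      · obtain ⟨B1, B2, rfl, h1, h2⟩ := ih a k rest hB' (fun x hx => hp x (by rw [ha]; simp [hx])) h'
        exact ⟨b :: B1, B2, rfl, by rw [List.flatten_cons, h1, ha], h2⟩
      · cases a with
        | nil =>
          rw [List.append_nil] at ha
          rw [List.nil_append] at h'
          obtain ⟨B1, B2, rfl, h1, h2⟩ := ih [] k rest hB' (by simp) (by rw [← h']; rfl)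
          exact ⟨b :: B1, B2, rfl, by rw [List.flatten_cons, h1, ha, List.append_nil], h2⟩
        | cons z a =>
          exfalso
          simp only [sep, List.cons_append, List.cons.injEq] at h'
          apply hb z (by rw [ha]; simp)
          rw [← h'.1]
          exact sp_a k
    · cases p with
      | nil =>
        rw [List.nil_append, sep, sep, List.cons_append, List.cons_append, List.nil_append,
          List.cons_append, List.cons_append, List.nil_append, List.cons.injEq,
          List.cons.injEq] at h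
        refine ⟨[], B, ?_, rfl, h.2.2⟩
        have : j = k := by omega
        rw [this]
        rfl
      | cons z p =>
        exfalso
        simp only [sep, List.cons_append, List.cons.injEq] at h
        apply hp z (by simp)
        rw [← h.1]
        exact sp_a j

/-- the blocks of pieces with separators -/
def cat : ℕ → List (List (List ℕ)) → List (List ℕ)
  | _, [] => []
  | k, bs :: Bs => bs ++ sep k :: cat (k + 1) Bs

/-- the separators as blocks -/
def sepsB (k n : ℕ) : List (List ℕ) := (List.range n).map (fun i => sep (k + i))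

theorem sepsB_succ (k n : ℕ) : sepsB k (n + 1) = sep k :: sepsB (k + 1) n := by
  unfold sepsB
  rw [List.range_succ_eq_map, List.map_cons, List.map_map]
  congr 1
  apply List.map_congr_left
  intro i _
  simp only [Function.comp]
  congr 1
  omega

theorem flatten_sepsB (k n : ℕ) : (sepsB k n).flatten = seps k n := by
  unfold sepsB seps
  rw [List.flatMap_def]

theorem flatten_cat (Bs : List (List (List ℕ))) (k : ℕ) :
    (cat k Bs).flatten = sepcat k (Bs.map List.flatten) := by
  induction Bs generalizing k with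
  | nil => rfl
  | cons bs Bs ih => rw [cat, List.flatten_append, List.flatten_cons, ih, List.map_cons, sepcat]

theorem cat_perm (Bs : List (List (List ℕ))) (k : ℕ) :
    (cat k Bs).Perm (Bs.flatten ++ sepsB k Bs.length) := by
  induction Bs generalizing k with
  | nil => simp [cat, sepsB]
  | cons bs Bs ih =>
    rw [cat, List.flatten_cons, List.length_cons, sepsB_succ, List.append_assoc]
    apply List.Perm.append_left
    exact ((ih (k + 1)).cons _).trans List.perm_middle.symm

/-- `B` is, up to the order, a union of strip partitions of the pieces in `L`. -/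
def Pt (L : List (List ℕ)) (B : List (List ℕ)) : Prop :=
  ∃ Bs : List (List (List ℕ)), Bs.map List.flatten = L ∧ (∀ bs ∈ Bs, ∀ b ∈ bs, 2 ≤ b.length) ∧
    B.Perm Bs.flatten

theorem parse_sepcat : ∀ (P : List (List ℕ)) (k : ℕ) (B : List (List ℕ)) (rest : List ℕ),
    (∀ b ∈ B, b ≠ [] ∧ ((∀ x ∈ b, ¬ Sp x) ∨ ∃ k, b = sep k)) → Good P →
    B.flatten = sepcat k P ++ rest →
    ∃ Bs B', Bs.map List.flatten = P ∧ B = cat k Bs ++ B' ∧ B'.flatten = rest := by
  intro P
  induction P with
  | nil =>
    intro k B rest _ _ h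
    exact ⟨[], B, rfl, rfl, h⟩
  | cons p P ih =>
    intro k B rest hB hg h
    rw [sepcat, List.append_assoc, List.append_assoc] at h
    obtain ⟨B1, B2, rfl, h1, h2⟩ := parse_sep B p k _ hB (hg p (by simp)).2 h
    obtain ⟨Bs, B', h3, h4, h5⟩ := ih (k + 1) B2 rest (fun b hb => hB b (by simp [hb]))
      (fun p hp => hg p (by simp [hp])) h2
    exact ⟨B1 :: Bs, B', by rw [List.map_cons, h1, h3], by rw [cat, h4]; simp, h5⟩

theorem parse_seps : ∀ (n : ℕ) (k : ℕ) (B : List (List ℕ)) (rest : List ℕ),
    (∀ b ∈ B, b ≠ [] ∧ ((∀ x ∈ b, ¬ Sp x) ∨ ∃ k, b = sep k)) →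
    B.flatten = seps k n ++ rest → ∃ B', B = sepsB k n ++ B' ∧ B'.flatten = rest := by
  intro n
  induction n with
  | zero =>
    intro k B rest _ h
    exact ⟨B, rfl, h⟩
  | succ n ih =>
    intro k B rest hB h
    rw [seps_succ, List.append_assoc] at h
    obtain ⟨B1, B2, rfl, h1, h2⟩ := parse_sep B [] k _ hB (by simp) h
    have hB1 : B1 = [] := by
      cases B1 with
      | nil => rfl
      | cons b B1 =>
        have hb := (hB b (by simp)).1
        rw [List.flatten_cons, List.append_eq_nil_iff] at h1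
        exact absurd h1.1 hb
    subst hB1
    obtain ⟨B', h4, h5⟩ := ih (k + 1) B2 rest (fun b hb => hB b (by simp [hb])) h2
    exact ⟨B', by rw [sepsB_succ, h4]; simp, h5⟩

/-- Separators isolate the pieces. -/
theorem cstrip_iff {P Q : List (List ℕ)} (hP : Good P) (hQ : Good Q) :
    CStrip (s1 P Q, s2 P Q) ↔ ∃ B, Pt P B ∧ Pt Q B := by
  constructor
  · rintro ⟨B, C, ⟨hB, hB2⟩, ⟨hC, hC2⟩, hBC⟩
    simp only at hB hC
    have hcl : ∀ b ∈ B, b ≠ [] ∧ ((∀ x ∈ b, ¬ Sp x) ∨ ∃ k, b = sep k) := by
      intro b hb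
      refine ⟨?_, ?_⟩
      · rintro rfl
        have := hB2 _ hb
        simp at this
      · have h1 := chain_s1 P Q hP
        have h2 := chain_s2 P Q hQ
        rw [← hB] at h1
        rw [← hC] at h2
        exact cls_block (hB2 b hb) (chain_sub hb h1) (chain_sub (hBC.mem_iff.1 hb) h2)
    have hcl' : ∀ b ∈ C, b ≠ [] ∧ ((∀ x ∈ b, ¬ Sp x) ∨ ∃ k, b = sep k) :=
      fun b hb => hcl b (hBC.mem_iff.2 hb)
    obtain ⟨Bs, B', h1, h2, h3⟩ := parse_sepcat P 0 B _ hcl hP hB
    obtain ⟨B'', h4, h5⟩ := parse_seps Q.length P.length B' [] (fun b hb => hcl b (by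
      rw [h2]; simp [hb])) (by rw [h3, List.append_nil])
    obtain ⟨C', h6, h7⟩ := parse_seps P.length 0 C _ hcl' hC
    obtain ⟨Cs, C'', h8, h9, h10⟩ := parse_sepcat Q P.length C' [] (fun b hb => hcl' b (by
      rw [h6]; simp [hb])) hQ (by rw [h7, List.append_nil])
    have e1 : B'' = [] := by
      cases B'' with
      | nil => rfl
      | cons b l =>
        have hb := (hcl b (by rw [h2, h4]; simp)).1
        rw [List.flatten_cons, List.append_eq_nil_iff] at h5
        exact absurd h5.1 hb
    have e2 : C'' = [] := by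
      cases C'' with
      | nil => rfl
      | cons b l =>
        have hb := (hcl' b (by rw [h6, h9]; simp)).1
        rw [List.flatten_cons, List.append_eq_nil_iff] at h10
        exact absurd h10.1 hb
    subst e1
    subst e2
    rw [List.append_nil] at h4 h9
    have hl1 : Bs.length = P.length := by rw [← h1, List.length_map]
    have hl2 : Cs.length = Q.length := by rw [← h8, List.length_map]
    have p1 := cat_perm Bs 0
    have p2 := cat_perm Cs P.length
    rw [hl1] at p1
    rw [hl2] at p2
    have p3 : (Bs.flatten ++ sepsB 0 P.length ++ sepsB P.length Q.length).Perm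
        (Cs.flatten ++ sepsB 0 P.length ++ sepsB P.length Q.length) := by
      have q1 : B.Perm (Bs.flatten ++ sepsB 0 P.length ++ sepsB P.length Q.length) := by
        rw [h2, h4]
        exact p1.append_right _
      have q2 : C.Perm (Cs.flatten ++ sepsB 0 P.length ++ sepsB P.length Q.length) := by
        rw [h6, h9]
        refine (p2.append_left _).trans ?_
        rw [← List.append_assoc]
        exact List.perm_append_comm.append_right _
      exact q1.symm.trans (hBC.trans q2)
    have p4 : Bs.flatten.Perm Cs.flatten :=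
      (List.perm_append_right_iff _).1 ((List.perm_append_right_iff _).1 p3)
    refine ⟨Bs.flatten, ⟨Bs, h1, ?_, List.Perm.refl _⟩, ⟨Cs, h8, ?_, p4⟩⟩
    · intro bs hbs b hb
      apply hB2
      rw [h2, List.mem_append]
      left
      rw [p1.mem_iff]
      simp only [List.mem_append, List.mem_flatten]
      exact Or.inl ⟨bs, hbs, hb⟩
    · intro bs hbs b hb
      apply hC2
      rw [h6, h9, List.mem_append]
      right
      rw [p2.mem_iff]
      simp only [List.mem_append, List.mem_flatten]
      exact Or.inl ⟨bs, hbs, hb⟩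
  · rintro ⟨B, ⟨Bs, h1, h2, h3⟩, ⟨Cs, h4, h5, h6⟩⟩
    have hl1 : Bs.length = P.length := by rw [← h1, List.length_map]
    have hl2 : Cs.length = Q.length := by rw [← h4, List.length_map]
    have p1 := cat_perm Bs 0
    have p2 := cat_perm Cs P.length
    rw [hl1] at p1
    rw [hl2] at p2
    have hsb : ∀ k n, ∀ b ∈ sepsB k n, 2 ≤ b.length := by
      intro k n b hb
      simp only [sepsB, List.mem_map] at hb
      obtain ⟨i, _, rfl⟩ := hb
      simp [sep]
    refine ⟨cat 0 Bs ++ sepsB P.length Q.length, sepsB 0 P.length ++ cat P.length Cs,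
      ⟨?_, ?_⟩, ⟨?_, ?_⟩, ?_⟩
    · rw [List.flatten_append, flatten_cat, flatten_sepsB, h1]
      rfl
    · intro b hb
      rw [List.mem_append, p1.mem_iff, List.mem_append, List.mem_flatten] at hb
      rcases hb with (⟨bs, hbs, hb⟩ | hb) | hb
      · exact h2 bs hbs b hb
      · exact hsb _ _ b hb
      · exact hsb _ _ b hb
    · rw [List.flatten_append, flatten_cat, flatten_sepsB, h4]
      rfl
    · intro b hb
      rw [List.mem_append, p2.mem_iff, List.mem_append, List.mem_flatten] at hb
      rcases hb with hb | ⟨bs, hbs, hb⟩ | hb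
      · exact hsb _ _ b hb
      · exact h5 bs hbs b hb
      · exact hsb _ _ b hb
    · refine (p1.append_right _).trans ?_
      refine List.Perm.trans ?_ (p2.append_left _).symm
      rw [← List.append_assoc]
      apply List.Perm.append_right
      exact ((h3.symm.trans h6).append_right _).trans List.perm_append_comm

end Pool.Agent.V11229.Strip
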