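import Pool.Agent.V11229.FG

/-!
# Total domination and the sub-total domination number
-/

namespace Pool.Agent.V11229.Tds

open Finset

variable {V : Type} [Fintype V]

/-- The degree of a vertex. -/
noncomputable def deg (G : SimpleGraph V) (v : V) : ℕ := {u | G.Adj v u}.ncard

/-- The degree sequence in non-increasing order. -/
noncomputable def degs (G : SimpleGraph V) : List ℕ :=
  (Finset.univ.val.map (deg G)).sort (· ≥ ·)

/-- The sub-total domination number: the least `k` such that the sum of the `k` largest degrees is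
at least the number of vertices. -/
noncomputable def subT (G : SimpleGraph V) : ℕ :=
  sInf {k | Fintype.card V ≤ ((degs G).take k).sum}

/-- `D` is a total dominating set. -/
def IsTDS (G : SimpleGraph V) (D : Finset V) : Prop := ∀ v, ∃ u ∈ D, G.Adj v u

/-- The total domination number. -/
noncomputable def gammaT (G : SimpleGraph V) : ℕ :=
  sInf {k | ∃ D : Finset V, D.card = k ∧ IsTDS G D}

/-- the list of the vertices by non-increasing degrees -/
theorem exists_list (G : SimpleGraph V) : ∃ L : List V, L.Nodup ∧ (∀ v, v ∈ L) ∧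
    L.Pairwise (fun u v => deg G u ≥ deg G v) ∧ degs G = L.map (deg G) := by
  classical
  let r : V → V → Prop := fun u v => deg G u ≥ deg G v
  have : DecidableRel r := fun _ _ => Classical.dec _
  have : Std.Total r := ⟨fun u v => le_total (deg G v) (deg G u)⟩
  have : IsTrans V r := ⟨fun u v w h1 h2 => le_trans h2 h1⟩
  let L := (Finset.univ : Finset V).toList.insertionSort r
  have hp : L.Perm (Finset.univ : Finset V).toList := List.perm_insertionSort r _
  have hs : L.Pairwise r := List.pairwise_insertionSort r _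
  refine ⟨L, hp.nodup_iff.2 (Finset.nodup_toList _), fun v => ?_, hs, ?_⟩
  · rw [hp.mem_iff]
    simp
  · have h1 : (L.map (deg G)).Pairwise (· ≥ ·) := List.pairwise_map.2 hs
    have h2 : (degs G).Pairwise (· ≥ ·) := Multiset.pairwise_sort _ _
    refine List.Perm.eq_of_pairwise' h2 h1 ?_
    rw [← Multiset.coe_eq_coe]
    unfold degs
    rw [Multiset.sort_eq]
    have h3 : ((L.map (deg G) : List ℕ) : Multiset ℕ) = Multiset.map (deg G) (L : Multiset V) := rfl
    rw [h3]
    congr 1
    rw [Multiset.coe_eq_coe.2 hp]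
    exact (Finset.coe_toList _).symm

theorem sum_le_thr (f : V → ℕ) (D : Finset V) (t : ℕ) :
    ∑ v ∈ D, f v ≤ D.card * t + ∑ v, (f v - t) := by
  have h1 : ∑ v ∈ D, f v ≤ ∑ v ∈ D, (t + (f v - t)) := Finset.sum_le_sum fun v _ => by omega
  rw [Finset.sum_add_distrib, Finset.sum_const, smul_eq_mul] at h1
  have h2 : ∑ v ∈ D, (f v - t) ≤ ∑ v, (f v - t) :=
    Finset.sum_le_sum_of_subset (Finset.subset_univ D)
  omega

/-- The sum of the `k` largest degrees is the degree sum of some set, and has a threshold. -/
theorem top_spec (G : SimpleGraph V) {k : ℕ} (hk : k ≤ Fintype.card V) :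
    ∃ (D : Finset V) (t : ℕ), D.card = k ∧ ((degs G).take k).sum = ∑ v ∈ D, deg G v ∧
      ((degs G).take k).sum = k * t + ∑ v, (deg G v - t) := by
  classical
  obtain ⟨L, hn, hm, hp, hd⟩ := exists_list G
  have hlen : L.length = Fintype.card V := by
    have : L.toFinset = Finset.univ := by ext v; simp [hm]
    rw [← List.toFinset_card_of_nodup hn, this, Finset.card_univ]
  have hnt : (L.take k).Nodup := hn.sublist (List.take_sublist _ _)
  have hD : (L.take k).toFinset.card = k := by
    rw [List.toFinset_card_of_nodup hnt, List.length_take, hlen, min_eq_left hk]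
  have hsum : ((degs G).take k).sum = ∑ v ∈ (L.take k).toFinset, deg G v := by
    rw [hd, ← List.map_take, List.sum_toFinset _ hnt]
  rcases Nat.eq_zero_or_pos k with hk0 | hk0
  · subst hk0
    refine ⟨(L.take 0).toFinset, ∑ v, deg G v, hD, hsum, ?_⟩
    rw [hsum]
    simp only [List.take_zero, List.toFinset_nil, Finset.sum_empty, zero_mul, zero_add]
    symm
    apply Finset.sum_eq_zero
    intro v _
    have := Finset.single_le_sum (f := deg G) (fun _ _ => Nat.zero_le _) (Finset.mem_univ v)
    omega
  · have hk1 : k - 1 < L.length := by omega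
    refine ⟨(L.take k).toFinset, deg G (L[k - 1]), hD, hsum, ?_⟩
    rw [hsum]
    set t := deg G (L[k - 1]) with ht
    have hge : ∀ v ∈ (L.take k).toFinset, t ≤ deg G v := by
      intro v hv
      rw [List.mem_toFinset] at hv
      obtain ⟨i, hi, rfl⟩ := List.getElem_of_mem hv
      rw [List.length_take] at hi
      rw [List.getElem_take]
      rcases Nat.lt_or_ge i (k - 1) with h | h
      · exact List.pairwise_iff_getElem.1 hp i (k - 1) _ _ h
      · have : i = k - 1 := by omega
        subst this
        exact le_refl _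
    have hle : ∀ v ∉ (L.take k).toFinset, deg G v ≤ t := by
      intro v hv
      rw [List.mem_toFinset] at hv
      obtain ⟨i, hi, rfl⟩ := List.getElem_of_mem (hm v)
      have hik : k ≤ i := by
        by_contra hc
        apply hv
        rw [List.mem_take_iff_getElem]
        exact ⟨i, by omega, rfl⟩
      exact List.pairwise_iff_getElem.1 hp (k - 1) i _ _ (by omega)
    have h1 : ∑ v, (deg G v - t) = ∑ v ∈ (L.take k).toFinset, (deg G v - t) := by
      symm
      apply Finset.sum_subset (Finset.subset_univ _)
      intro v _ hv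
      have := hle v hv
      omega
    rw [h1]
    have h2 : ∑ v ∈ (L.take k).toFinset, deg G v =
        ∑ v ∈ (L.take k).toFinset, (t + (deg G v - t)) :=
      Finset.sum_congr rfl fun v hv => by
        have := hge v hv
        omega
    rw [h2, Finset.sum_add_distrib, Finset.sum_const, smul_eq_mul, hD]

theorem length_degs (G : SimpleGraph V) : (degs G).length = Fintype.card V := by
  unfold degs
  rw [Multiset.length_sort]
  simp

theorem sum_take_mono (G : SimpleGraph V) {k l : ℕ} (h : k ≤ l) :
    ((degs G).take k).sum ≤ ((degs G).take l).sum := by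
  obtain ⟨d, rfl⟩ : ∃ d, l = k + d := ⟨l - k, by omega⟩
  rw [List.take_add, List.sum_append]
  omega

theorem sum_le_top (G : SimpleGraph V) (D : Finset V) :
    ∑ v ∈ D, deg G v ≤ ((degs G).take D.card).sum := by
  obtain ⟨_, t, _, _, h⟩ := top_spec G (Finset.card_le_univ D)
  rw [h]
  exact sum_le_thr _ _ _

/-- The degree sum of a total dominating set. -/
theorem card_le_of_tds (G : SimpleGraph V) {D : Finset V} (h : IsTDS G D) :
    Fintype.card V ≤ ∑ v ∈ D, deg G v := by
  classical
  have h1 : (Finset.univ : Finset V) ⊆ D.biUnion (fun v => Finset.univ.filter (G.Adj v)) := by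
    intro v _
    obtain ⟨u, hu, hvu⟩ := h v
    rw [Finset.mem_biUnion]
    exact ⟨u, hu, by simp [hvu.symm]⟩
  have h2 := Finset.card_le_card h1
  rw [Finset.card_univ] at h2
  refine h2.trans (Finset.card_biUnion_le.trans (Finset.sum_le_sum fun v _ => ?_))
  unfold deg
  rw [Set.ncard_eq_toFinset_card']
  apply le_of_eq
  congr 1
  ext u
  simp

/-- The characterisation used for the certificates and for the reduction. -/
theorem eq_iff (G : SimpleGraph V) : ((∀ v, ∃ u, G.Adj v u) ∧ gammaT G = subT G) ↔
    ∃ D : Finset V, IsTDS G D ∧ (D.card = 0 ∨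
      ∃ t, (D.card - 1) * t + ∑ v, (deg G v - t) < Fintype.card V) := by
  classical
  constructor
  · rintro ⟨h1, h2⟩
    have hne : {k | ∃ D : Finset V, D.card = k ∧ IsTDS G D}.Nonempty :=
      ⟨_, Finset.univ, rfl, fun v => by
        obtain ⟨u, hu⟩ := h1 v
        exact ⟨u, Finset.mem_univ _, hu⟩⟩
    obtain ⟨D, hD, hD2⟩ := Nat.sInf_mem hne
    refine ⟨D, hD2, ?_⟩
    rcases Nat.eq_zero_or_pos D.card with h | h
    · exact Or.inl h
    · right
      obtain ⟨_, t, _, _, ht⟩ := top_spec G (k := D.card - 1)
        ((Nat.sub_le _ _).trans (Finset.card_le_univ D))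
      refine ⟨t, ?_⟩
      rw [← ht]
      by_contra hc
      push Not at hc
      have h3 : subT G ≤ D.card - 1 := Nat.sInf_le hc
      have h4 : gammaT G = D.card := hD.symm
      omega
  · rintro ⟨D, hD, h⟩
    refine ⟨fun v => by
      obtain ⟨u, _, hu⟩ := hD v
      exact ⟨u, hu⟩, ?_⟩
    have h1 : gammaT G ≤ D.card := Nat.sInf_le ⟨D, rfl, hD⟩
    have hne : {k | ∃ D : Finset V, D.card = k ∧ IsTDS G D}.Nonempty := ⟨_, D, rfl, hD⟩
    obtain ⟨D', hD', hD2⟩ := Nat.sInf_mem hne
    have h2 : subT G ≤ gammaT G := by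
      apply Nat.sInf_le
      have h3 := (card_le_of_tds G hD2).trans (sum_le_top G D')
      rw [hD'] at h3
      exact h3
    have h4 : D.card ≤ subT G := by
      rcases h with h | ⟨t, ht⟩
      · omega
      · have hne2 : {k | Fintype.card V ≤ ((degs G).take k).sum}.Nonempty :=
          ⟨D.card, (card_le_of_tds G hD).trans (sum_le_top G D)⟩
        have h5 : Fintype.card V ≤ ((degs G).take (subT G)).sum := Nat.sInf_mem hne2
        by_contra hc
        have h6 : subT G ≤ D.card - 1 := by omega
        have h7 := h5.trans (sum_take_mono G h6)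
        obtain ⟨T, _, hT, hT2, _⟩ := top_spec G (k := D.card - 1)
          ((Nat.sub_le _ _).trans (Finset.card_le_univ D))
        rw [hT2] at h7
        have h8 := sum_le_thr (deg G) T t
        rw [hT] at h8
        omega
    omega

/-- the certificate condition -/
def Cert (G : SimpleGraph V) : Prop := ∃ D : Finset V, IsTDS G D ∧ (D.card = 0 ∨
      ∃ t, (D.card - 1) * t + ∑ v, (deg G v - t) < Fintype.card V)

omit [Fintype V] in
theorem deg_iso {W : Type} [Fintype W] {G : SimpleGraph V} {H : SimpleGraph W} (e : G ≃g H)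
    (v : V) : deg G v = deg H (e v) := by
  unfold deg
  rw [← Set.ncard_image_of_injective _ e.injective]
  congr 1
  ext w
  simp only [Set.mem_image, Set.mem_ofPred_eq]
  constructor
  · rintro ⟨u, hu, rfl⟩
    exact e.map_adj_iff.2 hu
  · intro h
    refine ⟨e.symm w, ?_, by simp⟩
    rw [← e.map_adj_iff]
    simpa using h

theorem Cert.iso {W : Type} [Fintype W] {G : SimpleGraph V} {H : SimpleGraph W} (e : G ≃g H)
    (h : Cert G) : Cert H := by
  obtain ⟨D, h1, h2⟩ := h
  refine ⟨D.map e.toEquiv.toEmbedding, ?_, ?_⟩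
  · intro w
    obtain ⟨u, hu, hv⟩ := h1 (e.symm w)
    refine ⟨e u, Finset.mem_map.2 ⟨u, hu, rfl⟩, ?_⟩
    rw [← e.map_adj_iff] at hv
    simpa using hv
  · rw [Finset.card_map, ← Fintype.card_congr e.toEquiv]
    rcases h2 with h2 | ⟨t, h2⟩
    · exact Or.inl h2
    · right
      refine ⟨t, ?_⟩
      have : ∑ w, (deg H w - t) = ∑ v, (deg G v - t) := by
        symm
        exact Fintype.sum_equiv e.toEquiv _ _ (fun v => by rw [deg_iso e]; rfl)
      rw [this]
      exact h2

theorem Cert.iso_iff {W : Type} [Fintype W] {G : SimpleGraph V} {H : SimpleGraph W} (e : G ≃g H) :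
    Cert G ↔ Cert H := ⟨Cert.iso e, Cert.iso e.symm⟩

end Pool.Agent.V11229.Tds
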