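import Pool.Agent.V11229.UcSound

/-!
# From runs of the lines to cheap up-color dominating sets of the interval system
-/

namespace Pool.Agent.V11229.Uc

variable {Ev : List (List ℕ)} {n m k : ℕ} {mL mR : List ℕ}

/-- the coloring -/
def colr (n m : ℕ) (cs : ℕ → ℕ → ℕ) (x : Lab) : ℕ :=
  if x.1 = 0 then (if x.2.1 = 0 then n + 1 else 1)
  else if x.1 = 1 then cs x.2.2 x.2.1
  else if x.1 = 3 then m + 1
  else if x.1 = 7 then m + 1
  else x.2.1

/-- the dominating set -/
def dom5 : Finset Lab := {(0, 0, 0), (3, 0, 0), (7, 0, 0), (5, 1, 0), (9, 1, 0)}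

theorem complete (h : Hyp Ev n m k mL mR) (cs : ℕ → ℕ → ℕ)
    (hv : ∀ s ≤ Ev.length, Valid n 1 (cs s))
    (hst : ∀ s < Ev.length, ∀ l, l ∉ Ev.getD s [] → cs (s + 1) l = cs s l)
    (hl2 : ∀ l < n, l ≠ 0 → 2 ≤ cs 0 l) (hl3 : ∀ l < n, l ≠ 0 → l ∉ mL → m + 2 ≤ cs 0 l)
    (hr2 : ∀ l < n, l ≠ 0 → 2 ≤ cs Ev.length l)
    (hr3 : ∀ l < n, l ≠ 0 → l ∉ mR → m + 2 ≤ cs Ev.length l) :
    LC (vs Ev n m) (Tch Ev mL mR) (colr n m cs) dom5 ∧
      ∑ d ∈ dom5, colr n m cs d ≤ n + 2 * m + 5 := by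
  have hkn := h.kn
  have hbig := h.big
  have hmn : m < n := by omega
  have hconst : ∀ l t s, t ≤ s → s ≤ Ev.length → (∀ r, t < r → r ≤ s → cutP Ev l r = false) →
      cs s l = cs t l := by
    intro l t s hts
    induction s, hts using Nat.le_induction with
    | base => intro _ _; rfl
    | succ s hs ih =>
      intro h1 h2
      have h3 := h2 (s + 1) (by omega) (le_refl _)
      have h4 : l ∉ Ev.getD s [] := by
        simp only [cutP, Nat.add_sub_cancel, Bool.and_eq_false_iff, decide_eq_false_iff_not] at h3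
        rcases h3 with h3 | h3
        · omega
        · exact h3
      rw [hst s (by omega) l h4]
      exact ih (by omega) (fun r hr1 hr2 => h2 r hr1 (by omega))
  have hconst' : ∀ l t s, t ≤ s → s ≤ Ev.length → s < nxt Ev l t → cs s l = cs t l :=
    fun l t s h1 h2 h3 => hconst l t s h1 h2 (fun r hr1 hr2 => not_cut hr1 (by omega) (by omega))
  have hhi : ∀ l t s, s ≤ Ev.length → 3 + s ≤ hi Ev mR (1, l, t) → s < nxt Ev l t := by
    intro l t s hs h1
    rcases Nat.lt_or_ge Ev.length (nxt Ev l t) with h2 | h2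
    · omega
    · have := (hi1 (Ev := Ev) (mR := mR) l t).2.1 h2
      omega
  -- pieces against other points
  have hp : ∀ l < n, ∀ t ≤ Ev.length, ∀ y ∈ vs Ev n m, y.1 ≠ 1 → Tch Ev mL mR (1, l, t) y →
      colr n m cs (1, l, t) ≠ colr n m cs y := by
    intro l hl t ht y hy hy1 hT
    have e0 : colr n m cs (1, l, t) = cs t l := rfl
    rw [e0]
    have hvt := (hv t ht).2 l hl
    have hlo := lo1 (Ev := Ev) (mL := mL) l t
    have hhi' := hi1 (Ev := Ev) (mR := mR) l t
    rcases vs_cases hy with ⟨b', hb', rfl⟩ | ⟨l', hl', t', ht', ht2, rfl⟩ | ⟨b', hb', rfl⟩ | rfl |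
      ⟨b', hb', rfl⟩ | ⟨b', hb', rfl⟩ | ⟨b', hb', rfl⟩ | rfl | ⟨b', hb', rfl⟩ | ⟨b', hb', rfl⟩
    · simp only [colr, if_true]
      split_ifs <;> omega
    · exact absurd rfl hy1
    · have h1 := hT.1
      have h2 : hi Ev mR (2, b', 0) = 0 := by simp [hi]
      omega
    · have h1 := hT.1
      have h2 : hi Ev mR (3, 0, 0) = 1 := by simp [hi]
      rw [h2] at h1
      obtain ⟨h3, h4, h5⟩ := hlo.2.2.2.2.1 h1
      subst h3
      have h6 := hl3 l hl h4 h5
      have h7 : colr n m cs (3, 0, 0) = m + 1 := by simp [colr]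
      omega
    · have h1 := hT.1
      have h2 : hi Ev mR (4, b', 0) = 1 := by simp [hi]
      rw [h2] at h1
      obtain ⟨h3, h4, h5⟩ := hlo.2.2.2.2.1 h1
      subst h3
      have h6 := hl3 l hl h4 h5
      have h7 : colr n m cs (4, b', 0) = b' := by simp [colr]
      omega
    · have h1 := hT.1
      have h2 : hi Ev mR (5, b', 0) = 2 := by simp [hi]
      rw [h2] at h1
      obtain ⟨h3, h4⟩ := hlo.2.2.2.1 h1
      subst h3
      have h6 := hl2 l hl h4
      have h7 : colr n m cs (5, b', 0) = b' := by simp [colr]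
      omega
    · have h1 := hT.2
      have h2 : lo Ev mL (6, b', 0) = Ev.length + 6 := by simp [lo]
      omega
    · have h1 := hT.2
      have h2 : lo Ev mL (7, 0, 0) = Ev.length + 5 := by simp [lo]
      rw [h2] at h1
      obtain ⟨h3, h4, h5⟩ := hhi'.2.2.2.2.2.1 h1
      have h6 := hr3 l hl h4 h5
      rw [hconst' l t _ ht (le_refl _) h3] at h6
      have h7 : colr n m cs (7, 0, 0) = m + 1 := by simp [colr]
      omega
    · have h1 := hT.2
      have h2 : lo Ev mL (8, b', 0) = Ev.length + 5 := by simp [lo]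
      rw [h2] at h1
      obtain ⟨h3, h4, h5⟩ := hhi'.2.2.2.2.2.1 h1
      have h6 := hr3 l hl h4 h5
      rw [hconst' l t _ ht (le_refl _) h3] at h6
      have h7 : colr n m cs (8, b', 0) = b' := by simp [colr]
      omega
    · have h1 := hT.2
      have h2 : lo Ev mL (9, b', 0) = Ev.length + 4 := by simp [lo]
      rw [h2] at h1
      obtain ⟨h3, h4⟩ := hhi'.2.2.2.2.1 h1
      have h6 := hr2 l hl h4
      rw [hconst' l t _ ht (le_refl _) h3] at h6
      have h7 : colr n m cs (9, b', 0) = b' := by simp [colr]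
      omega
  -- two pieces
  have hpp : ∀ l < n, ∀ t ≤ Ev.length, ∀ l' < n, ∀ t' ≤ Ev.length,
      (t' = 0 ∨ cutP Ev l' t' = true) → t ≤ t' → (l, t) ≠ (l', t') →
      Tch Ev mL mR (1, l, t) (1, l', t') → cs t l ≠ cs t' l' := by
    intro l hl t ht l' hl' t' ht' hc' htt hne hT
    have h1 : t' = 0 ∨ t' < nxt Ev l t := by
      rcases Nat.eq_zero_or_pos t' with h0 | h0
      · exact Or.inl h0
      · right
        have h2 := (lo1 (Ev := Ev) (mL := mL) l' t').2.2.1 h0
        exact hhi l t t' ht' (by have := hT.2; omega)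
    have h3 : ∀ r, t < r → r ≤ t' → cutP Ev l r = false := by
      intro r hr1 hr2
      rcases h1 with h1 | h1
      · omega
      · exact not_cut hr1 (by omega) (by omega)
    rw [← hconst l t t' htt ht' h3]
    intro he
    have hll := (hv t' ht').1 l hl l' hl' he
    subst hll
    have htn : t < t' := by
      rcases Nat.lt_or_ge t t' with h4 | h4
      · exact h4
      · exact absurd (by rw [le_antisymm htt h4]) hne
    rcases hc' with hc' | hc'
    · omega
    · rw [h3 t' htn (le_refl _)] at hc'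
      simp at hc'
  refine ⟨⟨?_, ?_, ?_, ?_⟩, ?_⟩
  · intro x hx y hy hne hT
    by_cases hx1 : x.1 = 1
    · obtain ⟨a, l, t⟩ := x
      simp only at hx1
      subst hx1
      obtain ⟨hl, ht, hc⟩ : l < n ∧ t ≤ Ev.length ∧ (t = 0 ∨ cutP Ev l t = true) := by
        rcases vs_cases hx with ⟨b', hb', h7⟩ | ⟨l', hl, t', ht, ht2, h7⟩ | ⟨b', hb', h7⟩ | h7 |
          ⟨b', hb', h7⟩ | ⟨b', hb', h7⟩ | ⟨b', hb', h7⟩ | h7 | ⟨b', hb', h7⟩ | ⟨b', hb', h7⟩
        · simp at h7
        · simp only [Prod.mk.injEq, true_and] at h7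
          obtain ⟨rfl, rfl⟩ := h7
          exact ⟨hl, ht, ht2⟩
        all_goals simp at h7
      by_cases hy1 : y.1 = 1
      · obtain ⟨a', l', t'⟩ := y
        simp only at hy1
        subst hy1
        obtain ⟨hl', ht', hc'⟩ : l' < n ∧ t' ≤ Ev.length ∧ (t' = 0 ∨ cutP Ev l' t' = true) := by
          rcases vs_cases hy with ⟨b', hb', h7⟩ | ⟨l'', hl, t'', ht, ht2, h7⟩ | ⟨b', hb', h7⟩ |
            h7 | ⟨b', hb', h7⟩ | ⟨b', hb', h7⟩ | ⟨b', hb', h7⟩ | h7 | ⟨b', hb', h7⟩ |
            ⟨b', hb', h7⟩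
          · simp at h7
          · simp only [Prod.mk.injEq, true_and] at h7
            obtain ⟨rfl, rfl⟩ := h7
            exact ⟨hl, ht, ht2⟩
          all_goals simp at h7
        have hne' : (l, t) ≠ (l', t') := by
          intro he
          apply hne
          rw [he]
        change cs t l ≠ cs t' l'
        rcases Nat.le_total t t' with h1 | h1
        · exact hpp l hl t ht l' hl' t' ht' hc' h1 hne' hT
        · exact (hpp l' hl' t' ht' l hl t ht hc h1 hne'.symm hT.symm).symm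
      · exact hp l hl t ht y hy hy1 hT
    · by_cases hy1 : y.1 = 1
      · obtain ⟨a, l, t⟩ := y
        simp only at hy1
        subst hy1
        obtain ⟨hl, ht⟩ : l < n ∧ t ≤ Ev.length := by
          rcases vs_cases hy with ⟨b', hb', h7⟩ | ⟨l', hl, t', ht, ht2, h7⟩ | ⟨b', hb', h7⟩ | h7 |
            ⟨b', hb', h7⟩ | ⟨b', hb', h7⟩ | ⟨b', hb', h7⟩ | h7 | ⟨b', hb', h7⟩ | ⟨b', hb', h7⟩
          · simp at h7
          · simp only [Prod.mk.injEq, true_and] at h7
            obtain ⟨rfl, rfl⟩ := h7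
            exact ⟨hl, ht⟩
          all_goals simp at h7
        exact (hp l hl t ht x hx hx1 hT.symm).symm
      · rcases vs_cases hx with ⟨b, hb, rfl⟩ | ⟨l, hl, t, ht, ht2, rfl⟩ | ⟨b, hb, rfl⟩ | rfl |
          ⟨b, hb, rfl⟩ | ⟨b, hb, rfl⟩ | ⟨b, hb, rfl⟩ | rfl | ⟨b, hb, rfl⟩ | ⟨b, hb, rfl⟩ <;>
        rcases vs_cases hy with ⟨b', hb', rfl⟩ | ⟨l', hl', t', ht', ht2', rfl⟩ | ⟨b', hb', rfl⟩ |
          rfl | ⟨b', hb', rfl⟩ | ⟨b', hb', rfl⟩ | ⟨b', hb', rfl⟩ | rfl | ⟨b', hb', rfl⟩ |
          ⟨b', hb', rfl⟩ <;>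
        simp [lo, hi, Tch] at hT hne hx1 hy1 ⊢ <;>
        simp [colr] <;> (try split_ifs) <;> omega
  · intro d hd
    simp only [dom5, Finset.mem_insert, Finset.mem_singleton] at hd
    rcases hd with rfl | rfl | rfl | rfl | rfl
    · exact mem0 (by omega)
    · exact mem3
    · exact mem7
    · exact mem5 (by omega)
    · exact mem9 (by omega)
  · intro d hd
    simp only [dom5, Finset.mem_insert, Finset.mem_singleton] at hd
    rcases hd with rfl | rfl | rfl | rfl | rfl <;> simp [colr]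
  · intro v hv' hvD
    rcases vs_cases hv' with ⟨b, hb, rfl⟩ | ⟨l, hl, t, ht, ht2, rfl⟩ | ⟨b, hb, rfl⟩ | rfl |
      ⟨b, hb, rfl⟩ | ⟨b, hb, rfl⟩ | ⟨b, hb, rfl⟩ | rfl | ⟨b, hb, rfl⟩ | ⟨b, hb, rfl⟩
    · have : b = 0 ∨ b = 1 := by omega
      rcases this with rfl | rfl
      · exact absurd (by simp [dom5]) hvD
      · refine ⟨(0, 0, 0), by simp [dom5], by simp, ?_, ?_⟩
        · simp [Tch, lo, hi]
        · simp only [colr]
          norm_num
          omega
    · refine ⟨(0, 0, 0), by simp [dom5], by simp, ?_, ?_⟩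
      · have h1 := (lo1 (Ev := Ev) (mL := mL) l t).2.1
        have h2 := hi1_ge (Ev := Ev) (mR := mR) l t
        have h3 : lo Ev mL (0, 0, 0) = 3 := by simp [lo]
        have h4 : hi Ev mR (0, 0, 0) = Ev.length + 3 := by simp [hi]
        exact ⟨by omega, by omega⟩
      · have := (hv t ht).2 l hl
        have h5 : colr n m cs (1, l, t) = cs t l := rfl
        have h6 : colr n m cs (0, 0, 0) = n + 1 := by simp [colr]
        omega
    · refine ⟨(3, 0, 0), by simp [dom5], by simp, by simp [Tch, lo, hi], ?_⟩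
      simpa [colr] using hb
    · exact absurd (by simp [dom5]) hvD
    · refine ⟨(3, 0, 0), by simp [dom5], by simp, by simp [Tch, lo, hi], ?_⟩
      simpa [colr] using hb
    · have : b = 0 ∨ b = 1 := by omega
      rcases this with rfl | rfl
      · exact ⟨(5, 1, 0), by simp [dom5], by simp, by simp [Tch, lo, hi], by simp [colr]⟩
      · exact absurd (by simp [dom5]) hvD
    · refine ⟨(7, 0, 0), by simp [dom5], by simp, by simp [Tch, lo, hi], ?_⟩
      simpa [colr] using hb
    · exact absurd (by simp [dom5]) hvD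
    · refine ⟨(7, 0, 0), by simp [dom5], by simp, by simp [Tch, lo, hi], ?_⟩
      simpa [colr] using hb
    · have : b = 0 ∨ b = 1 := by omega
      rcases this with rfl | rfl
      · exact ⟨(9, 1, 0), by simp [dom5], by simp, by simp [Tch, lo, hi], by simp [colr]⟩
      · exact absurd (by simp [dom5]) hvD
  · unfold dom5
    rw [Finset.sum_insert (by simp), Finset.sum_insert (by simp), Finset.sum_insert (by simp),
      Finset.sum_pair (by simp)]
    simp only [colr]
    norm_num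
    omega

end Pool.Agent.V11229.Uc
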