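import Mathlib

/-!
# Up-color domination: certificates on labelled points, and the end gadget
-/

namespace Pool.Agent.V11229.Uc

/-- `c` is a coloring and `D` is up-color dominating, on a list of labelled points. -/
structure LC {Λ : Type} (vs : List Λ) (ad : Λ → Λ → Prop) (c : Λ → ℕ) (D : Finset Λ) : Prop where
  col : ∀ x ∈ vs, ∀ y ∈ vs, x ≠ y → ad x y → c x ≠ c y
  mem : ∀ d ∈ D, d ∈ vs
  pos : ∀ d ∈ D, 0 < c d
  dom : ∀ v ∈ vs, v ∉ D → ∃ d ∈ D, d ≠ v ∧ ad v d ∧ c v < c d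

theorem two_le_sum {Λ : Type} [DecidableEq Λ] {c : Λ → ℕ} {E : Finset Λ} {d e : Λ} (hd : d ∈ E)
    (he : e ∈ E) (hne : d ≠ e) : c d + c e ≤ ∑ x ∈ E, c x := by
  rw [← Finset.sum_pair (f := c) hne]
  refine Finset.sum_le_sum_of_subset ?_
  intro x hx
  rw [Finset.mem_insert, Finset.mem_singleton] at hx
  rcases hx with rfl | rfl <;> assumption

theorem three_le_sum {Λ : Type} [DecidableEq Λ] {c : Λ → ℕ} {E : Finset Λ} {d e f : Λ}
    (hd : d ∈ E) (he : e ∈ E) (hf : f ∈ E) (h1 : d ≠ e) (h2 : d ≠ f) (h3 : e ≠ f) :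
    c d + (c e + c f) ≤ ∑ x ∈ E, c x := by
  have : c d + (c e + c f) = ∑ x ∈ {d, e, f}, c x := by
    rw [Finset.sum_insert (by simp [h1, h2]), Finset.sum_pair h3]
  rw [this]
  refine Finset.sum_le_sum_of_subset ?_
  intro x hx
  simp only [Finset.mem_insert, Finset.mem_singleton] at hx
  rcases hx with rfl | rfl | rfl <;> assumption

/-- pigeonhole: many different colors, one is large -/
theorem exists_big (s : ℕ) (f : ℕ → ℕ) (h : ∀ a ≤ s, ∀ b ≤ s, f a = f b → a = b) :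
    ∃ a ≤ s, s ≤ f a := by
  by_contra hcon
  push Not at hcon
  have h1 : (Finset.range (s + 1)).card ≤ (Finset.range s).card := by
    refine Finset.card_le_card_of_injOn f ?_ ?_
    · intro a ha
      rw [Finset.coe_range, Set.mem_Iio] at ha ⊢
      exact hcon a (by omega)
    · intro a ha b hb hab
      rw [Finset.coe_range, Set.mem_Iio] at ha hb
      exact h a (by omega) b (by omega) hab
  rw [Finset.card_range, Finset.card_range] at h1
  omega

/-- pigeonhole: all colors occur -/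
theorem exists_eq (s : ℕ) (f : ℕ → ℕ) (h : ∀ a ≤ s, ∀ b ≤ s, f a = f b → a = b)
    (hf : ∀ a ≤ s, f a ≤ s) {j : ℕ} (hj : j ≤ s) : ∃ a ≤ s, f a = j := by
  have h1 : (Finset.range (s + 1)).image f = Finset.range (s + 1) := by
    apply Finset.eq_of_subset_of_card_le
    · intro x hx
      rw [Finset.mem_image] at hx
      obtain ⟨a, ha, rfl⟩ := hx
      rw [Finset.mem_range] at ha ⊢
      have := hf a (by omega)
      omega
    · rw [Finset.card_image_of_injOn]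
      intro a ha b hb hab
      rw [Finset.coe_range, Set.mem_Iio] at ha hb
      exact h a (by omega) b (by omega) hab
  have h2 : j ∈ (Finset.range (s + 1)).image f := by
    rw [h1, Finset.mem_range]
    omega
  rw [Finset.mem_image] at h2
  obtain ⟨a, ha, rfl⟩ := h2
  rw [Finset.mem_range] at ha
  exact ⟨a, by omega, rfl⟩

theorem two_le_aux {a b x : ℕ} (h : a ≠ b) (ha : a ≤ 1) (hb : b ≤ 1) (h1 : x ≠ a) (h2 : x ≠ b) :
    2 ≤ x := by omega

/-- The end gadget. -/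
theorem endG {Λ : Type} [DecidableEq Λ] {vs : List Λ} {ad : Λ → Λ → Prop} {c : Λ → ℕ}
    {D : Finset Λ} (hL : LC vs ad c D) {M : ℕ} (hM : 1 ≤ M) (g g' : ℕ → Λ) (q1 q2 : Λ)
    (X1 X2 zn : Λ → Prop) [DecidablePred zn]
    (gv : ∀ b ≤ M, g b ∈ vs) (gv' : ∀ b ≤ M, g' b ∈ vs) (qv1 : q1 ∈ vs) (qv2 : q2 ∈ vs)
    (gM : g M = g' M)
    (hT : ∀ a ≤ M, ∀ b ≤ M, c (g a) = c (g b) → a = b)
    (hT' : ∀ a ≤ M, ∀ b ≤ M, c (g' a) = c (g' b) → a = b)
    (hTn : ∀ b < M, ∀ v ∈ vs, ad (g b) v → v ≠ g b → ∃ b' ≤ M, v = g b')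
    (hTn' : ∀ b ≤ M, ∀ v ∈ vs, ad (g' b) v → v ≠ g' b →
      (∃ b' ≤ M, v = g b') ∨ (∃ b' ≤ M, v = g' b') ∨ X2 v)
    (hXX : ∀ v, X2 v → X1 v)
    (hX2 : ∀ x ∈ vs, X2 x → ∀ b ≤ M, c x ≠ c (g' b))
    (hq : c q1 ≠ c q2)
    (hqn1 : ∀ v ∈ vs, ad q1 v → v ≠ q1 → v = q2 ∨ X1 v)
    (hqn2 : ∀ v ∈ vs, ad q2 v → v ≠ q2 → v = q1 ∨ X1 v)
    (hX1 : ∀ x ∈ vs, X1 x → c x ≠ c q1 ∧ c x ≠ c q2)
    (z1 : ∀ b ≤ M, zn (g b) ∧ zn (g' b)) (z2 : zn q1 ∧ zn q2) (z3 : ∀ x ∈ vs, X1 x → zn x)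
    (dj1 : ∀ b ≤ M, ¬ X1 (g b) ∧ ¬ X1 (g' b))
    (dj2 : ∀ b ≤ M, g b ≠ q1 ∧ g b ≠ q2 ∧ g' b ≠ q1 ∧ g' b ≠ q2)
    (hw : ∑ d ∈ D.filter zn, c d ≤ M + 1) :
    M + 1 ≤ ∑ d ∈ D.filter zn, c d ∧ (∀ x ∈ vs, X1 x → 2 ≤ c x) ∧
      (∀ x ∈ vs, X2 x → M + 1 ≤ c x) ∧ ∀ d ∈ D, zn d → c d ≤ M := by
  have hin : ∀ d ∈ D, zn d → d ∈ D.filter zn := fun d h1 h2 => Finset.mem_filter.2 ⟨h1, h2⟩
  -- somebody close to the private clique
  obtain ⟨d0, hd0, b0, hb0, rfl⟩ : ∃ d ∈ D, ∃ b ≤ M, d = g b := by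
    by_cases h0 : g 0 ∈ D
    · exact ⟨_, h0, 0, by omega, rfl⟩
    · obtain ⟨d, hd, hne, had, _⟩ := hL.dom _ (gv 0 (by omega)) h0
      obtain ⟨b, hb, rfl⟩ := hTn 0 (by omega) d (hL.mem d hd) had hne
      exact ⟨_, hd, b, hb, rfl⟩
  have h1 : ∀ x ∈ D, X1 x → c x ≤ M := by
    intro x hx hx1
    by_contra hcon
    push Not at hcon
    have hne : x ≠ g b0 := by
      rintro rfl
      exact (dj1 b0 hb0).1 hx1
    have := two_le_sum (c := c) (hin x hx (z3 x (hL.mem x hx) hx1))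
      (hin _ hd0 (z1 b0 hb0).1) hne
    have h2 := hL.pos _ hd0
    omega
  -- a heavy element
  obtain ⟨d, hd, hdM, hdz⟩ : ∃ d ∈ D, M ≤ c d ∧ ((∃ b ≤ M, d = g b) ∨ ∃ b ≤ M, d = g' b) := by
    obtain ⟨a, ha, hca⟩ := exists_big M (fun b => c (g b)) hT
    by_cases h0 : g a ∈ D
    · exact ⟨_, h0, hca, Or.inl ⟨a, ha, rfl⟩⟩
    · obtain ⟨d, hd, hne, had, hlt⟩ := hL.dom _ (gv a ha) h0
      rcases Nat.lt_or_ge a M with h2 | h2
      · obtain ⟨b, hb, rfl⟩ := hTn a h2 d (hL.mem d hd) had hne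
        exact ⟨_, hd, by omega, Or.inl ⟨b, hb, rfl⟩⟩
      · have haM : a = M := by omega
        subst haM
        rw [gM] at had hne
        rcases hTn' a (le_refl _) d (hL.mem d hd) had hne with ⟨b, hb, rfl⟩ | ⟨b, hb, rfl⟩ | h3
        · exact ⟨_, hd, by omega, Or.inl ⟨b, hb, rfl⟩⟩
        · exact ⟨_, hd, by omega, Or.inr ⟨b, hb, rfl⟩⟩
        · have := h1 d hd (hXX d h3)
          omega
  have hdzn : zn d := by
    rcases hdz with ⟨b, hb, rfl⟩ | ⟨b, hb, rfl⟩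
    · exact (z1 b hb).1
    · exact (z1 b hb).2
  -- an element which dominates `q1`
  obtain ⟨e, he, hez⟩ : ∃ e ∈ D, e = q1 ∨ e = q2 ∨ X1 e := by
    by_cases h0 : q1 ∈ D
    · exact ⟨_, h0, Or.inl rfl⟩
    · obtain ⟨e, he, hne, had, _⟩ := hL.dom _ qv1 h0
      exact ⟨e, he, Or.inr (hqn1 e (hL.mem e he) had hne)⟩
  have hezn : zn e := by
    rcases hez with rfl | rfl | h
    · exact z2.1
    · exact z2.2
    · exact z3 e (hL.mem e he) h
  have hsep : ∀ x y : Λ, ((∃ b ≤ M, x = g b) ∨ ∃ b ≤ M, x = g' b) → (y = q1 ∨ y = q2 ∨ X1 y) →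
      x ≠ y := by
    rintro x y (⟨b, hb, rfl⟩ | ⟨b, hb, rfl⟩) (rfl | rfl | h) heq
    · exact (dj2 b hb).1 heq
    · exact (dj2 b hb).2.1 heq
    · rw [← heq] at h
      exact (dj1 b hb).1 h
    · exact (dj2 b hb).2.2.1 heq
    · exact (dj2 b hb).2.2.2 heq
    · rw [← heq] at h
      exact (dj1 b hb).2 h
  have hde : d ≠ e := hsep d e hdz hez
  have h4 := two_le_sum (c := c) (hin d hd hdzn) (hin e he hezn) hde
  have h5 := hL.pos e he
  have h6 : c d = M := by omega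
  have h7 : c e = 1 := by omega
  have h8 : ∀ f ∈ D, zn f → f = d ∨ f = e := by
    intro f hf hfz
    by_contra hcon
    push Not at hcon
    have := three_le_sum (c := c) (hin d hd hdzn) (hin e he hezn) (hin f hf hfz) hde
      hcon.1.symm hcon.2.symm
    have h9 := hL.pos f hf
    omega
  -- colors of the pair
  have hQ : ∀ q, (q = q1 ∨ q = q2) → c q ≤ 1 := by
    intro q hqq
    have hqv : q ∈ vs := by
      rcases hqq with rfl | rfl <;> assumption
    have hqz : zn q := by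
      rcases hqq with rfl | rfl
      · exact z2.1
      · exact z2.2
    by_cases h0 : q ∈ D
    · rcases h8 q h0 hqz with rfl | rfl
      · exact absurd rfl (hsep q q hdz (hqq.imp_right Or.inl))
      · omega
    · obtain ⟨f, hf, hne, had, hlt⟩ := hL.dom _ hqv h0
      have hfe : f = q1 ∨ f = q2 ∨ X1 f := by
        rcases hqq with rfl | rfl
        · exact Or.inr (hqn1 f (hL.mem f hf) had hne)
        · rcases hqn2 f (hL.mem f hf) had hne with h | h
          · exact Or.inl h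
          · exact Or.inr (Or.inr h)
      have hfz : zn f := by
        rcases hfe with rfl | rfl | h
        · exact z2.1
        · exact z2.2
        · exact z3 f (hL.mem f hf) h
      rcases h8 f hf hfz with rfl | rfl
      · exact absurd rfl (hsep f f hdz hfe)
      · omega
  have hQ1 := hQ q1 (Or.inl rfl)
  have hQ2 := hQ q2 (Or.inr rfl)
  have hG : ∀ b ≤ M, c (g' b) ≤ M := by
    intro b hb
    by_cases h0 : g' b ∈ D
    · rcases h8 _ h0 (z1 b hb).2 with h | h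
      · rw [h]
        omega
      · rw [h]
        omega
    · obtain ⟨f, hf, hne, had, hlt⟩ := hL.dom _ (gv' b hb) h0
      have hfz : zn f := by
        rcases hTn' b hb f (hL.mem f hf) had hne with ⟨b', hb', rfl⟩ | ⟨b', hb', rfl⟩ | h3
        · exact (z1 b' hb').1
        · exact (z1 b' hb').2
        · exact z3 f (hL.mem f hf) (hXX f h3)
      rcases h8 f hf hfz with rfl | rfl
      · omega
      · omega
  refine ⟨by omega, ?_, ?_, ?_⟩
  · intro x hx hx1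
    obtain ⟨h9, h10⟩ := hX1 x hx hx1
    exact two_le_aux hq hQ1 hQ2 h9 h10
  · intro x hx hx2
    by_contra hcon
    push Not at hcon
    obtain ⟨b, hb, hbe⟩ := exists_eq M (fun b => c (g' b)) hT' hG (j := c x) (by omega)
    exact hX2 x hx hx2 b hb hbe.symm
  · intro f hf hfz
    rcases h8 f hf hfz with rfl | rfl
    · omega
    · omega

end Pool.Agent.V11229.Uc
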