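import Pool.Agent.V11229.UcEnd

/-!
# Interval systems made of lines which are cut at given times
-/

namespace Pool.Agent.V11229.Uc

/-- labels: kind, index, time -/
abbrev Lab : Type := ℕ × ℕ × ℕ

/-- the line `l` is cut when time `s` begins -/
def cutP (Ev : List (List ℕ)) (l s : ℕ) : Bool := decide (0 < s) && decide (l ∈ Ev.getD (s - 1) [])

/-- the next cut of the line `l` after time `t` -/
def nxt (Ev : List (List ℕ)) (l t : ℕ) : ℕ :=
  ((List.range (Ev.length + 1)).filter (fun s => decide (t < s) && cutP Ev l s)).getD 0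
    (Ev.length + 1)

/-- left ends -/
def lo (Ev : List (List ℕ)) (mL : List ℕ) (x : Lab) : ℕ :=
  if x.1 = 0 then 3
  else if x.1 = 1 then (if x.2.2 = 0 then (if x.2.1 = 0 then 3 else if x.2.1 ∈ mL then 2 else 1)
    else 3 + x.2.2)
  else if x.1 = 2 then 0
  else if x.1 = 3 then 0
  else if x.1 = 4 then 1
  else if x.1 = 5 then 2
  else if x.1 = 6 then Ev.length + 6
  else if x.1 = 7 then Ev.length + 5
  else if x.1 = 8 then Ev.length + 5
  else Ev.length + 4

/-- right ends -/
def hi (Ev : List (List ℕ)) (mR : List ℕ) (x : Lab) : ℕ :=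
  if x.1 = 0 then Ev.length + 3
  else if x.1 = 1 then (if nxt Ev x.2.1 x.2.2 ≤ Ev.length then 2 + nxt Ev x.2.1 x.2.2
    else if x.2.1 = 0 then Ev.length + 3 else if x.2.1 ∈ mR then Ev.length + 4 else Ev.length + 5)
  else if x.1 = 2 then 0
  else if x.1 = 3 then 1
  else if x.1 = 4 then 1
  else if x.1 = 5 then 2
  else if x.1 = 6 then Ev.length + 6
  else if x.1 = 7 then Ev.length + 6
  else if x.1 = 8 then Ev.length + 5
  else Ev.length + 4

/-- the labels which occur -/
def ok (Ev : List (List ℕ)) (n m : ℕ) (x : Lab) : Bool :=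
  if x.1 = 0 then decide (x.2.1 < 2) && decide (x.2.2 = 0)
  else if x.1 = 1 then decide (x.2.1 < n) && (decide (x.2.2 = 0) || cutP Ev x.2.1 x.2.2)
  else if x.1 = 2 then decide (x.2.1 < m + 1) && decide (x.2.2 = 0)
  else if x.1 = 3 then decide (x.2.1 = 0) && decide (x.2.2 = 0)
  else if x.1 = 4 then decide (x.2.1 < m + 1) && decide (x.2.2 = 0)
  else if x.1 = 5 then decide (x.2.1 < 2) && decide (x.2.2 = 0)
  else if x.1 = 6 then decide (x.2.1 < m + 1) && decide (x.2.2 = 0)
  else if x.1 = 7 then decide (x.2.1 = 0) && decide (x.2.2 = 0)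
  else if x.1 = 8 then decide (x.2.1 < m + 1) && decide (x.2.2 = 0)
  else decide (x.2.1 < 2) && decide (x.2.2 = 0)

/-- the points -/
def vs (Ev : List (List ℕ)) (n m : ℕ) : List Lab :=
  (List.range 10 ×ˢ (List.range (n + 2) ×ˢ List.range (Ev.length + 1))).filter (ok Ev n m)

/-- touching intervals -/
def Tch (Ev : List (List ℕ)) (mL mR : List ℕ) (x y : Lab) : Prop :=
  lo Ev mL x ≤ hi Ev mR y ∧ lo Ev mL y ≤ hi Ev mR x

theorem Tch.symm {Ev : List (List ℕ)} {mL mR : List ℕ} {x y : Lab} (h : Tch Ev mL mR x y) :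
    Tch Ev mL mR y x := ⟨h.2, h.1⟩

/-- a valid state of the lines: `η` is the color which is not used -/
def Valid (n η : ℕ) (c : ℕ → ℕ) : Prop :=
  (∀ a < n, ∀ b < n, c a = c b → a = b) ∧ ∀ a < n, c a ≤ n ∧ c a ≠ η

variable {Ev : List (List ℕ)} {n m k : ℕ} {mL mR : List ℕ}

theorem vs_nodup : (vs Ev n m).Nodup :=
  List.Nodup.filter _ (List.Nodup.product List.nodup_range (List.Nodup.product List.nodup_range
    List.nodup_range))

theorem mem_vs (x : Lab) : x ∈ vs Ev n m ↔
    (x.1 < 10 ∧ x.2.1 < n + 2 ∧ x.2.2 < Ev.length + 1) ∧ ok Ev n m x = true := by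
  obtain ⟨a, b, t⟩ := x
  unfold vs
  rw [List.mem_filter, List.mem_product, List.mem_product, List.mem_range, List.mem_range,
    List.mem_range]

theorem mem0 {b : ℕ} (hb : b < 2) : ((0, b, 0) : Lab) ∈ vs Ev n m := by
  rw [mem_vs]
  refine ⟨⟨by norm_num, by simp; omega, by simp⟩, by simp [ok, hb]⟩

theorem mem1 {l t : ℕ} (hl : l < n) (ht : t ≤ Ev.length) (h : t = 0 ∨ cutP Ev l t = true) :
    ((1, l, t) : Lab) ∈ vs Ev n m := by
  rw [mem_vs]
  refine ⟨⟨by norm_num, by simp; omega, by simp; omega⟩, by simp [ok, hl]; exact h⟩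

theorem mem2 {b : ℕ} (hm : m < n) (hb : b < m + 1) : ((2, b, 0) : Lab) ∈ vs Ev n m := by
  rw [mem_vs]
  refine ⟨⟨by norm_num, by simp; omega, by simp⟩, by simp [ok]; omega⟩

theorem mem3 : ((3, 0, 0) : Lab) ∈ vs Ev n m := by
  rw [mem_vs]
  refine ⟨⟨by norm_num, by simp, by simp⟩, by simp [ok]⟩

theorem mem4 {b : ℕ} (hm : m < n) (hb : b < m + 1) : ((4, b, 0) : Lab) ∈ vs Ev n m := by
  rw [mem_vs]
  refine ⟨⟨by norm_num, by simp; omega, by simp⟩, by simp [ok]; omega⟩

theorem mem5 {b : ℕ} (hb : b < 2) : ((5, b, 0) : Lab) ∈ vs Ev n m := by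
  rw [mem_vs]
  refine ⟨⟨by norm_num, by simp; omega, by simp⟩, by simp [ok]; omega⟩

theorem mem6 {b : ℕ} (hm : m < n) (hb : b < m + 1) : ((6, b, 0) : Lab) ∈ vs Ev n m := by
  rw [mem_vs]
  refine ⟨⟨by norm_num, by simp; omega, by simp⟩, by simp [ok]; omega⟩

theorem mem7 : ((7, 0, 0) : Lab) ∈ vs Ev n m := by
  rw [mem_vs]
  refine ⟨⟨by norm_num, by simp, by simp⟩, by simp [ok]⟩

theorem mem8 {b : ℕ} (hm : m < n) (hb : b < m + 1) : ((8, b, 0) : Lab) ∈ vs Ev n m := by
  rw [mem_vs]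
  refine ⟨⟨by norm_num, by simp; omega, by simp⟩, by simp [ok]; omega⟩

theorem mem9 {b : ℕ} (hb : b < 2) : ((9, b, 0) : Lab) ∈ vs Ev n m := by
  rw [mem_vs]
  refine ⟨⟨by norm_num, by simp; omega, by simp⟩, by simp [ok]; omega⟩

theorem vs_cases {x : Lab} (h : x ∈ vs Ev n m) :
    (∃ b < 2, x = (0, b, 0)) ∨
    (∃ l < n, ∃ t ≤ Ev.length, (t = 0 ∨ cutP Ev l t = true) ∧ x = (1, l, t)) ∨
    (∃ b < m + 1, x = (2, b, 0)) ∨ x = (3, 0, 0) ∨ (∃ b < m + 1, x = (4, b, 0)) ∨
    (∃ b < 2, x = (5, b, 0)) ∨ (∃ b < m + 1, x = (6, b, 0)) ∨ x = (7, 0, 0) ∨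
    (∃ b < m + 1, x = (8, b, 0)) ∨ (∃ b < 2, x = (9, b, 0)) := by
  obtain ⟨a, b, t⟩ := x
  rw [mem_vs] at h
  obtain ⟨⟨h1, h2, h3⟩, h4⟩ := h
  simp only at h1 h2 h3
  unfold ok at h4
  simp only at h4
  split_ifs at h4 with c0 c1 c2 c3 c4 c5 c6 c7 c8
  · simp only [Bool.and_eq_true, decide_eq_true_eq] at h4
    left
    exact ⟨b, h4.1, by rw [c0, h4.2]⟩
  · simp only [Bool.and_eq_true, Bool.or_eq_true, decide_eq_true_eq] at h4
    right; left
    exact ⟨b, h4.1, t, by omega, h4.2, by rw [c1]⟩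
  · simp only [Bool.and_eq_true, decide_eq_true_eq] at h4
    right; right; left
    exact ⟨b, h4.1, by rw [c2, h4.2]⟩
  · simp only [Bool.and_eq_true, decide_eq_true_eq] at h4
    right; right; right; left
    rw [c3, h4.1, h4.2]
  · simp only [Bool.and_eq_true, decide_eq_true_eq] at h4
    right; right; right; right; left
    exact ⟨b, h4.1, by rw [c4, h4.2]⟩
  · simp only [Bool.and_eq_true, decide_eq_true_eq] at h4
    right; right; right; right; right; left
    exact ⟨b, h4.1, by rw [c5, h4.2]⟩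
  · simp only [Bool.and_eq_true, decide_eq_true_eq] at h4
    right; right; right; right; right; right; left
    exact ⟨b, h4.1, by rw [c6, h4.2]⟩
  · simp only [Bool.and_eq_true, decide_eq_true_eq] at h4
    right; right; right; right; right; right; right; left
    rw [c7, h4.1, h4.2]
  · simp only [Bool.and_eq_true, decide_eq_true_eq] at h4
    right; right; right; right; right; right; right; right; left
    exact ⟨b, h4.1, by rw [c8, h4.2]⟩
  · simp only [Bool.and_eq_true, decide_eq_true_eq] at h4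
    right; right; right; right; right; right; right; right; right
    exact ⟨b, h4.1, by rw [h4.2]; congr 1; omega⟩

/-! ### The next cut -/

theorem nxt_spec (l t : ℕ) : (nxt Ev l t = Ev.length + 1 ∧
      ∀ s ≤ Ev.length, t < s → cutP Ev l s = false) ∨
    (nxt Ev l t ≤ Ev.length ∧ t < nxt Ev l t ∧ cutP Ev l (nxt Ev l t) = true ∧
      ∀ s, t < s → s < nxt Ev l t → cutP Ev l s = false) := by
  unfold nxt
  have hs : ((List.range (Ev.length + 1)).filter
      (fun s => decide (t < s) && cutP Ev l s)).Pairwise (· < ·) :=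
    List.Pairwise.filter _ List.pairwise_lt_range
  have hm : ∀ s, s ∈ (List.range (Ev.length + 1)).filter
      (fun s => decide (t < s) && cutP Ev l s) ↔
      s < Ev.length + 1 ∧ t < s ∧ cutP Ev l s = true := by
    intro s
    rw [List.mem_filter, List.mem_range, Bool.and_eq_true, decide_eq_true_eq]
  generalize (List.range (Ev.length + 1)).filter (fun s => decide (t < s) && cutP Ev l s) = L
    at hs hm ⊢
  rcases L with _ | ⟨a, L⟩
  · left
    refine ⟨rfl, fun s hs1 hs2 => ?_⟩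
    by_contra hcon
    have := (hm s).2 ⟨by omega, hs2, by simpa using hcon⟩
    simp at this
  · right
    have h1 := (hm a).1 (by simp)
    have h0 : (a :: L).getD 0 (Ev.length + 1) = a := rfl
    rw [h0]
    refine ⟨by omega, h1.2.1, h1.2.2, fun s hs1 hs2 => ?_⟩
    by_contra hcon
    have h2 := (hm s).2 ⟨by omega, hs1, by simpa using hcon⟩
    rw [List.mem_cons] at h2
    rcases h2 with h2 | h2
    · omega
    · have := (List.pairwise_cons.1 hs).1 s h2
      omega

theorem nxt_le (l t : ℕ) : nxt Ev l t ≤ Ev.length + 1 := by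
  rcases nxt_spec (Ev := Ev) l t with h | h <;> omega

theorem lt_nxt {l t s : ℕ} (hs : s ≤ Ev.length) (h : ∀ r, t < r → r ≤ s → cutP Ev l r = false)
    (hts : t ≤ s) : s < nxt Ev l t := by
  rcases nxt_spec (Ev := Ev) l t with h1 | h1
  · omega
  · by_contra hcon
    push Not at hcon
    have := h _ h1.2.1 hcon
    rw [h1.2.2.1] at this
    simp at this

theorem not_cut {l t s : ℕ} (h1 : t < s) (h2 : s < nxt Ev l t) (h3 : s ≤ Ev.length) :
    cutP Ev l s = false := by
  rcases nxt_spec (Ev := Ev) l t with h | h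
  · exact h.2 s h3 h1
  · exact h.2.2.2 s h1 h2

/-- the beginning of the piece of `l` present at time `s` -/
def st (Ev : List (List ℕ)) (l : ℕ) : ℕ → ℕ
  | 0 => 0
  | s + 1 => if l ∈ Ev.getD s [] then s + 1 else st Ev l s

theorem st_le (l s : ℕ) : st Ev l s ≤ s := by
  induction s with
  | zero => exact le_refl _
  | succ s ih =>
    unfold st
    split_ifs <;> omega

theorem st_cut (l s : ℕ) : st Ev l s = 0 ∨ cutP Ev l (st Ev l s) = true := by
  induction s with
  | zero => exact Or.inl rfl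
  | succ s ih =>
    unfold st
    split_ifs with h
    · right
      simp only [cutP, Nat.add_sub_cancel, Bool.and_eq_true, decide_eq_true_eq]
      exact ⟨by omega, h⟩
    · exact ih

theorem st_not (l s r : ℕ) (h1 : st Ev l s < r) (h2 : r ≤ s) : cutP Ev l r = false := by
  induction s with
  | zero => omega
  | succ s ih =>
    unfold st at h1
    split_ifs at h1 with h
    · omega
    · rcases Nat.lt_or_ge s r with h3 | h3
      · have : r = s + 1 := by omega
        subst this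
        simp only [cutP, Nat.add_sub_cancel, decide_eq_false h, Bool.and_false]
      · exact ih h1 h3

theorem st_eq {l s t : ℕ} (h1 : t ≤ s) (h2 : t = 0 ∨ cutP Ev l t = true)
    (h3 : ∀ r, t < r → r ≤ s → cutP Ev l r = false) : st Ev l s = t := by
  rcases lt_trichotomy (st Ev l s) t with h | h | h
  · have := st_not l s t h h1
    rcases h2 with h2 | h2
    · omega
    · rw [h2] at this
      simp at this
  · exact h
  · have := h3 _ h (st_le l s)
    rcases st_cut (Ev := Ev) l s with h4 | h4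
    · omega
    · rw [h4] at this
      simp at this

/-! ### The ends of the pieces -/

theorem lo1 (l t : ℕ) : 1 ≤ lo Ev mL (1, l, t) ∧ lo Ev mL (1, l, t) ≤ 3 + t ∧
    (0 < t → lo Ev mL (1, l, t) = 3 + t) ∧
    (lo Ev mL (1, l, t) ≤ 2 → t = 0 ∧ l ≠ 0) ∧
    (lo Ev mL (1, l, t) ≤ 1 → t = 0 ∧ l ≠ 0 ∧ l ∉ mL) ∧
    (l ≠ 0 → t = 0 → lo Ev mL (1, l, t) ≤ 2) ∧
    (l ≠ 0 → l ∉ mL → t = 0 → lo Ev mL (1, l, t) = 1) := by
  unfold lo
  simp only [one_ne_zero, if_false, if_true]
  split_ifs with h1 h2 h3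
  · subst h1
    refine ⟨by omega, by omega, fun h => by omega, fun h => by omega, fun h => by omega,
      fun h => absurd h2 h, fun h => absurd h2 h⟩
  · refine ⟨by omega, by omega, fun h => by omega, fun h => ⟨h1, h2⟩, fun h => by omega,
      fun _ _ => by omega, fun _ h => absurd h3 h⟩
  · exact ⟨by omega, by omega, fun h => by omega, fun h => ⟨h1, h2⟩, fun h => ⟨h1, h2, h3⟩,
      fun _ _ => by omega, fun _ _ _ => rfl⟩
  · exact ⟨by omega, by omega, fun h => rfl, fun h => by omega, fun h => by omega,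
      fun _ h => absurd h h1, fun _ _ h => absurd h h1⟩

theorem hi1 (l t : ℕ) : hi Ev mR (1, l, t) ≤ Ev.length + 5 ∧
    (nxt Ev l t ≤ Ev.length → hi Ev mR (1, l, t) = 2 + nxt Ev l t) ∧
    (Ev.length < nxt Ev l t → Ev.length + 3 ≤ hi Ev mR (1, l, t)) ∧
    (Ev.length + 3 ≤ hi Ev mR (1, l, t) → Ev.length < nxt Ev l t) ∧
    (Ev.length + 4 ≤ hi Ev mR (1, l, t) → Ev.length < nxt Ev l t ∧ l ≠ 0) ∧
    (Ev.length + 5 ≤ hi Ev mR (1, l, t) → Ev.length < nxt Ev l t ∧ l ≠ 0 ∧ l ∉ mR) ∧
    (l ≠ 0 → Ev.length < nxt Ev l t → Ev.length + 4 ≤ hi Ev mR (1, l, t)) ∧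
    (l ≠ 0 → l ∉ mR → Ev.length < nxt Ev l t → hi Ev mR (1, l, t) = Ev.length + 5) := by
  unfold hi
  simp only [one_ne_zero, if_false, if_true]
  split_ifs with h1 h2 h3
  · refine ⟨by omega, fun _ => rfl, fun h => by omega, fun h => by omega, fun h => by omega,
      fun h => by omega, fun _ h => by omega, fun _ _ h => by omega⟩
  · refine ⟨by omega, fun h => by omega, fun h => by omega, fun h => by omega, fun h => by omega,
      fun h => by omega, fun h => absurd h2 h, fun h => absurd h2 h⟩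
  · refine ⟨by omega, fun h => by omega, fun h => by omega, fun h => by omega,
      fun h => ⟨by omega, h2⟩, fun h => by omega, fun _ _ => by omega, fun _ h => absurd h3 h⟩
  · refine ⟨by omega, fun h => by omega, fun h => by omega, fun h => by omega,
      fun h => ⟨by omega, h2⟩, fun h => ⟨by omega, h2, h3⟩, fun _ _ => by omega,
      fun _ _ _ => rfl⟩

/-- a piece is present at time `s` -/
theorem alive {l t s : ℕ} (hs : s ≤ Ev.length) (hts : t ≤ s)
    (h : ∀ r, t < r → r ≤ s → cutP Ev l r = false) :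
    lo Ev mL (1, l, t) ≤ 3 + s ∧ 3 + s ≤ hi Ev mR (1, l, t) := by
  have h1 := lt_nxt hs h hts
  have h2 := (lo1 (Ev := Ev) (mL := mL) l t).2.1
  refine ⟨by omega, ?_⟩
  rcases Nat.lt_or_ge Ev.length (nxt Ev l t) with h3 | h3
  · have := (hi1 (Ev := Ev) (mR := mR) l t).2.2.1 h3
    omega
  · have := (hi1 (Ev := Ev) (mR := mR) l t).2.1 h3
    omega

theorem alive_st {l s : ℕ} (hs : s ≤ Ev.length) :
    lo Ev mL (1, l, st Ev l s) ≤ 3 + s ∧ 3 + s ≤ hi Ev mR (1, l, st Ev l s) :=
  alive hs (st_le l s) (st_not l s)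

theorem hi1_ge (l t : ℕ) : 3 + t ≤ hi Ev mR (1, l, t) ∨ Ev.length < t := by
  rcases Nat.lt_or_ge Ev.length t with h | h
  · exact Or.inr h
  · exact Or.inl (alive (mL := ([] : List ℕ)) h (le_refl _) (fun r h1 h2 => by omega)).2

end Pool.Agent.V11229.Uc
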