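import Pool.Agent.V11229.UcSat2
import Pool.Agent.V11229.UcComp
import Pool.Agent.V11229.FG
import Pool.Agent.V11229.XCover

/-!
# The interval system of a formula is computable in polynomial time
-/

namespace Pool.Agent.V11229.Uc

open Pool.Agent.NPC Pool.Agent.V11229

theorem hyp_evs (φ : List (Lit ℕ × Lit ℕ × Lit ℕ)) (hne : φ ≠ []) :
    Hyp (evs φ) (nn φ.length) φ.length (6 * φ.length + 2) (midL φ.length) (midR φ.length) := by
  have hm : 0 < φ.length := List.length_pos_iff.2 hne
  have hn : nn φ.length = 24 * φ.length + 16 := rfl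
  set m := φ.length with hmd
  have hev : evs φ = Es m :: (Fs m :: (blocks (List.range (3 * m)) (lits φ).zipIdx ++
      ([0, 1] :: (cls m ++ [Es m])))) := rfl
  have hcut : ∀ l, (∃ S ∈ evs φ, l ∈ S) → ∃ s, 0 < s ∧ s ≤ (evs φ).length ∧
      cutP (evs φ) l s = true := by
    rintro l ⟨S, hS, hl⟩
    obtain ⟨i, hi, hiS⟩ := List.getElem_of_mem hS
    refine ⟨i + 1, by omega, by omega, ?_⟩
    simp only [cutP, Nat.add_sub_cancel, Bool.and_eq_true, decide_eq_true_eq]
    refine ⟨by omega, ?_⟩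
    rw [List.getD_eq_getElem _ _ hi, hiS]
    exact hl
  have hlast : (evs φ).getD ((evs φ).length - 1) [] = Es m := by
    have h1 : evs φ = (Es m :: (Fs m :: (blocks (List.range (3 * m)) (lits φ).zipIdx ++
      ([0, 1] :: cls m)))) ++ [Es m] := by
      rw [hev]
      simp
    have hgen : ∀ (X : List (List ℕ)) (a : List ℕ),
        (X ++ [a]).getD ((X ++ [a]).length - 1) [] = a := by
      intro X a
      rw [List.length_append, List.length_singleton, Nat.add_sub_cancel,
        List.getD_append_right _ _ _ _ (le_refl _)]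
      simp
    rw [h1]
    exact hgen _ _
  have hmemE : ∀ l, 6 * m + 2 ≤ l → l < nn m → l ∈ Es m := by
    intro l h1 h2
    exact List.mem_map.2 ⟨l - (6 * m + 2), List.mem_range.2 (by omega), by omega⟩
  refine ⟨?_, ?_, ?_, ?_, by omega, by omega, by omega, ?_, ?_, ?_, ?_⟩
  · rw [hev]
    simp
  · intro l hl
    apply hcut
    by_cases h1 : 6 * m + 2 ≤ l
    · exact ⟨Es m, by rw [hev]; simp, hmemE l h1 hl⟩
    · by_cases h2 : l ≤ 1
      · refine ⟨[0, 1], by rw [hev]; simp, ?_⟩
        simp only [List.mem_cons, List.not_mem_nil, or_false]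
        omega
      · rcases Nat.mod_two_eq_zero_or_one l with h3 | h3
        · refine ⟨Fs m, by rw [hev]; simp, ?_⟩
          exact List.mem_map.2 ⟨(l - 2) / 2, List.mem_range.2 (by omega), by omega⟩
        · refine ⟨[6 * ((l - 3) / 6) + 3, 6 * ((l - 3) / 6) + 5, 6 * ((l - 3) / 6) + 7], ?_, ?_⟩
          · have h4 : [6 * ((l - 3) / 6) + 3, 6 * ((l - 3) / 6) + 5, 6 * ((l - 3) / 6) + 7] ∈
                cls m := List.mem_map.2 ⟨(l - 3) / 6, List.mem_range.2 (by omega), rfl⟩
            rw [hev]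
            simp only [List.mem_cons, List.mem_append]
            exact Or.inr (Or.inr (Or.inr (Or.inr (Or.inl h4))))
          · simp only [List.mem_cons, List.not_mem_nil, or_false]
            omega
  · intro l h1 h2
    simp only [cutP, Bool.and_eq_true, decide_eq_true_eq]
    refine ⟨by omega, ?_⟩
    rw [hev]
    exact hmemE l h1 h2
  · intro l h1 h2
    simp only [cutP, Bool.and_eq_true, decide_eq_true_eq]
    refine ⟨by rw [hev]; simp, ?_⟩
    rw [hlast]
    exact hmemE l h1 h2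
  · intro l hl
    obtain ⟨j, hj, rfl⟩ := List.mem_map.1 hl
    rw [List.mem_range] at hj
    omega
  · intro l hl
    obtain ⟨j, hj, rfl⟩ := List.mem_map.1 hl
    rw [List.mem_range] at hj
    omega
  · refine List.Nodup.map ?_ List.nodup_range
    intro a b hab
    simp only at hab
    omega
  · simp [midR]

/-- adjacency -/
def adI (Ev : List (List ℕ)) (mL mR : List ℕ) (x y : Lab) : Bool :=
  decide (lo Ev mL x ≤ hi Ev mR y) && decide (lo Ev mL y ≤ hi Ev mR x)

/-- the reduction -/
def redI (φ : List (Lit ℕ × Lit ℕ × Lit ℕ)) : FG × ℕ :=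
  (FG.ofList (vs (evs φ) (nn φ.length) φ.length) (adI (evs φ) (midL φ.length) (midR φ.length)),
    nn φ.length + 2 * φ.length + 5)

section
variable {α : Type} [TEnc α]

theorem cutP_poly {Ev : α → List (List ℕ)} {l s : α → ℕ} (hEv : Poly Ev) (hl : Poly l)
    (hs : Poly s) : Poly (fun a => cutP (Ev a) (l a) (s a)) := by
  unfold cutP
  fun_prop

theorem nxt_poly {Ev : α → List (List ℕ)} {l t : α → ℕ} (hEv : Poly Ev) (hl : Poly l)
    (ht : Poly t) : Poly (fun a => nxt (Ev a) (l a) (t a)) := by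
  unfold nxt
  have h1 : Poly (fun a => List.range ((Ev a).length + 1)) :=
    UPoly.range (UPoly.add (UPoly.length hEv) (UPoly.const 1))
  have h2 : Poly (fun a => (List.range ((Ev a).length + 1)).filter
      (fun s => decide (t a < s) && cutP (Ev a) (l a) s)) := by
    refine NPC.Poly.filter (p := fun a s => decide (t a < s) && cutP (Ev a) (l a) s) h1 ?_
    exact NPC.Poly.and (by fun_prop) (cutP_poly (by fun_prop) (by fun_prop) (by fun_prop))
  fun_prop

theorem lo_poly {Ev : α → List (List ℕ)} {mL : α → List ℕ} {x : α → Lab} (hEv : Poly Ev)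
    (hm : Poly mL) (hx : Poly x) : Poly (fun a => lo (Ev a) (mL a) (x a)) := by
  unfold lo
  fun_prop

theorem hi_poly {Ev : α → List (List ℕ)} {mR : α → List ℕ} {x : α → Lab} (hEv : Poly Ev)
    (hm : Poly mR) (hx : Poly x) : Poly (fun a => hi (Ev a) (mR a) (x a)) := by
  unfold hi
  have h1 : Poly (fun a => nxt (Ev a) (x a).2.1 (x a).2.2) :=
    nxt_poly hEv (by fun_prop) (by fun_prop)
  fun_prop

theorem ok_poly {Ev : α → List (List ℕ)} {n m : α → ℕ} {x : α → Lab} (hEv : Poly Ev)
    (hn : Poly n) (hm : Poly m) (hx : Poly x) : Poly (fun a => ok (Ev a) (n a) (m a) (x a)) := by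
  unfold ok
  have h1 : Poly (fun a => cutP (Ev a) (x a).2.1 (x a).2.2) :=
    cutP_poly hEv (by fun_prop) (by fun_prop)
  fun_prop

theorem occ_poly {v : α → ℕ} {Ls : α → List (Lit ℕ × ℕ)} (hv : Poly v) (hL : Poly Ls) :
    Poly (fun a => occ (v a) (Ls a)) := by
  unfold occ side
  fun_prop

end

theorem evs_poly : Poly evs := by
  have hu : UPoly (fun φ : List (Lit ℕ × Lit ℕ × Lit ℕ) => φ.length) := UPoly.length NPC.Poly.id
  have h1 : Poly (fun φ : List (Lit ℕ × Lit ℕ × Lit ℕ) => Es φ.length) := by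
    unfold Es
    have h : Poly (fun φ : List (Lit ℕ × Lit ℕ × Lit ℕ) => List.range (18 * φ.length + 14)) :=
      UPoly.range (UPoly.add (UPoly.mul (UPoly.const 18) hu) (UPoly.const 14))
    fun_prop
  have h2 : Poly (fun φ : List (Lit ℕ × Lit ℕ × Lit ℕ) => Fs φ.length) := by
    unfold Fs
    have h : Poly (fun φ : List (Lit ℕ × Lit ℕ × Lit ℕ) => List.range (3 * φ.length)) :=
      UPoly.range (UPoly.mul (UPoly.const 3) hu)
    fun_prop
  have h3 : Poly (fun φ : List (Lit ℕ × Lit ℕ × Lit ℕ) => cls φ.length) := by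
    unfold cls
    have h : Poly (fun φ : List (Lit ℕ × Lit ℕ × Lit ℕ) => List.range φ.length) :=
      UPoly.range hu
    fun_prop
  have h4 : Poly lits := by
    unfold lits
    fun_prop
  have h5 : Poly (fun φ : List (Lit ℕ × Lit ℕ × Lit ℕ) => (lits φ).zipIdx) :=
    NPC.Poly.zipIdx h4
  have h6 : Poly (fun φ : List (Lit ℕ × Lit ℕ × Lit ℕ) =>
      blocks (List.range (3 * φ.length)) (lits φ).zipIdx) := by
    unfold blocks
    have h : Poly (fun φ : List (Lit ℕ × Lit ℕ × Lit ℕ) => List.range (3 * φ.length)) :=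
      UPoly.range (UPoly.mul (UPoly.const 3) hu)
    refine NPC.Poly.flatMap (F := fun φ v => [0, 1] :: occ v (lits φ).zipIdx) h ?_
    refine NPC.Poly.cons (NPC.Poly.const _) (occ_poly (by fun_prop) ?_)
    exact h5.comp (NPC.Poly.fst NPC.Poly.id)
  unfold evs
  fun_prop

theorem redI_poly : Poly redI := by
  have hu : UPoly (fun φ : List (Lit ℕ × Lit ℕ × Lit ℕ) => φ.length) := UPoly.length NPC.Poly.id
  have hl : Poly (fun φ : List (Lit ℕ × Lit ℕ × Lit ℕ) => φ.length) := NPC.Poly.length NPC.Poly.id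
  have hnn : Poly (fun φ : List (Lit ℕ × Lit ℕ × Lit ℕ) => nn φ.length) := by
    unfold nn
    fun_prop
  have hL : Poly (fun φ : List (Lit ℕ × Lit ℕ × Lit ℕ) => midL φ.length) := by
    unfold midL
    have h : Poly (fun φ : List (Lit ℕ × Lit ℕ × Lit ℕ) => List.range φ.length) :=
      UPoly.range hu
    fun_prop
  have hR : Poly (fun φ : List (Lit ℕ × Lit ℕ × Lit ℕ) => midR φ.length) := by
    unfold midR
    have h : Poly (fun φ : List (Lit ℕ × Lit ℕ × Lit ℕ) => List.range φ.length) :=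
      UPoly.range hu
    fun_prop
  unfold redI
  refine NPC.Poly.pair ?_ (by fun_prop)
  refine Poly.FG_ofList (vs := fun φ => vs (evs φ) (nn φ.length) φ.length)
    (ad := fun φ => adI (evs φ) (midL φ.length) (midR φ.length)) ?_ ?_
  · unfold vs
    have h1 : Poly (fun φ : List (Lit ℕ × Lit ℕ × Lit ℕ) => List.range (nn φ.length + 2)) := by
      unfold nn
      exact UPoly.range (UPoly.add (UPoly.add (UPoly.mul (UPoly.const 24) hu) (UPoly.const 16))
        (UPoly.const 2))
    have h2 : Poly (fun φ : List (Lit ℕ × Lit ℕ × Lit ℕ) => List.range ((evs φ).length + 1)) :=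
      UPoly.range (UPoly.add (UPoly.length evs_poly) (UPoly.const 1))
    refine NPC.Poly.filter (p := fun φ x => ok (evs φ) (nn φ.length) φ.length x) (by fun_prop) ?_
    exact ok_poly (evs_poly.comp (NPC.Poly.fst NPC.Poly.id)) (hnn.comp (NPC.Poly.fst NPC.Poly.id))
      (hl.comp (NPC.Poly.fst NPC.Poly.id)) (by fun_prop)
  · unfold adI
    have f1 : Poly (fun p : (List (Lit ℕ × Lit ℕ × Lit ℕ) × Lab) × Lab => evs p.1.1) :=
      evs_poly.comp (NPC.Poly.fst (NPC.Poly.fst NPC.Poly.id))
    have f2 : Poly (fun p : (List (Lit ℕ × Lit ℕ × Lit ℕ) × Lab) × Lab => midL p.1.1.length) :=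
      hL.comp (NPC.Poly.fst (NPC.Poly.fst NPC.Poly.id))
    have f3 : Poly (fun p : (List (Lit ℕ × Lit ℕ × Lit ℕ) × Lab) × Lab => midR p.1.1.length) :=
      hR.comp (NPC.Poly.fst (NPC.Poly.fst NPC.Poly.id))
    have g1 := lo_poly f1 f2 (x := fun p : (List (Lit ℕ × Lit ℕ × Lit ℕ) × Lab) × Lab => p.1.2)
      (by fun_prop)
    have g2 := lo_poly f1 f2 (x := fun p : (List (Lit ℕ × Lit ℕ × Lit ℕ) × Lab) × Lab => p.2)
      (by fun_prop)
    have g3 := hi_poly f1 f3 (x := fun p : (List (Lit ℕ × Lit ℕ × Lit ℕ) × Lab) × Lab => p.1.2)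
      (by fun_prop)
    have g4 := hi_poly f1 f3 (x := fun p : (List (Lit ℕ × Lit ℕ × Lit ℕ) × Lab) × Lab => p.2)
      (by fun_prop)
    fun_prop

end Pool.Agent.V11229.Uc
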