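import Pool.Agent.V11229.UcIv

/-!
# Runs of lines
-/

namespace Pool.Agent.V11229.Uc

/-- runs through a list of events -/
def Run (n η : ℕ) : List (List ℕ) → (ℕ → ℕ) → (ℕ → ℕ) → Prop
  | [], c, c' => c' = c
  | S :: L, c, c' => ∃ c1, (Valid n η c1 ∧ ∀ l, l ∉ S → c1 l = c l) ∧ Run n η L c1 c'

variable {n η : ℕ}

theorem run_of_seq (Ev : List (List ℕ)) (cs : ℕ → ℕ → ℕ)
    (hv : ∀ s ≤ Ev.length, Valid n η (cs s))
    (hst : ∀ s < Ev.length, ∀ l, l ∉ Ev.getD s [] → cs (s + 1) l = cs s l) :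
    Run n η Ev (cs 0) (cs Ev.length) := by
  induction Ev generalizing cs with
  | nil => exact rfl
  | cons S L ih =>
    refine ⟨cs 1, ⟨hv 1 (by simp), fun l hl => hst 0 (by simp) l (by simpa using hl)⟩, ?_⟩
    exact ih (fun s => cs (s + 1)) (fun s hs => hv (s + 1) (by simpa using hs))
      (fun s hs l hl => hst (s + 1) (by simpa using hs) l (by simpa using hl))

theorem seq_of_run (Ev : List (List ℕ)) {c c' : ℕ → ℕ} (hc : Valid n η c)
    (h : Run n η Ev c c') :
    ∃ cs : ℕ → ℕ → ℕ, cs 0 = c ∧ cs Ev.length = c' ∧ (∀ s ≤ Ev.length, Valid n η (cs s)) ∧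
      ∀ s < Ev.length, ∀ l, l ∉ Ev.getD s [] → cs (s + 1) l = cs s l := by
  induction Ev generalizing c with
  | nil =>
    refine ⟨fun _ => c, rfl, h.symm, fun _ _ => hc, fun s hs => by simp at hs⟩
  | cons S L ih =>
    obtain ⟨c1, ⟨h1, h2⟩, h3⟩ := h
    obtain ⟨cs, h4, h5, h6, h7⟩ := ih h1 h3
    refine ⟨fun s => match s with | 0 => c | s + 1 => cs s, rfl, h5, ?_, ?_⟩
    · rintro (_ | s) hs
      · exact hc
      · exact h6 s (by simpa using hs)
    · rintro (_ | s) hs l hl
      · change cs 0 l = c l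
        rw [h4]
        exact h2 l (by simpa using hl)
      · exact h7 s (by simpa using hs) l (by simpa using hl)

theorem run_append {L L' : List (List ℕ)} {c c' : ℕ → ℕ} :
    Run n η (L ++ L') c c' ↔ ∃ c1, Run n η L c c1 ∧ Run n η L' c1 c' := by
  induction L generalizing c with
  | nil => exact ⟨fun h => ⟨c, rfl, h⟩, fun ⟨c1, h1, h2⟩ => by rw [show c1 = c from h1] at h2; exact h2⟩
  | cons S L ih =>
    constructor
    · rintro ⟨c1, h1, h2⟩
      obtain ⟨c2, h3, h4⟩ := ih.1 h2
      exact ⟨c2, ⟨c1, h1, h3⟩, h4⟩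
    · rintro ⟨c2, ⟨c1, h1, h3⟩, h4⟩
      exact ⟨c1, h1, ih.2 ⟨c2, h3, h4⟩⟩

theorem run_valid {L : List (List ℕ)} {c c' : ℕ → ℕ} (hc : Valid n η c) (h : Run n η L c c') :
    Valid n η c' := by
  induction L generalizing c with
  | nil => rw [show c' = c from h]; exact hc
  | cons S L ih =>
    obtain ⟨c1, h1, h2⟩ := h
    exact ih h1.1 h2

theorem run_same {L : List (List ℕ)} {c c' : ℕ → ℕ} (h : Run n η L c c') {l : ℕ}
    (hl : ∀ S ∈ L, l ∉ S) : c' l = c l := by
  induction L generalizing c with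
  | nil => rw [show c' = c from h]
  | cons S L ih =>
    obtain ⟨c1, h1, h2⟩ := h
    rw [ih h2 (fun S' hS' => hl S' (List.mem_cons_of_mem _ hS'))]
    exact h1.2 l (hl S (by simp))

theorem valid_surj {c : ℕ → ℕ} (hη : η ≤ n) (hc : Valid n η c) {j : ℕ} (hj : j ≤ n)
    (hjη : j ≠ η) : ∃ a < n, c a = j := by
  obtain ⟨a, ha, hja⟩ := exists_eq n (fun b => if b < n then c b else η) (by
    intro a ha b hb hab
    split_ifs at hab with h1 h2 h2
    · exact hc.1 a h1 b h2 hab
    · exact absurd hab (hc.2 a h1).2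
    · exact absurd hab.symm (hc.2 b h2).2
    · omega) (by
    intro a ha
    split_ifs with h1
    · exact (hc.2 a h1).1
    · exact hη) hj
  split_ifs at hja with h1
  · exact ⟨a, h1, hja⟩
  · exact absurd hja.symm hjη

/-- the colors on an event are preserved -/
theorem step_set {S : List ℕ} {c c' : ℕ → ℕ} (hη : η ≤ n) (hc : Valid n η c) (hc' : Valid n η c')
    (h : ∀ l, l ∉ S → c' l = c l) {a : ℕ} (ha : a ∈ S) (han : a < n) :
    (∃ b ∈ S, c' b = c a) ∧ ∃ b ∈ S, c b = c' a := by
  constructor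
  · obtain ⟨b, hb, hbe⟩ := valid_surj hη hc' (hc.2 a han).1 (hc.2 a han).2
    by_cases hbS : b ∈ S
    · exact ⟨b, hbS, hbe⟩
    · rw [h b hbS] at hbe
      rw [hc.1 b hb a han hbe] at hbS
      exact absurd ha hbS
  · obtain ⟨b, hb, hbe⟩ := valid_surj hη hc (hc'.2 a han).1 (hc'.2 a han).2
    by_cases hbS : b ∈ S
    · exact ⟨b, hbS, hbe⟩
    · rw [← h b hbS] at hbe
      rw [hc'.1 b hb a han hbe] at hbS
      exact absurd ha hbS

/-- the colors on an event of a list of disjoint events are preserved -/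
theorem run_set {L : List (List ℕ)} {c c' : ℕ → ℕ} (hη : η ≤ n) (hc : Valid n η c)
    (h : Run n η L c c') (hd : L.Pairwise List.Disjoint) {S : List ℕ} (hS : S ∈ L) {a : ℕ}
    (ha : a ∈ S) (han : a < n) : (∃ b ∈ S, c' b = c a) ∧ ∃ b ∈ S, c b = c' a := by
  induction L generalizing c with
  | nil => simp at hS
  | cons S0 L ih =>
    obtain ⟨c1, h1, h2⟩ := h
    rw [List.pairwise_cons] at hd
    rw [List.mem_cons] at hS
    rcases hS with rfl | hS
    · have h3 : ∀ b ∈ S, c' b = c1 b := fun b hb => run_same h2 (fun S' hS' hbS' =>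
        hd.1 S' hS' hb hbS')
      obtain ⟨⟨b, hb, hbe⟩, ⟨b', hb', hbe'⟩⟩ := step_set hη hc h1.1 h1.2 ha han
      exact ⟨⟨b, hb, by rw [h3 b hb, hbe]⟩, ⟨b', hb', by rw [hbe', h3 a ha]⟩⟩
    · have h3 : ∀ b ∈ S, c1 b = c b := fun b hb => h1.2 b (fun hb0 => hd.1 S hS hb0 hb)
      obtain ⟨⟨b, hb, hbe⟩, ⟨b', hb', hbe'⟩⟩ := ih h1.1 h2 hd.2 hS
      exact ⟨⟨b, hb, by rw [hbe, h3 a ha]⟩, ⟨b', hb', by rw [← h3 b' hb', hbe']⟩⟩

theorem valid_comp {c : ℕ → ℕ} (hc : Valid n η c) {π : ℕ → ℕ} (h1 : ∀ a, π (π a) = a)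
    (h2 : ∀ a < n, π a < n) : Valid n η (fun l => c (π l)) := by
  refine ⟨fun a ha b hb hab => ?_, fun a ha => hc.2 _ (h2 a ha)⟩
  have := hc.1 _ (h2 a ha) _ (h2 b hb) hab
  rw [← h1 a, this, h1]

/-- applying an involution along disjoint events -/
theorem run_invol {L : List (List ℕ)} (hd : L.Pairwise List.Disjoint) {c : ℕ → ℕ}
    (hc : Valid n η c) {π : ℕ → ℕ} (h1 : ∀ a, π (π a) = a) (h2 : ∀ a < n, π a < n)
    (h3 : ∀ a, π a ≠ a → ∃ S ∈ L, a ∈ S) (h4 : ∀ S ∈ L, ∀ a ∈ S, π a ∈ S) :
    Run n η L c (fun l => c (π l)) := by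
  classical
  induction L generalizing c π with
  | nil =>
    change (fun l => c (π l)) = c
    funext l
    by_cases h : π l = l
    · rw [h]
    · obtain ⟨S, hS, _⟩ := h3 l h
      simp at hS
  | cons S L ih =>
    rw [List.pairwise_cons] at hd
    let π1 : ℕ → ℕ := fun l => if l ∈ S then π l else l
    let π2 : ℕ → ℕ := fun l => if l ∈ S then l else π l
    have hS : ∀ a, a ∈ S ↔ π a ∈ S := by
      intro a
      constructor
      · exact h4 S (by simp) a
      · intro h
        have := h4 S (by simp) _ h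
        rwa [h1] at this
    have e1 : ∀ a, π1 (π1 a) = a := by
      intro a
      simp only [π1]
      by_cases ha : a ∈ S
      · rw [if_pos ha, if_pos ((hS a).1 ha), h1]
      · rw [if_neg ha, if_neg ha]
    have e2 : ∀ a, π2 (π2 a) = a := by
      intro a
      simp only [π2]
      by_cases ha : a ∈ S
      · rw [if_pos ha, if_pos ha]
      · rw [if_neg ha, if_neg (fun h => ha ((hS a).2 h)), h1]
    have v1 : Valid n η (fun l => c (π1 l)) := by
      refine valid_comp hc e1 ?_
      intro a ha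
      simp only [π1]
      split_ifs
      · exact h2 a ha
      · exact ha
    refine ⟨fun l => c (π1 l), ⟨v1, fun l hl => ?_⟩, ?_⟩
    · simp only [π1]
      rw [if_neg hl]
    · have h5 := ih hd.2 v1 (π := π2) e2 ?_ ?_ ?_
      · have h6 : (fun l => c (π1 (π2 l))) = fun l => c (π l) := by
          funext l
          congr 1
          simp only [π1, π2]
          by_cases hl : l ∈ S
          · rw [if_pos hl, if_pos hl]
          · rw [if_neg hl, if_neg (fun h => hl ((hS l).2 h))]
        rw [← h6]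
        exact h5
      · intro a ha
        simp only [π2]
        split_ifs
        · exact ha
        · exact h2 a ha
      · intro a ha
        simp only [π2] at ha
        split_ifs at ha with h7
        · exact absurd rfl ha
        · obtain ⟨S', hS', haS⟩ := h3 a ha
          rw [List.mem_cons] at hS'
          rcases hS' with rfl | hS'
          · exact absurd haS h7
          · exact ⟨S', hS', haS⟩
      · intro S' hS' a ha
        simp only [π2]
        split_ifs
        · exact ha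
        · exact h4 S' (List.mem_cons_of_mem _ hS') a ha

/-- a swap -/
def sw (a b l : ℕ) : ℕ := if l = a then b else if l = b then a else l

theorem sw_sw (a b l : ℕ) : sw a b (sw a b l) = l := by
  unfold sw
  split_ifs <;> omega

theorem run_id {L : List (List ℕ)} {c : ℕ → ℕ} (hc : Valid n η c) : Run n η L c c := by
  induction L with
  | nil => exact rfl
  | cons S L ih => exact ⟨c, ⟨hc, fun _ _ => rfl⟩, ih⟩

theorem run_sw {c : ℕ → ℕ} (hc : Valid n η c) {a b : ℕ} (ha : a < n) (hb : b < n) :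
    Run n η [[a, b]] c (fun l => c (sw a b l)) := by
  refine run_invol (by simp) hc (sw_sw a b) ?_ ?_ ?_
  · intro l hl
    unfold sw
    split_ifs <;> omega
  · intro l hl
    refine ⟨[a, b], by simp, ?_⟩
    unfold sw at hl
    split_ifs at hl with h1 h2
    · simp [h1]
    · simp [h2]
    · exact absurd rfl hl
  · intro S hS l hl
    rw [List.mem_singleton] at hS
    subst hS
    unfold sw
    split_ifs with h1 h2
    · simp
    · simp
    · exact hl

end Pool.Agent.V11229.Uc
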