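import Pool.Agent.V11229.UcRun
import Pool.Agent.NPC.Sat2

/-!
# Runs of lines and satisfiability: soundness
-/

namespace Pool.Agent.V11229.Uc

open Pool.Agent.NPC

/-- the literals of a formula -/
def lits (φ : List (Lit ℕ × Lit ℕ × Lit ℕ)) : List (Lit ℕ) := φ.flatMap (fun c => [c.1, c.2.1, c.2.2])

/-- the line of the literal -/
def side (l : Lit ℕ) : ℕ := if l.1 = true then 0 else 1

/-- the events of the occurrences of the variable `v` -/
def occ (v : ℕ) (Ls : List (Lit ℕ × ℕ)) : List (List ℕ) :=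
  Ls.flatMap (fun p => if p.1.2 = v then [[side p.1, 2 * p.2 + 2], [side p.1, 2 * p.2 + 3]] else [])

/-- the events of the variables -/
def blocks (Vs : List ℕ) (Ls : List (Lit ℕ × ℕ)) : List (List ℕ) :=
  Vs.flatMap (fun v => [0, 1] :: occ v Ls)

/-- the events of the clauses -/
def cls (m : ℕ) : List (List ℕ) := (List.range m).map (fun j => [6 * j + 3, 6 * j + 5, 6 * j + 7])

/-- the extra lines -/
def Es (m : ℕ) : List ℕ := (List.range (18 * m + 14)).map (fun i => 6 * m + 2 + i)

/-- the lines of the occurrences -/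
def Fs (m : ℕ) : List ℕ := (List.range (3 * m)).map (fun t => 2 * t + 2)

/-- all events -/
def evs (φ : List (Lit ℕ × Lit ℕ × Lit ℕ)) : List (List ℕ) :=
  [Es φ.length] ++ ([Fs φ.length] ++ (blocks (List.range (3 * φ.length)) (lits φ).zipIdx ++
    ([[0, 1]] ++ (cls φ.length ++ [Es φ.length]))))

/-- the number of lines -/
def nn (m : ℕ) : ℕ := 24 * m + 16

/-- the lines of the middle class on the left -/
def midL (m : ℕ) : List ℕ := (List.range m).map (fun j => 6 * j + 2)

/-- the lines of the middle class on the right -/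
def midR (m : ℕ) : List ℕ := (List.range m).map (fun j => 6 * j + 3)

variable {n η : ℕ}

theorem side_le (l : Lit ℕ) : side l ≤ 1 := by
  unfold side
  split_ifs <;> omega

theorem occ_cons (v : ℕ) (p : Lit ℕ × ℕ) (Ls : List (Lit ℕ × ℕ)) : occ v (p :: Ls) =
    (if p.1.2 = v then [[side p.1, 2 * p.2 + 2], [side p.1, 2 * p.2 + 3]] else []) ++ occ v Ls := by
  unfold occ
  rw [List.flatMap_cons]

theorem mem_occ {v l : ℕ} {Ls : List (Lit ℕ × ℕ)} {S : List ℕ} (hS : S ∈ occ v Ls) (hl : l ∈ S) :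
    l ≤ 1 ∨ ∃ p ∈ Ls, p.1.2 = v ∧ (l = 2 * p.2 + 2 ∨ l = 2 * p.2 + 3) := by
  unfold occ at hS
  rw [List.mem_flatMap] at hS
  obtain ⟨p, hp, hS⟩ := hS
  split_ifs at hS with h1
  · simp only [List.mem_cons, List.not_mem_nil, or_false] at hS
    have := side_le p.1
    rcases hS with rfl | rfl
    · simp only [List.mem_cons, List.not_mem_nil, or_false] at hl
      rcases hl with rfl | rfl
      · exact Or.inl this
      · exact Or.inr ⟨p, hp, h1, Or.inl rfl⟩
    · simp only [List.mem_cons, List.not_mem_nil, or_false] at hl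
      rcases hl with rfl | rfl
      · exact Or.inl this
      · exact Or.inr ⟨p, hp, h1, Or.inr rfl⟩
  · simp at hS

theorem occ_sound {v m lam : ℕ} (hη : η ≤ n) (Ls : List (Lit ℕ × ℕ)) (hnd : (Ls.map Prod.snd).Nodup)
    (hn : ∀ p ∈ Ls, 2 * p.2 + 3 < n) (hn1 : 1 < n) {s : ℕ} (hs : s ≤ 1) {c c' : ℕ → ℕ}
    (hc : Valid n η c) (h : Run n η (occ v Ls) c c') (hsl : c s = lam)
    (hF : ∀ p ∈ Ls, p.1.2 = v → c' (2 * p.2 + 2) ≠ lam)
    (hG : ∀ p ∈ Ls, p.1.2 = v → c' (2 * p.2 + 3) ≠ lam)
    (hG0 : ∀ p ∈ Ls, p.1.2 = v → m + 2 ≤ c (2 * p.2 + 3)) :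
    c' s = lam ∧ ∀ p ∈ Ls, p.1.2 = v → c' (2 * p.2 + 3) ≤ m + 1 → side p.1 ≠ s := by
  induction Ls generalizing c with
  | nil =>
    rw [show c' = c from h]
    exact ⟨hsl, fun p hp => by simp at hp⟩
  | cons p Ls ih =>
    rw [occ_cons, run_append] at h
    obtain ⟨c2, h1, h2⟩ := h
    rw [List.map_cons, List.nodup_cons] at hnd
    have hpn : ∀ q ∈ Ls, q.2 ≠ p.2 := fun q hq he => hnd.1 (he ▸ List.mem_map_of_mem hq)
    have hnL : ∀ q ∈ Ls, 2 * q.2 + 3 < n := fun q hq => hn q (List.mem_cons_of_mem _ hq)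
    by_cases hpv : p.1.2 = v
    · rw [if_pos hpv] at h1
      obtain ⟨c1, ⟨hc1, ho1⟩, c2', ⟨hc2, ho2⟩, h3⟩ := h1
      have h3 : c2 = c2' := h3
      subst h3
      have hpn' := hn p (by simp)
      have hsd := side_le p.1
      have hk2 : ∀ i, 2 ≤ i → i ≤ 3 → c' (2 * p.2 + i) = c2 (2 * p.2 + i) := by
        intro i hi1 hi2
        refine run_same h2 (fun S hS hl => ?_)
        rcases mem_occ hS hl with h4 | ⟨q, hq, _, h4⟩
        · omega
        · have := hpn q hq
          omega
      have e1 : c1 (2 * p.2 + 2) = c' (2 * p.2 + 2) := by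
        rw [hk2 2 (le_refl _) (by omega), ho2 _ (by simp; omega)]
      have f1 : c1 s = lam := by
        by_cases hss : side p.1 = s
        · obtain ⟨b, hb, hbe⟩ := (step_set hη hc hc1 ho1 (a := s) (by simp [hss]) (by omega)).1
          simp only [List.mem_cons, List.not_mem_nil, or_false] at hb
          rcases hb with rfl | rfl
          · rw [← hss, hbe]
            exact hsl
          · exact absurd (by rw [← e1, hbe, hsl]) (hF p (by simp) hpv)
        · rw [ho1 s (by simp; omega)]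
          exact hsl
      have e2 : c2 (2 * p.2 + 3) = c' (2 * p.2 + 3) := (hk2 3 (by omega) (le_refl _)).symm
      have e3 : c1 (2 * p.2 + 3) = c (2 * p.2 + 3) := ho1 _ (by simp; omega)
      have f2 : c2 s = lam := by
        by_cases hss : side p.1 = s
        · obtain ⟨b, hb, hbe⟩ := (step_set hη hc1 hc2 ho2 (a := s) (by simp [hss]) (by omega)).1
          simp only [List.mem_cons, List.not_mem_nil, or_false] at hb
          rcases hb with rfl | rfl
          · rw [← hss, hbe]
            exact f1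
          · exact absurd (by rw [← e2, hbe, f1]) (hG p (by simp) hpv)
        · rw [ho2 s (by simp; omega)]
          exact f1
      obtain ⟨g1, g2⟩ := ih hnd.2 hnL hc2 h2 f2
        (fun q hq => hF q (List.mem_cons_of_mem _ hq)) (fun q hq => hG q (List.mem_cons_of_mem _ hq))
        (fun q hq hqv => by
          have h5 := hpn q hq
          rw [ho2 _ (by simp; omega), ho1 _ (by simp; omega)]
          exact hG0 q (List.mem_cons_of_mem _ hq) hqv)
      refine ⟨g1, fun q hq hqv hle => ?_⟩
      rw [List.mem_cons] at hq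
      rcases hq with rfl | hq
      · obtain ⟨b, hb, hbe⟩ := (step_set hη hc1 hc2 ho2 (a := 2 * q.2 + 3) (by simp)
          (by omega)).2
        simp only [List.mem_cons, List.not_mem_nil, or_false] at hb
        have h6 := hG0 q (by simp) hqv
        rcases hb with rfl | rfl
        · intro he
          rw [he, f1] at hbe
          exact hG q (by simp) hqv (by rw [← e2, ← hbe])
        · omega
      · exact g2 q hq hqv hle
    · rw [if_neg hpv] at h1
      have h1 : c2 = c := h1
      subst h1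
      obtain ⟨g1, g2⟩ := ih hnd.2 hnL hc h2 hsl
        (fun q hq => hF q (List.mem_cons_of_mem _ hq)) (fun q hq => hG q (List.mem_cons_of_mem _ hq))
        (fun q hq => hG0 q (List.mem_cons_of_mem _ hq))
      refine ⟨g1, fun q hq hqv hle => ?_⟩
      rw [List.mem_cons] at hq
      rcases hq with rfl | hq
      · exact absurd hqv hpv
      · exact g2 q hq hqv hle

theorem mem_blocks {Vs : List ℕ} {Ls : List (Lit ℕ × ℕ)} {S : List ℕ} (hS : S ∈ blocks Vs Ls)
    {l : ℕ} (hl : l ∈ S) :
    l ≤ 1 ∨ ∃ p ∈ Ls, p.1.2 ∈ Vs ∧ (l = 2 * p.2 + 2 ∨ l = 2 * p.2 + 3) := by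
  unfold blocks at hS
  rw [List.mem_flatMap] at hS
  obtain ⟨v, hv, hS⟩ := hS
  rw [List.mem_cons] at hS
  rcases hS with rfl | hS
  · left
    simp only [List.mem_cons, List.not_mem_nil, or_false] at hl
    omega
  · rcases mem_occ hS hl with h | ⟨p, hp, hpv, h⟩
    · exact Or.inl h
    · exact Or.inr ⟨p, hp, by rw [hpv]; exact hv, h⟩

theorem blocks_sound {m lam : ℕ} (hη : η ≤ n) (Ls : List (Lit ℕ × ℕ))
    (hnd : (Ls.map Prod.snd).Nodup) (hn : ∀ p ∈ Ls, 2 * p.2 + 3 < n) (hn1 : 1 < n)
    (Vs : List ℕ) (hVs : Vs.Nodup) {c c' : ℕ → ℕ}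
    (hc : Valid n η c) (h : Run n η (blocks Vs Ls) c c') (hsl : c 0 = lam ∨ c 1 = lam)
    (hF : ∀ p ∈ Ls, c' (2 * p.2 + 2) ≠ lam)
    (hG : ∀ p ∈ Ls, c' (2 * p.2 + 3) ≠ lam)
    (hG0 : ∀ p ∈ Ls, p.1.2 ∈ Vs → m + 2 ≤ c (2 * p.2 + 3)) :
    ∃ val : ℕ → Bool, ∀ p ∈ Ls, p.1.2 ∈ Vs → c' (2 * p.2 + 3) ≤ m + 1 → val p.1.2 = p.1.1 := by
  induction Vs generalizing c with
  | nil => exact ⟨fun _ => true, fun p _ hp => by simp at hp⟩
  | cons v Vs ih =>
    have hb : blocks (v :: Vs) Ls = ([0, 1] :: occ v Ls) ++ blocks Vs Ls := by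
      unfold blocks
      rw [List.flatMap_cons]
    rw [hb, run_append] at h
    obtain ⟨c2, ⟨c1, ⟨hc1, ho1⟩, h1⟩, h2⟩ := h
    rw [List.nodup_cons] at hVs
    have hc2 : Valid n η c2 := run_valid hc1 h1
    -- the line with the color `lam`
    obtain ⟨s, hs, hcs⟩ : ∃ s ≤ 1, c1 s = lam := by
      rcases hsl with h3 | h3
      · obtain ⟨b, hb, hbe⟩ := (step_set hη hc hc1 ho1 (a := 0) (by simp) (by omega)).1
        simp only [List.mem_cons, List.not_mem_nil, or_false] at hb
        exact ⟨b, by omega, by rw [hbe, h3]⟩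
      · obtain ⟨b, hb, hbe⟩ := (step_set hη hc hc1 ho1 (a := 1) (by simp) (by omega)).1
        simp only [List.mem_cons, List.not_mem_nil, or_false] at hb
        exact ⟨b, by omega, by rw [hbe, h3]⟩
    have hk : ∀ p ∈ Ls, p.1.2 = v → ∀ i, 2 ≤ i → i ≤ 3 → c' (2 * p.2 + i) = c2 (2 * p.2 + i) := by
      intro p hp hpv i hi1 hi2
      refine run_same h2 (fun S hS hl => ?_)
      rcases mem_blocks hS hl with h4 | ⟨q, hq, hqV, h4⟩
      · omega
      · have h5 : q = p := by
          have : q.2 = p.2 := by omega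
          exact List.inj_on_of_nodup_map hnd hq hp this
        rw [h5, hpv] at hqV
        exact hVs.1 hqV
    have hk0 : ∀ p ∈ Ls, p.1.2 ≠ v → c2 (2 * p.2 + 3) = c (2 * p.2 + 3) := by
      intro p hp hpv
      rw [run_same h1, ho1 _ (by simp)]
      intro S hS hl
      rcases mem_occ hS hl with h4 | ⟨q, hq, hqV, h4⟩
      · omega
      · have h5 : q = p := by
          have : q.2 = p.2 := by omega
          exact List.inj_on_of_nodup_map hnd hq hp this
        rw [h5] at hqV
        exact hpv hqV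
    obtain ⟨g1, g2⟩ := occ_sound hη Ls hnd hn hn1 hs hc1 h1 hcs
      (fun p hp hpv => by rw [← hk p hp hpv 2 (le_refl _) (by omega)]; exact hF p hp)
      (fun p hp hpv => by rw [← hk p hp hpv 3 (by omega) (le_refl _)]; exact hG p hp)
      (fun p hp hpv => by
        rw [ho1 _ (by simp)]
        exact hG0 p hp (by rw [hpv]; simp))
    obtain ⟨val, hval⟩ := ih hVs.2 hc2 h2 (by
        have : s = 0 ∨ s = 1 := by omega
        rcases this with rfl | rfl
        · exact Or.inl g1
        · exact Or.inr g1)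
      (fun p hp hpV => by
        have hpv : p.1.2 ≠ v := fun he => hVs.1 (he ▸ hpV)
        rw [hk0 p hp hpv]
        exact hG0 p hp (List.mem_cons_of_mem _ hpV))
    refine ⟨Function.update val v (decide (s = 1)), fun p hp hpV hle => ?_⟩
    by_cases hpv : p.1.2 = v
    · rw [hpv, Function.update_self]
      have h6 := g2 p hp hpv (by rw [← hk p hp hpv 3 (by omega) (le_refl _)]; exact hle)
      unfold side at h6
      split_ifs at h6 with h7
      · rw [h7]
        simp
        omega
      · have h8 : s ≠ 1 := fun h => h6 h.symm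
        simp only [h8, decide_false]
        simpa using h7
    · rw [Function.update_of_ne hpv]
      rw [List.mem_cons] at hpV
      rcases hpV with hpV | hpV
      · exact absurd hpV hpv
      · exact hval p hp hpV hle

theorem lits_getElem {φ : List (Lit ℕ × Lit ℕ × Lit ℕ)} {j : ℕ} {c : Lit ℕ × Lit ℕ × Lit ℕ}
    (h : φ[j]? = some c) : (lits φ)[3 * j]? = some c.1 ∧ (lits φ)[3 * j + 1]? = some c.2.1 ∧
      (lits φ)[3 * j + 2]? = some c.2.2 := by
  induction φ generalizing j with
  | nil => simp at h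
  | cons d φ ih =>
    have hl : lits (d :: φ) = d.1 :: d.2.1 :: d.2.2 :: lits φ := by
      unfold lits
      rw [List.flatMap_cons]
      rfl
    rw [hl]
    rcases j with _ | j
    · simp only [List.getElem?_cons_zero, Option.some.injEq] at h
      subst h
      simp
    · rw [List.getElem?_cons_succ] at h
      obtain ⟨h1, h2, h3⟩ := ih h
      refine ⟨?_, ?_, ?_⟩
      · rw [show 3 * (j + 1) = 3 * j + 1 + 1 + 1 by ring, List.getElem?_cons_succ,
          List.getElem?_cons_succ, List.getElem?_cons_succ]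
        exact h1
      · rw [show 3 * (j + 1) + 1 = 3 * j + 1 + 1 + 1 + 1 by ring, List.getElem?_cons_succ,
          List.getElem?_cons_succ, List.getElem?_cons_succ]
        exact h2
      · rw [show 3 * (j + 1) + 2 = 3 * j + 2 + 1 + 1 + 1 by ring, List.getElem?_cons_succ,
          List.getElem?_cons_succ, List.getElem?_cons_succ]
        exact h3

theorem lits_length (φ : List (Lit ℕ × Lit ℕ × Lit ℕ)) : (lits φ).length = 3 * φ.length := by
  unfold lits
  induction φ with
  | nil => rfl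
  | cons d φ ih =>
    rw [List.flatMap_cons, List.length_append, ih]
    simp
    omega

theorem mem_lits_var {φ : List (Lit ℕ × Lit ℕ × Lit ℕ)} (hb : Bounded3 φ) {l : Lit ℕ}
    (h : l ∈ lits φ) : l.2 < 3 * φ.length := by
  unfold lits at h
  rw [List.mem_flatMap] at h
  obtain ⟨c, hc, hl⟩ := h
  obtain ⟨h1, h2, h3⟩ := hb c hc
  simp only [List.mem_cons, List.not_mem_nil, or_false] at hl
  rcases hl with rfl | rfl | rfl <;> assumption

theorem zip_snd_nodup (φ : List (Lit ℕ × Lit ℕ × Lit ℕ)) :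
    ((lits φ).zipIdx.map Prod.snd).Nodup := by
  rw [List.zipIdx_map_snd]
  exact List.nodup_range'

theorem mem_zip {φ : List (Lit ℕ × Lit ℕ × Lit ℕ)} {p : Lit ℕ × ℕ} (h : p ∈ (lits φ).zipIdx) :
    p.2 < 3 * φ.length ∧ p.1 ∈ lits φ := by
  rw [List.mem_zipIdx_iff_getElem?] at h
  have h1 := List.mem_of_getElem? h
  refine ⟨?_, h1⟩
  rw [← lits_length]
  by_contra hcon
  rw [List.getElem?_eq_none (by omega)] at h
  simp at h

theorem cls_disj (m : ℕ) : (cls m).Pairwise List.Disjoint := by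
  unfold cls
  rw [List.pairwise_map]
  refine List.Pairwise.imp ?_ List.pairwise_lt_range
  intro a b hab l h1 h2
  simp only [List.mem_cons, List.not_mem_nil, or_false] at h1 h2
  omega

/-- Soundness. -/
theorem sat_sound {φ : List (Lit ℕ × Lit ℕ × Lit ℕ)} (hb' : Bounded3 φ) (hη : η ≤ 1)
    {c0 cR : ℕ → ℕ} (hc : Valid (nn φ.length) η c0) (h : Run (nn φ.length) η (evs φ) c0 cR)
    (l1 : c0 0 ≤ 1)
    (l3 : ∀ l < nn φ.length, l ≠ 0 → l ∉ midL φ.length → φ.length + 2 ≤ c0 l)
    (r2 : ∀ l < nn φ.length, l ≠ 0 → 2 ≤ cR l)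
    (r4 : ∀ l ∈ midR φ.length, cR l ≤ φ.length + 1) : SAT3 φ := by
  set m := φ.length with hm
  have hnn : nn m = 24 * m + 16 := rfl
  unfold evs at h
  rw [← hm] at h
  rw [run_append] at h
  obtain ⟨c1, h1, h⟩ := h
  rw [run_append] at h
  obtain ⟨c2, h2, h⟩ := h
  rw [run_append] at h
  obtain ⟨c3, h3, h⟩ := h
  rw [run_append] at h
  obtain ⟨c4, h4, h⟩ := h
  rw [run_append] at h
  obtain ⟨c5, h5, h6⟩ := h
  have v1 := run_valid hc h1
  have v2 := run_valid v1 h2
  have v3 := run_valid v2 h3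
  have v4 := run_valid v3 h4
  have hEs : ∀ l < 6 * m + 2, l ∉ Es m := by
    intro l hl h
    unfold Es at h
    rw [List.mem_map] at h
    obtain ⟨i, _, hi⟩ := h
    omega
  have s1 : ∀ l < 6 * m + 2, c1 l = c0 l := fun l hl => run_same h1 (by simpa using hEs l hl)
  have s6 : ∀ l < 6 * m + 2, cR l = c5 l := fun l hl => run_same h6 (by simpa using hEs l hl)
  have s2 : ∀ l, (l % 2 = 1 ∨ l = 0) → c2 l = c1 l := by
    intro l hl
    refine run_same h2 ?_
    intro S hS
    rw [List.mem_singleton] at hS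
    subst hS
    intro h
    unfold Fs at h
    rw [List.mem_map] at h
    obtain ⟨i, _, hi⟩ := h
    omega
  have s4 : ∀ l, 2 ≤ l → c4 l = c3 l := by
    intro l hl
    refine run_same h4 ?_
    intro S hS
    rw [List.mem_singleton] at hS
    subst hS
    simp
    omega
  have s5 : ∀ l, l % 2 = 0 → c5 l = c4 l := by
    intro l hl
    refine run_same h5 ?_
    intro S hS h
    unfold cls at hS
    rw [List.mem_map] at hS
    obtain ⟨j, _, rfl⟩ := hS
    simp only [List.mem_cons, List.not_mem_nil, or_false] at h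
    omega
  have hcl : ∀ j < m, [6 * j + 3, 6 * j + 5, 6 * j + 7] ∈ cls m := fun j hj =>
    List.mem_map.2 ⟨j, List.mem_range.2 hj, rfl⟩
  have hG3 : ∀ t < 3 * m, 2 ≤ c3 (2 * t + 3) := by
    intro t ht
    rw [← s4 _ (by omega)]
    have hj : t / 3 < m := by omega
    obtain ⟨b, hb, hbe⟩ := (run_set (by omega) v4 h5 (cls_disj m) (hcl _ hj) (a := 2 * t + 3)
      (by simp; omega) (by omega)).1
    simp only [List.mem_cons, List.not_mem_nil, or_false] at hb
    rw [← hbe, ← s6 b (by omega)]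
    exact r2 b (by omega) (by omega)
  obtain ⟨val, hval⟩ := blocks_sound (m := m) (lam := c0 0) (by omega) (lits φ).zipIdx
    (zip_snd_nodup φ) (fun p hp => by
      have := (mem_zip hp).1
      omega) (by omega) (List.range (3 * m)) List.nodup_range v2 h3
    (Or.inl (by rw [s2 0 (Or.inr rfl), s1 0 (by omega)]))
    (fun p hp => by
      have h7 := (mem_zip hp).1
      rw [← s4 _ (by omega), ← s5 _ (by omega), ← s6 _ (by omega)]
      have := r2 (2 * p.2 + 2) (by omega) (by omega)
      omega)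
    (fun p hp => by
      have h7 := (mem_zip hp).1
      have := hG3 p.2 (by omega)
      omega)
    (fun p hp _ => by
      have h7 := (mem_zip hp).1
      rw [s2 _ (Or.inl (by omega)), s1 _ (by omega)]
      refine l3 _ (by omega) (by omega) ?_
      intro h
      unfold midL at h
      rw [List.mem_map] at h
      obtain ⟨j, _, hj⟩ := h
      omega)
  refine ⟨val, ?_⟩
  intro c hcφ
  obtain ⟨j, hj, hjc⟩ := List.getElem_of_mem hcφ
  obtain ⟨e1, e2, e3⟩ := lits_getElem (φ := φ) (j := j) (c := c)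
    (by rw [List.getElem?_eq_getElem hj, hjc])
  obtain ⟨b, hb, hbe⟩ := (run_set (by omega) v4 h5 (cls_disj m) (hcl j hj) (a := 6 * j + 3)
      (by simp) (by omega)).2
  have h8 : c5 (6 * j + 3) ≤ m + 1 := by
    rw [← s6 _ (by omega)]
    exact r4 _ (List.mem_map.2 ⟨j, List.mem_range.2 hj, rfl⟩)
  simp only [List.mem_cons, List.not_mem_nil, or_false] at hb
  have key : ∀ i < 3, ∀ l : Lit ℕ, (lits φ)[3 * j + i]? = some l → b = 2 * (3 * j + i) + 3 →
      val l.2 = l.1 := by
    intro i hi l hl hbi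
    refine hval (l, 3 * j + i) ((List.mem_zipIdx_iff_getElem? ..).2 hl) ?_ ?_
    · rw [List.mem_range]
      exact mem_lits_var hb' (List.mem_of_getElem? hl)
    · change c3 (2 * (3 * j + i) + 3) ≤ m + 1
      rw [← hbi, ← s4 _ (by omega), hbe]
      exact h8
  rcases hb with hb | hb | hb
  · left
    exact key 0 (by omega) c.1 e1 (by omega)
  · right; left
    exact key 1 (by omega) c.2.1 e2 (by omega)
  · right; right
    exact key 2 (by omega) c.2.2 e3 (by omega)

end Pool.Agent.V11229.Uc
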