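import Pool.Agent.V11229.UcSat

/-!
# Runs of lines and satisfiability: completeness
-/

namespace Pool.Agent.V11229.Uc

open Pool.Agent.NPC

/-- the states which occur: `s` is the side of the color `0`, `C` are the chosen occurrences and
`Dn` the occurrences which are done -/
structure Good (m : ℕ) (C Dn : ℕ → Prop) (s : ℕ) (c : ℕ → ℕ) : Prop where
  v : Valid (nn m) 1 c
  z : c s = 0
  o : m + 2 ≤ c (1 - s)
  f : ∀ t < 3 * m, ¬ (C t ∧ ¬ Dn t) → m + 2 ≤ c (2 * t + 2)
  g : ∀ t < 3 * m, ¬ (C t ∧ Dn t) → m + 2 ≤ c (2 * t + 3)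
  e : ∀ l, 6 * m + 2 ≤ l → l < nn m → m + 2 ≤ c l

theorem Good.congr {m : ℕ} {C Dn Dn' : ℕ → Prop} {s : ℕ} {c : ℕ → ℕ} (h : Good m C Dn s c)
    (hd : ∀ t, Dn t ↔ Dn' t) : Good m C Dn' s c := by
  have : Dn = Dn' := funext fun t => propext (hd t)
  rw [← this]
  exact h

theorem sw_left (a b : ℕ) : sw a b a = b := by simp [sw]
theorem sw_right (a b : ℕ) : sw a b b = a := by
  unfold sw
  by_cases h : b = a <;> simp [h]
theorem sw_other {a b l : ℕ} (h1 : l ≠ a) (h2 : l ≠ b) : sw a b l = l := by simp [sw, h1, h2]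

theorem flip {m : ℕ} {C Dn : ℕ → Prop} {s s' : ℕ} {c : ℕ → ℕ} (h : Good m C Dn s c) (hs : s ≤ 1)
    (hs' : s' ≤ 1) : ∃ c', Run (nn m) 1 [[0, 1]] c c' ∧ Good m C Dn s' c' := by
  have hn : nn m = 24 * m + 16 := rfl
  by_cases he : s = s'
  · subst he
    exact ⟨c, run_id h.v, h⟩
  · have hr := run_sw h.v (a := 0) (b := 1) (by omega) (by omega)
    have hv := run_valid h.v hr
    refine ⟨_, hr, ⟨hv, ?_, ?_, ?_, ?_, ?_⟩⟩
    · have h1 := h.z
      have : s = 0 ∧ s' = 1 ∨ s = 1 ∧ s' = 0 := by omega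
      rcases this with ⟨rfl, rfl⟩ | ⟨rfl, rfl⟩
      · simp only [sw_right]
        exact h1
      · simp only [sw_left]
        exact h1
    · have h1 := h.o
      have : s = 0 ∧ s' = 1 ∨ s = 1 ∧ s' = 0 := by omega
      rcases this with ⟨rfl, rfl⟩ | ⟨rfl, rfl⟩
      · simp only [Nat.sub_self, sw_left]
        exact h1
      · simp only [Nat.sub_zero, sw_right]
        exact h1
    · intro t ht hC
      try simp only
      rw [sw_other (by omega) (by omega)]
      exact h.f t ht hC
    · intro t ht hC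
      try simp only
      rw [sw_other (by omega) (by omega)]
      exact h.g t ht hC
    · intro l hl hl'
      try simp only
      rw [sw_other (by omega) (by omega)]
      exact h.e l hl hl'

theorem occ_comp {m v : ℕ} {C Dn : ℕ → Prop} {s : ℕ} (hs : s ≤ 1) (Ls : List (Lit ℕ × ℕ))
    (hnd : (Ls.map Prod.snd).Nodup) {c : ℕ → ℕ} (h : Good m C Dn s c)
    (hL : ∀ p ∈ Ls, p.1.2 = v → p.2 < 3 * m ∧ ¬ Dn p.2 ∧ (C p.2 → side p.1 ≠ s)) :
    ∃ c', Run (nn m) 1 (occ v Ls) c c' ∧
      Good m C (fun t => Dn t ∨ ∃ p ∈ Ls, p.1.2 = v ∧ p.2 = t) s c' := by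
  have hn : nn m = 24 * m + 16 := rfl
  induction Ls generalizing c Dn with
  | nil => exact ⟨c, rfl, h.congr (by simp)⟩
  | cons p Ls ih =>
    rw [List.map_cons, List.nodup_cons] at hnd
    have hpn : ∀ q ∈ Ls, q.2 ≠ p.2 := fun q hq he => hnd.1 (he ▸ List.mem_map_of_mem hq)
    rw [occ_cons]
    by_cases hpv : p.1.2 = v
    · rw [if_pos hpv]
      obtain ⟨hp1, hp2, hp3⟩ := hL p (by simp) hpv
      have hstep : ∃ c2, Run (nn m) 1 [[side p.1, 2 * p.2 + 2], [side p.1, 2 * p.2 + 3]] c c2 ∧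
          Good m C (fun t => Dn t ∨ t = p.2) s c2 := by
        by_cases hC : C p.2
        · have hsd := side_le p.1
          have hso : side p.1 = 1 - s := by
            have := hp3 hC
            omega
          rw [hso]
          have r1 := run_sw h.v (a := 1 - s) (b := 2 * p.2 + 2) (by omega) (by omega)
          have v1 := run_valid h.v r1
          have r2 := run_sw v1 (a := 1 - s) (b := 2 * p.2 + 3) (by omega) (by omega)
          have v2 := run_valid v1 r2
          refine ⟨_, run_append.2 ⟨_, r1, r2⟩, ⟨v2, ?_, ?_, ?_, ?_, ?_⟩⟩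
          · try simp only
            rw [sw_other (l := s) (by omega) (by omega), sw_other (l := s) (by omega) (by omega)]
            exact h.z
          · try simp only
            rw [sw_left, sw_other (by omega) (by omega)]
            exact h.g p.2 hp1 (fun hh => hp2 hh.2)
          · intro t ht hCt
            try simp only
            by_cases htp : t = p.2
            · rw [htp, sw_other (l := 2 * p.2 + 2) (by omega) (by omega), sw_right]
              exact h.o
            · rw [sw_other (l := 2 * t + 2) (by omega) (by omega),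
                sw_other (l := 2 * t + 2) (by omega) (by omega)]
              exact h.f t ht (fun hh => hCt ⟨hh.1, fun h3 => h3.elim hh.2 htp⟩)
          · intro t ht hCt
            try simp only
            by_cases htp : t = p.2
            · exact absurd ⟨htp ▸ hC, Or.inr htp⟩ hCt
            · rw [sw_other (l := 2 * t + 3) (by omega) (by omega),
                sw_other (l := 2 * t + 3) (by omega) (by omega)]
              exact h.g t ht (fun hh => hCt ⟨hh.1, Or.inl hh.2⟩)
          · intro l hl hl'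
            try simp only
            rw [sw_other (l := l) (by omega) (by omega), sw_other (l := l) (by omega) (by omega)]
            exact h.e l hl hl'
        · refine ⟨c, run_id h.v, ⟨h.v, h.z, h.o, ?_, ?_, h.e⟩⟩
          · intro t ht hCt
            refine h.f t ht (fun hh => hCt ⟨hh.1, fun h3 => ?_⟩)
            rcases h3 with h3 | h3
            · exact hh.2 h3
            · exact hC (h3 ▸ hh.1)
          · intro t ht hCt
            exact h.g t ht (fun hh => hCt ⟨hh.1, Or.inl hh.2⟩)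
      obtain ⟨c2, hr, hg⟩ := hstep
      obtain ⟨c', hr', hg'⟩ := ih hnd.2 hg (fun q hq hqv => by
        obtain ⟨q1, q2, q3⟩ := hL q (List.mem_cons_of_mem _ hq) hqv
        exact ⟨q1, fun h3 => h3.elim q2 (hpn q hq), q3⟩)
      refine ⟨c', run_append.2 ⟨c2, hr, hr'⟩, hg'.congr (fun t => ?_)⟩
      constructor
      · rintro ((h1 | h1) | ⟨q, hq, h1, h2⟩)
        · exact Or.inl h1
        · exact Or.inr ⟨p, by simp, hpv, h1.symm⟩
        · exact Or.inr ⟨q, List.mem_cons_of_mem _ hq, h1, h2⟩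
      · rintro (h1 | ⟨q, hq, h1, h2⟩)
        · exact Or.inl (Or.inl h1)
        · rw [List.mem_cons] at hq
          rcases hq with rfl | hq
          · exact Or.inl (Or.inr h2.symm)
          · exact Or.inr ⟨q, hq, h1, h2⟩
    · rw [if_neg hpv, List.nil_append]
      obtain ⟨c', hr', hg'⟩ := ih hnd.2 h (fun q hq hqv => hL q (List.mem_cons_of_mem _ hq) hqv)
      refine ⟨c', hr', hg'.congr (fun t => ?_)⟩
      constructor
      · rintro (h1 | ⟨q, hq, h1, h2⟩)
        · exact Or.inl h1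
        · exact Or.inr ⟨q, List.mem_cons_of_mem _ hq, h1, h2⟩
      · rintro (h1 | ⟨q, hq, h1, h2⟩)
        · exact Or.inl h1
        · rw [List.mem_cons] at hq
          rcases hq with rfl | hq
          · exact absurd h1 hpv
          · exact Or.inr ⟨q, hq, h1, h2⟩

theorem blocks_comp {m : ℕ} {C Dn : ℕ → Prop} {s : ℕ} (hs : s ≤ 1) (Ls : List (Lit ℕ × ℕ))
    (hnd : (Ls.map Prod.snd).Nodup) (hL3 : ∀ p ∈ Ls, p.2 < 3 * m) (sv : ℕ → ℕ)
    (hsv : ∀ v, sv v ≤ 1) (hC : ∀ p ∈ Ls, C p.2 → side p.1 ≠ sv p.1.2) (Vs : List ℕ)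
    (hVs : Vs.Nodup) {c : ℕ → ℕ} (h : Good m C Dn s c)
    (hD : ∀ p ∈ Ls, p.1.2 ∈ Vs → ¬ Dn p.2) :
    ∃ c' s', s' ≤ 1 ∧ Run (nn m) 1 (blocks Vs Ls) c c' ∧
      Good m C (fun t => Dn t ∨ ∃ p ∈ Ls, p.1.2 ∈ Vs ∧ p.2 = t) s' c' := by
  induction Vs generalizing c Dn s with
  | nil => exact ⟨c, s, hs, rfl, h.congr (by simp)⟩
  | cons v Vs ih =>
    have hb : blocks (v :: Vs) Ls = ([[0, 1]] ++ occ v Ls) ++ blocks Vs Ls := by
      unfold blocks
      rw [List.flatMap_cons]
      rfl
    rw [List.nodup_cons] at hVs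
    obtain ⟨c1, r1, g1⟩ := flip h hs (hsv v)
    obtain ⟨c2, r2, g2⟩ := occ_comp (v := v) (hsv v) Ls hnd g1 (fun p hp hpv =>
      ⟨hL3 p hp, hD p hp (by rw [hpv]; simp), fun h3 => by rw [← hpv]; exact hC p hp h3⟩)
    obtain ⟨c3, s', hs', r3, g3⟩ := ih (hsv v) hVs.2 g2 (fun p hp hpV => by
      rintro (h3 | ⟨q, hq, hqv, hqp⟩)
      · exact hD p hp (List.mem_cons_of_mem _ hpV) h3
      · have : q = p := List.inj_on_of_nodup_map hnd hq hp hqp
        rw [this] at hqv
        exact hVs.1 (hqv ▸ hpV))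
    refine ⟨c3, s', hs', ?_, g3.congr (fun t => ?_)⟩
    · rw [hb]
      exact run_append.2 ⟨c2, run_append.2 ⟨c1, r1, r2⟩, r3⟩
    · constructor
      · rintro ((h1 | ⟨q, hq, h1, h2⟩) | ⟨q, hq, h1, h2⟩)
        · exact Or.inl h1
        · exact Or.inr ⟨q, hq, by rw [h1]; simp, h2⟩
        · exact Or.inr ⟨q, hq, List.mem_cons_of_mem _ h1, h2⟩
      · rintro (h1 | ⟨q, hq, h1, h2⟩)
        · exact Or.inl (Or.inl h1)
        · rw [List.mem_cons] at h1
          rcases h1 with h1 | h1
          · exact Or.inl (Or.inr ⟨q, hq, h1, h2⟩)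
          · exact Or.inr ⟨q, hq, h1, h2⟩

/-- the initial colors -/
def ini (m l : ℕ) : ℕ :=
  if l = 0 then 0
  else if l = 1 then 24 * m + 16
  else if 6 * m + 2 ≤ l then l
  else if (l - 2) % 6 = 0 then 2 + (l - 2) / 6
  else m + 2 + 5 * ((l - 2) / 6) + ((l - 2) % 6 - 1)

theorem ini_valid (m : ℕ) : Valid (nn m) 1 (ini m) := by
  have hn : nn m = 24 * m + 16 := rfl
  constructor
  · intro a ha b hb hab
    rw [hn] at ha hb
    unfold ini at hab
    split_ifs at hab <;> omega
  · intro a ha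
    rw [hn] at ha ⊢
    unfold ini
    split_ifs <;> omega

theorem ini_high (m l : ℕ) (h0 : l ≠ 0) (h : (l - 2) % 6 ≠ 0 ∨ 6 * m + 2 ≤ l ∨ l = 1) :
    m + 2 ≤ ini m l := by
  unfold ini
  split_ifs <;> omega

/-- exchange of the first and the chosen element of a triple -/
def rho (ch : ℕ → ℕ) (t : ℕ) : ℕ :=
  if t % 3 = 0 then t + ch (t / 3) else if t % 3 = ch (t / 3) then t - t % 3 else t

theorem rho_div {ch : ℕ → ℕ} (hch : ∀ j, ch j < 3) (t : ℕ) : rho ch t / 3 = t / 3 := by
  have := hch (t / 3)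
  unfold rho
  split_ifs <;> omega

theorem rho_rho {ch : ℕ → ℕ} (hch : ∀ j, ch j < 3) (t : ℕ) : rho ch (rho ch t) = t := by
  have h1 := hch (t / 3)
  have h2 := rho_div hch t
  have h3 : rho ch (rho ch t) = if rho ch t % 3 = 0 then rho ch t + ch (rho ch t / 3)
    else if rho ch t % 3 = ch (rho ch t / 3) then rho ch t - rho ch t % 3 else rho ch t := rfl
  rw [h3, h2]
  unfold rho at h2 ⊢
  generalize ch (t / 3) = x at *
  split_ifs at h2 ⊢ <;> omega

/-- exchange of lines -/
def pii (m : ℕ) (ch : ℕ → ℕ) (o l : ℕ) : ℕ :=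
  if o ≤ l ∧ (l - o) % 2 = 0 ∧ (l - o) / 2 < 3 * m then 2 * rho ch ((l - o) / 2) + o else l

theorem pii_line {m : ℕ} {ch : ℕ → ℕ} {o t : ℕ} (ht : t < 3 * m) :
    pii m ch o (2 * t + o) = 2 * rho ch t + o := by
  unfold pii
  have h1 : 2 * t + o - o = 2 * t := by omega
  have h2 : 2 * t / 2 = t := by omega
  rw [h1, h2, if_pos ⟨by omega, by omega, ht⟩]

theorem pii_other {m : ℕ} {ch : ℕ → ℕ} {o l : ℕ}
    (h : ¬ (o ≤ l ∧ (l - o) % 2 = 0 ∧ (l - o) / 2 < 3 * m)) : pii m ch o l = l := by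
  unfold pii
  rw [if_neg h]

theorem pii_cases {m : ℕ} (ch : ℕ → ℕ) (o l : ℕ) :
    (∃ t < 3 * m, l = 2 * t + o ∧ pii m ch o l = 2 * rho ch t + o) ∨ pii m ch o l = l := by
  by_cases h : o ≤ l ∧ (l - o) % 2 = 0 ∧ (l - o) / 2 < 3 * m
  · left
    refine ⟨(l - o) / 2, h.2.2, by omega, ?_⟩
    unfold pii
    rw [if_pos h]
  · exact Or.inr (pii_other h)

theorem rho_lt {m : ℕ} {ch : ℕ → ℕ} (hch : ∀ j, ch j < 3) {t : ℕ} (ht : t < 3 * m) :
    rho ch t < 3 * m := by
  have := rho_div hch t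
  omega

theorem pii_pii {m : ℕ} {ch : ℕ → ℕ} (hch : ∀ j, ch j < 3) (o l : ℕ) :
    pii m ch o (pii m ch o l) = l := by
  rcases pii_cases (m := m) ch o l with ⟨t, ht, hl, h1⟩ | h1
  · rw [h1, pii_line (rho_lt hch ht), rho_rho hch, hl]
  · rw [h1, h1]

theorem pii_lt {m : ℕ} {ch : ℕ → ℕ} (hch : ∀ j, ch j < 3) {o : ℕ} (ho : o ≤ 3) {l : ℕ}
    (hl : l < nn m) : pii m ch o l < nn m := by
  have hn : nn m = 24 * m + 16 := rfl
  rcases pii_cases (m := m) ch o l with ⟨t, ht, _, h1⟩ | h1
  · have := rho_lt hch ht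
    omega
  · omega

/-- Completeness. -/
theorem sat_complete {φ : List (Lit ℕ × Lit ℕ × Lit ℕ)} (hb : Bounded3 φ) (h : SAT3 φ) :
    ∃ c0 cR : ℕ → ℕ, Valid (nn φ.length) 1 c0 ∧ Run (nn φ.length) 1 (evs φ) c0 cR ∧
      (∀ l < nn φ.length, l ≠ 0 → 2 ≤ c0 l) ∧
      (∀ l < nn φ.length, l ≠ 0 → l ∉ midL φ.length → φ.length + 2 ≤ c0 l) ∧
      (∀ l < nn φ.length, l ≠ 0 → 2 ≤ cR l) ∧
      (∀ l < nn φ.length, l ≠ 0 → l ∉ midR φ.length → φ.length + 2 ≤ cR l) := by
  set m := φ.length with hm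
  have hn : nn m = 24 * m + 16 := rfl
  obtain ⟨τ, hτ⟩ := h
  have hex : ∀ j, ∃ i < 3, j < m → ∃ l : Lit ℕ, (lits φ)[3 * j + i]? = some l ∧ τ l.2 = l.1 := by
    intro j
    by_cases hj : j < m
    · have h1 : φ[j]? = some φ[j] := List.getElem?_eq_getElem hj
      obtain ⟨e1, e2, e3⟩ := lits_getElem h1
      rcases hτ φ[j] (List.getElem_mem hj) with h2 | h2 | h2
      · exact ⟨0, by omega, fun _ => ⟨_, e1, h2⟩⟩
      · exact ⟨1, by omega, fun _ => ⟨_, e2, h2⟩⟩
      · exact ⟨2, by omega, fun _ => ⟨_, e3, h2⟩⟩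
    · exact ⟨0, by omega, fun h => absurd h hj⟩
  choose ch hch hch2 using hex
  have i1 := ini_valid m
  have hz : ini m 0 = 0 := by simp [ini]
  -- the lines of the occurrences
  have r2 : Run (nn m) 1 [Fs m] (ini m) (fun l => ini m (pii m ch 2 l)) := by
    refine run_invol (by simp) i1 (pii_pii hch 2) (fun a ha => pii_lt hch (by omega) ha) ?_ ?_
    · intro a ha
      rcases pii_cases (m := m) ch 2 a with ⟨t, ht, hl, _⟩ | h1
      · exact ⟨Fs m, by simp, List.mem_map.2 ⟨t, List.mem_range.2 ht, hl.symm⟩⟩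
      · exact absurd h1 ha
    · intro S hS a ha
      rw [List.mem_singleton] at hS
      subst hS
      obtain ⟨t, ht, rfl⟩ := List.mem_map.1 ha
      rw [List.mem_range] at ht
      rw [pii_line ht]
      exact List.mem_map.2 ⟨_, List.mem_range.2 (rho_lt hch ht), rfl⟩
  have g2 : Good m (fun t => t % 3 = ch (t / 3)) (fun _ => False) 0
      (fun l => ini m (pii m ch 2 l)) := by
    refine ⟨run_valid i1 r2, ?_, ?_, ?_, ?_, ?_⟩
    · try simp only
      rw [pii_other (by omega), hz]
    · try simp only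
      rw [pii_other (by omega)]
      exact ini_high m _ (by omega) (by omega)
    · intro t ht hC
      try simp only
      rw [pii_line ht]
      refine ini_high m _ (by omega) (Or.inl ?_)
      have hC : t % 3 ≠ ch (t / 3) := fun h3 => hC ⟨h3, fun h4 => h4⟩
      have h4 := hch (t / 3)
      unfold rho
      generalize ch (t / 3) = x at *
      split_ifs <;> omega
    · intro t ht _
      try simp only
      rw [pii_other (by omega)]
      exact ini_high m _ (by omega) (by omega)
    · intro l hl hl'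
      try simp only
      rw [pii_other (by omega)]
      exact ini_high m _ (by omega) (by omega)
  -- the blocks
  obtain ⟨c3, s3, hs3, r3, g3⟩ := blocks_comp (m := m) (s := 0) (by omega) (lits φ).zipIdx
    (zip_snd_nodup φ) (fun p hp => (mem_zip hp).1) (fun v => if τ v = true then 1 else 0)
    (fun v => by split_ifs <;> omega) (by
      intro p hp hC
      have h1 := mem_zip hp
      have hC : p.2 % 3 = ch (p.2 / 3) := hC
      obtain ⟨l, hl1, hl2⟩ := hch2 (p.2 / 3) (by omega)
      have h3 : 3 * (p.2 / 3) + ch (p.2 / 3) = p.2 := by omega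
      rw [h3, (List.mem_zipIdx_iff_getElem? ..).1 hp, Option.some.injEq] at hl1
      subst hl1
      unfold side
      simp only [hl2]
      cases p.1.1 <;> simp) (List.range (3 * m)) List.nodup_range g2 (fun _ _ _ h3 => h3)
  obtain ⟨c4, r4, g4⟩ := flip g3 hs3 (s' := 0) (by omega)
  have hall : ∀ t < 3 * m, ∃ p ∈ (lits φ).zipIdx, p.1.2 ∈ List.range (3 * m) ∧ p.2 = t := by
    intro t ht
    have h1 : t < (lits φ).length := by
      rw [lits_length]
      exact ht
    refine ⟨((lits φ)[t], t), (List.mem_zipIdx_iff_getElem? ..).2 (List.getElem?_eq_getElem h1),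
      ?_, rfl⟩
    rw [List.mem_range]
    exact mem_lits_var hb (List.getElem_mem h1)
  -- the clauses
  have r5 : Run (nn m) 1 (cls m) c4 (fun l => c4 (pii m ch 3 l)) := by
    refine run_invol (cls_disj m) g4.v (pii_pii hch 3) (fun a ha => pii_lt hch (by omega) ha) ?_ ?_
    · intro a ha
      rcases pii_cases (m := m) ch 3 a with ⟨t, ht, hl, _⟩ | h1
      · refine ⟨[6 * (t / 3) + 3, 6 * (t / 3) + 5, 6 * (t / 3) + 7],
          List.mem_map.2 ⟨t / 3, List.mem_range.2 (by omega), rfl⟩, ?_⟩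
        simp only [List.mem_cons, List.not_mem_nil, or_false]
        omega
      · exact absurd h1 ha
    · intro S hS a ha
      unfold cls at hS
      obtain ⟨j, hj, rfl⟩ := List.mem_map.1 hS
      rw [List.mem_range] at hj
      simp only [List.mem_cons, List.not_mem_nil, or_false] at ha ⊢
      obtain ⟨t, ht, hta⟩ : ∃ t, t / 3 = j ∧ a = 2 * t + 3 := by
        rcases ha with ha | ha | ha
        · exact ⟨3 * j, by omega, by omega⟩
        · exact ⟨3 * j + 1, by omega, by omega⟩
        · exact ⟨3 * j + 2, by omega, by omega⟩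
      rw [hta, pii_line (by omega)]
      have := rho_div hch t
      omega
  have v5 := run_valid g4.v r5
  have z5 : c4 (pii m ch 3 0) = 0 := by
    rw [pii_other (by omega)]
    exact g4.z
  refine ⟨ini m, fun l => c4 (pii m ch 3 l), i1, ?_, ?_, ?_, ?_, ?_⟩
  · unfold evs
    rw [← hm]
    exact run_append.2 ⟨_, run_id i1, run_append.2 ⟨_, r2, run_append.2 ⟨_, r3,
      run_append.2 ⟨_, r4, run_append.2 ⟨_, r5, run_id v5⟩⟩⟩⟩⟩
  · intro l hl hl0
    have h1 := (i1.2 l hl).2
    have h2 : ini m l ≠ 0 := fun h3 => hl0 (i1.1 l hl 0 (by omega) (by rw [h3, hz]))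
    omega
  · intro l hl hl0 hlm
    refine ini_high m l hl0 ?_
    by_contra hcon
    push Not at hcon
    exact hlm (List.mem_map.2 ⟨(l - 2) / 6, List.mem_range.2 (by omega), by omega⟩)
  · intro l hl hl0
    have h1 := (v5.2 l hl).2
    have h2 : c4 (pii m ch 3 l) ≠ 0 := fun h3 => hl0 (v5.1 l hl 0 (by omega) (by
      simp only
      rw [h3, z5]))
    simp only at h1
    simp only
    omega
  · intro l hl hl0 hlm
    simp only
    rcases pii_cases (m := m) ch 3 l with ⟨t, ht, hlt, h1⟩ | h1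
    · rw [h1]
      refine g4.g _ (rho_lt hch ht) (fun h3 => ?_)
      have h4 : rho ch t % 3 = ch (rho ch t / 3) := h3.1
      rw [rho_div hch] at h4
      have h5 : t % 3 ≠ 0 := fun h6 => hlm (List.mem_map.2 ⟨t / 3, List.mem_range.2 (by omega),
        by omega⟩)
      unfold rho at h4
      generalize ch (t / 3) = x at *
      split_ifs at h4 <;> omega
    · rw [h1]
      by_cases h2 : l = 1
      · rw [h2]
        exact g4.o
      · by_cases h3 : 6 * m + 2 ≤ l
        · exact g4.e l h3 hl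
        · rcases Nat.mod_two_eq_zero_or_one l with h4 | h4
          · have h5 : l = 2 * ((l - 2) / 2) + 2 := by omega
            rw [h5]
            refine g4.f _ (by omega) (fun h6 => h6.2 ?_)
            exact Or.inr (hall _ (by omega))
          · have h5 : l = 2 * ((l - 3) / 2) + 3 := by omega
            have h6 : (l - 3) / 2 < 3 * m := by omega
            have h7 := pii_line (m := m) (ch := ch) (o := 3) h6
            rw [← h5, h1] at h7
            have h8 : rho ch ((l - 3) / 2) = (l - 3) / 2 := by omega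
            rw [h5]
            refine g4.g _ h6 (fun h9 => ?_)
            have h10 : ((l - 3) / 2) % 3 = ch ((l - 3) / 2 / 3) := h9.1
            have h11 : ((l - 3) / 2) % 3 ≠ 0 := fun h12 =>
              hlm (List.mem_map.2 ⟨(l - 3) / 2 / 3, List.mem_range.2 (by omega), by omega⟩)
            unfold rho at h8
            generalize ch ((l - 3) / 2 / 3) = x at *
            split_ifs at h8 <;> omega

end Pool.Agent.V11229.Uc
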