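import Pool.Agent.V11229.UcIv

/-!
# From cheap up-color dominating sets of the interval system to runs of the lines
-/

namespace Pool.Agent.V11229.Uc

variable {Ev : List (List ℕ)} {n m k : ℕ} {mL mR : List ℕ}

/-- the assumptions on the system -/
structure Hyp (Ev : List (List ℕ)) (n m k : ℕ) (mL mR : List ℕ) : Prop where
  len : 1 ≤ Ev.length
  cut : ∀ l < n, ∃ s, 0 < s ∧ s ≤ Ev.length ∧ cutP Ev l s = true
  fst : ∀ l, k ≤ l → l < n → cutP Ev l 1 = true
  lst : ∀ l, k ≤ l → l < n → cutP Ev l Ev.length = true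
  kn : k < n
  kpos : 0 < k
  big : n + 2 * m + 8 ≤ 2 * (n - k)
  mLk : ∀ l ∈ mL, 0 < l ∧ l < k
  mRk : ∀ l ∈ mR, 0 < l ∧ l < k
  mRn : mR.Nodup
  mRl : mR.length = m

/-- members of the clique at time `s` -/
def cq (Ev : List (List ℕ)) (n s b : ℕ) : Lab := if b < n then (1, b, st Ev b s) else (0, b - n, 0)

theorem cq_mem (h : Hyp Ev n m k mL mR) {s b : ℕ} (hs : s ≤ Ev.length) (hb : b ≤ n + 1) :
    cq Ev n s b ∈ vs Ev n m := by
  unfold cq
  split_ifs with h1
  · exact mem1 h1 ((st_le _ _).trans hs) (st_cut _ _)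
  · exact mem0 (by omega)

theorem cq_at (h : Hyp Ev n m k mL mR) {s b : ℕ} (hs : s ≤ Ev.length) :
    lo Ev mL (cq Ev n s b) ≤ 3 + s ∧ 3 + s ≤ hi Ev mR (cq Ev n s b) := by
  unfold cq
  split_ifs with h1
  · exact alive_st hs
  · simp only [lo, hi, if_true]
    omega

theorem cq_inj {s a b : ℕ} (h : cq Ev n s a = cq Ev n s b) : a = b := by
  unfold cq at h
  split_ifs at h with h1 h2 h2
  · simpa using (Prod.ext_iff.1 (Prod.ext_iff.1 h).2).1
  · simp at h
  · simp at h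
  · have := (Prod.ext_iff.1 (Prod.ext_iff.1 h).2).1
    simp only at this
    omega

/-- the private clique and the point of the left gadget -/
def gL (m b : ℕ) : Lab := if b < m + 1 then (2, b, 0) else (3, 0, 0)
/-- the test clique of the left gadget -/
def gL' (m b : ℕ) : Lab := if b < m + 1 then (4, b, 0) else (3, 0, 0)
/-- the private clique and the point of the right gadget -/
def gR (m b : ℕ) : Lab := if b < m + 1 then (6, b, 0) else (7, 0, 0)
/-- the test clique of the right gadget -/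
def gR' (m b : ℕ) : Lab := if b < m + 1 then (8, b, 0) else (7, 0, 0)

/-- pieces which touch the left pair -/
def XL (x : Lab) : Prop := x.1 = 1 ∧ x.2.2 = 0 ∧ x.2.1 ≠ 0
/-- pieces which touch the right pair -/
def XR (Ev : List (List ℕ)) (x : Lab) : Prop :=
  x.1 = 1 ∧ Ev.length < nxt Ev x.2.1 x.2.2 ∧ x.2.1 ≠ 0
/-- the left zone -/
def zL (x : Lab) : Prop := (2 ≤ x.1 ∧ x.1 ≤ 5) ∨ XL x
/-- the right zone -/
def zR (Ev : List (List ℕ)) (x : Lab) : Prop := (6 ≤ x.1 ∧ x.1 ≤ 9) ∨ XR Ev x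

theorem g_inj {f : ℕ → Lab} {p q : ℕ} (hpq : p ≠ q)
    (hf : ∀ b, f b = if b < m + 1 then ((p, b, 0) : Lab) else (q, 0, 0))
    {a b : ℕ} (ha : a ≤ m + 1) (hb : b ≤ m + 1) (h : f a = f b) : a = b := by
  rw [hf, hf] at h
  split_ifs at h with h1 h2 h2
  · simpa using (Prod.ext_iff.1 (Prod.ext_iff.1 h).2).1
  · exact absurd (Prod.ext_iff.1 h).1 hpq
  · exact absurd (Prod.ext_iff.1 h).1.symm hpq
  · omega

theorem left_end {c : Lab → ℕ} {D : Finset Lab} (h : Hyp Ev n m k mL mR)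
    (hL : LC (vs Ev n m) (Tch Ev mL mR) c D) [DecidablePred (zL)]
    (hw : ∑ d ∈ D.filter zL, c d ≤ m + 1 + 1) :
    m + 1 + 1 ≤ ∑ d ∈ D.filter zL, c d ∧ (∀ x ∈ vs Ev n m, XL x → 2 ≤ c x) ∧
      (∀ x ∈ vs Ev n m, (XL x ∧ x.2.1 ∉ mL) → m + 1 + 1 ≤ c x) ∧ ∀ d ∈ D, zL d → c d ≤ m + 1 := by
  have hlen := h.len
  have hkn := h.kn
  have hbig := h.big
  have hmn : m < n := by omega
  have gv : ∀ b ≤ m + 1, gL m b ∈ vs Ev n m := by
    intro b hb
    unfold gL
    split_ifs with h1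
    · exact mem2 hmn h1
    · exact mem3
  have gv' : ∀ b ≤ m + 1, gL' m b ∈ vs Ev n m := by
    intro b hb
    unfold gL'
    split_ifs with h1
    · exact mem4 hmn h1
    · exact mem3
  have lg : ∀ b, lo Ev mL (gL m b) = 0 ∧ 0 ≤ hi Ev mR (gL m b) := by
    intro b
    unfold gL
    split_ifs <;> simp [lo, hi]
  have lg' : ∀ b, lo Ev mL (gL' m b) ≤ 1 ∧ hi Ev mR (gL' m b) = 1 := by
    intro b
    unfold gL'
    split_ifs <;> simp [lo, hi]
  refine endG hL (by omega) (gL m) (gL' m) (5, 0, 0) (5, 1, 0) XL (fun x => XL x ∧ x.2.1 ∉ mL) zL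
    gv gv' (mem5 (by omega)) (mem5 (by omega)) (by simp [gL, gL']) ?_ ?_ ?_ ?_ (fun v hv => hv.1)
    ?_ ?_ ?_ ?_ ?_ ?_ ?_ ?_ ?_ ?_ hw
  · intro a ha b hb hab
    by_contra hne
    refine hL.col _ (gv a ha) _ (gv b hb) (fun he => hne ?_) ?_ hab
    · exact g_inj (p := 2) (q := 3) (by norm_num) (fun _ => rfl) ha hb he
    · exact ⟨by rw [(lg a).1]; exact (lg b).2, by rw [(lg b).1]; exact (lg a).2⟩
  · intro a ha b hb hab
    by_contra hne
    refine hL.col _ (gv' a ha) _ (gv' b hb) (fun he => hne ?_) ?_ hab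
    · exact g_inj (p := 4) (q := 3) (by norm_num) (fun _ => rfl) ha hb he
    · exact ⟨by rw [(lg' b).2]; exact (lg' a).1, by rw [(lg' a).2]; exact (lg' b).1⟩
  · intro b hb v hv hT _
    have h2 : lo Ev mL v ≤ 0 := by
      have := hT.2
      unfold gL at this
      rw [if_pos hb] at this
      simpa [hi] using this
    rcases vs_cases hv with ⟨b', hb', rfl⟩ | ⟨l, hl, t, ht, ht2, rfl⟩ | ⟨b', hb', rfl⟩ | rfl |
      ⟨b', hb', rfl⟩ | ⟨b', hb', rfl⟩ | ⟨b', hb', rfl⟩ | rfl | ⟨b', hb', rfl⟩ | ⟨b', hb', rfl⟩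
    · simp [lo] at h2
    · have := (lo1 (Ev := Ev) (mL := mL) l t).1
      omega
    · exact ⟨b', by omega, by simp [gL, hb']⟩
    · exact ⟨m + 1, le_refl _, by simp [gL]⟩
    · simp [lo] at h2
    · simp [lo] at h2
    · simp [lo] at h2
    · simp [lo] at h2
    · simp [lo] at h2
    · simp [lo] at h2
  · intro b hb v hv hT _
    have h2 : lo Ev mL v ≤ 1 := by
      have := hT.2
      rw [(lg' b).2] at this
      exact this
    rcases vs_cases hv with ⟨b', hb', rfl⟩ | ⟨l, hl, t, ht, ht2, rfl⟩ | ⟨b', hb', rfl⟩ | rfl |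
      ⟨b', hb', rfl⟩ | ⟨b', hb', rfl⟩ | ⟨b', hb', rfl⟩ | rfl | ⟨b', hb', rfl⟩ | ⟨b', hb', rfl⟩
    · simp [lo] at h2
    · right; right
      obtain ⟨h3, h4, h5⟩ := (lo1 (Ev := Ev) (mL := mL) l t).2.2.2.2.1 h2
      exact ⟨⟨rfl, h3, h4⟩, h5⟩
    · exact Or.inl ⟨b', by omega, by simp [gL, hb']⟩
    · exact Or.inl ⟨m + 1, le_refl _, by simp [gL]⟩
    · exact Or.inr (Or.inl ⟨b', by omega, by simp [gL', hb']⟩)
    · simp [lo] at h2
    · simp [lo] at h2
    · simp [lo] at h2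
    · simp [lo] at h2
    · simp [lo] at h2
  · rintro ⟨a, l, t⟩ hx ⟨⟨h1, h2, h3⟩, h4⟩ b hb
    simp only at h1 h2 h3 h4
    subst h1 h2
    refine hL.col _ hx _ (gv' b hb) ?_ ?_
    · intro he
      have := (Prod.ext_iff.1 he).1
      unfold gL' at this
      split_ifs at this <;> simp at this
    · refine ⟨?_, ?_⟩
      · rw [(lg' b).2, (lo1 l 0).2.2.2.2.2.2 h3 h4 rfl]
      · have := (lg' b).1
        have h5 := hi1_ge (Ev := Ev) (mR := mR) l 0
        omega
  · refine hL.col _ (mem5 (by omega)) _ (mem5 (by omega)) (by simp) ?_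
    exact ⟨by simp [lo, hi], by simp [lo, hi]⟩
  · intro v hv hT hne
    have h2 : lo Ev mL v ≤ 2 ∧ 2 ≤ hi Ev mR v := by
      refine ⟨?_, ?_⟩
      · simpa [hi] using hT.2
      · simpa [lo] using hT.1
    rcases vs_cases hv with ⟨b', hb', rfl⟩ | ⟨l, hl, t, ht, ht2, rfl⟩ | ⟨b', hb', rfl⟩ | rfl |
      ⟨b', hb', rfl⟩ | ⟨b', hb', rfl⟩ | ⟨b', hb', rfl⟩ | rfl | ⟨b', hb', rfl⟩ | ⟨b', hb', rfl⟩
    · simp [lo] at h2
    · right
      obtain ⟨h3, h4⟩ := (lo1 (Ev := Ev) (mL := mL) l t).2.2.2.1 h2.1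
      exact ⟨rfl, h3, h4⟩
    · simp [hi] at h2
    · simp [hi] at h2
    · simp [hi] at h2
    · have : b' = 0 ∨ b' = 1 := by omega
      rcases this with rfl | rfl
      · exact absurd rfl hne
      · exact Or.inl rfl
    · simp [lo] at h2
    · simp [lo] at h2
    · simp [lo] at h2
    · simp [lo] at h2
  · intro v hv hT hne
    have h2 : lo Ev mL v ≤ 2 ∧ 2 ≤ hi Ev mR v := by
      refine ⟨?_, ?_⟩
      · simpa [hi] using hT.2
      · simpa [lo] using hT.1
    rcases vs_cases hv with ⟨b', hb', rfl⟩ | ⟨l, hl, t, ht, ht2, rfl⟩ | ⟨b', hb', rfl⟩ | rfl |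
      ⟨b', hb', rfl⟩ | ⟨b', hb', rfl⟩ | ⟨b', hb', rfl⟩ | rfl | ⟨b', hb', rfl⟩ | ⟨b', hb', rfl⟩
    · simp [lo] at h2
    · right
      obtain ⟨h3, h4⟩ := (lo1 (Ev := Ev) (mL := mL) l t).2.2.2.1 h2.1
      exact ⟨rfl, h3, h4⟩
    · simp [hi] at h2
    · simp [hi] at h2
    · simp [hi] at h2
    · have : b' = 0 ∨ b' = 1 := by omega
      rcases this with rfl | rfl
      · exact Or.inl rfl
      · exact absurd rfl hne
    · simp [lo] at h2
    · simp [lo] at h2
    · simp [lo] at h2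
    · simp [lo] at h2
  · rintro ⟨a, l, t⟩ hx ⟨h1, h2, h3⟩
    simp only at h1 h2 h3
    subst h1 h2
    have h5 := hi1_ge (Ev := Ev) (mR := mR) l 0
    have h6 := (lo1 (Ev := Ev) (mL := mL) l 0).2.2.2.2.2.1 h3 rfl
    refine ⟨hL.col _ hx _ (mem5 (by omega)) (by simp) ?_,
      hL.col _ hx _ (mem5 (by omega)) (by simp) ?_⟩
    · refine ⟨by simpa [hi] using h6, ?_⟩
      simp only [lo]
      norm_num
      omega
    · refine ⟨by simpa [hi] using h6, ?_⟩
      simp only [lo]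
      norm_num
      omega
  · intro b _
    unfold zL gL gL'
    split_ifs <;> simp
  · exact ⟨Or.inl (by simp), Or.inl (by simp)⟩
  · exact fun x _ hx => Or.inr hx
  · intro b _
    unfold gL gL' XL
    split_ifs <;> simp
  · intro b _
    unfold gL gL'
    split_ifs <;> simp

theorem right_end {c : Lab → ℕ} {D : Finset Lab} (h : Hyp Ev n m k mL mR)
    (hL : LC (vs Ev n m) (Tch Ev mL mR) c D) [DecidablePred (zR Ev)]
    (hw : ∑ d ∈ D.filter (zR Ev), c d ≤ m + 1 + 1) :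
    m + 1 + 1 ≤ ∑ d ∈ D.filter (zR Ev), c d ∧ (∀ x ∈ vs Ev n m, XR Ev x → 2 ≤ c x) ∧
      (∀ x ∈ vs Ev n m, (XR Ev x ∧ x.2.1 ∉ mR) → m + 1 + 1 ≤ c x) ∧
      ∀ d ∈ D, zR Ev d → c d ≤ m + 1 := by
  have hlen := h.len
  have hkn := h.kn
  have hbig := h.big
  have hmn : m < n := by omega
  have gv : ∀ b ≤ m + 1, gR m b ∈ vs Ev n m := by
    intro b hb
    unfold gR
    split_ifs with h1
    · exact mem6 hmn h1
    · exact mem7
  have gv' : ∀ b ≤ m + 1, gR' m b ∈ vs Ev n m := by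
    intro b hb
    unfold gR'
    split_ifs with h1
    · exact mem8 hmn h1
    · exact mem7
  have lg : ∀ b, lo Ev mL (gR m b) ≤ Ev.length + 6 ∧ hi Ev mR (gR m b) = Ev.length + 6 := by
    intro b
    unfold gR
    split_ifs <;> simp [lo, hi]
  have lg' : ∀ b, lo Ev mL (gR' m b) = Ev.length + 5 ∧ Ev.length + 5 ≤ hi Ev mR (gR' m b) := by
    intro b
    unfold gR'
    split_ifs <;> simp [lo, hi]
  refine endG hL (by omega) (gR m) (gR' m) (9, 0, 0) (9, 1, 0) (XR Ev)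
    (fun x => XR Ev x ∧ x.2.1 ∉ mR) (zR Ev)
    gv gv' (mem9 (by omega)) (mem9 (by omega)) (by simp [gR, gR']) ?_ ?_ ?_ ?_ (fun v hv => hv.1)
    ?_ ?_ ?_ ?_ ?_ ?_ ?_ ?_ ?_ ?_ hw
  · intro a ha b hb hab
    by_contra hne
    refine hL.col _ (gv a ha) _ (gv b hb) (fun he => hne ?_) ?_ hab
    · exact g_inj (p := 6) (q := 7) (by norm_num) (fun _ => rfl) ha hb he
    · exact ⟨by rw [(lg b).2]; exact (lg a).1, by rw [(lg a).2]; exact (lg b).1⟩
  · intro a ha b hb hab
    by_contra hne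
    refine hL.col _ (gv' a ha) _ (gv' b hb) (fun he => hne ?_) ?_ hab
    · exact g_inj (p := 8) (q := 7) (by norm_num) (fun _ => rfl) ha hb he
    · exact ⟨by rw [(lg' a).1]; exact (lg' b).2, by rw [(lg' b).1]; exact (lg' a).2⟩
  · intro b hb v hv hT _
    have h2 : Ev.length + 6 ≤ hi Ev mR v := by
      have := hT.1
      unfold gR at this
      rw [if_pos hb] at this
      simpa [lo] using this
    rcases vs_cases hv with ⟨b', hb', rfl⟩ | ⟨l, hl, t, ht, ht2, rfl⟩ | ⟨b', hb', rfl⟩ | rfl |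
      ⟨b', hb', rfl⟩ | ⟨b', hb', rfl⟩ | ⟨b', hb', rfl⟩ | rfl | ⟨b', hb', rfl⟩ | ⟨b', hb', rfl⟩
    · simp [hi] at h2
    · have := (hi1 (Ev := Ev) (mR := mR) l t).1
      omega
    · simp [hi] at h2
    · simp [hi] at h2
    · simp [hi] at h2
    · simp [hi] at h2
    · exact ⟨b', by omega, by simp [gR, hb']⟩
    · exact ⟨m + 1, le_refl _, by simp [gR]⟩
    · simp [hi] at h2
    · simp [hi] at h2
  · intro b hb v hv hT _
    have h2 : Ev.length + 5 ≤ hi Ev mR v := by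
      have := hT.1
      rw [(lg' b).1] at this
      exact this
    rcases vs_cases hv with ⟨b', hb', rfl⟩ | ⟨l, hl, t, ht, ht2, rfl⟩ | ⟨b', hb', rfl⟩ | rfl |
      ⟨b', hb', rfl⟩ | ⟨b', hb', rfl⟩ | ⟨b', hb', rfl⟩ | rfl | ⟨b', hb', rfl⟩ | ⟨b', hb', rfl⟩
    · simp [hi] at h2
    · right; right
      obtain ⟨h3, h4, h5⟩ := (hi1 (Ev := Ev) (mR := mR) l t).2.2.2.2.2.1 h2
      exact ⟨⟨rfl, h3, h4⟩, h5⟩
    · simp [hi] at h2
    · simp [hi] at h2
    · simp [hi] at h2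
    · simp [hi] at h2
    · exact Or.inl ⟨b', by omega, by simp [gR, hb']⟩
    · exact Or.inl ⟨m + 1, le_refl _, by simp [gR]⟩
    · exact Or.inr (Or.inl ⟨b', by omega, by simp [gR', hb']⟩)
    · simp [hi] at h2
  · rintro ⟨a, l, t⟩ hx ⟨⟨h1, h2, h3⟩, h4⟩ b hb
    simp only at h1 h2 h3 h4
    subst h1
    have ht : t ≤ Ev.length := by
      have := ((mem_vs _).1 hx).1.2.2
      simp only at this
      omega
    refine hL.col _ hx _ (gv' b hb) ?_ ?_
    · intro he
      have := (Prod.ext_iff.1 he).1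
      unfold gR' at this
      split_ifs at this <;> simp at this
    · refine ⟨?_, ?_⟩
      · have := (lg' b).2
        have h5 := (lo1 (Ev := Ev) (mL := mL) l t).2.1
        omega
      · rw [(lg' b).1, (hi1 l t).2.2.2.2.2.2.2 h3 h4 h2]
  · refine hL.col _ (mem9 (by omega)) _ (mem9 (by omega)) (by simp) ?_
    exact ⟨by simp [lo, hi], by simp [lo, hi]⟩
  · intro v hv hT hne
    have h2 : lo Ev mL v ≤ Ev.length + 4 ∧ Ev.length + 4 ≤ hi Ev mR v := by
      refine ⟨?_, ?_⟩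
      · simpa [hi] using hT.2
      · simpa [lo] using hT.1
    rcases vs_cases hv with ⟨b', hb', rfl⟩ | ⟨l, hl, t, ht, ht2, rfl⟩ | ⟨b', hb', rfl⟩ | rfl |
      ⟨b', hb', rfl⟩ | ⟨b', hb', rfl⟩ | ⟨b', hb', rfl⟩ | rfl | ⟨b', hb', rfl⟩ | ⟨b', hb', rfl⟩
    · simp [hi] at h2
    · right
      obtain ⟨h3, h4⟩ := (hi1 (Ev := Ev) (mR := mR) l t).2.2.2.2.1 h2.2
      exact ⟨rfl, h3, h4⟩
    · simp [hi] at h2
    · simp [hi] at h2
    · simp [hi] at h2
    · simp [hi] at h2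
    · simp [lo] at h2
    · simp [lo] at h2
    · simp [lo] at h2
    · have : b' = 0 ∨ b' = 1 := by omega
      rcases this with rfl | rfl
      · exact absurd rfl hne
      · exact Or.inl rfl
  · intro v hv hT hne
    have h2 : lo Ev mL v ≤ Ev.length + 4 ∧ Ev.length + 4 ≤ hi Ev mR v := by
      refine ⟨?_, ?_⟩
      · simpa [hi] using hT.2
      · simpa [lo] using hT.1
    rcases vs_cases hv with ⟨b', hb', rfl⟩ | ⟨l, hl, t, ht, ht2, rfl⟩ | ⟨b', hb', rfl⟩ | rfl |
      ⟨b', hb', rfl⟩ | ⟨b', hb', rfl⟩ | ⟨b', hb', rfl⟩ | rfl | ⟨b', hb', rfl⟩ | ⟨b', hb', rfl⟩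
    · simp [hi] at h2
    · right
      obtain ⟨h3, h4⟩ := (hi1 (Ev := Ev) (mR := mR) l t).2.2.2.2.1 h2.2
      exact ⟨rfl, h3, h4⟩
    · simp [hi] at h2
    · simp [hi] at h2
    · simp [hi] at h2
    · simp [hi] at h2
    · simp [lo] at h2
    · simp [lo] at h2
    · simp [lo] at h2
    · have : b' = 0 ∨ b' = 1 := by omega
      rcases this with rfl | rfl
      · exact Or.inl rfl
      · exact absurd rfl hne
  · rintro ⟨a, l, t⟩ hx ⟨h1, h2, h3⟩
    simp only at h1 h2 h3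
    subst h1
    have ht : t ≤ Ev.length := by
      have := ((mem_vs _).1 hx).1.2.2
      simp only at this
      omega
    have h5 := (lo1 (Ev := Ev) (mL := mL) l t).2.1
    have h6 := (hi1 (Ev := Ev) (mR := mR) l t).2.2.2.2.2.2.1 h3 h2
    refine ⟨hL.col _ hx _ (mem9 (by omega)) (by simp) ?_,
      hL.col _ hx _ (mem9 (by omega)) (by simp) ?_⟩
    · refine ⟨?_, by simpa [lo] using h6⟩
      simp only [hi]
      norm_num
      omega
    · refine ⟨?_, by simpa [lo] using h6⟩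
      simp only [hi]
      norm_num
      omega
  · intro b _
    unfold zR gR gR'
    split_ifs <;> simp
  · exact ⟨Or.inl (by simp), Or.inl (by simp)⟩
  · exact fun x _ hx => Or.inr hx
  · intro b _
    unfold gR gR' XR
    split_ifs <;> simp
  · intro b _
    unfold gR gR'
    split_ifs <;> simp

theorem cq_ne (h : Hyp Ev n m k mL mR) {c : Lab → ℕ} {D : Finset Lab}
    (hL : LC (vs Ev n m) (Tch Ev mL mR) c D) {s : ℕ} (hs : s ≤ Ev.length) :
    ∀ a ≤ n + 1, ∀ b ≤ n + 1, c (cq Ev n s a) = c (cq Ev n s b) → a = b := by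
  intro a ha b hb hab
  by_contra hne
  have h1 := cq_at (b := a) h hs
  have h2 := cq_at (b := b) h hs
  exact hL.col _ (cq_mem h hs ha) _ (cq_mem h hs hb) (fun he => hne (cq_inj he))
    ⟨h1.1.trans h2.2, h2.1.trans h1.2⟩ hab

theorem zLR (h : Hyp Ev n m k mL mR) {x : Lab} (hx : x ∈ vs Ev n m) (h1 : zL x) :
    ¬ zR Ev x := by
  intro h2
  rcases h1 with h1 | h1
  · rcases h2 with h2 | h2
    · omega
    · have := h2.1
      omega
  · rcases h2 with h2 | h2
    · have := h1.1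
      omega
    · obtain ⟨a, l, t⟩ := x
      obtain ⟨h3, h4, h5⟩ := h1
      obtain ⟨_, h6, _⟩ := h2
      simp only at h3 h4 h5 h6
      subst h3 h4
      have hl : l < n := by
        rcases vs_cases hx with ⟨b', hb', h7⟩ | ⟨l', hl, t', ht, ht2, h7⟩ | ⟨b', hb', h7⟩ | h7 |
          ⟨b', hb', h7⟩ | ⟨b', hb', h7⟩ | ⟨b', hb', h7⟩ | h7 | ⟨b', hb', h7⟩ | ⟨b', hb', h7⟩
        · simp at h7
        · simp only [Prod.mk.injEq, true_and] at h7
          omega
        all_goals simp at h7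
      obtain ⟨s, hs0, hs, hc⟩ := h.cut l hl
      rw [not_cut (t := 0) hs0 (by omega) hs] at hc
      simp at hc

theorem sound {c : Lab → ℕ} {D : Finset Lab} (h : Hyp Ev n m k mL mR)
    (hL : LC (vs Ev n m) (Tch Ev mL mR) c D) (hw : ∑ d ∈ D, c d ≤ n + 2 * m + 5) :
    ∃ η ≤ 1, ∃ cs : ℕ → ℕ → ℕ, (∀ s ≤ Ev.length, Valid n η (cs s)) ∧
      (∀ s < Ev.length, ∀ l, l ∉ Ev.getD s [] → cs (s + 1) l = cs s l) ∧
      cs 0 0 ≤ 1 ∧ (∀ l < n, l ≠ 0 → 2 ≤ cs 0 l) ∧ (∀ l < n, l ≠ 0 → l ∉ mL → m + 2 ≤ cs 0 l) ∧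
      cs Ev.length 0 ≤ 1 ∧ (∀ l < n, l ≠ 0 → 2 ≤ cs Ev.length l) ∧
      (∀ l < n, l ≠ 0 → l ∉ mR → m + 2 ≤ cs Ev.length l) ∧
      (∀ l ∈ mR, cs Ev.length l ≤ m + 1) := by
  classical
  have hlen := h.len
  have hkn := h.kn
  have hkp := h.kpos
  have hbig := h.big
  have hE : ∀ s ≤ Ev.length, ∃ b < n, k ≤ b ∧ n - k - 1 ≤ c (1, b, st Ev b s) := by
    intro s hs
    obtain ⟨a, ha, hca⟩ := exists_big (n - k - 1) (fun b => c (cq Ev n s (k + b))) (by
      intro a ha b hb hab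
      have := cq_ne h hL hs (k + a) (by omega) (k + b) (by omega) hab
      omega)
    refine ⟨k + a, by omega, by omega, ?_⟩
    unfold cq at hca
    rw [if_pos (by omega)] at hca
    exact hca
  have hdom : ∀ v ∈ vs Ev n m, ∃ d ∈ D, c v ≤ c d ∧ (d = v ∨ Tch Ev mL mR v d) := by
    intro v hv
    by_cases hd : v ∈ D
    · exact ⟨v, hd, le_refl _, Or.inl rfl⟩
    · obtain ⟨d, hd1, _, hd2, hd3⟩ := hL.dom v hv hd
      exact ⟨d, hd1, hd3.le, Or.inr hd2⟩
  have huniq : ∀ d ∈ D, ∀ d' ∈ D, n - k - 1 ≤ c d → n - k - 1 ≤ c d' → d = d' := by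
    intro d hd d' hd' h1 h2
    by_contra hne
    have := two_le_sum (c := c) hd hd' hne
    omega
  obtain ⟨b1, hb1, hkb1, hcb1⟩ := hE 0 (by omega)
  obtain ⟨b3, hb3, hkb3, hcb3⟩ := hE Ev.length (le_refl _)
  obtain ⟨d, hd, hcd, hd1⟩ := hdom (1, b1, 0) (mem1 hb1 (by omega) (Or.inl rfl))
  obtain ⟨d', hd', hcd', hd3⟩ := hdom (1, b3, st Ev b3 Ev.length)
    (mem1 hb3 (st_le _ _) (st_cut _ _))
  have hdd : d = d' := huniq d hd d' hd' (by
    have : st Ev b1 0 = 0 := rfl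
    rw [this] at hcb1
    omega) (by omega)
  subst hdd
  have hdlo : lo Ev mL d ≤ 3 := by
    rcases hd1 with rfl | hd1
    · exact (lo1 (Ev := Ev) (mL := mL) b1 0).2.1
    · have h1 := h.fst b1 hkb1 hb1
      have h2 : nxt Ev b1 0 ≤ 1 := by
        by_contra hcon
        push Not at hcon
        rw [not_cut (t := 0) (by omega) hcon hlen] at h1
        simp at h1
      have h3 := (hi1 (Ev := Ev) (mR := mR) b1 0).2.1 (by omega)
      have h4 := hd1.2
      omega
  have hdhi : Ev.length + 3 ≤ hi Ev mR d := by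
    have h0 : st Ev b3 Ev.length = Ev.length :=
      st_eq (le_refl _) (Or.inr (h.lst b3 hkb3 hb3)) (fun r h1 h2 => by omega)
    rcases hd3 with h1 | hd3
    · have := (alive_st (Ev := Ev) (mL := mL) (mR := mR) (l := b3) (le_refl Ev.length)).2
      rw [h1]
      omega
    · have h2 := (lo1 (Ev := Ev) (mL := mL) b3 Ev.length).2.2.1 (by omega)
      have h4 := hd3.1
      rw [h0] at h4
      omega
  obtain ⟨i, hi2, hdi⟩ : ∃ i < 2, d = (0, i, 0) := by
    rcases vs_cases (hL.mem d hd) with ⟨b', hb', rfl⟩ | ⟨l, hl, t, ht, ht2, rfl⟩ |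
      ⟨b', hb', rfl⟩ | rfl | ⟨b', hb', rfl⟩ | ⟨b', hb', rfl⟩ | ⟨b', hb', rfl⟩ | rfl |
      ⟨b', hb', rfl⟩ | ⟨b', hb', rfl⟩
    · exact ⟨b', hb', rfl⟩
    · exfalso
      have h1 := (lo1 (Ev := Ev) (mL := mL) l t).2.2.1
      have h2 := (hi1 (Ev := Ev) (mR := mR) l t).2.2.2.1 hdhi
      have ht0 : t = 0 := by
        by_contra hne
        have := h1 (by omega)
        omega
      subst ht0
      obtain ⟨s, hs0, hs, hc⟩ := h.cut l hl
      rw [not_cut (t := 0) hs0 (by omega) hs] at hc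
      simp at hc
    · simp [hi] at hdhi
    · simp [hi] at hdhi
    · simp [hi] at hdhi
    · simp [hi] at hdhi
    · simp [lo] at hdlo
    · simp [lo] at hdlo
    · simp [lo] at hdlo
    · simp [lo] at hdlo
  -- the color of `d`
  have hdn : n + 1 ≤ c d := by
    obtain ⟨a, ha, hca⟩ := exists_big (n + 1) (fun b => c (cq Ev n 0 b)) (cq_ne h hL (by omega))
    obtain ⟨f, hf, hcf, _⟩ := hdom (cq Ev n 0 a) (cq_mem h (by omega) ha)
    have hfd : f = d := huniq f hf d hd (by omega) (by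
      have : st Ev b1 0 = 0 := rfl
      rw [this] at hcb1
      omega)
    rw [← hfd]
    omega
  -- the sums
  have hdz : ¬ zL d ∧ ¬ zR Ev d := by
    rw [hdi]
    unfold zL zR XL XR
    simp
  have hs1 : ∑ x ∈ D.filter zL, c x + ∑ x ∈ D.filter (fun x => ¬ zL x), c x = ∑ x ∈ D, c x :=
    Finset.sum_filter_add_sum_filter_not D zL c
  have hs2 : ∑ x ∈ (D.filter (fun x => ¬ zL x)).filter (zR Ev), c x +
      ∑ x ∈ (D.filter (fun x => ¬ zL x)).filter (fun x => ¬ zR Ev x), c x =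
      ∑ x ∈ D.filter (fun x => ¬ zL x), c x :=
    Finset.sum_filter_add_sum_filter_not (D.filter (fun x => ¬ zL x)) (zR Ev) c
  have hs3 : (D.filter (fun x => ¬ zL x)).filter (zR Ev) = D.filter (zR Ev) := by
    ext x
    rw [Finset.mem_filter, Finset.mem_filter, Finset.mem_filter]
    constructor
    · rintro ⟨⟨h1, _⟩, h2⟩
      exact ⟨h1, h2⟩
    · rintro ⟨h1, h2⟩
      exact ⟨⟨h1, fun h3 => zLR h (hL.mem x h1) h3 h2⟩, h2⟩
  rw [hs3] at hs2
  set rest := (D.filter (fun x => ¬ zL x)).filter (fun x => ¬ zR Ev x) with hrest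
  have hmr : ∀ x ∈ D, ¬ zL x → ¬ zR Ev x → x ∈ rest := by
    intro x h1 h2 h3
    rw [hrest, Finset.mem_filter, Finset.mem_filter]
    exact ⟨⟨h1, h2⟩, h3⟩
  have hdr := hmr d hd hdz.1 hdz.2
  have hsd : c d ≤ ∑ x ∈ rest, c x := Finset.single_le_sum (fun _ _ => Nat.zero_le _) hdr
  have hSL : m + 1 + 1 ≤ ∑ x ∈ D.filter zL, c x := by
    by_contra hcon
    push Not at hcon
    have := (left_end h hL (by omega)).1
    omega
  have hSR : m + 1 + 1 ≤ ∑ x ∈ D.filter (zR Ev), c x := by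
    by_contra hcon
    push Not at hcon
    have := (right_end h hL (by omega)).1
    omega
  obtain ⟨_, l1, l2, l3⟩ := left_end h hL (by omega)
  obtain ⟨_, r1, r2, r3⟩ := right_end h hL (by omega)
  have hcdn : c d = n + 1 := by omega
  have hDc : ∀ e ∈ D, e ≠ d → c e ≤ m + 1 := by
    intro e he hne
    by_cases h1 : zL e
    · exact l3 e he h1
    · by_cases h2 : zR Ev e
      · exact r3 e he h2
      · have h3 := two_le_sum (c := c) hdr (hmr e he h1 h2) hne.symm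
        have h4 := hL.pos e he
        omega
  have hall : ∀ v ∈ vs Ev n m, v ≠ d → c v ≤ n := by
    intro v hv hne
    by_cases hvD : v ∈ D
    · have := hDc v hvD hne
      omega
    · obtain ⟨f, hf, _, _, hlt⟩ := hL.dom v hv hvD
      by_cases hfd : f = d
      · rw [hfd] at hlt
        omega
      · have := hDc f hf hfd
        omega
  -- the cliques without `d`
  have hyv : ((0, 1 - i, 0) : Lab) ∈ vs Ev n m := mem0 (by omega)
  have hyd : ((0, 1 - i, 0) : Lab) ≠ d := by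
    rw [hdi]
    intro he
    simp only [Prod.mk.injEq, true_and, and_true] at he
    omega
  let F : ℕ → ℕ → ℕ := fun s b => if b < n then c (1, b, st Ev b s) else c (0, 1 - i, 0)
  have hFq : ∀ s b, F s b = c (cq Ev n s (if b < n then b else n + (1 - i))) := by
    intro s b
    simp only [F, cq]
    split_ifs with h1 h2
    · rfl
    · omega
    · congr 3
      omega
  have hFi : ∀ s ≤ Ev.length, ∀ a ≤ n, ∀ b ≤ n, F s a = F s b → a = b := by
    intro s hs a ha b hb hab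
    rw [hFq, hFq] at hab
    have := cq_ne h hL hs _ (by split_ifs <;> omega) _ (by split_ifs <;> omega) hab
    split_ifs at this <;> omega
  have hFn : ∀ s ≤ Ev.length, ∀ a ≤ n, F s a ≤ n := by
    intro s hs a ha
    simp only [F]
    split_ifs with h1
    · refine hall _ (mem1 h1 ((st_le _ _).trans hs) (st_cut _ _)) ?_
      rw [hdi]
      simp
    · exact hall _ hyv hyd
  have hFl : ∀ s, ∀ b < n, F s b = c (1, b, st Ev b s) := by
    intro s b hb
    simp only [F]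
    rw [if_pos hb]
  have hFy : ∀ s, F s n = c (0, 1 - i, 0) := by
    intro s
    simp only [F]
    rw [if_neg (by omega)]
  have hlow : ∀ s ≤ Ev.length, (∀ b < n, b ≠ 0 → 2 ≤ F s b) → F s 0 ≤ 1 ∧ F s n ≤ 1 := by
    intro s hs h2
    obtain ⟨a0, ha0, hf0⟩ := exists_eq n (F s) (hFi s hs) (hFn s hs) (j := 0) (by omega)
    obtain ⟨a1, ha1, hf1⟩ := exists_eq n (F s) (hFi s hs) (hFn s hs) (j := 1) (by omega)
    have e0 : a0 = 0 ∨ a0 = n := by
      by_contra hcon
      push Not at hcon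
      have := h2 a0 (by omega) hcon.1
      omega
    have e1 : a1 = 0 ∨ a1 = n := by
      by_contra hcon
      push Not at hcon
      have := h2 a1 (by omega) hcon.1
      omega
    have e2 : a0 ≠ a1 := by
      rintro rfl
      omega
    rcases e0 with rfl | rfl <;> rcases e1 with rfl | rfl
    · exact absurd rfl e2
    · exact ⟨by omega, by omega⟩
    · exact ⟨by omega, by omega⟩
    · exact absurd rfl e2
  have hL2 : ∀ b < n, b ≠ 0 → 2 ≤ F 0 b := by
    intro b hb hb0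
    rw [hFl 0 b hb]
    exact l1 _ (mem1 hb (Nat.zero_le _) (Or.inl rfl)) ⟨rfl, rfl, hb0⟩
  have hxr : ∀ b < n, b ≠ 0 → XR Ev (1, b, st Ev b Ev.length) := by
    intro b hb hb0
    exact ⟨rfl, lt_nxt (le_refl _) (st_not b _) (st_le _ _), hb0⟩
  have hR2 : ∀ b < n, b ≠ 0 → 2 ≤ F Ev.length b := by
    intro b hb hb0
    rw [hFl _ b hb]
    exact r1 _ (mem1 hb (st_le _ _) (st_cut _ _)) (hxr b hb hb0)
  have hR3 : ∀ b < n, b ≠ 0 → b ∉ mR → m + 2 ≤ F Ev.length b := by
    intro b hb hb0 hbm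
    rw [hFl _ b hb]
    exact r2 _ (mem1 hb (st_le _ _) (st_cut _ _)) ⟨hxr b hb hb0, hbm⟩
  refine ⟨c (0, 1 - i, 0), ?_, F, ?_, ?_, ?_, hL2, ?_, ?_, hR2, hR3, ?_⟩
  · rw [← hFy 0]
    exact (hlow 0 (by omega) hL2).2
  · intro s hs
    refine ⟨fun a ha b hb hab => hFi s hs a (by omega) b (by omega) hab, fun a ha => ?_⟩
    refine ⟨hFn s hs a (by omega), fun he => ?_⟩
    rw [← hFy s] at he
    have := hFi s hs a (by omega) n (by omega) he
    omega
  · intro s hs l hl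
    simp only [F]
    split_ifs with h1
    · have : st Ev l (s + 1) = st Ev l s := by
        simp only [st]
        rw [if_neg hl]
      rw [this]
    · rfl
  · exact (hlow 0 (by omega) hL2).1
  · intro b hb hb0 hbm
    rw [hFl 0 b hb]
    exact l2 _ (mem1 hb (Nat.zero_le _) (Or.inl rfl)) ⟨⟨rfl, rfl, hb0⟩, hbm⟩
  · exact (hlow _ (le_refl _) hR2).1
  · intro l0 hl0
    by_contra hcon
    push Not at hcon
    obtain ⟨hp, hlk⟩ := h.mRk l0 hl0
    let A : Finset ℕ := insert 0 mR.toFinset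
    have hA : A.card = m + 1 := by
      rw [Finset.card_insert_of_notMem, List.toFinset_card_of_nodup h.mRn, h.mRl]
      rw [List.mem_toFinset]
      intro h0
      have := (h.mRk 0 h0).1
      omega
    have hAs : A ⊆ Finset.range n := by
      intro x hx
      rw [Finset.mem_insert, List.mem_toFinset] at hx
      rw [Finset.mem_range]
      rcases hx with rfl | hx
      · omega
      · have := (h.mRk x hx).2
        omega
    let H : Finset ℕ := insert l0 (Finset.range n \ A)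
    have hH : H.card = n - (m + 1) + 1 := by
      rw [Finset.card_insert_of_notMem, Finset.card_sdiff_of_subset hAs, hA, Finset.card_range]
      rw [Finset.mem_sdiff, not_and_not_right]
      intro _
      exact Finset.mem_insert_of_mem (List.mem_toFinset.2 hl0)
    have hmap : ∀ x ∈ H, x < n ∧ m + 2 ≤ F Ev.length x := by
      intro x hx
      rw [Finset.mem_insert, Finset.mem_sdiff, Finset.mem_range, Finset.mem_insert,
        List.mem_toFinset] at hx
      rcases hx with rfl | ⟨h1, h2⟩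
      · exact ⟨by omega, by omega⟩
      · push Not at h2
        exact ⟨h1, hR3 x h1 h2.1 h2.2⟩
    have hle : H.card ≤ (Finset.Icc (m + 2) n).card := by
      refine Finset.card_le_card_of_injOn (F Ev.length) ?_ ?_
      · intro x hx
        have h1 := hmap x hx
        rw [Finset.coe_Icc, Set.mem_Icc]
        exact ⟨h1.2, hFn _ (le_refl _) x (by omega)⟩
      · intro x hx y hy hxy
        have h1 := hmap x hx
        have h2 := hmap y hy
        exact hFi _ (le_refl _) x (by omega) y (by omega) hxy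
    rw [hH, Nat.card_Icc] at hle
    omega

end Pool.Agent.V11229.Uc
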