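import Mathlib

/-!
# Dynamic programming on forests, for truncated costs
-/

namespace Pool.Agent.V11229.Uct

/-- In a finite set of vertices of a forest some vertex has at most one neighbour in the set. -/
theorem exists_leaf {V : Type} [Finite V] {G : SimpleGraph V} (hG : G.IsAcyclic) (A : Set V)
    (hA : A.Nonempty) : ∃ l ∈ A, ∀ u ∈ A, ∀ v ∈ A, G.Adj l u → G.Adj l v → u = v := by
  classical
  have hH : (G.induce A).IsAcyclic := hG.induce A
  have hne : Nonempty A := hA.to_subtype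
  obtain ⟨u, v, p, hp, hmax⟩ := SimpleGraph.Walk.exists_isPath_forall_isPath_length_le_length (G.induce A)
  have key : ∀ w, (G.induce A).Adj u w → w = p.snd := by
    intro w hadj
    apply hH.eq_snd_of_adj_start hp hadj
    by_contra hw
    have h1 : (p.cons hadj.symm).IsPath := by
      rw [SimpleGraph.Walk.cons_isPath_iff]
      exact ⟨hp, hw⟩
    have := hmax _ _ _ h1
    rw [SimpleGraph.Walk.length_cons] at this
    omega
  refine ⟨u.1, u.2, fun a ha b hb hua hub => ?_⟩
  have h1 := key ⟨a, ha⟩ hua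
  have h2 := key ⟨b, hb⟩ hub
  exact congrArg Subtype.val (h1.trans h2.symm)

/-- the minimum of a list -/
def minL (l : List ℕ) : ℕ := (l.filter (fun x => l.all (fun y => decide (x ≤ y)))).getD 0 0

theorem minL_spec {l : List ℕ} (hl : l ≠ []) : minL l ∈ l ∧ ∀ y ∈ l, minL l ≤ y := by
  have h0 : ∃ x ∈ l, ∀ y ∈ l, x ≤ y := by
    obtain ⟨x, hx, hx2⟩ := Finset.exists_min_image l.toFinset id
      (by rwa [List.toFinset_nonempty_iff])
    exact ⟨x, List.mem_toFinset.1 hx, fun y hy => hx2 y (List.mem_toFinset.2 hy)⟩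
  obtain ⟨x, hx, hx2⟩ := h0
  have hm : ∀ z, z ∈ l.filter (fun x => l.all (fun y => decide (x ≤ y))) ↔
      z ∈ l ∧ ∀ y ∈ l, z ≤ y := by
    intro z
    rw [List.mem_filter, List.all_eq_true]
    simp only [decide_eq_true_eq]
  unfold minL
  generalize l.filter (fun x => l.all (fun y => decide (x ≤ y))) = L at hm
  rcases L with _ | ⟨a, L⟩
  · exact absurd ((hm x).2 ⟨hx, hx2⟩) (by simp)
  · exact (hm a).1 (by simp)

/-- the penalty at a vertex with state `s` from its neighbour `v` with state `t` -/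
def fpen (B n : ℕ) (s t : ℕ × ℕ) (v : ℕ) : ℕ :=
  (if s.1 = t.1 then B else 0) + (if (decide (s.2 = v) && !(decide (t.2 = n) && decide (s.1 < t.1))) = true
    then B else 0)

/-- the penalty of an edge -/
def pen2 (B n u : ℕ) (s : ℕ × ℕ) (v : ℕ) (t : ℕ × ℕ) : ℕ := fpen B n s t v + fpen B n t s u

/-- the total cost -/
def Tot (B n : ℕ) (ent : ℕ → ℕ → Bool) (A : Finset ℕ) (g : ℕ → ℕ × ℕ → ℕ) (σ : ℕ → ℕ × ℕ) : ℕ :=
  ∑ v ∈ A, g v (σ v) +
    ∑ u ∈ A, ∑ v ∈ A, (if ent u v = true then fpen B n (σ u) (σ v) v else 0)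

/-- `x` is the optimum -/
def Opt (B n : ℕ) (ent : ℕ → ℕ → Bool) (Q : List (ℕ × ℕ)) (A : Finset ℕ) (g : ℕ → ℕ × ℕ → ℕ)
    (acc x : ℕ) : Prop :=
  (∃ σ : ℕ → ℕ × ℕ, (∀ v, σ v ∈ Q) ∧ min B (acc + Tot B n ent A g σ) = x) ∧
    ∀ σ : ℕ → ℕ × ℕ, (∀ v, σ v ∈ Q) → x ≤ min B (acc + Tot B n ent A g σ)

variable {B n : ℕ} {ent : ℕ → ℕ → Bool} {Q : List (ℕ × ℕ)} {A : Finset ℕ} {g : ℕ → ℕ × ℕ → ℕ}

theorem tot_erase {l : ℕ} (hl : l ∈ A) (hirr : ∀ u, ent u u = false) (σ : ℕ → ℕ × ℕ) :
    Tot B n ent A g σ = Tot B n ent (A.erase l) g σ + (g l (σ l) +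
      ∑ v ∈ A.erase l, ((if ent l v = true then fpen B n (σ l) (σ v) v else 0) +
        (if ent v l = true then fpen B n (σ v) (σ l) l else 0))) := by
  unfold Tot
  have h1 := Finset.add_sum_erase A (fun v => g v (σ v)) hl
  have h2 := Finset.add_sum_erase A (fun u => ∑ v ∈ A,
    (if ent u v = true then fpen B n (σ u) (σ v) v else 0)) hl
  have h3 := fun u => Finset.add_sum_erase A
    (fun v => if ent u v = true then fpen B n (σ u) (σ v) v else 0) hl
  rw [← h1, ← h2, ← h3 l, Finset.sum_congr rfl (fun u _ => (h3 u).symm), Finset.sum_add_distrib,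
    Finset.sum_add_distrib, hirr]
  simp only [Bool.false_eq_true, if_false]
  ring

theorem tot_congr {g' : ℕ → ℕ × ℕ → ℕ} {σ σ' : ℕ → ℕ × ℕ} (h : ∀ v ∈ A, σ v = σ' v)
    (hg : ∀ v ∈ A, g v (σ v) = g' v (σ v)) : Tot B n ent A g σ = Tot B n ent A g' σ' := by
  unfold Tot
  congr 1
  · exact Finset.sum_congr rfl fun v hv => by rw [hg v hv, h v hv]
  · exact Finset.sum_congr rfl fun u hu => Finset.sum_congr rfl fun v hv => by rw [h u hu, h v hv]

theorem opt_isolated {l acc x : ℕ} (hl : l ∈ A) (hQ : Q ≠ []) (hirr : ∀ u, ent u u = false)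
    (hsym : ∀ u v, ent u v = ent v u) (hn : ∀ v ∈ A, ent l v = false)
    (h : Opt B n ent Q A g acc x) :
    Opt B n ent Q (A.erase l) g (min B (acc + minL (Q.map (g l)))) x := by
  classical
  have hm := minL_spec (l := Q.map (g l)) (by simpa using hQ)
  have hT : ∀ σ, Tot B n ent A g σ = Tot B n ent (A.erase l) g σ + g l (σ l) := by
    intro σ
    rw [tot_erase hl hirr]
    have : ∑ v ∈ A.erase l, ((if ent l v = true then fpen B n (σ l) (σ v) v else 0) +
        (if ent v l = true then fpen B n (σ v) (σ l) l else 0)) = 0 := by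
      apply Finset.sum_eq_zero
      intro v hv
      have h1 := hn v (Finset.mem_of_mem_erase hv)
      rw [hsym v l, h1]
      simp
    omega
  have hall : ∀ σ : ℕ → ℕ × ℕ, (∀ v, σ v ∈ Q) →
      x ≤ min B (min B (acc + minL (Q.map (g l))) + Tot B n ent (A.erase l) g σ) := by
    intro σ hσ
    obtain ⟨t, ht, hte⟩ := List.mem_map.1 hm.1
    have h1 := h.2 (Function.update σ l t) (fun v => by
      by_cases hv : v = l
      · rw [hv, Function.update_self]; exact ht
      · rw [Function.update_of_ne hv]; exact hσ v)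
    rw [hT, Function.update_self] at h1
    have h2 : Tot B n ent (A.erase l) g (Function.update σ l t) =
        Tot B n ent (A.erase l) g σ := by
      refine tot_congr (fun v hv => ?_) (fun v hv => ?_)
      · rw [Function.update_of_ne (Finset.ne_of_mem_erase hv)]
      · rfl
    rw [h2] at h1
    omega
  refine ⟨?_, hall⟩
  obtain ⟨σ, hσ, hx⟩ := h.1
  refine ⟨σ, hσ, le_antisymm ?_ (hall σ hσ)⟩
  rw [hT] at hx
  have := hm.2 (g l (σ l)) (List.mem_map.2 ⟨_, hσ l, rfl⟩)
  omega

theorem opt_leaf {l p acc x : ℕ} (hl : l ∈ A) (hp : p ∈ A) (hQ : Q ≠ [])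
    (hirr : ∀ u, ent u u = false) (hsym : ∀ u v, ent u v = ent v u) (hlp : ent l p = true)
    (hn : ∀ v ∈ A, ent l v = true → v = p) {g' : ℕ → ℕ × ℕ → ℕ}
    (hg' : ∀ v ∈ A, v ≠ p → g' v = g v)
    (hgp : ∀ s ∈ Q, g' p s = min B (g p s + minL (Q.map (fun t => g l t + pen2 B n p s l t))))
    (h : Opt B n ent Q A g acc x) : Opt B n ent Q (A.erase l) g' acc x := by
  classical
  have hpl : p ≠ l := by
    rintro rfl
    rw [hirr] at hlp
    simp at hlp
  have hpe : p ∈ A.erase l := Finset.mem_erase.2 ⟨hpl, hp⟩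
  have hT : ∀ σ, Tot B n ent A g σ = Tot B n ent (A.erase l) g σ +
      (g l (σ l) + pen2 B n p (σ p) l (σ l)) := by
    intro σ
    rw [tot_erase hl hirr]
    congr 2
    rw [Finset.sum_eq_single_of_mem p hpe]
    · rw [hsym p l, hlp]
      unfold pen2
      simp only [if_true]
      ring
    · intro v hv hvp
      have h1 : ent l v = false := by
        by_contra hcon
        exact hvp (hn v (Finset.mem_of_mem_erase hv) (by simpa using hcon))
      rw [hsym v l, h1]
      simp
  have hT' : ∀ σ, Tot B n ent (A.erase l) g' σ + g p (σ p) =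
      Tot B n ent (A.erase l) g σ + g' p (σ p) := by
    intro σ
    unfold Tot
    have e1 := Finset.add_sum_erase (A.erase l) (fun v => g v (σ v)) hpe
    have e2 := Finset.add_sum_erase (A.erase l) (fun v => g' v (σ v)) hpe
    have e3 : ∑ v ∈ (A.erase l).erase p, g' v (σ v) = ∑ v ∈ (A.erase l).erase p, g v (σ v) := by
      refine Finset.sum_congr rfl fun v hv => ?_
      rw [hg' v (Finset.mem_of_mem_erase (Finset.mem_of_mem_erase hv)) (Finset.ne_of_mem_erase hv)]
    rw [← e1, ← e2, e3]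
    ring
  have hT2 : ∀ σ, g p (σ p) ≤ Tot B n ent (A.erase l) g σ := by
    intro σ
    unfold Tot
    have := Finset.single_le_sum (f := fun v => g v (σ v)) (fun _ _ => Nat.zero_le _) hpe
    omega
  have hall : ∀ σ : ℕ → ℕ × ℕ, (∀ v, σ v ∈ Q) →
      x ≤ min B (acc + Tot B n ent (A.erase l) g' σ) := by
    intro σ hσ
    have hm := minL_spec (l := Q.map (fun t => g l t + pen2 B n p (σ p) l t)) (by simpa using hQ)
    obtain ⟨t, ht, hte⟩ := List.mem_map.1 hm.1
    have h1 := h.2 (Function.update σ l t) (fun v => by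
      by_cases hv : v = l
      · rw [hv, Function.update_self]; exact ht
      · rw [Function.update_of_ne hv]; exact hσ v)
    rw [hT, Function.update_self, Function.update_of_ne hpl] at h1
    have h2 : Tot B n ent (A.erase l) g (Function.update σ l t) =
        Tot B n ent (A.erase l) g σ := by
      refine tot_congr (fun v hv => ?_) (fun v hv => ?_)
      · rw [Function.update_of_ne (Finset.ne_of_mem_erase hv)]
      · rfl
    rw [h2] at h1
    have h3 := hT' σ
    have h4 := hgp (σ p) (hσ p)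
    have h5 := hT2 σ
    omega
  refine ⟨?_, hall⟩
  obtain ⟨σ, hσ, hx⟩ := h.1
  refine ⟨σ, hσ, le_antisymm ?_ (hall σ hσ)⟩
  have hm := minL_spec (l := Q.map (fun t => g l t + pen2 B n p (σ p) l t)) (by simpa using hQ)
  have h2 := hm.2 (g l (σ l) + pen2 B n p (σ p) l (σ l)) (List.mem_map.2 ⟨_, hσ l, rfl⟩)
  have h3 := hT' σ
  have h4 := hgp (σ p) (hσ p)
  have h5 := hT2 σ
  rw [hT] at hx
  omega

end Pool.Agent.V11229.Uct
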