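import Pool.Agent.V11229.UcTree
import Pool.Agent.V11229.FG
import Pool.Agent.V11229.XCover

/-!
# The dynamic programming algorithm on forests
-/

namespace Pool.Agent.V11229.Uct

open Pool.Agent.NPC Pool.Agent.V11229

/-- states: vertices left, table, accumulated cost -/
abbrev Sta : Type := List ℕ × (List (List ((ℕ × ℕ) × ℕ)) × ℕ)

/-- the vertex to be removed -/
def leafOf (M : LMat Bool) (al : List ℕ) : ℕ :=
  (al.filter (fun l => decide ((al.filter (fun u => M.ent false l u)).length ≤ 1))).getD 0 0

/-- the new row of the table -/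
def newRow (M : LMat Bool) (B : ℕ) (S : Sta) (l v : ℕ) : List ((ℕ × ℕ) × ℕ) :=
  if (M.ent false l v && decide (v ∈ S.1)) = true then
    (S.2.1.getD v []).map (fun e => (e.1, min B (e.2 + minL ((S.2.1.getD l []).map
      (fun g => g.2 + pen2 B M.n v e.1 l g.1)))))
  else S.2.1.getD v []

/-- one step -/
def step (M : LMat Bool) (B : ℕ) (S : Sta) : Sta :=
  (S.1.filter (fun u => !decide (u = leafOf M S.1)),
    ((List.range M.n).map (fun v => newRow M B S (leafOf M S.1) v),
      if (S.1.filter (fun u => M.ent false (leafOf M S.1) u)).length = 0 then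
        min B (S.2.2 + minL ((S.2.1.getD (leafOf M S.1) []).map (fun g => g.2))) else S.2.2))

/-- the bound -/
def BB (n : ℕ) : ℕ := n * (n + 1) + 1

/-- the states of a vertex: color and dominator, `n` for members of the dominating set -/
def Qs (n : ℕ) : List (ℕ × ℕ) := List.range (n * (n + 1) + 1) ×ˢ List.range (n + 1)

/-- the initial costs -/
def cst (M : LMat Bool) (v : ℕ) (s : ℕ × ℕ) : ℕ :=
  if s.2 = M.n then (if s.1 = 0 then BB M.n else min (BB M.n) s.1)
  else (if M.ent false v s.2 = true then 0 else BB M.n)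

/-- the initial state -/
def ini (M : LMat Bool) : Sta :=
  (List.range M.n, ((List.range M.n).map (fun v => (Qs M.n).map (fun s => (s, cst M v s))), 0))

/-- the algorithm -/
def alg (M : LMat Bool) : ℕ :=
  min (BB M.n) ((step M (BB M.n))^[(List.range M.n).length] (ini M)).2.2

theorem getD_range {β : Type} (n : ℕ) (f : ℕ → β) (d : β) {v : ℕ} (hv : v < n) :
    ((List.range n).map f).getD v d = f v := by
  rw [List.getD_eq_getElem _ _ (by simpa using hv)]
  simp

theorem Qs_ne (n : ℕ) : Qs n ≠ [] := by
  intro h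
  have : ((0, 0) : ℕ × ℕ) ∈ Qs n := by
    unfold Qs
    rw [List.mem_product, List.mem_range, List.mem_range]
    omega
  rw [h] at this
  simp at this

/-- representation of the abstract data -/
structure Rep (X : FG) (S : Sta) (A : Finset ℕ) (g : ℕ → ℕ × ℕ → ℕ) : Prop where
  nd : S.1.Nodup
  al : S.1.toFinset = A
  le : ∀ v ∈ A, v < X.n
  row : ∀ v < X.n, S.2.1.getD v [] = (Qs X.n).map (fun s => (s, g v s))

theorem ent_out (M : LMat Bool) (u v : ℕ) (h : ¬ u < M.n ∨ ¬ v < M.n) :
    M.ent false u v = false := by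
  unfold LMat.ent LMat.rows
  by_cases hu : u < M.n
  · have hv : ¬ v < M.n := by tauto
    simp [List.getD_eq_getElem?_getD, hu, hv]
  · simp [List.getD_eq_getElem?_getD, hu]

theorem ent_irr (X : FG) (u : ℕ) : X.mat.ent false u u = false := by
  by_cases hu : u < X.n
  · have := X.ent_iff ⟨u, hu⟩ ⟨u, hu⟩
    by_contra hcon
    have h2 := this.1 (by simpa using hcon)
    exact h2.ne rfl
  · exact ent_out _ _ _ (Or.inl hu)

theorem ent_symm (X : FG) (u v : ℕ) : X.mat.ent false u v = X.mat.ent false v u := by
  by_cases hu : u < X.n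
  · by_cases hv : v < X.n
    · have h1 := X.ent_iff ⟨u, hu⟩ ⟨v, hv⟩
      have h2 := X.ent_iff ⟨v, hv⟩ ⟨u, hu⟩
      rw [X.G.adj_comm] at h2
      rw [Bool.eq_iff_iff]
      exact h1.trans h2.symm
    · rw [ent_out _ _ _ (Or.inr hv), ent_out _ _ _ (Or.inl hv)]
  · rw [ent_out _ _ _ (Or.inl hu), ent_out _ _ _ (Or.inr hu)]

theorem step_spec {X : FG} (hX : X.G.IsAcyclic) {S : Sta} {A : Finset ℕ} {g : ℕ → ℕ × ℕ → ℕ}
    {x : ℕ} (hR : Rep X S A g) (hA : A.Nonempty)
    (hO : Opt (BB X.n) X.n (fun u v => X.mat.ent false u v) (Qs X.n) A g S.2.2 x) :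
    ∃ A' g', Rep X (step X.mat (BB X.n) S) A' g' ∧ A'.card + 1 = A.card ∧
      Opt (BB X.n) X.n (fun u v => X.mat.ent false u v) (Qs X.n) A' g'
        (step X.mat (BB X.n) S).2.2 x := by
  classical
  have hmem : ∀ v, v ∈ S.1 ↔ v ∈ A := fun v => by rw [← hR.al, List.mem_toFinset]
  -- the leaf
  obtain ⟨hl, hlen⟩ : leafOf X.mat S.1 ∈ S.1 ∧
      (S.1.filter (fun u => X.mat.ent false (leafOf X.mat S.1) u)).length ≤ 1 := by
    obtain ⟨l0, hl0, hu0⟩ := exists_leaf hX {v : Fin X.n | (v : ℕ) ∈ A} (by
      obtain ⟨v, hv⟩ := hA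
      exact ⟨⟨v, hR.le v hv⟩, hv⟩)
    have h1 : (l0 : ℕ) ∈ S.1.filter (fun l => decide ((S.1.filter
        (fun u => X.mat.ent false l u)).length ≤ 1)) := by
      rw [List.mem_filter]
      refine ⟨(hmem _).2 hl0, ?_⟩
      rw [decide_eq_true_eq]
      by_contra hcon
      push Not at hcon
      obtain ⟨a, b, L, hab⟩ : ∃ a b L, S.1.filter (fun u => X.mat.ent false l0 u) =
          a :: b :: L := by
        rcases hL : S.1.filter (fun u => X.mat.ent false l0 u) with _ | ⟨a, _ | ⟨b, L⟩⟩
        · rw [hL] at hcon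
          simp at hcon
        · rw [hL] at hcon
          simp at hcon
        · exact ⟨a, b, L, rfl⟩
      have hnd : (S.1.filter (fun u => X.mat.ent false l0 u)).Nodup := hR.nd.filter _
      have ha : a ∈ S.1.filter (fun u => X.mat.ent false l0 u) := by rw [hab]; simp
      have hb : b ∈ S.1.filter (fun u => X.mat.ent false l0 u) := by rw [hab]; simp
      rw [hab] at hnd
      rw [List.mem_filter] at ha hb
      have ha1 := (hmem a).1 ha.1
      have hb1 := (hmem b).1 hb.1
      have h2 := hu0 ⟨a, hR.le a ha1⟩ ha1 ⟨b, hR.le b hb1⟩ hb1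
        ((X.ent_iff l0 ⟨a, hR.le a ha1⟩).1 ha.2) ((X.ent_iff l0 ⟨b, hR.le b hb1⟩).1 hb.2)
      have h3 : a = b := congrArg Fin.val h2
      rw [h3] at hnd
      simp at hnd
    have h4 : leafOf X.mat S.1 ∈ S.1.filter (fun l => decide ((S.1.filter
        (fun u => X.mat.ent false l u)).length ≤ 1)) := by
      unfold leafOf
      rw [List.getD_eq_getElem _ _ (List.length_pos_of_mem h1)]
      exact List.getElem_mem _
    rw [List.mem_filter, decide_eq_true_eq] at h4
    exact h4
  set l := leafOf X.mat S.1 with hldef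
  have hlA : l ∈ A := (hmem l).1 hl
  have hln := hR.le l hlA
  have hcard : (A.erase l).card + 1 = A.card := Finset.card_erase_add_one hlA
  have hal : (S.1.filter (fun u => !decide (u = l))).toFinset = A.erase l := by
    ext v
    rw [List.mem_toFinset, List.mem_filter, Finset.mem_erase, hmem]
    simp only [Bool.not_eq_true', decide_eq_false_iff_not]
    tauto
  rcases hL : S.1.filter (fun u => X.mat.ent false l u) with _ | ⟨p, _ | ⟨b, L⟩⟩
  · -- no neighbour
    have hno : ∀ v ∈ A, X.mat.ent false l v = false := by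
      intro v hv
      by_contra hcon
      have : v ∈ S.1.filter (fun u => X.mat.ent false l u) :=
        List.mem_filter.2 ⟨(hmem v).2 hv, by simpa using hcon⟩
      rw [hL] at this
      simp at this
    refine ⟨A.erase l, g, ⟨hR.nd.filter _, hal, fun v hv => hR.le v (Finset.mem_of_mem_erase hv),
      ?_⟩, hcard, ?_⟩
    · intro v hv
      simp only [step, FG.mat_n]
      rw [getD_range _ _ _ hv, ← hldef]
      unfold newRow
      rw [if_neg]
      · exact hR.row v hv
      · intro h
        rw [Bool.and_eq_true, decide_eq_true_eq] at h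
        rw [hno v ((hmem v).1 h.2)] at h
        simp at h
    · have h1 := opt_isolated hlA (Qs_ne _) (ent_irr X) (ent_symm X) hno hO
      have h2 : (step X.mat (BB X.n) S).2.2 = min (BB X.n) (S.2.2 + minL ((Qs X.n).map (g l))) := by
        simp only [step]
        rw [← hldef, hL, hR.row l hln, List.map_map]
        rfl
      rw [h2]
      exact h1
  · -- one neighbour
    have hpm : p ∈ S.1.filter (fun u => X.mat.ent false l u) := by rw [hL]; simp
    rw [List.mem_filter] at hpm
    have hpA := (hmem p).1 hpm.1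
    have huq : ∀ v ∈ A, X.mat.ent false l v = true → v = p := by
      intro v hv he
      have : v ∈ S.1.filter (fun u => X.mat.ent false l u) :=
        List.mem_filter.2 ⟨(hmem v).2 hv, he⟩
      rw [hL] at this
      simpa using this
    let g' : ℕ → ℕ × ℕ → ℕ := fun v s => if v = p then
      min (BB X.n) (g p s + minL ((Qs X.n).map (fun t => g l t + pen2 (BB X.n) X.n p s l t)))
      else g v s
    refine ⟨A.erase l, g', ⟨hR.nd.filter _, hal, fun v hv => hR.le v (Finset.mem_of_mem_erase hv),
      ?_⟩, hcard, ?_⟩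
    · intro v hv
      simp only [step, FG.mat_n]
      rw [getD_range _ _ _ hv, ← hldef]
      unfold newRow
      by_cases hvp : v = p
      · subst hvp
        rw [if_pos (by simp [hpm.1, hpm.2]), hR.row v hv, hR.row l hln, List.map_map]
        apply List.map_congr_left
        intro s _
        simp only [g', Function.comp, if_true, List.map_map, FG.mat_n]
        rfl
      · rw [if_neg]
        · rw [hR.row v hv]
          apply List.map_congr_left
          intro s _
          simp only [g', if_neg hvp]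
        · intro h
          rw [Bool.and_eq_true, decide_eq_true_eq] at h
          exact hvp (huq v ((hmem v).1 h.2) h.1)
    · have h2 : (step X.mat (BB X.n) S).2.2 = S.2.2 := by
        simp only [step]
        rw [← hldef, hL]
        simp
      rw [h2]
      refine opt_leaf hlA hpA (Qs_ne _) (ent_irr X) (ent_symm X) hpm.2 huq ?_ ?_ hO
      · intro v _ hvp
        funext s
        simp only [g', if_neg hvp]
      · intro s _
        simp only [g', if_true]
  · rw [hL] at hlen
    simp at hlen

theorem iter_spec {X : FG} (hX : X.G.IsAcyclic) {x : ℕ}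
    (hO : Opt (BB X.n) X.n (fun u v => X.mat.ent false u v) (Qs X.n) (Finset.range X.n)
      (cst X.mat) 0 x) (k : ℕ) (hk : k ≤ X.n) :
    ∃ A g, Rep X ((step X.mat (BB X.n))^[k] (ini X.mat)) A g ∧ A.card + k = X.n ∧
      Opt (BB X.n) X.n (fun u v => X.mat.ent false u v) (Qs X.n) A g
        ((step X.mat (BB X.n))^[k] (ini X.mat)).2.2 x := by
  induction k with
  | zero =>
    refine ⟨Finset.range X.n, cst X.mat, ⟨List.nodup_range, ?_, ?_, ?_⟩, by simp, hO⟩
    · ext v
      simp [ini]
    · intro v hv
      exact Finset.mem_range.1 hv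
    · intro v hv
      simp only [Function.iterate_zero, id, ini, FG.mat_n]
      rw [getD_range _ _ _ hv]
  | succ k ih =>
    obtain ⟨A, g, hR, hc, hO'⟩ := ih (by omega)
    have hA : A.Nonempty := by
      rw [← Finset.card_pos]
      omega
    obtain ⟨A', g', hR', hc', hO''⟩ := step_spec hX hR hA hO'
    rw [Function.iterate_succ_apply']
    exact ⟨A', g', hR', by omega, hO''⟩

theorem alg_spec {X : FG} (hX : X.G.IsAcyclic) {x : ℕ}
    (hO : Opt (BB X.n) X.n (fun u v => X.mat.ent false u v) (Qs X.n) (Finset.range X.n)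
      (cst X.mat) 0 x) : alg X.mat = x := by
  obtain ⟨A, g, hR, hc, hO'⟩ := iter_spec hX hO X.n (le_refl _)
  have hA : A = ∅ := Finset.card_eq_zero.1 (by omega)
  subst hA
  obtain ⟨σ, _, hσ⟩ := hO'.1
  unfold alg
  rw [List.length_range]
  simp only [Tot, Finset.sum_empty, add_zero] at hσ
  exact hσ

end Pool.Agent.V11229.Uct
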