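import Pool.Agent.V11229.UcTreeAlg

/-!
# The algorithm on forests runs in polynomial time
-/

namespace Pool.Agent.V11229.Uct

open Pool.Agent.NPC Pool.Agent.V11229

section
variable {α : Type} [TEnc α]

theorem minL_poly {l : α → List ℕ} (hl : Poly l) : Poly (fun a => minL (l a)) := by
  unfold minL
  fun_prop

theorem leafOf_poly {M : α → LMat Bool} {al : α → List ℕ} (hM : Poly M) (hal : Poly al) :
    Poly (fun a => leafOf (M a) (al a)) := by
  unfold leafOf
  fun_prop

theorem pen2_poly {B n u v : α → ℕ} {s t : α → ℕ × ℕ} (hB : Poly B) (hn : Poly n) (hu : Poly u)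
    (hv : Poly v) (hs : Poly s) (ht : Poly t) :
    Poly (fun a => pen2 (B a) (n a) (u a) (s a) (v a) (t a)) := by
  unfold pen2 fpen
  fun_prop

attribute [local fun_prop] minL_poly leafOf_poly pen2_poly

theorem n_poly {M : α → LMat Bool} (hM : Poly M) : Poly (fun a => (M a).n) := by fun_prop

theorem newRow_poly {M : α → LMat Bool} {B l v : α → ℕ} {S : α → Sta} (hM : Poly M) (hB : Poly B)
    (hl : Poly l) (hv : Poly v) (hS : Poly S) :
    Poly (fun a => newRow (M a) (B a) (S a) (l a) (v a)) := by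
  unfold newRow
  fun_prop

attribute [local fun_prop] newRow_poly

theorem step_poly {M : α → LMat Bool} {B : α → ℕ} {S : α → Sta} (hM : Poly M) (hB : Poly B)
    (hS : Poly S) : Poly (fun a => step (M a) (B a) (S a)) := by
  unfold step
  have h1 : Poly (fun a => List.range (M a).n) := UPoly.range (UPoly.lmat_n hM)
  fun_prop

end

/-- the bound on the size of the states -/
def bf (n : ℕ) : ℕ :=
  n * (4 * n + 2) + 1 + (n * ((n * (n + 1) + 1) * (n + 1) * (8 * (n * (n + 1) + 1) + 4 * n + 6) +
    1 + 1) + 1 + (4 * (n * (n + 1) + 1) + 1) + 1) + 1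

theorem bf_mono {n N : ℕ} (h : n ≤ N) : bf n ≤ bf N := by
  unfold bf
  gcongr

/-- invariant for the size -/
structure Bd (n : ℕ) (S : Sta) : Prop where
  a1 : S.1.length ≤ n
  a2 : ∀ x ∈ S.1, x < n
  a3 : S.2.1.length ≤ n
  a4 : ∀ row ∈ S.2.1, row.length ≤ (n * (n + 1) + 1) * (n + 1) ∧
    ∀ e ∈ row, e.1.1 ≤ n * (n + 1) ∧ e.1.2 ≤ n ∧ e.2 ≤ BB n
  a5 : S.2.2 ≤ BB n

theorem sz_le4 (x : ℕ) : sz x ≤ 4 * x + 1 := by
  have h1 := sz_nat_le x
  have h2 : x.size ≤ x := Nat.size_le.2 Nat.lt_two_pow_self
  omega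

theorem Bd.sz_le {n : ℕ} {S : Sta} (h : Bd n S) : sz S ≤ bf n := by
  obtain ⟨a, t, c⟩ := S
  have h1 : sz a ≤ n * (4 * n + 2) + 1 := by
    refine (sz_le_length_mul a (4 * n + 1) (fun x hx => ?_)).trans ?_
    · have := sz_le4 x
      have := h.a2 x hx
      omega
    · exact Nat.add_le_add_right (Nat.mul_le_mul_right _ h.a1) 1
  have h2 : ∀ row ∈ t, sz row ≤ (n * (n + 1) + 1) * (n + 1) *
      (8 * (n * (n + 1) + 1) + 4 * n + 6) + 1 := by
    intro row hrow
    obtain ⟨b1, b2⟩ := h.a4 row hrow
    refine (sz_le_length_mul row (8 * (n * (n + 1) + 1) + 4 * n + 5) (fun e he => ?_)).trans ?_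
    · obtain ⟨⟨p, q⟩, w⟩ := e
      obtain ⟨c1, c2, c3⟩ := b2 _ he
      simp only at c1 c2 c3
      have e1 := sz_le4 p
      have e2 := sz_le4 q
      have e3 := sz_le4 w
      rw [sz_pair, sz_pair]
      unfold BB at c3
      omega
    · exact Nat.add_le_add_right (Nat.mul_le_mul_right _ b1) 1
  have h3 : sz t ≤ n * ((n * (n + 1) + 1) * (n + 1) *
      (8 * (n * (n + 1) + 1) + 4 * n + 6) + 1 + 1) + 1 := by
    refine (sz_le_length_mul t _ h2).trans ?_
    exact Nat.add_le_add_right (Nat.mul_le_mul_right _ h.a3) 1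
  have h4 : sz c ≤ 4 * (n * (n + 1) + 1) + 1 := by
    have := sz_le4 c
    have h5 := h.a5
    simp only [BB] at h5
    omega
  rw [sz_pair, sz_pair]
  unfold bf
  omega

theorem bd_ini (M : LMat Bool) : Bd M.n (ini M) := by
  refine ⟨by simp [ini], ?_, by simp [ini], ?_, by simp [ini]⟩
  · intro x hx
    simpa [ini] using hx
  · intro row hrow
    simp only [ini, List.mem_map] at hrow
    obtain ⟨v, _, rfl⟩ := hrow
    refine ⟨by
      simp only [Qs, List.length_map]
      rw [List.length_product, List.length_range, List.length_range], ?_⟩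
    intro e he
    obtain ⟨s, hs, rfl⟩ := List.mem_map.1 he
    unfold Qs at hs
    rw [List.mem_product, List.mem_range, List.mem_range] at hs
    refine ⟨by simp only; omega, by simp only; omega, ?_⟩
    simp only [cst]
    split_ifs
    · exact le_refl _
    · exact min_le_left _ _
    · exact Nat.zero_le _
    · exact le_refl _

theorem bd_step {M : LMat Bool} {S : Sta} (h : Bd M.n S) : Bd M.n (step M (BB M.n) S) := by
  have hrow : ∀ v, (S.2.1.getD v []).length ≤ (M.n * (M.n + 1) + 1) * (M.n + 1) ∧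
      ∀ e ∈ S.2.1.getD v [], e.1.1 ≤ M.n * (M.n + 1) ∧ e.1.2 ≤ M.n ∧ e.2 ≤ BB M.n := by
    intro v
    by_cases hv : v < S.2.1.length
    · rw [List.getD_eq_getElem _ _ hv]
      exact h.a4 _ (List.getElem_mem hv)
    · rw [List.getD_eq_default _ _ (by omega)]
      simp
  refine ⟨?_, ?_, by simp [step], ?_, ?_⟩
  · exact (List.length_filter_le _ _).trans h.a1
  · intro x hx
    exact h.a2 x (List.mem_of_mem_filter hx)
  · intro row hr
    simp only [step, List.mem_map] at hr
    obtain ⟨v, _, rfl⟩ := hr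
    unfold newRow
    split_ifs
    · refine ⟨by rw [List.length_map]; exact (hrow v).1, ?_⟩
      intro e he
      obtain ⟨e', he', rfl⟩ := List.mem_map.1 he
      obtain ⟨h1, h2, _⟩ := (hrow v).2 e' he'
      exact ⟨h1, h2, min_le_left _ _⟩
    · exact hrow v
  · simp only [step]
    split_ifs
    · exact min_le_left _ _
    · exact h.a5

theorem BB_poly {α : Type} [TEnc α] {n : α → ℕ} (hn : Poly n) : Poly (fun a => BB (n a)) := by
  unfold BB
  fun_prop

theorem ini_poly : Poly ini := by
  unfold ini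
  have hu : UPoly (fun M : LMat Bool => M.n) := UPoly.lmat_n NPC.Poly.id
  have h1 : Poly (fun M : LMat Bool => List.range M.n) := UPoly.range hu
  have h2 : Poly (fun M : LMat Bool => Qs M.n) := by
    unfold Qs
    have h3 : Poly (fun M : LMat Bool => List.range (M.n * (M.n + 1) + 1)) :=
      UPoly.range (UPoly.add (UPoly.mul hu (UPoly.add hu (UPoly.const 1))) (UPoly.const 1))
    have h4 : Poly (fun M : LMat Bool => List.range (M.n + 1)) :=
      UPoly.range (UPoly.add hu (UPoly.const 1))
    fun_prop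
  have h3 : Poly (fun M : LMat Bool => (List.range M.n).map
      (fun v => (Qs M.n).map (fun s => (s, cst M v s)))) := by
    refine NPC.Poly.map (F := fun (M : LMat Bool) v => (Qs M.n).map (fun s => (s, cst M v s))) h1 ?_
    refine NPC.Poly.map (l := fun p : LMat Bool × ℕ => Qs p.1.n)
      (F := fun (p : LMat Bool × ℕ) s => (s, cst p.1 p.2 s)) ?_ ?_
    · exact h2.comp (NPC.Poly.fst NPC.Poly.id)
    · have h5 : Poly (fun p : (LMat Bool × ℕ) × (ℕ × ℕ) => BB p.1.1.n) := BB_poly (by fun_prop)
      unfold cst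
      fun_prop
  fun_prop

theorem alg_poly : Poly alg := by
  unfold alg
  have hB : Poly (fun M : LMat Bool => BB M.n) := BB_poly (by fun_prop)
  have h1 : Poly (fun M : LMat Bool => (step M (BB M.n))^[(List.range M.n).length] (ini M)) := by
    refine NPC.Poly.iterLen (l := fun M : LMat Bool => List.range M.n) (s := ini)
      (F := fun (M : LMat Bool) S => step M (BB M.n) S) (UPoly.range (UPoly.lmat_n NPC.Poly.id))
      ini_poly ?_
      (Polynomial.X * (4 * Polynomial.X + 2) + 1 + (Polynomial.X * ((Polynomial.X *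
        (Polynomial.X + 1) + 1) * (Polynomial.X + 1) * (8 * (Polynomial.X * (Polynomial.X + 1) + 1)
        + 4 * Polynomial.X + 6) + 1 + 1) + 1 + (4 * (Polynomial.X * (Polynomial.X + 1) + 1) + 1)
        + 1) + 1) ?_
    · exact step_poly (by fun_prop) (BB_poly (by fun_prop)) (by fun_prop)
    · intro M k _
      have hb : Bd M.n ((step M (BB M.n))^[k] (ini M)) := by
        induction k with
        | zero => exact bd_ini M
        | succ k ih =>
          rw [Function.iterate_succ_apply']
          exact bd_step (ih (by omega))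
      refine hb.sz_le.trans ((bf_mono (sz_mat_gt M).le).trans (le_of_eq ?_))
      simp only [bf, Polynomial.eval_add, Polynomial.eval_mul, Polynomial.eval_X,
        Polynomial.eval_ofNat, Polynomial.eval_one]
  fun_prop

end Pool.Agent.V11229.Uct
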