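import Pool.Agent.V11229.Bcast

/-!
# The upper broadcast domination number and the upper broadcast irredundance number are `NP`-hard
-/

namespace Pool.Agent.V11229.UpperParams

open Pool.Agent.NPC Pool.Agent.V11229 Pool.Agent.V11229.Bcast

/-- The decision problem for the upper broadcast irredundance number: the instance is a connected
graph with at least two vertices and a number `k`, the question is whether some irredundant
broadcast has cost at least `k`. -/
def IRb (I : FG × ℕ) : Prop :=
  2 ≤ I.1.n ∧ I.1.G.Connected ∧ ∃ f : Fin I.1.n → ℕ, Irredundant I.1.G f ∧ I.2 ≤ ∑ v, f v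

/-- The decision problem for the upper broadcast domination number: the instance is a connected
graph with at least two vertices and a number `k`, the question is whether some minimal dominating
broadcast has cost at least `k`. -/
def GammaB (I : FG × ℕ) : Prop :=
  2 ≤ I.1.n ∧ I.1.G.Connected ∧ ∃ f : Fin I.1.n → ℕ, MinimalDominating I.1.G f ∧ I.2 ≤ ∑ v, f v

/-- labels -/
abbrev Lab : Type := (ℕ × ℕ) × ℕ

/-- the labels which occur -/
def okB (M : LMat Bool) (x : Lab) : Bool :=
  if x.1.1 = 0 then decide (x.1.2 < M.n) else decide (x.1.2 = 0) && decide (x.2 = 0)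

/-- the vertices -/
def vs (M : LMat Bool) : List Lab :=
  ((List.range 3 ×ˢ List.range (M.n + 1)) ×ˢ List.range (M.n + 3)).filter (okB M)

/-- the edges, in one direction -/
def adB (M : LMat Bool) (x y : Lab) : Bool :=
  decide (x.1.1 = 2) || (decide (x.1.1 = 0) && (decide (y.1.1 = 0) &&
    (!(decide (x.1.2 = y.1.2)) && !(M.ent false x.1.2 y.1.2))))

/-- the labelling -/
def lab {n N : ℕ} (x : Option (Option (Fin n × Fin N))) : Lab := match x with
  | none => ((2, 0), 0)
  | some none => ((1, 0), 0)
  | some (some (v, i)) => ((0, v), i)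

/-- the reduction -/
def red (I : LMat Bool × ℕ) : FG × ℕ := (FG.ofList (vs I.1) (adB I.1), (I.1.n + 3) * I.2)

theorem lab_inj {n N : ℕ} : Function.Injective (lab : Option (Option (Fin n × Fin N)) → Lab) := by
  rintro (_ | _ | ⟨v, i⟩) (_ | _ | ⟨w, j⟩) h
  · rfl
  · simp [lab] at h
  · simp [lab] at h
  · simp [lab] at h
  · rfl
  · simp [lab] at h
  · simp [lab] at h
  · simp [lab] at h
  · simp only [lab, Prod.mk.injEq, true_and] at h
    rw [Fin.ext h.1, Fin.ext h.2]

theorem mem_vs (M : LMat Bool) (z : Lab) :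
    z ∈ vs M ↔ ∃ x : Option (Option (Fin M.n × Fin (M.n + 3))), lab x = z := by
  obtain ⟨⟨a, g⟩, c⟩ := z
  unfold vs
  rw [List.mem_filter, List.mem_product, List.mem_product, List.mem_range, List.mem_range,
    List.mem_range]
  constructor
  · rintro ⟨⟨⟨h1, h2⟩, h3⟩, h4⟩
    unfold okB at h4
    simp only at h1 h2 h3 h4
    split_ifs at h4 with c0
    · rw [decide_eq_true_eq] at h4
      subst c0
      exact ⟨some (some (⟨g, h4⟩, ⟨c, h3⟩)), rfl⟩
    · rw [Bool.and_eq_true, decide_eq_true_eq, decide_eq_true_eq] at h4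
      obtain ⟨rfl, rfl⟩ := h4
      have h5 : a = 1 ∨ a = 2 := by omega
      rcases h5 with rfl | rfl
      · exact ⟨some none, rfl⟩
      · exact ⟨none, rfl⟩
  · rintro ⟨_ | _ | ⟨v, i⟩, hx⟩
    · simp only [lab, Prod.mk.injEq] at hx
      obtain ⟨⟨rfl, rfl⟩, rfl⟩ := hx
      exact ⟨⟨⟨by norm_num, by omega⟩, by omega⟩, by simp [okB]⟩
    · simp only [lab, Prod.mk.injEq] at hx
      obtain ⟨⟨rfl, rfl⟩, rfl⟩ := hx
      exact ⟨⟨⟨by norm_num, by omega⟩, by omega⟩, by simp [okB]⟩
    · simp only [lab, Prod.mk.injEq] at hx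
      obtain ⟨⟨rfl, rfl⟩, rfl⟩ := hx
      have hv := v.isLt
      have hi := i.isLt
      exact ⟨⟨⟨by norm_num, by omega⟩, hi⟩, by simp [okB]⟩

theorem iso (M : LMat Bool) :
    Nonempty ((FG.ofList (vs M) (adB M)).G ≃g BG M.f (M.n + 3)) := by
  refine FG.ofList_iso (vs M) ?_ lab lab_inj (mem_vs M) (adB M) (BG M.f (M.n + 3)) ?_
  · unfold vs
    exact List.Nodup.filter _ (List.Nodup.product (List.Nodup.product List.nodup_range
      List.nodup_range) List.nodup_range)
  · rintro (_ | _ | ⟨v, i⟩) (_ | _ | ⟨w, j⟩)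
    · change False ↔ _
      simp
    · change True ↔ _
      simp [lab, adB]
    · change True ↔ _
      simp [lab, adB]
    · change True ↔ _
      simp [lab, adB]
    · change False ↔ _
      simp
    · change False ↔ _
      simp [lab, adB]
    · change True ↔ _
      simp [lab, adB]
    · change False ↔ _
      simp [lab, adB]
    · change (v ≠ w ∧ (M.f v w = false ∨ M.f w v = false)) ↔ _
      have h1 : M.ent false v w = M.f v w := LMat.ent_fin M false v w
      have h2 : M.ent false w v = M.f w v := LMat.ent_fin M false w v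
      constructor
      · rintro ⟨h3, h4⟩
        refine ⟨?_, ?_⟩
        · intro h5
          simp only [Option.some.injEq, Prod.mk.injEq] at h5
          exact h3 h5.1
        · have h6 : ¬ (v : ℕ) = w := fun h => h3 (Fin.ext h)
          have h7 : ¬ (w : ℕ) = v := fun h => h3 (Fin.ext h.symm)
          rcases h4 with h4 | h4
          · left
            simp [lab, adB, h1, h4, h6]
          · right
            simp [lab, adB, h2, h4, h7]
      · rintro ⟨_, h4⟩
        simp only [lab, adB] at h4
        rcases h4 with h4 | h4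
        · simp only [h1, Bool.or_eq_true, Bool.and_eq_true, decide_eq_true_eq, Bool.not_eq_true',
            decide_eq_false_iff_not] at h4
          rcases h4 with h4 | h4
          · exact absurd h4 (by norm_num)
          · exact ⟨fun h => h4.2.2.1 (congrArg Fin.val h), Or.inl h4.2.2.2⟩
        · simp only [h2, Bool.or_eq_true, Bool.and_eq_true, decide_eq_true_eq, Bool.not_eq_true',
            decide_eq_false_iff_not] at h4
          rcases h4 with h4 | h4
          · exact absurd h4 (by norm_num)
          · exact ⟨fun h => h4.2.2.1 (congrArg Fin.val h.symm), Or.inr h4.2.2.2⟩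

theorem red_poly : Poly red := by
  unfold red
  refine NPC.Poly.pair ?_ ?_
  · refine Poly.FG_ofList (vs := fun I : LMat Bool × ℕ => vs I.1)
      (ad := fun I : LMat Bool × ℕ => adB I.1) ?_ ?_
    · unfold vs
      have u : UPoly (fun I : LMat Bool × ℕ => I.1.n) := UPoly.lmat_n (NPC.Poly.fst NPC.Poly.id)
      have h1 : Poly (fun I : LMat Bool × ℕ => List.range (I.1.n + 1)) :=
        UPoly.range (UPoly.add u (UPoly.const 1))
      have h2 : Poly (fun I : LMat Bool × ℕ => List.range (I.1.n + 3)) :=
        UPoly.range (UPoly.add u (UPoly.const 3))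
      refine NPC.Poly.filter (p := fun I : LMat Bool × ℕ => okB I.1) (by fun_prop) ?_
      unfold okB
      fun_prop
    · unfold adB
      fun_prop
  · fun_prop

theorem uni {X : FG} {n N : ℕ} {a : Fin n → Fin n → Bool} (e : X.G ≃g BG a N) :
    ∀ v, v ≠ e.symm none → X.G.Adj (e.symm none) v := by
  intro v hv
  rw [← e.map_adj_iff]
  simp only [RelIso.apply_symm_apply]
  refine BG_none _ (fun h => hv ?_)
  rw [← h]
  simp

theorem two_le {X : FG} {n N : ℕ} {a : Fin n → Fin n → Bool} (e : X.G ≃g BG a N) : 2 ≤ X.n := by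
  have h1 : Fintype.card (Fin X.n) = Fintype.card (Option (Option (Fin n × Fin N))) :=
    Fintype.card_congr e.toEquiv
  rw [Fintype.card_fin, Fintype.card_option, Fintype.card_option] at h1
  omega

theorem forward {X : FG} {n N k : ℕ} {a : Fin n → Fin n → Bool} (e : X.G ≃g BG a N)
    (hsymm : ∀ u v, a u v = a v u) (hN : 0 < N) (h : HasK a k) :
    ∃ f : Fin X.n → ℕ, MinimalDominating X.G f ∧ N * k ≤ ∑ v, f v := by
  classical
  obtain ⟨S, h1, h2, h3⟩ := set_of_clique hsymm hN h
  have hnt : Nontrivial (Fin X.n) := Fin.nontrivial_iff_two_le.2 (two_le e)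
  obtain ⟨f, hf, hsum⟩ := min_of_set (uni e) (S := S.image e.symm) (by
    intro s hs t ht hst
    obtain ⟨s', hs', rfl⟩ := Finset.mem_image.1 hs
    obtain ⟨t', ht', rfl⟩ := Finset.mem_image.1 ht
    exact h2 s' hs' t' ht' (e.symm.map_adj_iff.1 hst)) (by
    intro x
    rcases h3 (e x) with h4 | ⟨s, hs, h4⟩
    · exact Or.inl (Finset.mem_image.2 ⟨e x, h4, by simp⟩)
    · refine Or.inr ⟨e.symm s, Finset.mem_image.2 ⟨s, hs, rfl⟩, ?_⟩
      rw [← e.map_adj_iff]
      simpa using h4)
  refine ⟨f, hf, ?_⟩
  rw [hsum, Finset.card_image_of_injective _ e.symm.injective]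
  exact h1

theorem backward {X : FG} {n N k : ℕ} {a : Fin n → Fin n → Bool} (e : X.G ≃g BG a N)
    (hN : N = n + 3) (h : ∃ f : Fin X.n → ℕ, Irredundant X.G f ∧ N * k ≤ ∑ v, f v) :
    HasK a k := by
  classical
  obtain ⟨f, hf, hk⟩ := h
  rcases Nat.eq_zero_or_pos k with h0 | h0
  · subst h0
    exact ⟨∅, rfl, fun u hu => absurd hu (Finset.notMem_empty u)⟩
  · have h3 : 3 ≤ ∑ v, f v := by
      have h4 : N * 1 ≤ N * k := Nat.mul_le_mul_left _ h0
      omega
    obtain ⟨S, hS, hS2⟩ := set_of_irr (uni e) hf h3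
    refine clique_of_set hN (S := S.image e) ?_ ?_
    · rw [Finset.card_image_of_injective _ e.injective, hS]
      exact hk
    · intro s hs
      obtain ⟨s', hs', rfl⟩ := Finset.mem_image.1 hs
      obtain ⟨x, hx, hx2⟩ := hS2 s' hs'
      refine ⟨e x, ?_, ?_⟩
      · rcases hx with rfl | hx
        · exact Or.inl rfl
        · exact Or.inr (e.map_adj_iff.2 hx)
      · intro w hw hws
        obtain ⟨w', hw', rfl⟩ := Finset.mem_image.1 hw
        obtain ⟨h4, h5⟩ := hx2 w' hw' (fun h => hws (by rw [h]))
        exact ⟨fun h => h4 (e.injective h), fun h => h5 (e.map_adj_iff.1 h)⟩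

/-- Deciding `IR_b(G) ≥ k` and deciding `Γ_b(G) ≥ k` are `NP`-hard. -/
theorem both : NPHardP IRb ∧ NPHardP GammaB := by
  constructor
  · refine HardI.toNPHardP (HardPr.toHardI (Pr := fun _ => True) ?_)
    refine hardPr_cliqueM.trans red_poly (fun _ _ => trivial) (fun I hI => ?_)
    obtain ⟨e⟩ := iso I.1
    constructor
    · intro h
      obtain ⟨f, hf, hk⟩ := forward (X := (red I).1) e hI.1 (by omega) h
      exact ⟨two_le (X := (red I).1) e, uni_connected (uni (X := (red I).1) e), f,
        irr_of_min hf, hk⟩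
    · rintro ⟨_, _, h⟩
      exact backward (X := (red I).1) e rfl h
  · refine HardI.toNPHardP (HardPr.toHardI (Pr := fun _ => True) ?_)
    refine hardPr_cliqueM.trans red_poly (fun _ _ => trivial) (fun I hI => ?_)
    obtain ⟨e⟩ := iso I.1
    constructor
    · intro h
      obtain ⟨f, hf, hk⟩ := forward (X := (red I).1) e hI.1 (by omega) h
      exact ⟨two_le (X := (red I).1) e, uni_connected (uni (X := (red I).1) e), f, hf, hk⟩
    · rintro ⟨_, _, f, hf, hk⟩
      exact backward (X := (red I).1) e rfl ⟨f, irr_of_min hf, hk⟩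

end Pool.Agent.V11229.UpperParams
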